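import Mathlib

namespace Pool.Agent.Tait

/-- admissible heights on the two sides of a strand of colour `r` -/
def adm (r a b : ℕ) : Prop := a ≤ b + r ∧ b ≤ a + r ∧ r ≤ a + b ∧ (a + b + r) % 2 = 0

instance (r a b : ℕ) : Decidable (adm r a b) := by unfold adm; infer_instance

end Pool.Agent.Tait
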