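import Mathlib

/-!
# Link diagrams in the disk with `g` holes, in Morse position

`S_g` is the closed disk with `g` open disks removed, `M_g = #_g (S¹ × S²)` is the double of the
handlebody `S_g × [-1,1]`.  A link diagram in `S_g` is put in general position with respect to the
height function of the plane (every diagram is planar isotopic to such a one) and is written as a
word of elementary pieces, read from bottom to top; every hole of `S_g` is one of the pieces.

At a generic height (a *level*) the diagram consists of `n` vertical strands, numbered
`0, …, n-1` from left to right, and of `n+1` *gaps* `0, …, n`: gap `j` is on the left of strand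
`j` and on the right of strand `j-1`.
-/

namespace Pool.Agent.Tait

/-- Elementary pieces.  `cup i`: a local minimum, creating the strands `i, i+1` in the gap `i`;
`cap i`: a local maximum joining the strands `i, i+1`;
`pos i`, `neg i`: a crossing of the strands `i, i+1`; in `pos i` the strand going from the lower
left to the upper right passes over, in `neg i` it passes under;
`hole i`: a hole of `S_g` in the gap `i`. -/
inductive Ev
  | cup (i : ℕ) | cap (i : ℕ) | pos (i : ℕ) | neg (i : ℕ) | hole (i : ℕ)
  deriving DecidableEq

namespace Ev

/-- The gap on the left of the piece. -/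
def gap : Ev → ℕ
  | cup i => i | cap i => i | pos i => i | neg i => i | hole i => i

/-- Number of strands entering the piece from below. -/
def inn : Ev → ℕ
  | cup _ => 0 | cap _ => 2 | pos _ => 2 | neg _ => 2 | hole _ => 0

/-- Number of strands leaving the piece above. -/
def out : Ev → ℕ
  | cup _ => 2 | cap _ => 0 | pos _ => 2 | neg _ => 2 | hole _ => 0

/-- The same piece, placed in the gap `j`. -/
def put : Ev → ℕ → Ev
  | cup _, j => cup j | cap _, j => cap j | pos _, j => pos j | neg _, j => neg j
  | hole _, j => hole j

/-- Is the piece a crossing? -/
def isX : Ev → Bool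
  | cup _ => false | cap _ => false | pos _ => true | neg _ => true | hole _ => false

end Ev

/-- `Runs n w m`: the word `w` can be read starting with `n` strands, and ends with `m` strands. -/
def Runs : ℕ → List Ev → ℕ → Prop
  | n, [], m => n = m
  | n, e :: w, m => e.gap + e.inn ≤ n ∧ Runs (n - e.inn + e.out) w m

/-- A link diagram in a disk with holes (the holes are the pieces `hole i` of the word). -/
structure Diagram where
  /-- the word of elementary pieces, from bottom to top -/
  word : List Ev
  /-- it starts and ends without strands -/
  closed : Runs 0 word 0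

/-- The number of crossings. -/
def crossings (w : List Ev) : ℕ := w.countP (fun e => e.isX)

/-- Number of strands at level `l`, i.e. after the first `l` pieces. -/
def lev (w : List Ev) (l : ℕ) : ℕ :=
  (w.take l).foldl (fun n e => n - e.inn + e.out) 0

/-- Two gaps at neighbouring levels which belong to the same region because nothing of the diagram
separates them. -/
inductive GapStep (w : List Ev) : ℕ × ℕ → ℕ × ℕ → Prop
  | left (l j : ℕ) (e : Ev) (he : w[l]? = some e) (hj : j ≤ e.gap) : GapStep w (l, j) (l + 1, j)
  | right (l j : ℕ) (e : Ev) (he : w[l]? = some e) (hj : e.gap + e.inn ≤ j) (hn : j ≤ lev w l) :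
      GapStep w (l, j) (l + 1, j - e.inn + e.out)

/-- Two gaps `(level, number)` lie in the same region (component of the complement of the diagram
in the disk, the holes being filled in). -/
def SameRegion (w : List Ev) : ℕ × ℕ → ℕ × ℕ → Prop := Relation.EqvGen (GapStep w)

/-- Two neighbouring strand points of the same edge (an edge goes from crossing to crossing). -/
inductive StrandStep (w : List Ev) : ℕ × ℕ → ℕ × ℕ → Prop
  | left (l j : ℕ) (e : Ev) (he : w[l]? = some e) (hj : j < e.gap) : StrandStep w (l, j) (l + 1, j)
  | right (l j : ℕ) (e : Ev) (he : w[l]? = some e) (hj : e.gap + e.inn ≤ j) (hn : j < lev w l) :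
      StrandStep w (l, j) (l + 1, j - e.inn + e.out)
  | cup (l i : ℕ) (he : w[l]? = some (Ev.cup i)) : StrandStep w (l + 1, i) (l + 1, i + 1)
  | cap (l i : ℕ) (he : w[l]? = some (Ev.cap i)) : StrandStep w (l, i) (l, i + 1)

/-- Two strand points `(level, number)` lie on the same edge. -/
def SameEdge (w : List Ev) : ℕ × ℕ → ℕ × ℕ → Prop := Relation.EqvGen (StrandStep w)

/-- There is a crossing between level `l` and level `l+1`, of the strands `i`, `i+1`. -/
def IsCrossing (w : List Ev) (l i : ℕ) : Prop :=
  w[l]? = some (Ev.pos i) ∨ w[l]? = some (Ev.neg i)

/-- The four strand points at a crossing. -/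
def leg (l i : ℕ) (top right : Bool) : ℕ × ℕ :=
  (if top then l + 1 else l, if right then i + 1 else i)

/-- Neighbouring points of the underlying 4-valent graph, where the crossing at level `c` (if
`c = some l`) is deleted. -/
def GraphStep (w : List Ev) (c : Option ℕ) (p q : ℕ × ℕ) : Prop :=
  StrandStep w p q ∨
    ∃ l i, some l ≠ c ∧ IsCrossing w l i ∧ ∃ t s t' s', p = leg l i t s ∧ q = leg l i t' s'

/-- `(l, j)` is a strand point of the diagram. -/
def IsStrand (w : List Ev) (p : ℕ × ℕ) : Prop := p.1 ≤ w.length ∧ p.2 < lev w p.1

/-- The projection is connected. -/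
def Connected (w : List Ev) : Prop :=
  ∀ p q, IsStrand w p → IsStrand w q → Relation.EqvGen (GraphStep w none) p q

/-- At the crossing of level `l`, the strand through the given leg passes over. -/
def Over (w : List Ev) (l : ℕ) (top right : Bool) : Prop :=
  (∃ i, w[l]? = some (Ev.pos i) ∧ top = right) ∨ (∃ i, w[l]? = some (Ev.neg i) ∧ top ≠ right)

/-- The diagram is alternating: every edge passes over at one of its ends and under at the other
one. -/
def Alternating (w : List Ev) : Prop :=
  ∀ l i t s l' i' t' s', IsCrossing w l i → IsCrossing w l' i' →
    (l, t, s) ≠ (l', t', s') → SameEdge w (leg l i t s) (leg l' i' t' s') →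
    (Over w l t s ↔ ¬ Over w l' t' s')

/-- The gap `p` lies in an external region: one which meets the boundary of `S_g`, i.e. the outer
region or a region containing a hole. -/
def External (w : List Ev) (p : ℕ × ℕ) : Prop :=
  SameRegion w p (0, 0) ∨ ∃ l i, w[l]? = some (Ev.hole i) ∧ SameRegion w p (l, i)

/-- The four corners of a crossing: left, right, bottom, top. -/
def corners (l i : ℕ) : List (ℕ × ℕ) := [(l, i), (l, i + 2), (l, i + 1), (l + 1, i + 1)]

/-- The diagram is simple:
(i) no embedded disk of `S_g` has boundary meeting the diagram in a single crossing only (the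
boundary passes through two opposite corners of the crossing).  Given (iii), this says: when a
crossing is deleted, every component of what remains of the diagram still touches an external
region;
(ii) no crossing touches two distinct external regions;
(iii) no crossing touches one external region twice. -/
structure Simple (w : List Ev) : Prop where
  noDisk : ∀ l i, IsCrossing w l i → ∀ p, IsStrand w p →
    ∃ q, IsStrand w q ∧ Relation.EqvGen (GraphStep w (some l)) p q ∧
      (External w q ∨ External w (q.1, q.2 + 1))
  noTwo : ∀ l i, IsCrossing w l i → ∀ x ∈ corners l i, ∀ y ∈ corners l i,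
    External w x → External w y → SameRegion w x y
  noTwice : ∀ l i, IsCrossing w l i → ∀ x ∈ corners l i, ∀ y ∈ corners l i, x ≠ y →
    External w x → External w y → ¬ SameRegion w x y

/-- The link is trivial in `H_1(M_g; Z/2)`: it meets the arc which joins a hole horizontally with
the left side of the outer boundary in an even number of points, for every hole. -/
def HomTrivial (w : List Ev) : Prop := ∀ i, Ev.hole i ∈ w → Even i

/-- The strand `1` goes over the next `i` strands to the right and comes back under them. -/
def lasso (i : ℕ) : List Ev :=
  (List.range i).map (fun k => Ev.pos (k + 1)) ++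
    ((List.range i).map (fun k => Ev.pos (k + 1))).reverse

/-- The elementary moves. -/
inductive Elem : List Ev → List Ev → Prop
  /-- planar isotopy: exchange of the heights of two pieces -/
  | swap (e f : Ev) (h : e.gap + e.inn ≤ f.gap) :
      Elem [e, f.put (f.gap - e.inn + e.out)] [f, e]
  /-- planar isotopy: a maximum and a minimum cancel -/
  | zigR (i : ℕ) : Elem [Ev.cup i, Ev.cap (i + 1)] []
  | zigL (i : ℕ) : Elem [Ev.cup (i + 1), Ev.cap i] []
  /-- planar isotopy of a crossing together with Reidemeister 2: a strand slides over (under) a
  minimum or maximum -/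
  | slideCup (i : ℕ) (s : Bool) :
      Elem [Ev.cup (i + 1), if s then Ev.pos i else Ev.neg i,
        if s then Ev.pos (i + 1) else Ev.neg (i + 1)] [Ev.cup i]
  | slideCap (i : ℕ) (s : Bool) :
      Elem [if s then Ev.pos (i + 1) else Ev.neg (i + 1), if s then Ev.pos i else Ev.neg i,
        Ev.cap (i + 1)] [Ev.cap i]
  /-- Reidemeister 1 -/
  | r1cup (i : ℕ) (s : Bool) : Elem [Ev.cup i, if s then Ev.pos i else Ev.neg i] [Ev.cup i]
  | r1cap (i : ℕ) (s : Bool) : Elem [if s then Ev.pos i else Ev.neg i, Ev.cap i] [Ev.cap i]
  /-- Reidemeister 2 -/
  | r2a (i : ℕ) : Elem [Ev.pos i, Ev.neg i] []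
  | r2b (i : ℕ) : Elem [Ev.neg i, Ev.pos i] []
  /-- Reidemeister 3 -/
  | r3 (i : ℕ) : Elem [Ev.pos i, Ev.pos (i + 1), Ev.pos i] [Ev.pos (i + 1), Ev.pos i, Ev.pos (i + 1)]
  /-- slide over the sphere of `M_g` given by the arc from a hole horizontally to the left: the
  maximum of the strands `0, 1` is pulled around all the `i` strands on the left of the hole -/
  | sphere (i : ℕ) : Elem (lasso i ++ [Ev.cap 0, Ev.hole i]) [Ev.cap 0, Ev.hole i]

/-- Two diagrams differ by one elementary move, applied somewhere. -/
inductive Move : List Ev → List Ev → Prop
  | mk (u v x y : List Ev) (h : Elem x y) : Move (u ++ x ++ v) (u ++ y ++ v)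

/-- Two diagrams represent the same link in `M_g`: they are related by planar isotopies,
Reidemeister moves and slides over the spheres of `M_g`, all the intermediate words being
diagrams.  (The holes may be moved around by `Elem.swap` as well, so this relation is a little
coarser than isotopy in `M_g`: it also contains the homeomorphisms of `M_g` which are induced by
braiding the holes of `S_g`.) -/
def Isotopic : Diagram → Diagram → Prop :=
  Relation.EqvGen (fun D D' => Move D.word D'.word)

end Pool.Agent.Tait
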