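import Pool.Agent.Lib.MP_150b40_gt.Defs

/-!
# An example: the hypotheses of the theorem are satisfied

The closure of the two-strand twist with six crossings, one hole in every second bigon
(`g = 2`).
-/

namespace Pool.Agent.Tait

namespace Ex

/-- The word of the example. -/
def w : List Ev :=
  [.cup 0, .cup 2, .pos 1, .pos 1, .hole 2, .pos 1, .pos 1, .hole 2, .pos 1, .pos 1, .cap 2, .cap 0]

theorem runs : Runs 0 w 0 := by
  simp [w, Runs, Ev.gap, Ev.inn, Ev.out]

/-- The diagram of the example. -/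
def D : Diagram := ⟨w, runs⟩

/-! ### The regions -/

/-- Region labels: `0` the outer region, `1`, `2` the regions on the left and on the right of the
twist, `4`, `7` the bigons with a hole, `3`, `6`, `9` the other bigons. -/
def reg : ℕ × ℕ → ℕ
  | (_, 1) => 1
  | (_, 3) => 2
  | (3, 2) => 3
  | (4, 2) => 4
  | (5, 2) => 4
  | (6, 2) => 6
  | (7, 2) => 7
  | (8, 2) => 7
  | (9, 2) => 9
  | _ => 0

/-- Edge labels. -/
def edg : ℕ × ℕ → ℕ
  | (_, 0) => 0
  | (1, 1) => 0
  | (2, 1) => 0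
  | (3, 1) => 2
  | (4, 1) => 4
  | (5, 1) => 4
  | (6, 1) => 6
  | (7, 1) => 8
  | (8, 1) => 8
  | (9, 1) => 10
  | (10, 1) => 0
  | (11, 1) => 0
  | (_, 3) => 1
  | (2, 2) => 1
  | (3, 2) => 3
  | (4, 2) => 5
  | (5, 2) => 5
  | (6, 2) => 7
  | (7, 2) => 9
  | (8, 2) => 9
  | (9, 2) => 11
  | (10, 2) => 1
  | _ => 12

theorem get_lt {l : ℕ} {e : Ev} (h : w[l]? = some e) : l < 12 := by
  by_contra hl
  rw [List.getElem?_eq_none (by simpa [w] using Nat.le_of_not_lt hl)] at h
  exact absurd h (by simp)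

theorem lev_le {l : ℕ} (hl : l < 12) : lev w l ≤ 4 := by
  interval_cases l <;> decide

theorem gap_le {l : ℕ} {e : Ev} (h : w[l]? = some e) : e.gap ≤ 2 := by
  have hl := get_lt h
  interval_cases l <;> (simp [w] at h; subst h; decide)

theorem regStep {p q : ℕ × ℕ} (h : GapStep w p q) : reg p = reg q := by
  rcases h with ⟨l, j, e, he, hj⟩ | ⟨l, j, e, he, hj, hn⟩
  · have hl := get_lt he
    have hj2 : j ≤ 2 := hj.trans (gap_le he)
    interval_cases l <;> (simp [w] at he; subst he) <;> interval_cases j <;>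
      first | rfl | exact absurd hj (by decide)
  · have hl := get_lt he
    have hj4 : j ≤ 4 := hn.trans (lev_le hl)
    interval_cases l <;> (simp [w] at he; subst he) <;> interval_cases j <;>
      first | rfl | exact absurd hj (by decide) | exact absurd hn (by decide)

theorem reg_eq {p q : ℕ × ℕ} (h : SameRegion w p q) : reg p = reg q := by
  induction h with
  | rel _ _ h => exact regStep h
  | refl _ => rfl
  | symm _ _ _ ih => exact ih.symm
  | trans _ _ _ _ _ ih1 ih2 => exact ih1.trans ih2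

theorem edgStep {p q : ℕ × ℕ} (h : StrandStep w p q) : edg p = edg q := by
  rcases h with ⟨l, j, e, he, hj⟩ | ⟨l, j, e, he, hj, hn⟩ | ⟨l, i, he⟩ | ⟨l, i, he⟩
  · have hl := get_lt he
    have hj2 : j < 2 := lt_of_lt_of_le hj (gap_le he)
    interval_cases l <;> (simp [w] at he; subst he) <;> interval_cases j <;>
      first | rfl | exact absurd hj (by decide)
  · have hl := get_lt he
    have hj4 : j < 4 := lt_of_lt_of_le hn (lev_le hl)
    interval_cases l <;> (simp [w] at he; subst he) <;> interval_cases j <;>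
      first | rfl | exact absurd hj (by decide) | exact absurd hn (by decide)
  · have hl := get_lt he
    interval_cases l <;> simp [w] at he <;> subst he <;> rfl
  · have hl := get_lt he
    interval_cases l <;> simp [w] at he <;> subst he <;> rfl

theorem edg_eq {p q : ℕ × ℕ} (h : SameEdge w p q) : edg p = edg q := by
  induction h with
  | rel _ _ h => exact edgStep h
  | refl _ => rfl
  | symm _ _ _ ih => exact ih.symm
  | trans _ _ _ _ _ ih1 ih2 => exact ih1.trans ih2

/-- The crossings. -/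
theorem isCrossing {l i : ℕ} (h : IsCrossing w l i) :
    i = 1 ∧ w[l]? = some (Ev.pos 1) ∧ (l = 2 ∨ l = 3 ∨ l = 5 ∨ l = 6 ∨ l = 8 ∨ l = 9) := by
  rcases h with h | h
  · have hl := get_lt h
    interval_cases l <;> simp [w] at h ⊢ <;> exact h.symm
  · have hl := get_lt h
    interval_cases l <;> simp [w] at h

theorem over_iff {l : ℕ} (h : w[l]? = some (Ev.pos 1)) (t s : Bool) : Over w l t s ↔ t = s := by
  unfold Over
  rw [h]
  constructor
  · rintro (⟨i, h1, h2⟩ | ⟨i, h1, -⟩)
    · exact h2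
    · simp at h1
  · intro h2
    exact Or.inl ⟨1, rfl, h2⟩

theorem alternating : Alternating w := by
  intro l i t s l' i' t' s' h h' hne he
  obtain ⟨rfl, hw, hl⟩ := isCrossing h
  obtain ⟨rfl, hw', hl'⟩ := isCrossing h'
  have hE := edg_eq he
  rw [over_iff hw, over_iff hw']
  clear he h h' hw hw'
  rcases hl with rfl | rfl | rfl | rfl | rfl | rfl <;>
    rcases hl' with rfl | rfl | rfl | rfl | rfl | rfl <;>
      cases t <;> cases s <;> cases t' <;> cases s' <;>
        first
        | exact absurd rfl hne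
        | exact absurd hE (by decide)
        | decide

/-! ### External regions -/

theorem ext_reg {p : ℕ × ℕ} (h : External w p) : reg p = 0 ∨ reg p = 4 ∨ reg p = 7 := by
  rcases h with h | ⟨l, i, hw, h⟩
  · exact Or.inl (reg_eq h)
  · right
    rw [reg_eq h]
    have hl := get_lt hw
    interval_cases l <;> simp [w] at hw <;> subst hw
    · exact Or.inl rfl
    · exact Or.inr rfl

/-- Every crossing touches the external regions with one corner at most. -/
theorem corner_unique {l i : ℕ} (h : IsCrossing w l i) {x y : ℕ × ℕ} (hx' : x ∈ corners l i)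
    (hy' : y ∈ corners l i) (hx : External w x) (hy : External w y) : x = y := by
  obtain ⟨rfl, -, hl⟩ := isCrossing h
  have h1 := ext_reg hx
  have h2 := ext_reg hy
  clear hx hy h
  have key : ∀ l ∈ [2, 3, 5, 6, 8, 9], ∀ x ∈ corners l 1, ∀ y ∈ corners l 1,
      (reg x = 0 ∨ reg x = 4 ∨ reg x = 7) → (reg y = 0 ∨ reg y = 4 ∨ reg y = 7) → x = y := by
    decide
  exact key l (by simpa using hl) x hx' y hy' h1 h2

theorem uses_outer (l i : ℕ) (h : w[l]? = some (Ev.hole i)) : ¬ SameRegion w (l, i) (0, 0) := by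
  intro hr
  have h0 := reg_eq hr
  have hl := get_lt h
  interval_cases l <;> simp [w] at h <;> subst h <;> exact absurd h0 (by decide)

theorem uses_holes (l i l' i' : ℕ) (h : w[l]? = some (Ev.hole i))
    (h' : w[l']? = some (Ev.hole i')) (hr : SameRegion w (l, i) (l', i')) : l = l' := by
  have h0 := reg_eq hr
  have hl := get_lt h
  have hl' := get_lt h'
  clear hr
  interval_cases l <;> simp [w] at h <;> subst h <;>
    (interval_cases l' <;> simp [w] at h' <;> subst h' <;>
      first | rfl | exact absurd h0 (by decide))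

/-! ### Connectivity -/

/-- A decidable criterion for neighbouring points. -/
def nb (c : Option ℕ) (p q : ℕ × ℕ) : Bool :=
  (match w[p.1]? with
    | some e => (decide (q = (p.1 + 1, p.2)) && decide (p.2 < e.gap)) ||
        (decide (q = (p.1 + 1, p.2 - e.inn + e.out)) && decide (e.gap + e.inn ≤ p.2) &&
          decide (p.2 < lev w p.1)) ||
        (decide (q = (p.1, p.2 + 1)) && decide (e = Ev.cap p.2))
    | none => false) ||
  (decide (p.1 ≠ 0) && decide (w[p.1 - 1]? = some (Ev.cup p.2)) && decide (q = (p.1, p.2 + 1))) ||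
  (List.range 12).any fun l => decide (some l ≠ c) && decide (w[l]? = some (Ev.pos 1)) &&
    (decide (p.1 = l) || decide (p.1 = l + 1)) && (decide (p.2 = 1) || decide (p.2 = 2)) &&
    (decide (q.1 = l) || decide (q.1 = l + 1)) && (decide (q.2 = 1) || decide (q.2 = 2))

theorem leg_of {l : ℕ} {p : ℕ × ℕ} (h1 : p.1 = l ∨ p.1 = l + 1) (h2 : p.2 = 1 ∨ p.2 = 2) :
    ∃ t s, p = leg l 1 t s := by
  obtain ⟨a, b⟩ := p
  simp only at h1 h2
  rcases h1 with rfl | rfl <;> rcases h2 with rfl | rfl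
  · exact ⟨false, false, rfl⟩
  · exact ⟨false, true, rfl⟩
  · exact ⟨true, false, rfl⟩
  · exact ⟨true, true, rfl⟩

theorem nb_sound {c : Option ℕ} {p q : ℕ × ℕ} (h : nb c p q = true) : GraphStep w c p q := by
  unfold nb at h
  rw [Bool.or_eq_true, Bool.or_eq_true] at h
  rcases h with (h | h) | h
  · left
    cases he : w[p.1]? with
    | none => rw [he] at h; simp at h
    | some e =>
      rw [he] at h
      simp only [Bool.or_eq_true, Bool.and_eq_true, decide_eq_true_eq] at h
      rcases h with (⟨rfl, h⟩ | ⟨⟨rfl, h1⟩, h2⟩) | ⟨rfl, rfl⟩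
      · exact StrandStep.left p.1 p.2 e he h
      · exact StrandStep.right p.1 p.2 e he h1 h2
      · exact StrandStep.cap p.1 p.2 he
  · left
    simp only [Bool.and_eq_true, decide_eq_true_eq] at h
    obtain ⟨⟨h0, h1⟩, rfl⟩ := h
    obtain ⟨a, b⟩ := p
    simp only at h0 h1 ⊢
    obtain ⟨a, rfl⟩ := Nat.exists_eq_succ_of_ne_zero h0
    simp only [Nat.succ_eq_add_one, Nat.add_sub_cancel] at h1
    exact StrandStep.cup a b h1
  · right
    simp only [List.any_eq_true, Bool.or_eq_true, Bool.and_eq_true, decide_eq_true_eq] at h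
    obtain ⟨l, -, ⟨⟨⟨⟨h1, h2⟩, h3⟩, h4⟩, h5⟩, h6⟩ := h
    obtain ⟨t, s, hp⟩ := leg_of h3 h4
    obtain ⟨t', s', hq⟩ := leg_of h5 h6
    exact ⟨l, 1, h1, Or.inl h2, t, s, t', s', hp, hq⟩

theorem chain_eqv {c : Option ℕ} :
    ∀ (L : List (ℕ × ℕ)) (a : ℕ × ℕ), List.IsChain (fun p q => nb c p q || nb c q p) (a :: L) →
      ∀ p ∈ a :: L, Relation.EqvGen (GraphStep w c) p a := by
  intro L
  induction L with
  | nil =>
    intro a _ p hp
    rw [List.mem_singleton] at hp
    subst hp
    exact Relation.EqvGen.refl _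
  | cons b L ih =>
    intro a hch p hp
    rw [List.isChain_cons_cons] at hch
    rcases List.mem_cons.1 hp with rfl | hp
    · exact Relation.EqvGen.refl _
    · refine (ih b hch.2 p hp).trans _ _ _ ?_
      have h := hch.1
      simp only [Bool.or_eq_true] at h
      rcases h with h | h
      · exact Relation.EqvGen.symm _ _ (Relation.EqvGen.rel _ _ (nb_sound h))
      · exact Relation.EqvGen.rel _ _ (nb_sound h)

/-- A walk through all strand points which does not use the crossing of level `c`. -/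
def walk : ℕ → List (ℕ × ℕ)
  | 2 => [(1, 1), (2, 1), (1, 1), (1, 0), (2, 0), (3, 0), (4, 0), (5, 0), (6, 0), (7, 0), (8, 0), (9,
    0), (10, 0), (11, 0), (11, 1), (10, 1), (9, 2), (8, 2), (7, 2), (6, 1), (5, 1), (4, 1), (3,
    1), (3, 2), (4, 2), (5, 2), (6, 2), (7, 1), (8, 1), (9, 1), (10, 2), (10, 3), (9, 3), (8,
    3), (7, 3), (6, 3), (5, 3), (4, 3), (3, 3), (2, 3), (2, 2)]
  | 3 => [(2, 0), (3, 0), (4, 0), (5, 0), (6, 0), (7, 0), (8, 0), (9, 0), (10, 0), (11, 0), (11, 1),
    (10, 1), (9, 1), (8, 2), (7, 2), (6, 2), (5, 1), (4, 1), (5, 1), (5, 2), (4, 2), (5, 2), (6,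
    1), (7, 1), (8, 1), (9, 2), (10, 2), (10, 3), (9, 3), (8, 3), (7, 3), (6, 3), (5, 3), (4,
    3), (3, 3), (2, 3), (2, 2), (3, 1), (3, 2), (2, 1), (1, 1)]
  | 5 => [(2, 0), (3, 0), (4, 0), (5, 0), (6, 0), (7, 0), (8, 0), (9, 0), (10, 0), (11, 0), (11, 1),
    (10, 1), (9, 1), (8, 2), (7, 2), (6, 1), (6, 2), (7, 1), (8, 1), (9, 2), (10, 2), (10, 3),
    (9, 3), (8, 3), (7, 3), (6, 3), (5, 3), (4, 3), (3, 3), (2, 3), (2, 2), (3, 2), (2, 1), (1,
    1), (2, 1), (3, 1), (4, 1), (5, 1), (4, 1), (4, 2), (5, 2)]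
  | 6 => [(1, 1), (2, 1), (3, 2), (4, 1), (5, 1), (6, 2), (6, 1), (5, 2), (4, 2), (3, 1), (2, 2), (2,
    3), (3, 3), (4, 3), (5, 3), (6, 3), (7, 3), (8, 3), (9, 3), (10, 3), (10, 2), (9, 2), (8,
    2), (7, 2), (8, 2), (8, 1), (7, 1), (8, 1), (9, 1), (10, 1), (11, 1), (11, 0), (10, 0), (9,
    0), (8, 0), (7, 0), (6, 0), (5, 0), (4, 0), (3, 0), (2, 0)]
  | 8 => [(2, 0), (3, 0), (4, 0), (5, 0), (6, 0), (7, 0), (8, 0), (9, 0), (10, 0), (11, 0), (11, 1),
    (10, 1), (9, 1), (9, 2), (10, 2), (10, 3), (9, 3), (8, 3), (7, 3), (6, 3), (5, 3), (4, 3),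
    (3, 3), (2, 3), (2, 2), (3, 1), (2, 1), (1, 1), (2, 1), (3, 2), (4, 2), (4, 1), (5, 1), (6,
    1), (5, 2), (6, 2), (7, 2), (8, 2), (7, 2), (7, 1), (8, 1)]
  | _ => [(2, 0), (3, 0), (4, 0), (5, 0), (6, 0), (7, 0), (8, 0), (9, 0), (10, 0), (11, 0), (11, 1),
    (10, 1), (11, 1), (11, 0), (10, 0), (9, 0), (8, 0), (7, 0), (6, 0), (5, 0), (4, 0), (3, 0),
    (2, 0), (1, 0), (1, 1), (2, 1), (3, 1), (4, 2), (5, 2), (6, 1), (7, 1), (8, 1), (9, 1), (9,
    2), (8, 2), (7, 2), (6, 2), (5, 1), (4, 1), (3, 2), (2, 2), (2, 3), (3, 3), (4, 3), (5, 3),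
    (6, 3), (7, 3), (8, 3), (9, 3), (10, 3), (10, 2)]

theorem isStrand_mem {c : ℕ} (hc : c = 2 ∨ c = 3 ∨ c = 5 ∨ c = 6 ∨ c = 8 ∨ c = 9) {p : ℕ × ℕ}
    (hp : IsStrand w p) : p ∈ (1, 0) :: walk c := by
  obtain ⟨l, j⟩ := p
  obtain ⟨h1, h2⟩ := hp
  simp only at h1 h2
  have hl : l < 13 := by simpa [w, Nat.lt_succ_iff] using h1
  clear h1
  have key : ∀ c ∈ [2, 3, 5, 6, 8, 9], ∀ l ∈ List.range 13, ∀ j ∈ List.range (lev w l),
      (l, j) ∈ (1, 0) :: walk c := by decide +kernel
  exact key c (by simpa using hc) l (by simpa using hl) j (by simpa using h2)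

theorem conn {c : ℕ} (hc : c = 2 ∨ c = 3 ∨ c = 5 ∨ c = 6 ∨ c = 8 ∨ c = 9) {p : ℕ × ℕ}
    (hp : IsStrand w p) : Relation.EqvGen (GraphStep w (some c)) p (1, 0) := by
  refine chain_eqv (walk c) (1, 0) ?_ p (isStrand_mem hc hp)
  rcases hc with rfl | rfl | rfl | rfl | rfl | rfl <;> decide +kernel

theorem graphStep_mono {c : Option ℕ} {p q : ℕ × ℕ} (h : GraphStep w c p q) :
    GraphStep w none p q := by
  rcases h with h | ⟨l, i, -, hx, h⟩
  · exact Or.inl h
  · exact Or.inr ⟨l, i, by simp, hx, h⟩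

theorem connected : Connected w := by
  have key : ∀ p, IsStrand w p → Relation.EqvGen (GraphStep w none) p (1, 0) := fun p hp =>
    Relation.EqvGen.mono (r := GraphStep w (some 2)) (fun _ _ => graphStep_mono) p (1, 0)
      (conn (c := 2) (Or.inl rfl) hp)
  intro p q hp hq
  exact (key p hp).trans _ _ _ ((key q hq).symm _ _)

theorem simple : Simple w where
  noDisk := by
    intro l i h p hp
    obtain ⟨-, -, hl⟩ := isCrossing h
    refine ⟨(1, 0), ⟨by simp [w], by decide⟩, conn hl hp, Or.inl (Or.inl ?_)⟩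
    exact Relation.EqvGen.symm _ _ (Relation.EqvGen.rel _ _
      (GapStep.left 0 0 (Ev.cup 0) rfl le_rfl))
  noTwo := by
    intro l i h x hx' y hy' hx hy
    rw [corner_unique h hx' hy' hx hy]
    exact Relation.EqvGen.refl _
  noTwice := by
    intro l i h x hx' y hy' hne hx hy _
    exact hne (corner_unique h hx' hy' hx hy)

theorem homTrivial : HomTrivial w := by
  intro i hi
  simp [w] at hi
  subst hi
  exact even_two

/-- **Non-vacuity.**  There is a diagram in the disk with two holes which satisfies all hypotheses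
of the theorem; no region contains two of the three boundary circles. -/
theorem exists_example : ∃ D : Diagram, crossings D.word = 6 ∧
    D.word.countP (fun e => e matches Ev.hole _) = 2 ∧
    Connected D.word ∧ Alternating D.word ∧ Simple D.word ∧ HomTrivial D.word ∧
    (∀ l i, D.word[l]? = some (Ev.hole i) → ¬ SameRegion D.word (l, i) (0, 0)) ∧
    (∀ l i l' i', D.word[l]? = some (Ev.hole i) → D.word[l']? = some (Ev.hole i') →
      SameRegion D.word (l, i) (l', i') → l = l') :=
  ⟨D, rfl, rfl, connected, alternating, simple, homTrivial, uses_outer, uses_holes⟩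

end Ex

end Pool.Agent.Tait
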