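import Pool.Agent.Lib.MP_150b40_gt.Mb
import Pool.Agent.Lib.MP_150b40_gt.Adm

/-! # Fused steps -/

namespace Pool.Agent.Tait

noncomputable section

def eps (x : ℕ) : ℝ := (-1) ^ (x / 2)

def rho (A : ℝ) (x : ℕ) : ℝ := eps x / Real.sqrt (dl A x)

/-- unnormalised fused step of colour `r ≥ 1` from height `a` to height `b` -/
def Lf (A : ℝ) : ℕ → (a b : ℕ) → (V b →ₗ[ℝ] V a)
  | 0, _, _ => 0
  | 1, a, b => (rho A a * rho A b) • Sm a b
  | r + 2, a, b => ∑ c ∈ Finset.range (a + 2), rho A a • (Sm a c ∘ₗ Lf A (r + 1) c b)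

def Mf (A : ℝ) : ℕ → (a b : ℕ) → (V a →ₗ[ℝ] V b)
  | 0, _, _ => 0
  | 1, a, b => (rho A a * rho A b) • Tm a b
  | r + 2, a, b => ∑ c ∈ Finset.range (a + 2), rho A a • (Mf A (r + 1) c b ∘ₗ Tm a c)

/-- squared norm of `Lf` -/
def Zf (A : ℝ) : ℕ → ℕ → ℕ → ℝ
  | 0, _, _ => 0
  | 1, a, b => if adj a b then (dl A a)⁻¹ * (dl A b)⁻¹ else 0
  | r + 2, a, b => ∑ c ∈ Finset.range (a + 2), if adj a c then (dl A a)⁻¹ * Zf A (r + 1) c b else 0

/-- normalised fused step -/
def Lh (A : ℝ) (r a b : ℕ) : V b →ₗ[ℝ] V a :=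
  if adm r a b then (Real.sqrt (Zf A r a b))⁻¹ • Lf A r a b else 0

def Mh (A : ℝ) (r a b : ℕ) : V a →ₗ[ℝ] V b :=
  if adm r a b then (Real.sqrt (Zf A r a b))⁻¹ • Mf A r a b else 0

/-! ## auxiliary facts -/

theorem Fa_adj_comm {a b : ℕ} : adj a b ↔ adj b a := by
  unfold adj; tauto

theorem Fa_eps_sq (x : ℕ) : eps x * eps x = 1 := by
  unfold eps
  rw [← pow_add, ← two_mul, pow_mul]
  norm_num

theorem Fa_eps_ne (x : ℕ) : eps x ≠ 0 := by
  intro h
  have := Fa_eps_sq x
  rw [h] at this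
  norm_num at this

theorem Fa_eps_succ (x : ℕ) : eps (x + 2) = - eps x := by
  unfold eps
  rw [Nat.add_div_right x (by norm_num), pow_succ]
  ring

/-- sums over the neighbours -/
theorem Fa_sum_nb {M : Type*} [AddCommMonoid M] (a : ℕ) (f : ℕ → M) (hf : ∀ c, ¬ adj a c → f c = 0) :
    ∑ c ∈ Finset.range (a + 2), f c = (if 0 < a then f (a - 1) else 0) + f (a + 1) := by
  rw [Finset.sum_range_succ]
  congr 1
  rcases Nat.eq_zero_or_pos a with h | h
  · subst h
    rw [if_neg (lt_irrefl 0)]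
    simp only [zero_add, Finset.sum_range_one]
    exact hf 0 (by unfold adj; omega)
  · rw [if_pos h]
    refine Finset.sum_eq_single (a - 1) (fun c hc hne => ?_) (fun hn => ?_)
    · apply hf
      rw [Finset.mem_range] at hc
      unfold adj
      omega
    · exfalso
      apply hn
      rw [Finset.mem_range]
      omega

/-- enlarging the range of a sum over neighbours -/
theorem Fa_sum_ext {M : Type*} [AddCommMonoid M] {m n : ℕ} (h : m ≤ n) (f : ℕ → M)
    (hf : ∀ c, m ≤ c → f c = 0) : ∑ c ∈ Finset.range m, f c = ∑ c ∈ Finset.range n, f c := by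
  refine Finset.sum_subset (Finset.range_subset_range.mpr h) fun c _ hc => hf c ?_
  rw [Finset.mem_range, not_lt] at hc
  exact hc

/-- only one index contributes -/
theorem Fa_sum_one {M : Type*} [AddCommMonoid M] {n : ℕ} (f : ℕ → M) (d : ℕ) (hd : n ≤ d → f d = 0)
    (hf : ∀ c, c ≠ d → f c = 0) : ∑ c ∈ Finset.range n, f c = f d := by
  refine Finset.sum_eq_single d (fun c _ hc => hf c hc) fun hn => hd ?_
  rw [Finset.mem_range, not_lt] at hn
  exact hn

theorem Fa_adj_lt {a b : ℕ} (h : adj a b) : b < a + 2 := by unfold adj at h; omega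

theorem Fa_comp_sum {a b c : ℕ} {ι : Type*} (s : Finset ι) (f : V b →ₗ[ℝ] V a)
    (g : ι → (V c →ₗ[ℝ] V b)) : f ∘ₗ (∑ i ∈ s, g i) = ∑ i ∈ s, f ∘ₗ g i := by
  apply LinearMap.ext
  intro x
  simp only [LinearMap.comp_apply, LinearMap.sum_apply, map_sum]

theorem Fa_sum_comp {a b c : ℕ} {ι : Type*} (s : Finset ι) (f : V c →ₗ[ℝ] V b)
    (g : ι → (V b →ₗ[ℝ] V a)) : (∑ i ∈ s, g i) ∘ₗ f = ∑ i ∈ s, g i ∘ₗ f := by
  apply LinearMap.ext
  intro x
  simp only [LinearMap.comp_apply, LinearMap.sum_apply]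

/-! ### the pairing -/

theorem Fa_B_zero_left {a : ℕ} (G : V a) : B (0 : V a) G = 0 := by
  have := B_smul 0 (0 : V a) G
  simpa using this

theorem Fa_B_sum_left {a : ℕ} {ι : Type*} (s : Finset ι) (f : ι → V a) (G : V a) :
    B (∑ i ∈ s, f i) G = ∑ i ∈ s, B (f i) G := by
  classical
  induction s using Finset.induction_on with
  | empty => simp [Fa_B_zero_left]
  | insert i s hi ih => rw [Finset.sum_insert hi, Finset.sum_insert hi, B_add, ih]

theorem Fa_B_sum_right {a : ℕ} {ι : Type*} (s : Finset ι) (f : ι → V a) (G : V a) :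
    B G (∑ i ∈ s, f i) = ∑ i ∈ s, B G (f i) := by
  rw [B_comm, Fa_B_sum_left]
  exact Finset.sum_congr rfl fun i _ => B_comm _ _

theorem Fa_B_smul_right {a : ℕ} (x : ℝ) (F G : V a) : B F (x • G) = x * B F G := by
  rw [B_comm, B_smul, B_comm]

theorem Fa_B_zero_right {a : ℕ} (G : V a) : B G (0 : V a) = 0 := by
  rw [B_comm, Fa_B_zero_left]

/-! ### the identity between spaces with equal indices -/

/-- the identity `V b → V a` if `a = b` -/
def Iab (a b : ℕ) : V b →ₗ[ℝ] V a := if h : b = a then h ▸ LinearMap.id else 0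

theorem Iab_self (a : ℕ) : Iab a a = LinearMap.id := by simp [Iab]

theorem Iab_ne {a b : ℕ} (h : b ≠ a) : Iab a b = 0 := by simp [Iab, h]

/-! ### fused steps including the colour `0` -/

def Lz (A : ℝ) : ℕ → (a b : ℕ) → (V b →ₗ[ℝ] V a)
  | 0, a, b => rho A a • Iab a b
  | r + 1, a, b => ∑ c ∈ Finset.range (a + 2), rho A a • (Sm a c ∘ₗ Lz A r c b)

def Mz (A : ℝ) : ℕ → (a b : ℕ) → (V a →ₗ[ℝ] V b)
  | 0, a, b => rho A a • Iab b a
  | r + 1, a, b => ∑ c ∈ Finset.range (a + 2), rho A a • (Mz A r c b ∘ₗ Tm a c)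

def Zz (A : ℝ) : ℕ → ℕ → ℕ → ℝ
  | 0, a, b => if a = b then (dl A a)⁻¹ else 0
  | r + 1, a, b => ∑ c ∈ Finset.range (a + 2), if adj a c then (dl A a)⁻¹ * Zz A r c b else 0

theorem Lz_one (A : ℝ) (a b : ℕ) : Lz A 1 a b = Lf A 1 a b := by
  simp only [Lz, Lf]
  rw [Fa_sum_one (d := b)]
  · rw [Iab_self, LinearMap.comp_smul, LinearMap.comp_id, smul_smul]
  · intro h
    rw [Sm_zero (fun h' => absurd (Fa_adj_lt h') (not_lt.mpr h))]
    simp
  · intro c hc
    rw [Iab_ne (Ne.symm hc)]
    simp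

theorem Lz_eq (A : ℝ) (r a b : ℕ) : Lz A (r + 1) a b = Lf A (r + 1) a b := by
  induction r generalizing a with
  | zero => exact Lz_one A a b
  | succ r ih =>
    rw [Lz, Lf]
    exact Finset.sum_congr rfl fun c _ => by rw [ih]

theorem Mz_one (A : ℝ) (a b : ℕ) : Mz A 1 a b = Mf A 1 a b := by
  simp only [Mz, Mf]
  rw [Fa_sum_one (d := b)]
  · rw [Iab_self, LinearMap.smul_comp, LinearMap.id_comp, smul_smul]
  · intro h
    rw [Tm_zero (fun h' => absurd (Fa_adj_lt h') (not_lt.mpr h))]
    simp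
  · intro c hc
    rw [Iab_ne hc]
    simp

theorem Mz_eq (A : ℝ) (r a b : ℕ) : Mz A (r + 1) a b = Mf A (r + 1) a b := by
  induction r generalizing a with
  | zero => exact Mz_one A a b
  | succ r ih =>
    rw [Mz, Mf]
    exact Finset.sum_congr rfl fun c _ => by rw [ih]

theorem Zz_one (A : ℝ) (a b : ℕ) : Zz A 1 a b = Zf A 1 a b := by
  simp only [Zz, Zf]
  rw [Fa_sum_one (d := b)]
  · rw [if_pos rfl]
  · intro h
    rw [if_neg (fun h' => absurd (Fa_adj_lt h') (not_lt.mpr h))]
  · intro c hc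
    rw [if_neg hc]
    simp

theorem Zz_eq (A : ℝ) (r a b : ℕ) : Zz A (r + 1) a b = Zf A (r + 1) a b := by
  induction r generalizing a with
  | zero => exact Zz_one A a b
  | succ r ih =>
    rw [Zz, Zf]
    exact Finset.sum_congr rfl fun c _ => by rw [ih]

theorem Zz_nonneg {A : ℝ} (hA : 1 < A) (r a b : ℕ) : 0 ≤ Zz A r a b := by
  induction r generalizing a with
  | zero =>
    rw [Zz]
    split_ifs
    · exact (inv_pos.mpr (dl_pos hA a)).le
    · exact le_rfl
  | succ r ih =>
    rw [Zz]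
    refine Finset.sum_nonneg fun c _ => ?_
    split_ifs
    · exact mul_nonneg (inv_pos.mpr (dl_pos hA a)).le (ih c)
    · exact le_rfl

/-- `b` can be reached from `a` in `r` steps (as far as distance and parity are concerned) -/
def reach (r a b : ℕ) : Prop := a ≤ b + r ∧ b ≤ a + r ∧ (a + b + r) % 2 = 0

theorem adm.reach {r a b : ℕ} (h : adm r a b) : reach r a b := ⟨h.1, h.2.1, h.2.2.2⟩

theorem Zz_pos {A : ℝ} (hA : 1 < A) (r a b : ℕ) (h : reach r a b) : 0 < Zz A r a b := by
  induction r generalizing a with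
  | zero =>
    have : a = b := by unfold reach at h; omega
    rw [Zz, if_pos this]
    exact inv_pos.mpr (dl_pos hA a)
  | succ r ih =>
    rw [Zz]
    have hex : ∃ c, adj a c ∧ reach r c b := by
      unfold reach adj at *
      rcases Nat.lt_or_ge b a with h' | h'
      · exact ⟨a - 1, by omega, by omega⟩
      · exact ⟨a + 1, by omega, by omega⟩
    obtain ⟨c, hc, hc'⟩ := hex
    refine Finset.sum_pos' (fun d _ => ?_) ⟨c, Finset.mem_range.mpr (Fa_adj_lt hc), ?_⟩
    · split_ifs
      · exact mul_nonneg (inv_pos.mpr (dl_pos hA a)).le (Zz_nonneg hA r d b)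
      · exact le_rfl
    · rw [if_pos hc]
      exact mul_pos (inv_pos.mpr (dl_pos hA a)) (ih c hc')

theorem Lz_zero (A : ℝ) (r a b : ℕ) (h : ¬ reach r a b) : Lz A r a b = 0 := by
  induction r generalizing a with
  | zero =>
    rw [Lz, Iab_ne (by rintro rfl; apply h; unfold reach; omega), smul_zero]
  | succ r ih =>
    rw [Lz]
    refine Finset.sum_eq_zero fun c _ => ?_
    by_cases hc : adj a c
    · rw [ih c (fun h' => h (by unfold reach adj at *; omega)), LinearMap.comp_zero, smul_zero]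
    · rw [Sm_zero hc, LinearMap.zero_comp, smul_zero]

/-- the recursion at the other end -/
theorem Lz_right (A : ℝ) (r a b : ℕ) :
    Lz A (r + 1) a b = ∑ c ∈ Finset.range (b + 2), rho A b • (Lz A r a c ∘ₗ Sm c b) := by
  induction r generalizing a with
  | zero =>
    rw [Lz_one, Lf, Fa_sum_one (d := a)]
    · rw [Lz, Iab_self, LinearMap.smul_comp, LinearMap.id_comp, smul_smul, mul_comm]
    · intro h
      rw [Sm_zero (fun h' => absurd (Fa_adj_lt (Fa_adj_comm.mp h')) (not_lt.mpr h))]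
      simp
    · intro c hc
      rw [Lz, Iab_ne hc]
      simp
  | succ r ih =>
    rw [Lz]
    simp_rw [ih]
    simp_rw [Fa_comp_sum, Finset.smul_sum]
    rw [Finset.sum_comm]
    refine Finset.sum_congr rfl fun c _ => ?_
    rw [Lz, Fa_sum_comp, Finset.smul_sum]
    refine Finset.sum_congr rfl fun d _ => ?_
    rw [LinearMap.comp_smul, LinearMap.smul_comp, smul_comm, LinearMap.comp_assoc]


theorem Mz_right (A : ℝ) (r a b : ℕ) :
    Mz A (r + 1) a b = ∑ c ∈ Finset.range (b + 2), rho A b • (Tm c b ∘ₗ Mz A r a c) := by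
  induction r generalizing a with
  | zero =>
    rw [Mz_one, Mf, Fa_sum_one (d := a)]
    · rw [Mz, Iab_self, LinearMap.comp_smul, LinearMap.comp_id, smul_smul, mul_comm]
    · intro h
      rw [Tm_zero (fun h' => absurd (Fa_adj_lt (Fa_adj_comm.mp h')) (not_lt.mpr h))]
      simp
    · intro c hc
      rw [Mz, Iab_ne (Ne.symm hc)]
      simp
  | succ r ih =>
    rw [Mz]
    simp_rw [ih]
    simp_rw [Fa_sum_comp, Finset.smul_sum]
    rw [Finset.sum_comm]
    refine Finset.sum_congr rfl fun c _ => ?_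
    rw [Mz, Fa_comp_sum, Finset.smul_sum]
    refine Finset.sum_congr rfl fun d _ => ?_
    rw [LinearMap.comp_smul, LinearMap.smul_comp, smul_comm, LinearMap.comp_assoc]

theorem Zz_right (A : ℝ) (r a b : ℕ) :
    Zz A (r + 1) a b = ∑ c ∈ Finset.range (b + 2), if adj b c then (dl A b)⁻¹ * Zz A r a c else 0 := by
  induction r generalizing a with
  | zero =>
    rw [Zz_one, Zf, Fa_sum_one (d := a)]
    · by_cases h : adj a b
      · rw [if_pos h, if_pos (Fa_adj_comm.mp h), Zz, if_pos rfl, mul_comm]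
      · rw [if_neg h, if_neg (fun h' => h (Fa_adj_comm.mp h'))]
    · intro h
      rw [if_neg (fun h' => absurd (Fa_adj_lt h') (not_lt.mpr h))]
    · intro c hc
      rw [Zz, if_neg (Ne.symm hc)]
      simp
  | succ r ih =>
    rw [Zz]
    simp_rw [ih]
    have e1 : ∀ c ∈ Finset.range (a + 2), (if adj a c then (dl A a)⁻¹ *
        (∑ d ∈ Finset.range (b + 2), if adj b d then (dl A b)⁻¹ * Zz A r c d else 0) else 0)
        = ∑ d ∈ Finset.range (b + 2), if adj b d then (dl A b)⁻¹ *
          (if adj a c then (dl A a)⁻¹ * Zz A r c d else 0) else 0 := by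
      intro c _
      by_cases h : adj a c
      · simp only [if_pos h, Finset.mul_sum]
        refine Finset.sum_congr rfl fun d _ => ?_
        split_ifs
        · ring
        · ring
      · simp only [if_neg h, mul_zero, ite_self, Finset.sum_const_zero]
    rw [Finset.sum_congr rfl e1, Finset.sum_comm]
    refine Finset.sum_congr rfl fun d _ => ?_
    by_cases h : adj b d
    · simp only [if_pos h]
      rw [Zz, Finset.mul_sum]
    · simp only [if_neg h, Finset.sum_const_zero]

theorem Zz_symm (A : ℝ) (r a b : ℕ) : Zz A r a b = Zz A r b a := by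
  induction r generalizing a b with
  | zero =>
    rw [Zz, Zz]
    by_cases h : a = b
    · subst h; rfl
    · rw [if_neg h, if_neg (Ne.symm h)]
  | succ r ih =>
    rw [Zz_right, Zz]
    refine Finset.sum_congr rfl fun c _ => ?_
    rw [ih]

theorem B_Iab {a b : ℕ} (F : V b) (G : V a) : B (Iab a b F) G = B F (Iab b a G) := by
  by_cases h : b = a
  · subst h
    rw [Iab_self]
    rfl
  · rw [Iab_ne h, Iab_ne (Ne.symm h), LinearMap.zero_apply, LinearMap.zero_apply, Fa_B_zero_left,
      Fa_B_zero_right]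

theorem B_Lz (A : ℝ) (r : ℕ) {a b : ℕ} (F : V b) (G : V a) :
    B (Lz A r a b F) G = B F (Mz A r a b G) := by
  induction r generalizing a with
  | zero =>
    rw [Lz, Mz, LinearMap.smul_apply, LinearMap.smul_apply, B_smul, Fa_B_smul_right, B_Iab]
  | succ r ih =>
    rw [Lz, Mz, LinearMap.sum_apply, LinearMap.sum_apply, Fa_B_sum_left, Fa_B_sum_right]
    refine Finset.sum_congr rfl fun c _ => ?_
    rw [LinearMap.smul_apply, LinearMap.smul_apply, B_smul, Fa_B_smul_right, LinearMap.comp_apply,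
      LinearMap.comp_apply, B_Sm, ih]

theorem rho_sq {A : ℝ} (hA : 1 < A) (a : ℕ) : rho A a * rho A a = (dl A a)⁻¹ := by
  unfold rho
  have h1 := dl_pos hA a
  rw [div_mul_div_comm, Fa_eps_sq, Real.mul_self_sqrt h1.le, one_div]

theorem rho_ne {A : ℝ} (hA : 1 < A) (a : ℕ) : rho A a ≠ 0 := by
  intro h
  have := rho_sq hA a
  rw [h, zero_mul] at this
  exact (inv_pos.mpr (dl_pos hA a)).ne this

theorem Mz_Lz {A : ℝ} (hA : 1 < A) (r a b c : ℕ) :
    Mz A r a b ∘ₗ Lz A r a c = Zz A r a b • Iab b c := by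
  induction r generalizing a with
  | zero =>
    rw [Mz, Lz, Zz, LinearMap.smul_comp, LinearMap.comp_smul, smul_smul, rho_sq hA]
    by_cases h : a = b
    · subst h
      rw [Iab_self, LinearMap.id_comp, if_pos rfl]
    · rw [Iab_ne h, LinearMap.zero_comp, if_neg h, smul_zero, zero_smul]
  | succ r ih =>
    rw [Mz, Lz, Fa_sum_comp, Zz, Finset.sum_smul]
    refine Finset.sum_congr rfl fun d hd => ?_
    rw [Fa_comp_sum]
    by_cases h : adj a d
    · rw [if_pos h, Fa_sum_one (d := d)]
      · rw [LinearMap.smul_comp, LinearMap.comp_smul, smul_smul, rho_sq hA, LinearMap.comp_assoc,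
          ← LinearMap.comp_assoc _ _ (Tm a d), Tm_Sm h, LinearMap.id_comp, ih, smul_smul]
      · intro h'
        exact absurd (Finset.mem_range.mp hd) (not_lt.mpr h')
      · intro e he
        rw [LinearMap.smul_comp, LinearMap.comp_smul, LinearMap.comp_assoc,
          ← LinearMap.comp_assoc _ _ (Tm a d), Tm_Sm_ne (Ne.symm he), LinearMap.zero_comp,
          LinearMap.comp_zero, smul_zero, smul_zero]
    · rw [if_neg h, zero_smul]
      refine Finset.sum_eq_zero fun e _ => ?_
      rw [Tm_zero h, LinearMap.comp_zero, smul_zero, LinearMap.zero_comp]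

theorem ev_shn_Lz {A : ℝ} (hA : 1 < A) (r : ℕ) (x : Rm) (a b : ℕ) :
    ev ((model A hA).shn r x) a ∘ₗ Lz A r a b = Lz A r a b ∘ₗ ev x b := by
  induction r generalizing a with
  | zero =>
    rw [TL.shn, Lz, LinearMap.comp_smul, LinearMap.smul_comp]
    by_cases h : b = a
    · subst h
      rw [Iab_self, LinearMap.comp_id, LinearMap.id_comp]
    · rw [Iab_ne h, LinearMap.comp_zero, LinearMap.zero_comp]
  | succ r ih =>
    rw [TL.shn, Lz, Fa_comp_sum, Fa_sum_comp]
    refine Finset.sum_congr rfl fun c _ => ?_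
    rw [LinearMap.comp_smul, LinearMap.smul_comp, ← LinearMap.comp_assoc, ev_sh_Sm,
      LinearMap.comp_assoc, ih, LinearMap.comp_assoc]

/-- the cap -/
def capm (A : ℝ) (a : ℕ) : V a →ₗ[ℝ] V a :=
  ∑ b ∈ Finset.range (a + 2), wt A a b • (Tm b a ∘ₗ Tm a b)

theorem ev_capm {A : ℝ} (hA : 1 < A) (a : ℕ) : ev (star (model A hA).u) a = capm A a :=
  ev_star_u hA a

/-- the cap on two steps -/
theorem cE_Sm_Sm (A : ℝ) (a b c : ℕ) :
    (capm A a ∘ₗ Sm a b) ∘ₗ Sm b c = if adj a b then wt A a b • Iab a c else 0 := by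
  unfold capm
  rw [LinearMap.comp_assoc, Fa_sum_comp]
  by_cases h : adj a b
  · rw [if_pos h, Fa_sum_one (d := b)]
    · rw [LinearMap.smul_comp, LinearMap.comp_assoc, ← LinearMap.comp_assoc _ _ (Tm a b), Tm_Sm h,
        LinearMap.id_comp]
      by_cases h2 : c = a
      · subst h2
        rw [Tm_Sm (Fa_adj_comm.mp h), Iab_self]
      · rw [Tm_Sm_ne (Ne.symm h2), Iab_ne h2]
    · intro h'
      exact absurd (Fa_adj_lt h) (not_lt.mpr h')
    · intro d hd
      rw [LinearMap.smul_comp, LinearMap.comp_assoc, ← LinearMap.comp_assoc _ _ (Tm a d), Tm_Sm_ne hd,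
        LinearMap.zero_comp, LinearMap.comp_zero, smul_zero]
  · rw [if_neg h]
    refine Finset.sum_eq_zero fun d _ => ?_
    rw [Sm_zero h, LinearMap.zero_comp, LinearMap.comp_zero]

theorem rho_wt {A : ℝ} (hA : 1 < A) (a b : ℕ) : rho A b * wt A a b = eps b / Real.sqrt (dl A a) := by
  unfold rho wt
  have h1 : 0 < Real.sqrt (dl A b) := Real.sqrt_pos.mpr (dl_pos hA b)
  have h2 : 0 < Real.sqrt (dl A a) := Real.sqrt_pos.mpr (dl_pos hA a)
  rw [Real.sqrt_div (dl_pos hA b).le]
  field_simp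

theorem cap_Lz_zero {A : ℝ} (hA : 1 < A) (r a b : ℕ) (hab : r + 2 ≤ a + b) :
    capm A a ∘ₗ Lz A (r + 2) a b = 0 := by
  have e1 : capm A a ∘ₗ Lz A (r + 2) a b = ∑ c ∈ Finset.range (a + 2),
      (if adj a c then (rho A a * (rho A c * wt A a c)) • Lz A r a b else 0) := by
    rw [Lz, Fa_comp_sum]
    refine Finset.sum_congr rfl fun c hc => ?_
    rw [Lz, LinearMap.comp_smul, Fa_comp_sum, Fa_comp_sum, Finset.smul_sum]
    by_cases h : adj a c
    · rw [if_pos h, Fa_sum_one (d := a)]
      · rw [LinearMap.comp_smul, LinearMap.comp_smul, ← LinearMap.comp_assoc _ _ (capm A a),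
          ← LinearMap.comp_assoc _ _ (capm A a ∘ₗ Sm a c), cE_Sm_Sm, if_pos h, Iab_self, smul_smul,
          LinearMap.smul_comp, LinearMap.id_comp, smul_smul]
        congr 1
        ring
      · intro h'
        exact absurd (Fa_adj_lt (Fa_adj_comm.mp h)) (not_lt.mpr h')
      · intro d hd
        rw [LinearMap.comp_smul, LinearMap.comp_smul, ← LinearMap.comp_assoc _ _ (capm A a),
          ← LinearMap.comp_assoc _ _ (capm A a ∘ₗ Sm a c), cE_Sm_Sm, if_pos h, Iab_ne hd, smul_zero,
          LinearMap.zero_comp, smul_zero, smul_zero]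
    · rw [if_neg h]
      refine Finset.sum_eq_zero fun d _ => ?_
      rw [Sm_zero h, LinearMap.zero_comp, LinearMap.comp_zero, smul_zero]
  rw [e1, Fa_sum_nb]
  · rcases Nat.eq_zero_or_pos a with h | h
    · subst h
      rw [if_neg (lt_irrefl 0), zero_add]
      rw [Lz_zero A r 0 b (by unfold reach; omega), smul_zero, ite_self]
    · rw [if_pos h, if_pos (show adj a (a - 1) by unfold adj; omega),
        if_pos (show adj a (a + 1) by unfold adj; omega), ← add_smul, rho_wt hA, rho_wt hA,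
        ← mul_add, ← add_div]
      have : eps (a + 1) = - eps (a - 1) := by
        obtain ⟨n, rfl⟩ : ∃ n, a = n + 1 := ⟨a - 1, by omega⟩
        exact Fa_eps_succ n
      rw [this]
      simp
  · intro c hc
    rw [if_neg hc]

theorem cap_Lz {A : ℝ} (hA : 1 < A) (j r a b : ℕ) (hj : j + 2 ≤ r) (hab : r ≤ a + b) :
    ev ((model A hA).shn j (star (model A hA).u)) a ∘ₗ Lz A r a b = 0 := by
  induction j generalizing r a with
  | zero =>
    obtain ⟨s, rfl⟩ : ∃ s, r = s + 2 := ⟨r - 2, by omega⟩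
    rw [TL.shn, ev_capm]
    exact cap_Lz_zero hA s a b hab
  | succ j ih =>
    obtain ⟨s, rfl⟩ : ∃ s, r = s + 1 := ⟨r - 1, by omega⟩
    rw [TL.shn, Lz, Fa_comp_sum]
    refine Finset.sum_eq_zero fun c _ => ?_
    by_cases h : adj a c
    · rw [LinearMap.comp_smul, ← LinearMap.comp_assoc, ev_sh_Sm, LinearMap.comp_assoc,
        ih s c (by omega) (by unfold adj at h; omega), LinearMap.comp_zero, smul_zero]
    · rw [Sm_zero h, LinearMap.zero_comp, smul_zero, LinearMap.comp_zero]

/-- the estimate behind `Zf_ratio` -/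
theorem Zz_ratio {A : ℝ} (hA : 1 < A) (r a b : ℕ) (h : a ≤ b + r) :
    Zz A r a (b + 2) * dl A (b + 2) ≤ (1 - A⁻¹ ^ 4)⁻¹ * (dl A b * Zz A r a b) := by
  have hA0 : 0 < A := by linarith
  have hx : 0 < A⁻¹ ^ 4 := by positivity
  have hx1 : A⁻¹ ^ 4 < 1 := pow_lt_one₀ (by positivity) (inv_lt_one_of_one_lt₀ hA) (by norm_num)
  have hK : 0 < (1 - A⁻¹ ^ 4)⁻¹ := inv_pos.mpr (by linarith)
  induction r generalizing b with
  | zero =>
    rw [Zz, if_neg (by omega), zero_mul]
    exact mul_nonneg hK.le (mul_nonneg (dl_pos hA b).le (Zz_nonneg hA 0 a b))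
  | succ r ih =>
    have hb2 := dl_pos hA (b + 2)
    have hb := dl_pos hA b
    have hb1 := dl_pos hA (b + 1)
    have hb3 := dl_pos hA (b + 3)
    have e1 : Zz A (r + 1) a (b + 2) * dl A (b + 2) = Zz A r a (b + 1) + Zz A r a (b + 3) := by
      rw [Zz_right, Fa_sum_nb _ _ (fun c hc => by rw [if_neg hc]), if_pos (by omega),
        if_pos (show adj (b + 2) (b + 2 - 1) by unfold adj; omega),
        if_pos (show adj (b + 2) (b + 2 + 1) by unfold adj; omega), Nat.add_sub_cancel (b + 1) 1]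
      field_simp
    have e2 : Zz A r a (b + 1) ≤ dl A b * Zz A (r + 1) a b := by
      rw [Zz_right, Fa_sum_nb _ _ (fun c hc => by rw [if_neg hc]),
        if_pos (show adj b (b + 1) by unfold adj; omega), mul_add]
      have e3 : dl A b * ((dl A b)⁻¹ * Zz A r a (b + 1)) = Zz A r a (b + 1) := by
        field_simp
      rw [e3]
      have e4 : 0 ≤ dl A b * (if 0 < b then (if adj b (b - 1) then (dl A b)⁻¹ * Zz A r a (b - 1) else 0)
          else 0) := by
        refine mul_nonneg hb.le ?_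
        split_ifs
        · exact mul_nonneg (inv_pos.mpr hb).le (Zz_nonneg hA _ _ _)
        · exact le_rfl
        · exact le_rfl
      linarith
    have e5 := ih (b + 1) (by omega)
    have e6 : Zz A r a (b + 3) ≤ (1 - A⁻¹ ^ 4)⁻¹ * A⁻¹ ^ 4 * Zz A r a (b + 1) := by
      have e7 := dl_ratio hA (b + 1)
      have e8 : Zz A r a (b + 3) * (dl A (b + 1) * A ^ 4)
          ≤ (1 - A⁻¹ ^ 4)⁻¹ * (dl A (b + 1) * Zz A r a (b + 1)) :=
        (mul_le_mul_of_nonneg_left e7 (Zz_nonneg hA _ _ _)).trans e5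
      have e9 : Zz A r a (b + 3) * A ^ 4 ≤ (1 - A⁻¹ ^ 4)⁻¹ * Zz A r a (b + 1) := by
        have : dl A (b + 1) * (Zz A r a (b + 3) * A ^ 4)
            ≤ dl A (b + 1) * ((1 - A⁻¹ ^ 4)⁻¹ * Zz A r a (b + 1)) := by linarith
        exact le_of_mul_le_mul_left this hb1
      have e10 : A ^ 4 * A⁻¹ ^ 4 = 1 := by
        rw [← mul_pow, mul_inv_cancel₀ hA0.ne', one_pow]
      calc Zz A r a (b + 3) = Zz A r a (b + 3) * A ^ 4 * A⁻¹ ^ 4 := by
            rw [mul_assoc, e10, mul_one]
        _ ≤ (1 - A⁻¹ ^ 4)⁻¹ * Zz A r a (b + 1) * A⁻¹ ^ 4 := by gcongr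
        _ = _ := by ring
    have e11 : 1 + (1 - A⁻¹ ^ 4)⁻¹ * A⁻¹ ^ 4 = (1 - A⁻¹ ^ 4)⁻¹ := by
      have e12 : ∀ x : ℝ, 1 - x ≠ 0 → 1 + (1 - x)⁻¹ * x = (1 - x)⁻¹ := by
        intro x hx
        field_simp
        ring
      exact e12 _ (by linarith)
    rw [e1]
    calc Zz A r a (b + 1) + Zz A r a (b + 3)
        ≤ Zz A r a (b + 1) + (1 - A⁻¹ ^ 4)⁻¹ * A⁻¹ ^ 4 * Zz A r a (b + 1) := by linarith
      _ = (1 + (1 - A⁻¹ ^ 4)⁻¹ * A⁻¹ ^ 4) * Zz A r a (b + 1) := by ring
      _ = (1 - A⁻¹ ^ 4)⁻¹ * Zz A r a (b + 1) := by rw [e11]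
      _ ≤ (1 - A⁻¹ ^ 4)⁻¹ * (dl A b * Zz A (r + 1) a b) := by gcongr

/-! ### completeness -/

theorem capm_Sm (A : ℝ) (d b : ℕ) : capm A d ∘ₗ Sm d b = wt A d b • Tm b d := by
  unfold capm
  rw [Fa_sum_comp]
  by_cases h : adj d b
  · rw [Fa_sum_one (d := b)]
    · rw [LinearMap.smul_comp, LinearMap.comp_assoc, Tm_Sm h, LinearMap.comp_id]
    · intro h'
      exact absurd (Fa_adj_lt h) (not_lt.mpr h')
    · intro c hc
      rw [LinearMap.smul_comp, LinearMap.comp_assoc, Tm_Sm_ne hc, LinearMap.comp_zero, smul_zero]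
  · rw [Tm_zero (fun h' => h (Fa_adj_comm.mp h')), smul_zero]
    refine Finset.sum_eq_zero fun c _ => ?_
    rw [Sm_zero h, LinearMap.comp_zero]

/-- the relations between the two neighbours of a height -/
theorem Fa_relation {A : ℝ} (hA : 1 < A) (r a : ℕ) (G : (b : ℕ) → V b)
    (h : ev ((model A hA).shn r (star (model A hA).u)) a
      (∑ b ∈ Finset.range (a + (r + 1) + 1), if adm (r + 1) a b then Lz A (r + 1) a b (G b) else 0) = 0)
    (c : ℕ) (hc : Zz A r a c ≠ 0) :
    ∑ b ∈ Finset.range (a + (r + 1) + 1),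
      (if adm (r + 1) a b then eps b • Tm b c (G b) else 0) = 0 := by
  have hs : Real.sqrt (dl A c) ≠ 0 := (Real.sqrt_pos.mpr (dl_pos hA c)).ne'
  have key : ∀ b, Mz A r a c (ev ((model A hA).shn r (star (model A hA).u)) a
      (Lz A (r + 1) a b (G b))) = (Zz A r a c / Real.sqrt (dl A c)) • (eps b • Tm b c (G b)) := by
    intro b
    rw [Lz_right, LinearMap.sum_apply, map_sum, map_sum, Fa_sum_one (d := c)]
    · rw [LinearMap.smul_apply, map_smul, map_smul, LinearMap.comp_apply]
      have e1 : ev ((model A hA).shn r (star (model A hA).u)) a (Lz A r a c (Sm c b (G b)))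
          = Lz A r a c (wt A c b • Tm b c (G b)) := by
        have e2 := LinearMap.congr_fun (ev_shn_Lz hA r (star (model A hA).u) a c) (Sm c b (G b))
        rw [LinearMap.comp_apply, LinearMap.comp_apply, ev_capm] at e2
        rw [e2]
        have e3 := LinearMap.congr_fun (capm_Sm A c b) (G b)
        rw [LinearMap.comp_apply, LinearMap.smul_apply] at e3
        rw [e3]
      rw [e1, map_smul, map_smul]
      have e4 := LinearMap.congr_fun (Mz_Lz hA r a c c) (Tm b c (G b))
      rw [LinearMap.comp_apply, LinearMap.smul_apply, Iab_self, LinearMap.id_apply] at e4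
      rw [e4, smul_smul, smul_smul, rho_wt hA, smul_smul]
      congr 1
      ring
    · intro h'
      rw [Sm_zero (fun h2 => absurd (Fa_adj_lt (Fa_adj_comm.mp h2)) (not_lt.mpr h')),
        LinearMap.comp_zero, smul_zero, LinearMap.zero_apply, map_zero, map_zero]
    · intro d hd
      rw [LinearMap.smul_apply, map_smul, map_smul, LinearMap.comp_apply]
      have e2 := LinearMap.congr_fun (ev_shn_Lz hA r (star (model A hA).u) a d) (Sm d b (G b))
      rw [LinearMap.comp_apply, LinearMap.comp_apply] at e2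
      rw [e2]
      have e4 := LinearMap.congr_fun (Mz_Lz hA r a c d)
        (ev (star (model A hA).u) d (Sm d b (G b)))
      rw [LinearMap.comp_apply, Iab_ne hd, smul_zero, LinearMap.zero_apply] at e4
      rw [e4, smul_zero]
  have h2 := congrArg (Mz A r a c) h
  rw [map_sum, map_sum, map_zero] at h2
  have h3 : ∑ b ∈ Finset.range (a + (r + 1) + 1), (Zz A r a c / Real.sqrt (dl A c)) •
      (if adm (r + 1) a b then eps b • Tm b c (G b) else 0) = 0 := by
    refine Eq.trans ?_ h2
    refine Finset.sum_congr rfl fun b _ => ?_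
    by_cases hb : adm (r + 1) a b
    · rw [if_pos hb, if_pos hb, key]
    · rw [if_neg hb, if_neg hb, map_zero, map_zero, smul_zero]
  rw [← Finset.smul_sum] at h3
  rcases smul_eq_zero.mp h3 with h4 | h4
  · exact absurd h4 (div_ne_zero hc hs)
  · exact h4

/-- the relation, for the two neighbours -/
theorem Fa_relation_nb {A : ℝ} (hA : 1 < A) (r a : ℕ) (G : (b : ℕ) → V b)
    (h : ev ((model A hA).shn r (star (model A hA).u)) a
      (∑ b ∈ Finset.range (a + (r + 1) + 1), if adm (r + 1) a b then Lz A (r + 1) a b (G b) else 0) = 0)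
    (c : ℕ) (hc : reach r a c) :
    (if 0 < c then (if adm (r + 1) a (c - 1) then eps (c - 1) • Tm (c - 1) c (G (c - 1)) else 0) else 0)
      + (if adm (r + 1) a (c + 1) then eps (c + 1) • Tm (c + 1) c (G (c + 1)) else 0) = 0 := by
  have h1 := Fa_relation hA r a G h c (Zz_pos hA r a c hc).ne'
  rw [Fa_sum_ext (n := a + (r + 1) + 1 + (c + 2)) (by omega)] at h1
  · rw [← Fa_sum_nb c (fun b => if adm (r + 1) a b then eps b • Tm b c (G b) else 0),
      Fa_sum_ext (n := a + (r + 1) + 1 + (c + 2)) (by omega)]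
    · exact h1
    · intro b hb
      rw [Tm_zero (fun h' => by unfold adj at h'; omega), LinearMap.zero_apply, smul_zero, ite_self]
    · intro b hb
      rw [Tm_zero (fun h' => hb (Fa_adj_comm.mp h')), LinearMap.zero_apply, smul_zero, ite_self]
  · intro b hb
    rw [if_neg (fun h' => by unfold adm at h'; omega)]

/-- the common value of the two neighbours -/
def Kc (r a : ℕ) (G : (b : ℕ) → V b) (c : ℕ) : V c :=
  if adm r a (c + 1) then Tm (c + 1) c (G (c + 1))
  else if adm r a (c - 1) then Tm (c - 1) c (G (c - 1)) else 0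

theorem Fa_pair {A : ℝ} (hA : 1 < A) (r a : ℕ) (G : (b : ℕ) → V b)
    (h : ∀ s, r = s + 1 → ev ((model A hA).shn s (star (model A hA).u)) a
      (∑ b ∈ Finset.range (a + r + 1), if adm r a b then Lz A r a b (G b) else 0) = 0) (b c : ℕ) :
    (if adm r a b then Lz A r a b (Sm b c (Tm b c (G b))) else 0)
      = if adm (r + 1) a c then Lz A r a b (Sm b c (Kc r a G c)) else 0 := by
  have hrel : ∀ s, r = s + 1 → reach s a c →
      (if 0 < c then (if adm r a (c - 1) then eps (c - 1) • Tm (c - 1) c (G (c - 1)) else 0) else 0)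
        + (if adm r a (c + 1) then eps (c + 1) • Tm (c + 1) c (G (c + 1)) else 0) = 0 := by
    intro s hs hc
    subst hs
    exact Fa_relation_nb hA s a G (h s rfl) c hc
  by_cases hbc : adj b c
  · by_cases h1 : adm r a b
    · by_cases h2 : adm (r + 1) a c
      · rw [if_pos h1, if_pos h2]
        have h3 : Tm b c (G b) = Kc r a G c := by
          unfold Kc
          rcases hbc with hbc | hbc
          · -- `c = b + 1`
            subst hbc
            by_cases h4 : adm r a (b + 1 + 1)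
            · rw [if_pos h4]
              obtain ⟨s, hs⟩ : ∃ s, r = s + 1 := ⟨r - 1, by unfold adm at h1 h4; omega⟩
              have h5 := hrel s hs (by unfold adm at h1 h4; unfold reach; omega)
              rw [if_pos (Nat.succ_pos b), Nat.add_sub_cancel, if_pos h1, if_pos h4] at h5
              have h6 : eps (b + 1 + 1) = - eps b := Fa_eps_succ b
              rw [h6, neg_smul, ← sub_eq_add_neg, ← smul_sub] at h5
              rcases smul_eq_zero.mp h5 with h7 | h7
              · exact absurd h7 (Fa_eps_ne b)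
              · exact sub_eq_zero.mp h7
            · rw [if_neg h4, Nat.add_sub_cancel, if_pos h1]
          · -- `b = c + 1`
            subst hbc
            rw [if_pos h1]
        rw [h3]
      · rw [if_pos h1, if_neg h2]
        have h3 : Tm b c (G b) = 0 := by
          have h4 : b = c + 1 ∧ a + c + 1 = r := by
            unfold adm adj at *
            omega
          obtain ⟨h5, h6⟩ := h4
          subst h5
          have h7 := hrel (a + c) (by omega) (by unfold reach; omega)
          rw [if_pos h1] at h7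
          have h8 : (if 0 < c then (if adm r a (c - 1) then eps (c - 1) • Tm (c - 1) c (G (c - 1))
              else 0) else 0) = (0 : V c) := by
            by_cases hc0 : 0 < c
            · rw [if_pos hc0, if_neg (fun h' => by unfold adm at h'; omega)]
            · rw [if_neg hc0]
          rw [h8, zero_add] at h7
          rcases smul_eq_zero.mp h7 with h9 | h9
          · exact absurd h9 (Fa_eps_ne _)
          · exact h9
        rw [h3, map_zero, map_zero]
    · by_cases h2 : adm (r + 1) a c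
      · rw [if_neg h1, if_pos h2, Lz_zero A r a b, LinearMap.zero_apply]
        intro h3
        apply h1
        unfold adm reach adj at *
        omega
      · rw [if_neg h1, if_neg h2]
  · rw [Sm_zero hbc, LinearMap.zero_apply, LinearMap.zero_apply, map_zero, ite_self, ite_self]

theorem complete_aux {A : ℝ} (hA : 1 < A) (r a : ℕ) (F : V a)
    (h : ∀ j, j + 2 ≤ r → ev ((model A hA).shn j (star (model A hA).u)) a F = 0) :
    ∃ G : (b : ℕ) → V b,
      F = ∑ b ∈ Finset.range (a + r + 1), if adm r a b then Lz A r a b (G b) else 0 := by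
  induction r with
  | zero =>
    refine ⟨fun b => (rho A a)⁻¹ • Iab b a F, ?_⟩
    rw [Fa_sum_one (d := a)]
    · rw [if_pos (by unfold adm; omega), Lz, LinearMap.smul_apply, map_smul, Iab_self,
        LinearMap.id_apply, LinearMap.id_apply, smul_smul, mul_inv_cancel₀ (rho_ne hA a), one_smul]
    · intro h'; omega
    · intro c hc
      rw [if_neg (fun h' => by unfold adm at h'; omega)]
  | succ r ih =>
    obtain ⟨G, hG⟩ := ih fun j hj => h j (by omega)
    refine ⟨fun c => (rho A c)⁻¹ • Kc r a G c, ?_⟩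
    have hrel : ∀ s, r = s + 1 → ev ((model A hA).shn s (star (model A hA).u)) a
        (∑ b ∈ Finset.range (a + r + 1), if adm r a b then Lz A r a b (G b) else 0) = 0 := by
      intro s hs
      rw [← hG]
      exact h s (by omega)
    have e1 : F = ∑ b ∈ Finset.range (a + r + 4), ∑ c ∈ Finset.range (a + r + 4),
        if adm r a b then Lz A r a b (Sm b c (Tm b c (G b))) else 0 := by
      conv_lhs => rw [hG]
      rw [← Fa_sum_ext (m := a + r + 1) (n := a + r + 4) (by omega)
        (fun b => ∑ c ∈ Finset.range (a + r + 4),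
          if adm r a b then Lz A r a b (Sm b c (Tm b c (G b))) else 0)]
      · refine Finset.sum_congr rfl fun b hb => ?_
        rw [Finset.mem_range] at hb
        by_cases h1 : adm r a b
        · rw [if_pos h1]
          simp only [if_pos h1]
          rw [← Fa_sum_ext (m := b + 2) (by omega)]
          · rw [← map_sum]
            congr 1
            have e2 := LinearMap.congr_fun (sum_Sm_Tm b) (G b)
            rw [LinearMap.sum_apply, LinearMap.id_apply] at e2
            exact e2.symm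
          · intro c hc
            rw [Sm_zero (fun h' => absurd (Fa_adj_lt h') (not_lt.mpr hc)), LinearMap.zero_apply,
              map_zero]
        · simp only [if_neg h1, Finset.sum_const_zero]
      · intro b hb
        refine Finset.sum_eq_zero fun c _ => ?_
        rw [if_neg (fun h' => by unfold adm at h'; omega)]
    have e2 : ∑ c ∈ Finset.range (a + (r + 1) + 1),
        (if adm (r + 1) a c then Lz A (r + 1) a c ((rho A c)⁻¹ • Kc r a G c) else 0)
        = ∑ c ∈ Finset.range (a + r + 4), ∑ b ∈ Finset.range (a + r + 4),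
          if adm (r + 1) a c then Lz A r a b (Sm b c (Kc r a G c)) else 0 := by
      rw [← Fa_sum_ext (m := a + (r + 1) + 1) (n := a + r + 4) (by omega)]
      · refine Finset.sum_congr rfl fun c hc => ?_
        rw [Finset.mem_range] at hc
        by_cases h1 : adm (r + 1) a c
        · simp only [if_pos h1]
          rw [← Fa_sum_ext (m := c + 2) (n := a + r + 4) (by omega)]
          · rw [Lz_right, LinearMap.sum_apply]
            refine Finset.sum_congr rfl fun b _ => ?_
            rw [LinearMap.smul_apply, map_smul, smul_smul, mul_inv_cancel₀ (rho_ne hA c), one_smul,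
              LinearMap.comp_apply]
          · intro b hb
            rw [Sm_zero (fun h' => by unfold adj at h'; omega), LinearMap.zero_apply, map_zero]
        · simp only [if_neg h1, Finset.sum_const_zero]
      · intro c hc
        refine Finset.sum_eq_zero fun b _ => ?_
        rw [if_neg (fun h' => by unfold adm at h'; omega)]
    rw [e2, Finset.sum_comm]
    conv_lhs => rw [e1]
    refine Finset.sum_congr rfl fun b _ => Finset.sum_congr rfl fun c _ => ?_
    exact Fa_pair hA r a G hrel b c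

section facts

variable {A : ℝ} (hA : 1 < A) {r : ℕ} (hr : 0 < r)
include hA hr

theorem Zf_pos {a b : ℕ} (h : adm r a b) : 0 < Zf A r a b := by
  obtain ⟨s, rfl⟩ : ∃ s, r = s + 1 := ⟨r - 1, by omega⟩
  rw [← Zz_eq]
  exact Zz_pos hA _ _ _ h.reach

theorem Zf_symm (a b : ℕ) : Zf A r a b = Zf A r b a := by
  obtain ⟨s, rfl⟩ : ∃ s, r = s + 1 := ⟨r - 1, by omega⟩
  rw [← Zz_eq, ← Zz_eq]
  exact Zz_symm A _ _ _

/-- low paths are favoured -/
theorem Zf_ratio {a b : ℕ} (h : adm r a b) (h' : adm r a (b + 2)) :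
    Zf A r a (b + 2) * dl A (b + 2) ≤ (1 - A⁻¹ ^ 4)⁻¹ * (dl A b * Zf A r a b) := by
  obtain ⟨s, rfl⟩ : ∃ s, r = s + 1 := ⟨r - 1, by omega⟩
  rw [← Zz_eq, ← Zz_eq]
  exact Zz_ratio hA _ _ _ h.1

theorem B_Lh {a b : ℕ} (F : V b) (G : V a) : B (Lh A r a b F) G = B F (Mh A r a b G) := by
  obtain ⟨s, rfl⟩ : ∃ s, r = s + 1 := ⟨r - 1, by omega⟩
  unfold Lh Mh
  by_cases h : adm (s + 1) a b
  · rw [if_pos h, if_pos h, LinearMap.smul_apply, LinearMap.smul_apply, B_smul, Fa_B_smul_right,
      ← Lz_eq, ← Mz_eq, B_Lz]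
  · rw [if_neg h, if_neg h, LinearMap.zero_apply, LinearMap.zero_apply, Fa_B_zero_left,
      Fa_B_zero_right]

theorem Mh_Lh {a b : ℕ} (h : adm r a b) : Mh A r a b ∘ₗ Lh A r a b = LinearMap.id := by
  have hZ := Zf_pos hA hr h
  obtain ⟨s, rfl⟩ : ∃ s, r = s + 1 := ⟨r - 1, by omega⟩
  unfold Lh Mh
  have h1 : 0 < Real.sqrt (Zf A (s + 1) a b) := Real.sqrt_pos.mpr hZ
  rw [if_pos h, if_pos h, LinearMap.smul_comp, LinearMap.comp_smul, ← Lz_eq, ← Mz_eq, Mz_Lz hA,
    Iab_self, smul_smul, smul_smul, Zz_eq]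
  have h2 : (Real.sqrt (Zf A (s + 1) a b))⁻¹ * (Real.sqrt (Zf A (s + 1) a b))⁻¹
      * Zf A (s + 1) a b = 1 := by
    rw [← mul_inv, Real.mul_self_sqrt hZ.le, inv_mul_cancel₀ hZ.ne']
  rw [h2, one_smul]

theorem Mh_Lh_ne {a b c : ℕ} (h : b ≠ c) : Mh A r a b ∘ₗ Lh A r a c = 0 := by
  obtain ⟨s, rfl⟩ : ∃ s, r = s + 1 := ⟨r - 1, by omega⟩
  unfold Lh Mh
  split_ifs
  · rw [LinearMap.smul_comp, LinearMap.comp_smul, ← Lz_eq, ← Mz_eq, Mz_Lz hA, Iab_ne (Ne.symm h),
      smul_zero, smul_zero, smul_zero]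
  · rw [LinearMap.comp_zero]
  · rw [LinearMap.zero_comp]
  · rw [LinearMap.zero_comp]

theorem ev_shn_Lh (x : Rm) (a b : ℕ) :
    ev ((model A hA).shn r x) a ∘ₗ Lh A r a b = Lh A r a b ∘ₗ ev x b := by
  obtain ⟨s, rfl⟩ : ∃ s, r = s + 1 := ⟨r - 1, by omega⟩
  unfold Lh
  split_ifs
  · rw [LinearMap.comp_smul, LinearMap.smul_comp, ← Lz_eq, ev_shn_Lz hA]
  · rw [LinearMap.comp_zero, LinearMap.zero_comp]

theorem cap_Lh (j a b : ℕ) (hj : j + 2 ≤ r) :
    ev ((model A hA).shn j (star (model A hA).u)) a ∘ₗ Lh A r a b = 0 := by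
  obtain ⟨s, rfl⟩ : ∃ s, r = s + 1 := ⟨r - 1, by omega⟩
  unfold Lh
  split_ifs with h
  · rw [LinearMap.comp_smul, ← Lz_eq, cap_Lz hA j (s + 1) a b hj h.2.2.1, smul_zero]
  · rw [LinearMap.comp_zero]

/-- completeness: a vector killed by the inner caps is a combination of fused steps -/
theorem complete (a : ℕ) (F : V a)
    (h : ∀ j, j + 2 ≤ r → ev ((model A hA).shn j (star (model A hA).u)) a F = 0) :
    F = ∑ b ∈ Finset.range (a + r + 1), Lh A r a b (Mh A r a b F) := by
  obtain ⟨G, hG⟩ := complete_aux hA r a F h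
  have e1 : F = ∑ b ∈ Finset.range (a + r + 1), Lh A r a b (Real.sqrt (Zf A r a b) • G b) := by
    conv_lhs => rw [hG]
    refine Finset.sum_congr rfl fun b _ => ?_
    unfold Lh
    split_ifs with hb
    · have hZ := Real.sqrt_pos.mpr (Zf_pos hA hr hb)
      obtain ⟨s, rfl⟩ : ∃ s, r = s + 1 := ⟨r - 1, by omega⟩
      rw [LinearMap.smul_apply, map_smul, smul_smul, inv_mul_cancel₀ hZ.ne', one_smul, Lz_eq]
    · rfl
  have e2 : ∀ b ∈ Finset.range (a + r + 1), Lh A r a b (Mh A r a b F)
      = Lh A r a b (Real.sqrt (Zf A r a b) • G b) := by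
    intro b hb
    by_cases hab : adm r a b
    · congr 1
      conv_lhs => rw [e1]
      rw [map_sum, Finset.sum_eq_single b]
      · have h1 := LinearMap.congr_fun (Mh_Lh hA hr hab) (Real.sqrt (Zf A r a b) • G b)
        rw [LinearMap.comp_apply, LinearMap.id_apply] at h1
        exact h1
      · intro c _ hc
        have h1 := LinearMap.congr_fun (Mh_Lh_ne hA hr (a := a) (Ne.symm hc))
          (Real.sqrt (Zf A r a c) • G c)
        rw [LinearMap.comp_apply, LinearMap.zero_apply] at h1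
        exact h1
      · intro h'
        exact absurd hb h'
    · unfold Lh
      rw [if_neg hab, LinearMap.zero_apply, LinearMap.zero_apply]
  rw [Finset.sum_congr rfl e2]
  exact e1

end facts

end

end Pool.Agent.Tait
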