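import Pool.Agent.Lib.MP_150b40_gt.TLa

/-! # The Jones–Wenzl projector and coloured cups, abstractly -/

namespace Pool.Agent.Tait

variable {R : Type*} [Ring R] [StarRing R] [Algebra ℝ R] [StarModule ℝ R] {A : ℝ}

namespace TL

variable (T : TL R A)

/-! ## iterated shifts -/

theorem TLb_shn_zero (x : R) : T.shn 0 x = x := rfl

theorem TLb_shn_succ (n : ℕ) (x : R) : T.shn (n + 1) x = T.sh (T.shn n x) := rfl

theorem TLb_shn_shn (m n : ℕ) (x : R) : T.shn m (T.shn n x) = T.shn (m + n) x := by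
  induction m with
  | zero => rw [Nat.zero_add]; rfl
  | succ m ih => rw [TLb_shn_succ, ih, Nat.succ_add, TLb_shn_succ]

theorem TLb_shn_succ' (n : ℕ) (x : R) : T.shn (n + 1) x = T.shn n (T.sh x) := by
  rw [← TLb_shn_shn]; rfl

theorem TLb_shn_mul (n : ℕ) (x y : R) : T.shn n (x * y) = T.shn n x * T.shn n y := by
  induction n with
  | zero => rfl
  | succ n ih => rw [TLb_shn_succ, ih, map_mul]; rfl

theorem TLb_shn_one (n : ℕ) : T.shn n (1 : R) = 1 := by
  induction n with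
  | zero => rfl
  | succ n ih => rw [TLb_shn_succ, ih, map_one]

theorem TLb_shn_map_zero (n : ℕ) : T.shn n (0 : R) = 0 := by
  induction n with
  | zero => rfl
  | succ n ih => rw [TLb_shn_succ, ih, map_zero]

theorem TLb_shn_smul (n : ℕ) (c : ℝ) (x : R) : T.shn n (c • x) = c • T.shn n x := by
  induction n with
  | zero => rfl
  | succ n ih => rw [TLb_shn_succ, ih, map_smul]; rfl

theorem TLb_shn_sub (n : ℕ) (x y : R) : T.shn n (x - y) = T.shn n x - T.shn n y := by
  induction n with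
  | zero => rfl
  | succ n ih => rw [TLb_shn_succ, ih, map_sub]; rfl

theorem TLb_shn_star (n : ℕ) (x : R) : T.shn n (star x) = star (T.shn n x) := by
  induction n with
  | zero => rfl
  | succ n ih => rw [TLb_shn_succ, ih, T.sh_star]; rfl

theorem TLb_star_nat (x : R) : star T.u * T.sh (T.sh x) = x * star T.u := by
  have h := congrArg star (T.nat_u (star x))
  rwa [star_mul, star_mul, T.sh_star, T.sh_star, star_star, star_star] at h

/-- far commutation of cups -/
theorem TLb_u_u (a b : ℕ) (x : R) :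
    T.shn (a + b + 2) x * T.shn a T.u = T.shn a T.u * T.shn (a + b) x := by
  have h := congrArg (T.shn a) (T.nat_u (T.shn b x))
  rw [TLb_shn_mul, TLb_shn_mul, ← TLb_shn_succ, ← TLb_shn_succ, TLb_shn_shn, TLb_shn_shn] at h
  exact h

theorem TLb_c_u (a b : ℕ) (x : R) :
    T.shn a (star T.u) * T.shn (a + b + 2) x = T.shn (a + b) x * T.shn a (star T.u) := by
  have h := congrArg (T.shn a) (T.TLb_star_nat (T.shn b x))
  rw [TLb_shn_mul, TLb_shn_mul, ← TLb_shn_succ, ← TLb_shn_succ, TLb_shn_shn, TLb_shn_shn] at h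
  exact h

theorem TLb_shu : T.sh (star T.u) * T.u = 1 := by
  have h := congrArg star T.csu
  rwa [star_mul, star_star, star_one, ← T.sh_star] at h

theorem TLb_NU_zero : T.NU 0 = 1 := rfl

theorem TLb_NU_succ (n : ℕ) : T.NU (n + 1) = T.shn n T.u * T.NU n := rfl

theorem TLb_NU_add (a c : ℕ) : T.NU (a + c) = T.shn a (T.NU c) * T.NU a := by
  induction c with
  | zero => rw [TLb_NU_zero, TLb_shn_one, one_mul]; rfl
  | succ c ih =>
    rw [← Nat.add_assoc, TLb_NU_succ, ih, TLb_NU_succ, TLb_shn_mul, TLb_shn_shn, mul_assoc]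

/-- a cap on the right half of nested cups -/
theorem TLb_cap_NU_right (a b : ℕ) :
    T.shn (a + 2 * b + 2) (star T.u) * T.NU (a + b + 2) = T.shn a T.u * T.NU (a + b) := by
  have h2 : T.NU 2 = T.sh T.u * T.u := by
    rw [TLb_NU_succ, TLb_NU_succ, TLb_NU_zero, mul_one]; rfl
  have h0 : T.shn (2 * b + 2) (star T.u) * T.NU (b + 2) = T.u * T.NU b := by
    rw [Nat.add_comm b 2, TLb_NU_add, Nat.add_comm (2 * b) 2, ← TLb_shn_shn, ← mul_assoc,
      ← TLb_shn_mul, T.nat_NU, TLb_shn_mul, mul_assoc, h2]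
    have h3 : T.shn 2 (star T.u) * (T.sh T.u * T.u) = T.u := by
      have : T.shn 2 (star T.u) = T.sh (T.sh (star T.u)) := rfl
      rw [this, ← mul_assoc, ← map_mul, TLb_shu, map_one, one_mul]
    rw [h3]
    exact T.nat_u _
  rw [show a + b + 2 = a + (b + 2) by ring, TLb_NU_add, show a + 2 * b + 2 = a + (2 * b + 2) by ring,
    ← TLb_shn_shn, ← mul_assoc, ← TLb_shn_mul, h0, TLb_shn_mul, mul_assoc, ← TLb_NU_add]

/-- a cap on the left half of nested cups -/
theorem TLb_cap_NU_left (a b : ℕ) :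
    T.shn a (star T.u) * T.NU (a + b + 2) = T.shn (a + 2 * b) T.u * T.NU (a + b) := by
  have h2 : T.NU 2 = T.sh T.u * T.u := by
    rw [TLb_NU_succ, TLb_NU_succ, TLb_NU_zero, mul_one]; rfl
  have h0 : star T.u * T.NU (b + 2) = T.shn (2 * b) T.u * T.NU b := by
    rw [Nat.add_comm b 2, TLb_NU_add, ← mul_assoc]
    have : T.shn 2 (T.NU b) = T.sh (T.sh (T.NU b)) := rfl
    rw [this, TLb_star_nat, h2, mul_assoc, ← mul_assoc (star T.u), T.csu, one_mul, T.nat_NU]
  rw [show a + b + 2 = a + (b + 2) by ring, TLb_NU_add, ← mul_assoc, ← TLb_shn_mul, h0,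
    TLb_shn_mul, mul_assoc, ← TLb_NU_add, TLb_shn_shn]

theorem TLb_NC_nat (n : ℕ) (x : R) : T.NC n * T.shn (2 * n) x = x * T.NC n := by
  have h := congrArg star (T.nat_NU n (star x))
  rwa [star_mul, star_mul, ← TLb_shn_star, star_star] at h

/-! ## Blocks -/

theorem TLb_S_zero (s : R) : T.S s 0 = 1 := rfl

theorem TLb_S_succ (s : R) (n : ℕ) : T.S s (n + 1) = T.sh (T.S s n) * s := rfl

theorem TLb_X_zero (s : R) (n : ℕ) : T.X s 0 n = 1 := rfl

theorem TLb_X_succ (s : R) (m n : ℕ) : T.X s (m + 1) n = T.S s n * T.sh (T.X s m n) := rfl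

theorem TLb_X_one (s : R) (n : ℕ) : T.X s 1 n = T.S s n := by
  rw [TLb_X_succ, TLb_X_zero, map_one, mul_one]

theorem TLb_S_one (s : R) : T.S s 1 = s := by
  rw [TLb_S_succ, TLb_S_zero, map_one, one_mul]

theorem TLb_X_succ_one (s : R) (m : ℕ) : T.X s (m + 1) 1 = s * T.sh (T.X s m 1) := by
  rw [TLb_X_succ, TLb_S_one]

/-- a crossing slides through a block -/
theorem TLb_X_sg {s : R} (hs : T.Br s) (k n j : ℕ) (hj : j + 2 ≤ k) :
    T.X s k n * T.shn j T.sg = T.shn (n + j) T.sg * T.X s k n := by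
  obtain ⟨m, rfl⟩ : ∃ m, k = m + 2 := ⟨k - 2, by omega⟩
  have hj' : j ≤ m := by omega
  have h1 : T.X s (m + 2) n * T.shn j (T.u * star T.u) =
      T.shn (n + j) (T.u * star T.u) * T.X s (m + 2) n := by
    rw [TLb_shn_mul, TLb_shn_mul, ← mul_assoc, T.X_cup_left hs m n j hj', smul_mul_assoc,
      mul_assoc (T.shn (n + j) T.u) (T.shn (n + j) (star T.u)), T.X_cap_left hs m n j hj',
      mul_smul_comm, mul_assoc]
  unfold sg
  rw [TLb_shn_sub, TLb_shn_sub, TLb_shn_smul, TLb_shn_smul, TLb_shn_smul, TLb_shn_smul,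
    TLb_shn_one, TLb_shn_one, mul_sub, sub_mul, mul_smul_comm, mul_smul_comm, smul_mul_assoc,
    smul_mul_assoc, mul_one, one_mul, h1]

theorem TLb_X_nat {s : R} (hs : T.Br s) (k n m i : ℕ) (hm : i + m + 1 ≤ k) :
    T.X s k n * T.shn i (T.X T.sg m 1) = T.shn (n + i) (T.X T.sg m 1) * T.X s k n := by
  induction m generalizing i with
  | zero => rw [TLb_X_zero, TLb_shn_one, TLb_shn_one, mul_one, one_mul]
  | succ m ih =>
    have h := ih (i + 1) (by omega)
    rw [TLb_X_succ_one, TLb_shn_mul, TLb_shn_mul, ← TLb_shn_succ', ← TLb_shn_succ', ← mul_assoc,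
      T.TLb_X_sg hs k n i (by omega), mul_assoc, h, mul_assoc]
    rfl

/-- the mixed Yang–Baxter relation: `sg` block over, then the single strand, then the rest -/
theorem TLb_slide (hA : A ≠ 0) (m n : ℕ) :
    T.sh (T.X T.sg m n) * T.X T.sg m 1 * T.shn m (T.X T.sg' n 1) =
      T.X T.sg' n 1 * T.shn n (T.X T.sg m 1) * T.X T.sg m n := by
  have hs := T.br_sg hA
  have hs' := T.br_sg' hA
  have i1 : T.X T.sg' n 1 * T.X T.sg 1 n = 1 := T.X_inv hs hs' (T.sg'_mul_sg hA) 1 n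
  have i2 : T.X T.sg 1 n * T.X T.sg' n 1 = 1 := T.X_inv hs' hs (T.sg_mul_sg' hA) n 1
  have i3 : T.shn m (T.X T.sg 1 n) * T.shn m (T.X T.sg' n 1) = 1 := by
    rw [← TLb_shn_mul, i2, TLb_shn_one]
  have e1 : T.X T.sg (1 + m) n = T.X T.sg 1 n * T.sh (T.X T.sg m n) := T.X_add_left 1 m n
  have e2 : T.X T.sg (m + 1) n = T.X T.sg m n * T.shn m (T.X T.sg 1 n) := T.X_add_left m 1 n
  have e3 := T.TLb_X_nat hs (m + 1) n m 0 (by omega)
  simp only [TLb_shn_zero, Nat.add_zero] at e3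
  calc T.sh (T.X T.sg m n) * T.X T.sg m 1 * T.shn m (T.X T.sg' n 1)
      = T.X T.sg' n 1 * (T.X T.sg 1 n * T.sh (T.X T.sg m n)) * T.X T.sg m 1 *
          T.shn m (T.X T.sg' n 1) := by
        rw [← mul_assoc (T.X T.sg' n 1), i1, one_mul]
    _ = T.X T.sg' n 1 * (T.X T.sg (m + 1) n * T.X T.sg m 1) * T.shn m (T.X T.sg' n 1) := by
        rw [← e1, Nat.add_comm 1 m, mul_assoc (T.X T.sg' n 1)]
    _ = T.X T.sg' n 1 * T.shn n (T.X T.sg m 1) * T.X T.sg m n *
          (T.shn m (T.X T.sg 1 n) * T.shn m (T.X T.sg' n 1)) := by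
        rw [e3, e2]; simp only [mul_assoc]
    _ = _ := by rw [i3, mul_one]

/-- the leg of a cup which crosses `r` strands is turned to the other side -/
theorem TLb_leg {s s' : R} (hs' : T.Br s') (hs : T.Br s) (h : s' * s = 1) (r : ℕ) :
    T.sh (T.S s r) * T.u = (-1 : ℝ) ^ r • (T.X s' r 1 * T.shn r T.u) := by
  have h1 : T.sh s * T.u = - (s' * T.sh T.u) := by
    have := congrArg (fun x => s' * x) hs.slideL
    rw [mul_assoc, ← mul_assoc s' s, h, one_mul, mul_neg] at this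
    exact this
  induction r with
  | zero =>
    rw [TLb_S_zero, map_one, one_mul, TLb_X_zero, pow_zero, one_smul, one_mul]; rfl
  | succ r ih =>
    rw [TLb_S_succ, map_mul, mul_assoc, h1, mul_neg, ← mul_assoc, ← hs'.comm, mul_assoc, ← map_mul,
      ih, map_smul, mul_smul_comm, map_mul, ← mul_assoc, ← TLb_X_succ_one, ← TLb_shn_succ, pow_succ,
      mul_neg_one, neg_smul]

/-! ## absorbing crossings -/

theorem TLb_sg_mul {x : R} (k : ℕ) (h : T.shn k (star T.u) * x = 0) :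
    T.shn k T.sg * x = A • x := by
  unfold sg
  rw [TLb_shn_sub, TLb_shn_smul, TLb_shn_smul, TLb_shn_one, TLb_shn_mul, sub_mul, smul_mul_assoc,
    smul_mul_assoc, mul_assoc, h, mul_zero, smul_zero, sub_zero, one_mul]

theorem TLb_mul_sg' {y : R} (k : ℕ) (h : y * T.shn k T.u = 0) :
    y * T.shn k T.sg' = A⁻¹ • y := by
  unfold sg'
  rw [TLb_shn_sub, TLb_shn_smul, TLb_shn_smul, TLb_shn_one, TLb_shn_mul, mul_sub, mul_smul_comm,
    mul_smul_comm, ← mul_assoc, h, zero_mul, smul_zero, sub_zero, mul_one]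

theorem TLb_S_mul {x : R} (k n : ℕ) (h : ∀ j, j + 1 ≤ n → T.shn (k + j) (star T.u) * x = 0) :
    T.shn k (T.S T.sg n) * x = A ^ n • x := by
  induction n generalizing k with
  | zero => rw [TLb_S_zero, TLb_shn_one, one_mul, pow_zero, one_smul]
  | succ n ih =>
    rw [TLb_S_succ, TLb_shn_mul, mul_assoc, T.TLb_sg_mul k (h 0 (by omega)), mul_smul_comm,
      ← TLb_shn_succ', ih (k + 1) (fun j hj => by
        have := h (j + 1) (by omega)
        rwa [show k + (j + 1) = k + 1 + j by ring] at this), smul_smul, pow_succ']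

theorem TLb_X_mul {x : R} (k m n : ℕ) (h : ∀ j, j + 2 ≤ m + n → T.shn (k + j) (star T.u) * x = 0) :
    T.shn k (T.X T.sg m n) * x = A ^ (m * n) • x := by
  induction m generalizing k with
  | zero => rw [TLb_X_zero, TLb_shn_one, one_mul, Nat.zero_mul, pow_zero, one_smul]
  | succ m ih =>
    rw [TLb_X_succ, TLb_shn_mul, mul_assoc, ← TLb_shn_succ', ih (k + 1) (fun j hj => by
        have := h (j + 1) (by omega)
        rwa [show k + (j + 1) = k + 1 + j by ring] at this), mul_smul_comm,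
      T.TLb_S_mul k n (fun j hj => h j (by omega)), smul_smul, ← pow_add, Nat.succ_mul]

theorem TLb_mul_S' {y : R} (k n : ℕ) (h : ∀ j, j + 1 ≤ n → y * T.shn (k + j) T.u = 0) :
    y * T.shn k (T.S T.sg' n) = A⁻¹ ^ n • y := by
  induction n generalizing k y with
  | zero => rw [TLb_S_zero, TLb_shn_one, mul_one, pow_zero, one_smul]
  | succ n ih =>
    rw [TLb_S_succ, TLb_shn_mul, ← mul_assoc, ← TLb_shn_succ', ih (k + 1) (fun j hj => by
        have := h (j + 1) (by omega)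
        rwa [show k + (j + 1) = k + 1 + j by ring] at this), smul_mul_assoc,
      T.TLb_mul_sg' k (h 0 (by omega)), smul_smul, pow_succ]

theorem TLb_mul_X' {y : R} (k n : ℕ) (h : ∀ j, j + 1 ≤ n → y * T.shn (k + j) T.u = 0) :
    y * T.shn k (T.X T.sg' n 1) = A⁻¹ ^ n • y := by
  induction n generalizing k y with
  | zero => rw [TLb_X_zero, TLb_shn_one, mul_one, pow_zero, one_smul]
  | succ n ih =>
    rw [TLb_X_succ_one, TLb_shn_mul, ← mul_assoc, T.TLb_mul_sg' k (h 0 (by omega)),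
      smul_mul_assoc, ← TLb_shn_succ', ih (k + 1) (fun j hj => by
        have := h (j + 1) (by omega)
        rwa [show k + (j + 1) = k + 1 + j by ring] at this), smul_smul, pow_succ']

/-- The recursion for a block crossing on a middle cup, against anything which is killed by the
inner cups of both bundles. -/
theorem TLb_arc (hA : A ≠ 0) (r : ℕ) (y : R) (h1 : ∀ j, j + 2 ≤ r + 1 → y * T.shn j T.u = 0)
    (h2 : ∀ j, j + 2 ≤ r + 1 → y * T.shn (r + 1 + j) T.u = 0) :
    y * T.X T.sg (r + 1) (r + 1) * T.shn r T.u =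
      (-(A⁻¹ ^ (2 * r + 3))) • (y * T.shn r T.u * T.X T.sg r r) := by
  have hs := T.br_sg hA
  have hs' := T.br_sg' hA
  have e1 : T.X T.sg (r + 1) (r + 1) =
      T.sh (T.X T.sg r r) * T.X T.sg r 1 * T.shn r (T.sh (T.S T.sg r) * T.sg) := by
    rw [T.X_add_left r 1 (r + 1), TLb_X_one, TLb_S_succ]
    have := T.X_add_right hs r 1 r
    rw [Nat.add_comm 1 r] at this
    rw [this]; rfl
  have e2 : T.sh (T.S T.sg r) * T.sg * T.u =
      (-(A⁻¹ ^ 3) * (-1) ^ r) • (T.X T.sg' r 1 * T.shn r T.u) := by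
    rw [mul_assoc, T.sg_u hA, mul_smul_comm, T.TLb_leg hs' hs (T.sg'_mul_sg hA), smul_smul]
  have e3 : T.X T.sg r 1 * T.shn r T.u = (-1 : ℝ) ^ r • (T.sh (T.S T.sg' r) * T.u) := by
    rw [T.TLb_leg hs hs' (T.sg_mul_sg' hA), smul_smul, ← mul_pow, neg_one_mul, neg_neg, one_pow,
      one_smul]
  have e4 : T.X T.sg r r * T.shn (r + r) T.u = T.shn (r + r) T.u * T.X T.sg r r :=
    T.X_comm hs r r T.u
  have e5 : T.X T.sg (r + 1) (r + 1) * T.shn r T.u = (-(A⁻¹ ^ 3)) •
      (T.X T.sg' r 1 * T.shn (r + 1) (T.S T.sg' r) * T.shn r T.u * T.X T.sg r r) := by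
    have h := T.TLb_slide hA r r
    calc T.X T.sg (r + 1) (r + 1) * T.shn r T.u
        = T.sh (T.X T.sg r r) * T.X T.sg r 1 * T.shn r (T.sh (T.S T.sg r) * T.sg * T.u) := by
          rw [e1, TLb_shn_mul T r _ T.u, ← mul_assoc]
      _ = (-(A⁻¹ ^ 3) * (-1) ^ r) • (T.sh (T.X T.sg r r) * T.X T.sg r 1 * T.shn r (T.X T.sg' r 1) *
            T.shn (r + r) T.u) := by
          rw [e2, TLb_shn_smul, TLb_shn_mul, mul_smul_comm, ← mul_assoc, TLb_shn_shn]
      _ = (-(A⁻¹ ^ 3) * (-1) ^ r) • (T.X T.sg' r 1 * T.shn r (T.X T.sg r 1 * T.shn r T.u) *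
            T.X T.sg r r) := by
          rw [h, mul_assoc _ (T.X T.sg r r), e4, TLb_shn_mul, TLb_shn_shn]
          simp only [mul_assoc]
      _ = _ := by
          rw [e3, TLb_shn_smul, mul_smul_comm, smul_mul_assoc, smul_smul, mul_assoc (-(A⁻¹ ^ 3)),
            ← mul_pow, neg_one_mul, neg_neg, one_pow, mul_one, TLb_shn_mul, ← TLb_shn_succ']
          simp only [mul_assoc]
  have e6 : y * T.X T.sg' r 1 = A⁻¹ ^ r • y := by
    have := T.TLb_mul_X' (y := y) 0 r (fun j hj => by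
      rw [Nat.zero_add]; exact h1 j (by omega))
    rwa [TLb_shn_zero] at this
  have e7 : y * T.shn (r + 1) (T.S T.sg' r) = A⁻¹ ^ r • y :=
    T.TLb_mul_S' (r + 1) r (fun j hj => h2 j (by omega))
  rw [mul_assoc, e5, mul_smul_comm, ← mul_assoc, ← mul_assoc, ← mul_assoc, e6, smul_mul_assoc, e7,
    smul_smul, smul_mul_assoc, smul_mul_assoc, smul_smul]
  congr 1
  ring

theorem TLb_theta (hA : A ≠ 0) (r : ℕ) (y : R) (h1 : ∀ j, j + 2 ≤ r → y * T.shn j T.u = 0)
    (h2 : ∀ j, j + 2 ≤ r → y * T.shn (r + j) T.u = 0) :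
    y * T.X T.sg r r * T.NU r = ((-1) ^ r * (A⁻¹) ^ (r * (r + 2))) • (y * T.NU r) := by
  induction r generalizing y with
  | zero => rw [TLb_X_zero, mul_one, pow_zero, Nat.zero_mul, pow_zero, mul_one, one_smul]
  | succ r ih =>
    rw [TLb_NU_succ, ← mul_assoc, T.TLb_arc hA r y h1 h2, smul_mul_assoc, ih, smul_smul,
      mul_assoc y]
    · congr 1
      ring
    · intro j hj
      obtain ⟨b, rfl⟩ : ∃ b, r = j + b + 2 := ⟨r - j - 2, by omega⟩
      rw [mul_assoc, TLb_u_u, ← mul_assoc, h1 j (by omega), zero_mul]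
    · intro j hj
      rw [mul_assoc, ← TLb_u_u, ← mul_assoc]
      have := h2 (j + 1) (by omega)
      rw [show r + 1 + (j + 1) = r + j + 2 by ring] at this
      rw [this, zero_mul]

end TL

namespace TL.JW

variable {T : TL R A} {r : ℕ} (J : T.JW r)

theorem cup (j : ℕ) (hj : j + 2 ≤ r) : J.P * T.shn j T.u = 0 := by
  have h := congrArg star (J.cap j hj)
  rwa [star_mul, J.star_eq, TLb_shn_star, star_star, star_zero] at h

theorem right (x : R) (hx : ∀ j, j + 2 ≤ r → x * T.shn j T.u = 0) : x * J.P = x := by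
  have h := J.left (star x) (fun j hj => by
    have h := congrArg star (hx j hj)
    rwa [star_mul, ← TLb_shn_star, star_zero] at h)
  have h' := congrArg star h
  rwa [star_mul, star_star, J.star_eq] at h'

theorem idem : J.P * J.P = J.P := J.left _ J.cap

theorem comm_sh (x : R) : J.P * T.shn r x = T.shn r x * J.P := by
  have h1 : J.P * (T.shn r x * J.P) = T.shn r x * J.P := by
    apply J.left
    intro j hj
    obtain ⟨b, rfl⟩ : ∃ b, r = j + b + 2 := ⟨r - j - 2, by omega⟩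
    rw [← mul_assoc, TLb_c_u, mul_assoc, J.cap j hj, mul_zero]
  have h2 : J.P * T.shn r x * J.P = J.P * T.shn r x := by
    apply J.right
    intro j hj
    obtain ⟨b, rfl⟩ : ∃ b, r = j + b + 2 := ⟨r - j - 2, by omega⟩
    rw [mul_assoc, TLb_u_u, ← mul_assoc, J.cup j hj, zero_mul]
  rw [← h2, mul_assoc, h1]

/-- shifted versions of `left` and `right` -/
theorem TLb_left (k : ℕ) (x : R) (hx : ∀ j, j + 2 ≤ r → T.shn (k + j) (star T.u) * x = 0) :
    T.shn k J.P * x = x := by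
  induction k generalizing x with
  | zero =>
    rw [TLb_shn_zero]
    exact J.left x (fun j hj => by have := hx j hj; rwa [Nat.zero_add] at this)
  | succ k ih =>
    have h1 : T.shn k J.P * (star T.u * T.sh x) = star T.u * T.sh x := by
      apply ih
      intro j hj
      rw [← mul_assoc, ← TLb_star_nat, mul_assoc, ← TLb_shn_succ, ← map_mul, Nat.add_right_comm,
        hx j hj, map_zero, mul_zero]
    have h2 : star T.u * T.sh (T.shn (k + 1) J.P * x) = star T.u * T.sh x := by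
      rw [map_mul, TLb_shn_succ, ← mul_assoc, TLb_star_nat, mul_assoc, h1]
    have h3 := congrArg (fun z => T.sh z * T.u) h2
    have h4 : ∀ z, T.sh (star T.u * T.sh z) * T.u = z := fun z => by
      rw [map_mul, mul_assoc, T.nat_u, ← mul_assoc, TLb_shu, one_mul]
    simp only [h4] at h3
    exact h3

theorem TLb_right (k : ℕ) (x : R) (hx : ∀ j, j + 2 ≤ r → x * T.shn (k + j) T.u = 0) :
    x * T.shn k J.P = x := by
  have h := J.TLb_left k (star x) (fun j hj => by
    have h := congrArg star (hx j hj)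
    rwa [star_mul, ← TLb_shn_star, star_zero] at h)
  have h' := congrArg star h
  rwa [star_mul, star_star, ← TLb_shn_star, J.star_eq] at h'

/-- projector on two neighbouring bundles -/
def Q : R := J.P * T.shn r J.P

theorem Q_idem : J.Q * J.Q = J.Q := by
  unfold Q
  rw [mul_assoc, ← mul_assoc (T.shn r J.P) J.P, ← J.comm_sh, mul_assoc J.P, ← TLb_shn_mul, J.idem,
    ← mul_assoc, J.idem]

theorem TLb_Q' : J.Q = T.shn r J.P * J.P := J.comm_sh J.P

theorem TLb_star_Q : star J.Q = J.Q := by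
  conv_lhs => rw [Q]
  rw [star_mul, J.star_eq, ← TLb_shn_star, J.star_eq, TLb_Q']

theorem TLb_Q_cup1 (j : ℕ) (hj : j + 2 ≤ r) : J.Q * T.shn j T.u = 0 := by
  rw [TLb_Q', mul_assoc, J.cup j hj, mul_zero]

theorem TLb_Q_cup2 (j : ℕ) (hj : j + 2 ≤ r) : J.Q * T.shn (r + j) T.u = 0 := by
  rw [Q, mul_assoc, ← TLb_shn_shn, ← TLb_shn_mul, J.cup j hj, TLb_shn_map_zero, mul_zero]

theorem X_P {s : R} (hs : T.Br s) (m : ℕ) : T.X s r m * J.P = T.shn m J.P * T.X s r m := by
  have h1 : T.shn m J.P * (T.X s r m * J.P) = T.X s r m * J.P := by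
    apply J.TLb_left
    intro j hj
    obtain ⟨b, rfl⟩ : ∃ b, r = b + 2 := ⟨r - 2, by omega⟩
    rw [← mul_assoc, T.X_cap_left hs b m j (by omega), smul_mul_assoc, mul_assoc, J.cap j hj,
      mul_zero, smul_zero]
  have h2 : T.shn m J.P * T.X s r m * J.P = T.shn m J.P * T.X s r m := by
    apply J.right
    intro j hj
    obtain ⟨b, rfl⟩ : ∃ b, r = b + 2 := ⟨r - 2, by omega⟩
    rw [mul_assoc, T.X_cup_left hs b m j (by omega), mul_smul_comm, ← mul_assoc, ← TLb_shn_shn,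
      ← TLb_shn_mul, J.cup j hj, TLb_shn_map_zero, zero_mul, smul_zero]
  rw [← h2, mul_assoc, h1]

theorem X_shP {s : R} (hs : T.Br s) (m : ℕ) : T.X s m r * T.shn m J.P = J.P * T.X s m r := by
  have h1 : J.P * (T.X s m r * T.shn m J.P) = T.X s m r * T.shn m J.P := by
    apply J.left
    intro j hj
    obtain ⟨b, rfl⟩ : ∃ b, r = b + 2 := ⟨r - 2, by omega⟩
    rw [← mul_assoc, T.X_cap_right hs m b j (by omega), smul_mul_assoc, mul_assoc, ← TLb_shn_shn,
      ← TLb_shn_mul, J.cap j hj, TLb_shn_map_zero, mul_zero, smul_zero]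
  have h2 : J.P * T.X s m r * T.shn m J.P = J.P * T.X s m r := by
    apply J.TLb_right
    intro j hj
    obtain ⟨b, rfl⟩ : ∃ b, r = b + 2 := ⟨r - 2, by omega⟩
    rw [mul_assoc, T.X_cup_right hs m b j (by omega), mul_smul_comm, ← mul_assoc, J.cup j hj,
      zero_mul, smul_zero]
  rw [← h2, mul_assoc, h1]

theorem X_Q {s : R} (hs : T.Br s) : T.X s r r * J.Q = J.Q * T.X s r r := by
  rw [Q, ← mul_assoc, J.X_P hs, mul_assoc, J.X_shP hs, ← mul_assoc, ← J.comm_sh]

/-- the projector can be moved around nested cups -/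
theorem P_NU : J.P * T.NU r = T.shn r J.P * T.NU r := by
  have h1 : T.shn r J.P * (J.P * T.NU r) = J.P * T.NU r := by
    apply J.TLb_left
    intro j hj
    obtain ⟨b, rfl⟩ : ∃ b, r = b + j + 2 := ⟨r - j - 2, by omega⟩
    have h := T.TLb_cap_NU_right b j
    rw [show b + 2 * j + 2 = b + j + 2 + j by ring] at h
    rw [← TLb_shn_shn, ← mul_assoc, ← J.comm_sh, mul_assoc, TLb_shn_shn, h, ← mul_assoc,
      J.cup b (by omega), zero_mul]
  have h2 : J.P * (T.shn r J.P * T.NU r) = T.shn r J.P * T.NU r := by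
    apply J.left
    intro j hj
    obtain ⟨b, rfl⟩ : ∃ b, r = j + b + 2 := ⟨r - j - 2, by omega⟩
    rw [← mul_assoc, TLb_c_u, mul_assoc, T.TLb_cap_NU_left j b, ← mul_assoc,
      show j + 2 * b = j + b + b by ring, ← TLb_shn_shn T (j + b) b, ← TLb_shn_mul,
      J.cup b (by omega), TLb_shn_map_zero, zero_mul]
  rw [← h1, ← mul_assoc, ← J.comm_sh, mul_assoc, h2]

/-- colored cup -/
def cupc : R := J.Q * T.NU r

theorem TLb_cupc : J.cupc = J.P * T.NU r := by
  unfold cupc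
  rw [Q, mul_assoc, ← J.P_NU, ← mul_assoc, J.idem]

theorem TLb_cupc' : J.cupc = T.shn r J.P * T.NU r := by
  rw [TLb_cupc, J.P_NU]

theorem P_cupc : J.P * J.cupc = J.cupc := by
  rw [TLb_cupc, ← mul_assoc, J.idem]

theorem shP_cupc : T.shn r J.P * J.cupc = J.cupc := by
  rw [TLb_cupc', ← mul_assoc, ← TLb_shn_mul, J.idem]

/-- colored zigzags -/
theorem zigc : star J.cupc * T.shn r J.cupc = J.P := by
  have h1 : star J.cupc = T.NC r * J.P := by
    rw [TLb_cupc, star_mul, J.star_eq]; rfl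
  rw [h1]
  conv_lhs => rw [TLb_cupc']
  rw [TLb_shn_mul, TLb_shn_shn, mul_assoc, ← mul_assoc J.P, ← two_mul]
  have h2 : J.P * T.shn (2 * r) J.P = T.shn (2 * r) J.P * J.P := by
    rw [two_mul, ← TLb_shn_shn]
    exact J.comm_sh _
  rw [h2, mul_assoc, J.comm_sh, ← mul_assoc, TLb_NC_nat, mul_assoc, ← mul_assoc (T.NC r), T.zig,
    one_mul, J.idem]

theorem zagc : T.shn r (star J.cupc) * J.cupc = J.P := by
  have h := congrArg star J.zigc
  rwa [star_mul, star_star, ← TLb_shn_star, J.star_eq] at h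

theorem nat_cupc (x : R) : T.shn (2 * r) x * J.cupc = J.cupc * x := by
  rw [TLb_cupc, ← mul_assoc, two_mul, ← TLb_shn_shn, ← J.comm_sh, TLb_shn_shn, ← two_mul,
    mul_assoc, T.nat_NU, mul_assoc]

/-- a coloured strand slides over a coloured cup -/
theorem slidec {s : R} (hs : T.Br s) :
    T.shn r (T.X s r r) * T.X s r r * T.shn r J.cupc = (-1 : ℝ) ^ r • J.cupc := by
  have h1 : T.X s r (2 * r) = T.shn r (T.X s r r) * T.X s r r := by
    rw [two_mul]; exact T.X_add_right hs r r r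
  have h2 : (-1 : ℝ) ^ (r * r) = (-1) ^ r := by
    rcases Nat.even_or_odd r with h | h
    · rw [h.neg_one_pow, (h.mul_right r).neg_one_pow]
    · rw [h.neg_one_pow, (h.mul h).neg_one_pow]
  rw [TLb_cupc, TLb_shn_mul, mul_assoc, ← mul_assoc (T.X s r r), J.X_shP hs, ← mul_assoc,
    ← mul_assoc, ← J.comm_sh, mul_assoc J.P, ← h1, mul_assoc, T.X_NU_right hs, mul_smul_comm, h2]

/-- Reidemeister 1 on a coloured cup -/
theorem r1c (hA : A ≠ 0) : T.X T.sg r r * J.cupc = ((-1) ^ r * (A⁻¹) ^ (r * (r + 2))) • J.cupc := by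
  unfold cupc
  rw [← mul_assoc, J.X_Q (T.br_sg hA), T.TLb_theta hA r J.Q J.TLb_Q_cup1 J.TLb_Q_cup2]

theorem r1c' (hA : A ≠ 0) : T.X T.sg' r r * J.cupc = ((-1) ^ r * A ^ (r * (r + 2))) • J.cupc := by
  have h := congrArg (fun z => T.X T.sg' r r * z) (J.r1c hA)
  rw [← mul_assoc, T.X_inv (T.br_sg hA) (T.br_sg' hA) (T.sg'_mul_sg hA), one_mul, mul_smul_comm] at h
  have h3 := congrArg (fun z => ((-1) ^ r * A ^ (r * (r + 2)) : ℝ) • z) h
  simp only [smul_smul] at h3
  have h4 : ((-1) ^ r * A ^ (r * (r + 2)) : ℝ) * ((-1) ^ r * A⁻¹ ^ (r * (r + 2))) = 1 := by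
    rw [mul_mul_mul_comm, ← mul_pow, ← mul_pow, neg_one_mul, neg_neg, one_pow, one_mul,
      mul_inv_cancel₀ hA, one_pow]
  rw [h4, one_smul] at h3
  exact h3.symm

/-- a crossing bundle on a projector of double size -/
theorem X_top {J2 : T.JW (2 * r)} (hA : A ≠ 0) : T.X T.sg r r * J2.P = A ^ (r * r) • J2.P := by
  have h := T.TLb_X_mul (x := J2.P) 0 r r (fun j hj => by
    rw [Nat.zero_add]; exact J2.cap j (by omega))
  rwa [TLb_shn_zero] at h

/-- the recursion used for the spectral bound -/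
theorem X_arc (J' : T.JW (r + 1)) (hA : A ≠ 0) :
    J'.Q * T.X T.sg (r + 1) (r + 1) * T.shn r T.u =
      (-(A⁻¹ ^ (2 * r + 3))) • (J'.Q * T.shn r T.u * T.X T.sg r r) :=
  T.TLb_arc hA r J'.Q J'.TLb_Q_cup1 J'.TLb_Q_cup2

end TL.JW

end Pool.Agent.Tait
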