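import Pool.Agent.Lib.MP_150b40_gt.Fa
import Pool.Agent.Lib.MP_150b40_gt.TLb

/-! # The Jones–Wenzl projector in the height model -/

namespace Pool.Agent.Tait

noncomputable section

section aux

/-- the pairing as a linear form -/
def Fb_Bl {a : ℕ} (G : V a) : V a →ₗ[ℝ] ℝ where
  toFun F := B F G
  map_add' F F' := B_add F F' G
  map_smul' x F := B_smul x F G

theorem Fb_Bl_apply {a : ℕ} (F G : V a) : Fb_Bl G F = B F G := rfl

theorem Fb_B_sum {a : ℕ} {ι : Type*} (s : Finset ι) (f : ι → V a) (G : V a) :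
    B (∑ i ∈ s, f i) G = ∑ i ∈ s, B (f i) G := by
  rw [← Fb_Bl_apply, map_sum]; rfl

theorem Fb_B_sum_right {a : ℕ} {ι : Type*} (s : Finset ι) (f : ι → V a) (G : V a) :
    B G (∑ i ∈ s, f i) = ∑ i ∈ s, B G (f i) := by
  rw [B_comm, Fb_B_sum]; exact Finset.sum_congr rfl fun i _ => B_comm _ _

theorem Fb_B_smul_right {a : ℕ} (x : ℝ) (F G : V a) : B F (x • G) = x * B F G := by
  rw [B_comm, B_smul, B_comm]

theorem Fb_B_ext {a : ℕ} {x y : V a} (h : ∀ G, B x G = B y G) : x = y := by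
  have h1 : B (x - y) (x - y) = 0 := by
    rw [← Fb_Bl_apply, map_sub, Fb_Bl_apply, Fb_Bl_apply, h, sub_self]
  exact sub_eq_zero.1 (B_self_eq_zero _ h1)

theorem Fb_B_zero_right {a : ℕ} (F : V a) : B F 0 = 0 := by
  have := Fb_B_smul_right (0 : ℝ) F 0
  rw [zero_smul, zero_mul] at this; exact this

/-- changing the range of a sum whose terms vanish unless `adj a x` -/
theorem Fb_range {M : Type*} [AddCommMonoid M] (a N : ℕ) (hN : a + 2 ≤ N) (f : ℕ → M)
    (hf : ∀ x, ¬ adj a x → f x = 0) :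
    ∑ x ∈ Finset.range (a + 2), f x = ∑ x ∈ Finset.range N, f x := by
  refine Finset.sum_subset (Finset.range_mono hN) ?_
  intro x _ hx
  refine hf x ?_
  rw [Finset.mem_range] at hx
  unfold adj; omega

theorem Fb_adj_symm {a b : ℕ} : adj a b ↔ adj b a := by unfold adj; omega

theorem Fb_rho_mul_self {A : ℝ} (hA : 1 < A) (x : ℕ) : rho A x * rho A x = (dl A x)⁻¹ := by
  have h1 : eps x * eps x = 1 := by
    unfold eps
    rw [← mul_pow]; norm_num
  unfold rho
  rw [div_mul_div_comm, h1, Real.mul_self_sqrt (dl_pos hA x).le, one_div]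

theorem Fb_rho_ne {A : ℝ} (hA : 1 < A) (x : ℕ) : rho A x ≠ 0 := by
  intro h
  have := Fb_rho_mul_self hA x
  rw [h, zero_mul] at this
  exact (inv_pos.2 (dl_pos hA x)).ne this

theorem Fb_rho_inv {A : ℝ} (hA : 1 < A) (x : ℕ) : (rho A x)⁻¹ = eps x * Real.sqrt (dl A x) := by
  have h1 : eps x * eps x = 1 := by
    unfold eps
    rw [← mul_pow]; norm_num
  have h2 : (eps x)⁻¹ = eps x := by
    have : eps x ≠ 0 := by intro h; rw [h] at h1; norm_num at h1
    field_simp; rw [sq]; exact h1.symm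
  unfold rho
  rw [inv_div, div_eq_mul_inv, h2, mul_comm]

theorem Fb_Lf_zero {A : ℝ} (r : ℕ) : ∀ a b : ℕ,
    ¬ (a ≤ b + r ∧ b ≤ a + r ∧ (a + b + r) % 2 = 0) → Lf A r a b = 0 := by
  induction r with
  | zero => intro a b _; rfl
  | succ r ih =>
    intro a b h
    rcases r with _ | r
    · show (rho A a * rho A b) • Sm a b = 0
      rw [Sm_zero, smul_zero]
      unfold adj; omega
    · show ∑ c ∈ Finset.range (a + 2), rho A a • (Sm a c ∘ₗ Lf A (r + 1) c b) = 0
      refine Finset.sum_eq_zero fun c _ => ?_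
      by_cases hc : adj a c
      · rw [ih c b (by unfold adj at hc; omega), LinearMap.comp_zero, smul_zero]
      · rw [Sm_zero hc, LinearMap.zero_comp, smul_zero]

theorem Fb_Lf_left {A : ℝ} (r a b N : ℕ) (hr : 0 < r) (hN : a + 2 ≤ N) : Lf A (r + 1) a b =
    ∑ c ∈ Finset.range N, rho A a • (Sm a c ∘ₗ Lf A r c b) := by
  obtain ⟨r, rfl⟩ : ∃ s, r = s + 1 := ⟨r - 1, by omega⟩
  show ∑ c ∈ Finset.range (a + 2), rho A a • (Sm a c ∘ₗ Lf A (r + 1) c b) = _
  refine Fb_range a N hN _ ?_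
  intro x hx
  rw [Sm_zero hx, LinearMap.zero_comp, smul_zero]

theorem Fb_comp_sum {A B C : Type*} [AddCommGroup A] [AddCommGroup B] [AddCommGroup C]
    [Module ℝ A] [Module ℝ B] [Module ℝ C] {ι : Type*} (s : Finset ι) (g : B →ₗ[ℝ] C)
    (f : ι → (A →ₗ[ℝ] B)) : g ∘ₗ (∑ i ∈ s, f i) = ∑ i ∈ s, g ∘ₗ f i := by
  ext x; simp

theorem Fb_sum_comp {A B C : Type*} [AddCommGroup A] [AddCommGroup B] [AddCommGroup C]
    [Module ℝ A] [Module ℝ B] [Module ℝ C] {ι : Type*} (s : Finset ι) (g : A →ₗ[ℝ] B)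
    (f : ι → (B →ₗ[ℝ] C)) : (∑ i ∈ s, f i) ∘ₗ g = ∑ i ∈ s, f i ∘ₗ g := by
  ext x; simp

theorem Fb_Lf_right {A : ℝ} (r : ℕ) (hr : 0 < r) : ∀ a c N : ℕ, c + 2 ≤ N → Lf A (r + 1) a c =
    ∑ b ∈ Finset.range N, rho A c • (Lf A r a b ∘ₗ Sm b c) := by
  induction r with
  | zero => omega
  | succ r ih =>
    intro a c N hN
    rcases Nat.eq_zero_or_pos r with rfl | hr'
    · rw [← Fb_range c N hN _ (fun x hx => by
        rw [Sm_zero (fun h => hx (Fb_adj_symm.1 h)), LinearMap.comp_zero, smul_zero])]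
      rw [Fb_range c (a + c + 2) (by omega) _ (fun x hx => by
        rw [Sm_zero (fun h => hx (Fb_adj_symm.1 h)), LinearMap.comp_zero, smul_zero])]
      rw [Fb_Lf_left 1 a c (a + c + 2) one_pos (by omega)]
      refine Finset.sum_congr rfl fun b _ => ?_
      show rho A a • (Sm a b ∘ₗ ((rho A b * rho A c) • Sm b c)) =
        rho A c • (((rho A a * rho A b) • Sm a b) ∘ₗ Sm b c)
      rw [LinearMap.comp_smul, LinearMap.smul_comp, smul_smul, smul_smul]
      congr 1; ring
    · rw [Fb_Lf_left (r + 1) a c (a + 2) (by omega) le_rfl]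
      have h1 : ∀ b, Lf A (r + 1) a b = ∑ x ∈ Finset.range (a + 2),
          rho A a • (Sm a x ∘ₗ Lf A r x b) := fun b => Fb_Lf_left r a b (a + 2) hr' le_rfl
      simp only [h1, ih hr' _ c N hN, Fb_comp_sum, Fb_sum_comp, Finset.smul_sum]
      rw [Finset.sum_comm]
      refine Finset.sum_congr rfl fun b _ => Finset.sum_congr rfl fun x _ => ?_
      rw [LinearMap.comp_smul, LinearMap.smul_comp, smul_smul, smul_smul, mul_comm,
        LinearMap.comp_assoc]

theorem Fb_Lf_add {A : ℝ} (hA : 1 < A) (r s : ℕ) (hr : 0 < r) (hs : 0 < s) :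
    ∀ a c N : ℕ, a + r + 1 ≤ N → Lf A (r + s) a c =
    ∑ b ∈ Finset.range N, (rho A b)⁻¹ • (Lf A r a b ∘ₗ Lf A s b c) := by
  induction r with
  | zero => omega
  | succ r ih =>
    intro a c N hN
    rcases Nat.eq_zero_or_pos r with rfl | hr'
    · rw [show 0 + 1 + s = s + 1 by ring, Fb_Lf_left s a c N hs (by omega)]
      refine Finset.sum_congr rfl fun b _ => ?_
      show _ = (rho A b)⁻¹ • (((rho A a * rho A b) • Sm a b) ∘ₗ Lf A s b c)
      rw [LinearMap.smul_comp, smul_smul]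
      congr 1
      field_simp [Fb_rho_ne hA b]
    · rw [show r + 1 + s = (r + s) + 1 by ring, Fb_Lf_left (r + s) a c (a + 2) (by omega) le_rfl]
      have h1 : ∀ b, Lf A (r + 1) a b = ∑ x ∈ Finset.range (a + 2),
          rho A a • (Sm a x ∘ₗ Lf A r x b) := fun b => Fb_Lf_left r a b (a + 2) hr' le_rfl
      have h2 : ∀ x ∈ Finset.range (a + 2), rho A a • (Sm a x ∘ₗ Lf A (r + s) x c) =
          ∑ b ∈ Finset.range N, rho A a • (Sm a x ∘ₗ
            ((rho A b)⁻¹ • (Lf A r x b ∘ₗ Lf A s b c))) := by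
        intro x hx
        rw [Finset.mem_range] at hx
        rw [ih hr' x c N (by omega), Fb_comp_sum, Finset.smul_sum]
      rw [Finset.sum_congr rfl h2, Finset.sum_comm]
      refine Finset.sum_congr rfl fun b _ => ?_
      rw [h1, Fb_sum_comp, Finset.smul_sum]
      refine Finset.sum_congr rfl fun x _ => ?_
      rw [LinearMap.comp_smul, LinearMap.smul_comp, smul_smul, smul_smul, mul_comm,
        LinearMap.comp_assoc]

theorem Fb_ev_shn_Lf {A : ℝ} (hA : 1 < A) (x : Rm) (r : ℕ) (hr : 0 < r) : ∀ a b : ℕ,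
    ev ((model A hA).shn r x) a ∘ₗ Lf A r a b = Lf A r a b ∘ₗ ev x b := by
  induction r with
  | zero => omega
  | succ r ih =>
    intro a b
    rcases Nat.eq_zero_or_pos r with rfl | hr'
    · show ev ((model A hA).sh x) a ∘ₗ ((rho A a * rho A b) • Sm a b) =
        ((rho A a * rho A b) • Sm a b) ∘ₗ ev x b
      rw [LinearMap.comp_smul, LinearMap.smul_comp, ev_sh_Sm]
    · rw [Fb_Lf_left r a b (a + 2) hr' le_rfl, Fb_comp_sum, Fb_sum_comp]
      refine Finset.sum_congr rfl fun c _ => ?_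
      show ev ((model A hA).sh ((model A hA).shn r x)) a ∘ₗ (rho A a • (Sm a c ∘ₗ Lf A r c b)) = _
      rw [LinearMap.comp_smul, LinearMap.smul_comp, ← LinearMap.comp_assoc, ev_sh_Sm,
        LinearMap.comp_assoc, ih hr', LinearMap.comp_assoc]

theorem Fb_cE {A : ℝ} (x b : ℕ) (h : adj x b) :
    cE A x ∘ₗ Sm x b ∘ₗ Sm b x = wt A x b • LinearMap.id := by
  unfold cE
  rw [Fb_sum_comp, Finset.sum_eq_single b]
  · rw [LinearMap.smul_comp]
    congr 1
    rw [LinearMap.comp_assoc, ← LinearMap.comp_assoc (Sm b x) (Sm x b) (Tm x b), Tm_Sm h,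
      LinearMap.id_comp, Tm_Sm (Fb_adj_symm.1 h)]
  · intro b' _ hb'
    rw [LinearMap.smul_comp, LinearMap.comp_assoc,
      ← LinearMap.comp_assoc (Sm b x) (Sm x b) (Tm x b'), Tm_Sm_ne hb', LinearMap.zero_comp,
      LinearMap.comp_zero, smul_zero]
  · intro hb
    exfalso
    rw [Finset.mem_range] at hb
    unfold adj at h; omega

theorem Fb_cE_ne {A : ℝ} (x b y : ℕ) (h : y ≠ x) :
    cE A x ∘ₗ Sm x b ∘ₗ Sm b y = 0 := by
  unfold cE
  rw [Fb_sum_comp]
  refine Finset.sum_eq_zero fun b' _ => ?_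
  rw [LinearMap.smul_comp, LinearMap.comp_assoc,
    ← LinearMap.comp_assoc (Sm b y) (Sm x b) (Tm x b')]
  by_cases hb : b' = b
  · subst hb
    by_cases hx : adj x b'
    · rw [Tm_Sm hx, LinearMap.id_comp, Tm_Sm_ne (Ne.symm h), smul_zero]
    · rw [Sm_zero hx, LinearMap.comp_zero, LinearMap.zero_comp, LinearMap.comp_zero, smul_zero]
  · rw [Tm_Sm_ne hb, LinearMap.zero_comp, LinearMap.comp_zero, smul_zero]

theorem Fb_NC_succ {A : ℝ} (hA : 1 < A) (r a : ℕ) : ev ((model A hA).NC (r + 1)) a =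
    ev ((model A hA).NC r) a ∘ₗ ev ((model A hA).shn r (star (model A hA).u)) a := by
  have h1 : (model A hA).NC (r + 1) =
      (model A hA).NC r * (model A hA).shn r (star (model A hA).u) := by
    have h2 : ∀ (n : ℕ) (x : Rm), (model A hA).shn n (star x) = star ((model A hA).shn n x) := by
      intro n x
      induction n with
      | zero => rfl
      | succ n ih =>
        show (model A hA).sh ((model A hA).shn n (star x)) = star ((model A hA).sh _)
        rw [ih, (model A hA).sh_star]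
    show star ((model A hA).shn r (model A hA).u * (model A hA).NU r) = _
    rw [star_mul, h2]; rfl
  rw [h1, ev_mul]

theorem Fb_Zf_right {A : ℝ} (hA : 1 < A) (r a b N : ℕ) (hr : 0 < r) (hN : b + 2 ≤ N) :
    Zf A (r + 1) a b =
      ∑ c ∈ Finset.range N, if adj b c then (dl A b)⁻¹ * Zf A r a c else 0 := by
  rw [Zf_symm hA (Nat.succ_pos r)]
  obtain ⟨r, rfl⟩ : ∃ s, r = s + 1 := ⟨r - 1, by omega⟩
  show ∑ c ∈ Finset.range (b + 2), (if adj b c then (dl A b)⁻¹ * Zf A (r + 1) c a else 0) = _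
  rw [Fb_range b N hN _ (fun x hx => if_neg hx)]
  refine Finset.sum_congr rfl fun c _ => ?_
  rw [Zf_symm hA (Nat.succ_pos r) c a]

theorem Fb_wt_mul {A : ℝ} (hA : 1 < A) (a b c : ℕ) : wt A a b * wt A b c = wt A a c := by
  unfold wt
  have h1 := dl_pos hA a
  have h2 := dl_pos hA b
  have h3 := dl_pos hA c
  rw [← Real.sqrt_mul (by positivity)]
  congr 1
  field_simp

theorem Fb_NC {A : ℝ} (hA : 1 < A) (r : ℕ) (hr : 0 < r) : ∀ a b : ℕ,
    ev ((model A hA).NC r) a ∘ₗ Lf A r a b ∘ₗ Lf A r b a =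
      (wt A a b * Zf A r a b) • LinearMap.id ∧
    ∀ c, c ≠ a → ev ((model A hA).NC r) a ∘ₗ Lf A r a b ∘ₗ Lf A r b c = 0 := by
  induction r with
  | zero => omega
  | succ r ih =>
    intro a b
    rcases Nat.eq_zero_or_pos r with rfl | hr'
    · have h0 : ev ((model A hA).NC (0 + 1)) a = cE A a := by
        rw [Fb_NC_succ, ← ev_star_u hA]
        have : ev ((model A hA).NC 0) a = LinearMap.id := by
          show ev (star (1 : Rm)) a = _
          rw [star_one]; rfl
        rw [this, LinearMap.id_comp]; rfl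
      have h1 : ∀ c, ev ((model A hA).NC (0 + 1)) a ∘ₗ Lf A (0 + 1) a b ∘ₗ Lf A (0 + 1) b c =
          ((rho A a * rho A b) * (rho A b * rho A c)) • (cE A a ∘ₗ Sm a b ∘ₗ Sm b c) := by
        intro c
        rw [h0]
        show cE A a ∘ₗ ((rho A a * rho A b) • Sm a b) ∘ₗ ((rho A b * rho A c) • Sm b c) = _
        rw [LinearMap.smul_comp, LinearMap.comp_smul, LinearMap.comp_smul, LinearMap.comp_smul,
          smul_smul]
      constructor
      · rw [h1]
        show _ = (wt A a b * (if adj a b then (dl A a)⁻¹ * (dl A b)⁻¹ else 0)) • LinearMap.id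
        by_cases h : adj a b
        · rw [Fb_cE a b h, if_pos h, smul_smul]
          congr 1
          rw [← Fb_rho_mul_self hA a, ← Fb_rho_mul_self hA b]; ring
        · rw [if_neg h, Sm_zero h, LinearMap.zero_comp, LinearMap.comp_zero, smul_zero, mul_zero,
            zero_smul]
      · intro c hc
        rw [h1, Fb_cE_ne a b c hc, smul_zero]
    · have h1 : ∀ c, ev ((model A hA).NC (r + 1)) a ∘ₗ Lf A (r + 1) a b ∘ₗ Lf A (r + 1) b c =
          ∑ x ∈ Finset.range (b + 2), (if adj b x then (dl A b)⁻¹ * wt A x b else 0) •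
            (ev ((model A hA).NC r) a ∘ₗ Lf A r a x ∘ₗ Lf A r x c) := by
        intro c
        rw [Fb_NC_succ, Fb_Lf_right r hr' a b (b + 2) le_rfl, Fb_sum_comp, Fb_comp_sum]
        refine Finset.sum_congr rfl fun x _ => ?_
        rw [Fb_Lf_left r b c (b + 2) hr' le_rfl, Fb_comp_sum, Fb_comp_sum]
        have h2 : ∀ y, (ev ((model A hA).NC r) a ∘ₗ
            ev ((model A hA).shn r (star (model A hA).u)) a) ∘ₗ
            (rho A b • (Lf A r a x ∘ₗ Sm x b)) ∘ₗ (rho A b • (Sm b y ∘ₗ Lf A r y c)) =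
            (dl A b)⁻¹ • (ev ((model A hA).NC r) a ∘ₗ Lf A r a x ∘ₗ
              (cE A x ∘ₗ Sm x b ∘ₗ Sm b y) ∘ₗ Lf A r y c) := by
          intro y
          rw [LinearMap.smul_comp, LinearMap.comp_smul, LinearMap.comp_smul, LinearMap.comp_smul,
            smul_smul, Fb_rho_mul_self hA]
          congr 1
          rw [← ev_star_u hA x]
          have h3 := Fb_ev_shn_Lf hA (star (model A hA).u) r hr' a x
          refine LinearMap.ext fun F => ?_
          have h4 := fun F => LinearMap.congr_fun h3 F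
          simp only [LinearMap.comp_apply] at h4 ⊢
          rw [h4]
        simp only [h2]
        by_cases hx : adj b x
        · rw [if_pos hx, Finset.sum_eq_single x]
          · rw [Fb_cE x b (Fb_adj_symm.1 hx), LinearMap.smul_comp, LinearMap.id_comp,
              LinearMap.comp_smul, LinearMap.comp_smul, smul_smul]
          · intro y _ hy
            rw [Fb_cE_ne x b y hy, LinearMap.zero_comp, LinearMap.comp_zero,
              LinearMap.comp_zero, smul_zero]
          · intro h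
            exfalso
            rw [Finset.mem_range] at h
            unfold adj at hx; omega
        · rw [if_neg hx, zero_smul]
          refine Finset.sum_eq_zero fun y _ => ?_
          rw [Sm_zero (fun h => hx (Fb_adj_symm.1 h)), LinearMap.zero_comp, LinearMap.comp_zero,
            LinearMap.zero_comp, LinearMap.comp_zero, LinearMap.comp_zero, smul_zero]
      constructor
      · rw [h1, Fb_Zf_right hA r a b (b + 2) hr' le_rfl, Finset.mul_sum, Finset.sum_smul]
        refine Finset.sum_congr rfl fun x _ => ?_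
        rw [(ih hr' a x).1, smul_smul]
        congr 1
        by_cases hx : adj b x
        · rw [if_pos hx, if_pos hx, ← Fb_wt_mul hA a x b]; ring
        · rw [if_neg hx, if_neg hx]; ring
      · intro c hc
        rw [h1]
        refine Finset.sum_eq_zero fun x _ => ?_
        rw [(ih hr' a x).2 c hc, smul_zero]

theorem Fb_NC_Lh {A : ℝ} (hA : 1 < A) {r : ℕ} (hr : 0 < r) (a b : ℕ) (h : adm r a b) :
    ev ((model A hA).NC r) a ∘ₗ Lh A r a b ∘ₗ Lh A r b a = wt A a b • LinearMap.id := by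
  have h' : adm r b a := by unfold adm at h ⊢; omega
  unfold Lh
  rw [if_pos h, if_pos h', LinearMap.smul_comp, LinearMap.comp_smul, LinearMap.comp_smul,
    LinearMap.comp_smul, smul_smul, (Fb_NC hA r hr a b).1, smul_smul, Zf_symm hA hr b a]
  congr 1
  have h1 := Zf_pos hA hr h
  rw [← mul_inv, Real.mul_self_sqrt h1.le]
  field_simp

theorem Fb_NC_Lh_ne {A : ℝ} (hA : 1 < A) {r : ℕ} (hr : 0 < r) (a b c : ℕ) (h : c ≠ a) :
    ev ((model A hA).NC r) a ∘ₗ Lh A r a b ∘ₗ Lh A r b c = 0 := by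
  unfold Lh
  by_cases h1 : adm r a b
  · by_cases h2 : adm r b c
    · rw [if_pos h1, if_pos h2, LinearMap.smul_comp, LinearMap.comp_smul, LinearMap.comp_smul,
        LinearMap.comp_smul, (Fb_NC hA r hr a b).2 c h, smul_zero, smul_zero]
    · rw [if_neg h2, LinearMap.comp_zero, LinearMap.comp_zero]
  · rw [if_neg h1, LinearMap.zero_comp, LinearMap.comp_zero]

/-- the projector as a family -/
def Fb_PE (A : ℝ) (r : ℕ) : EE := fun a =>
  ∑ b ∈ Finset.range (a + r + 1), Lh A r a b ∘ₗ Mh A r a b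

theorem Fb_PE_adj {A : ℝ} (hA : 1 < A) {r : ℕ} (hr : 0 < r) : IsAdj (Fb_PE A r) (Fb_PE A r) := by
  intro a F G
  unfold Fb_PE
  rw [LinearMap.sum_apply, LinearMap.sum_apply, Fb_B_sum, Fb_B_sum_right]
  refine Finset.sum_congr rfl fun b _ => ?_
  rw [LinearMap.comp_apply, LinearMap.comp_apply, B_Lh hA hr, B_comm, ← B_Lh hA hr, B_comm]

end aux

/-- The Jones–Wenzl projector. -/
def jw (A : ℝ) (hA : 1 < A) (r : ℕ) (hr : 0 < r) : (model A hA).JW r where
  P := mkR (Fb_PE A r) (Fb_PE A r) (Fb_PE_adj hA hr)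
  star_eq := star_mkR _ _ _
  cap := by
    intro j hj
    refine Rm_ext fun a => ?_
    rw [ev_mul]
    show ev _ a ∘ₗ (∑ b ∈ Finset.range (a + r + 1), Lh A r a b ∘ₗ Mh A r a b) = 0
    rw [Fb_comp_sum]
    refine Finset.sum_eq_zero fun b _ => ?_
    rw [← LinearMap.comp_assoc, cap_Lh hA hr j a b hj, LinearMap.zero_comp]
  left := by
    intro x hx
    refine Rm_ext fun a => ?_
    rw [ev_mul]
    refine LinearMap.ext fun F => ?_
    have h := complete hA hr a (ev x a F) ?_
    · conv_rhs => rw [h]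
      show (∑ b ∈ Finset.range (a + r + 1), Lh A r a b ∘ₗ Mh A r a b) (ev x a F) = _
      rw [LinearMap.sum_apply]; rfl
    · intro j hj
      have h1 := congrArg (fun y => ev y a F) (hx j hj)
      exact h1

section facts2

variable {A : ℝ} (hA : 1 < A) {r : ℕ} (hr : 0 < r)
include hA hr

theorem ev_P (a : ℕ) : ev (jw A hA r hr).P a =
    ∑ b ∈ Finset.range (a + r + 1), Lh A r a b ∘ₗ Mh A r a b := rfl

theorem Fb_ev_Q (a : ℕ) : ev (jw A hA r hr).Q a =
    ∑ b ∈ Finset.range (a + r + 1), ∑ c ∈ Finset.range (b + r + 1),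
      Lh A r a b ∘ₗ Lh A r b c ∘ₗ Mh A r b c ∘ₗ Mh A r a b := by
  show ev ((jw A hA r hr).P * (model A hA).shn r (jw A hA r hr).P) a = _
  rw [(jw A hA r hr).comm_sh, ev_mul, ev_P, Fb_comp_sum]
  refine Finset.sum_congr rfl fun b _ => ?_
  rw [← LinearMap.comp_assoc, ev_shn_Lh hA hr, ev_P, LinearMap.comp_assoc, Fb_sum_comp,
    Fb_comp_sum]
  refine Finset.sum_congr rfl fun c _ => ?_
  rw [LinearMap.comp_assoc]

theorem Fb_MM_NU (a b : ℕ) (h : adm r a b) (F : V a) :
    Mh A r b a (Mh A r a b (ev ((model A hA).NU r) a F)) = wt A a b • F := by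
  refine Fb_B_ext fun G => ?_
  rw [B_comm, ← B_Lh hA hr, ← B_Lh hA hr, B_comm, ev_star, B_smul]
  have h1 := LinearMap.congr_fun (Fb_NC_Lh hA hr a b h) G
  simp only [LinearMap.comp_apply, LinearMap.smul_apply, LinearMap.id_apply] at h1
  show B F (ev ((model A hA).NC r) a _) = _
  rw [h1, Fb_B_smul_right]

theorem Fb_MM_NU_ne (a b c : ℕ) (h : c ≠ a) (F : V a) :
    Mh A r b c (Mh A r a b (ev ((model A hA).NU r) a F)) = 0 := by
  refine Fb_B_ext fun G => ?_
  rw [B_comm, ← B_Lh hA hr, ← B_Lh hA hr, B_comm, ev_star]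
  have h1 := LinearMap.congr_fun (Fb_NC_Lh_ne hA hr a b c h) G
  simp only [LinearMap.comp_apply, LinearMap.zero_apply] at h1
  show B F (ev ((model A hA).NC r) a _) = _
  rw [h1, Fb_B_zero_right, B_comm, Fb_B_zero_right]

/-- coloured cup -/
theorem ev_cupc (a : ℕ) : ev (jw A hA r hr).cupc a =
    ∑ b ∈ Finset.range (a + r + 1), wt A a b • (Lh A r a b ∘ₗ Lh A r b a) := by
  show ev ((jw A hA r hr).Q * (model A hA).NU r) a = _
  rw [ev_mul, Fb_ev_Q hA hr, Fb_sum_comp]
  refine Finset.sum_congr rfl fun b _ => ?_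
  rw [Fb_sum_comp]
  by_cases hab : adm r a b
  · rw [Finset.sum_eq_single a]
    · refine LinearMap.ext fun F => ?_
      simp only [LinearMap.comp_apply, LinearMap.smul_apply]
      rw [Fb_MM_NU hA hr a b hab, map_smul, map_smul]
    · intro c _ hc
      refine LinearMap.ext fun F => ?_
      simp only [LinearMap.comp_apply, LinearMap.zero_apply]
      rw [Fb_MM_NU_ne hA hr a b c hc, map_zero, map_zero]
    · intro h
      exfalso
      rw [Finset.mem_range] at h
      unfold adm at hab; omega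
  · have h0 : Lh A r a b = 0 := if_neg hab
    rw [h0, LinearMap.zero_comp, smul_zero]
    refine Finset.sum_eq_zero fun c _ => ?_
    rw [LinearMap.zero_comp, LinearMap.zero_comp]

/-- coloured cap -/
theorem ev_star_cupc (a : ℕ) : ev (star (jw A hA r hr).cupc) a =
    ∑ b ∈ Finset.range (a + r + 1), wt A a b • (Mh A r b a ∘ₗ Mh A r a b) := by
  refine LinearMap.ext fun F => ?_
  refine Fb_B_ext fun G => ?_
  rw [B_comm, ← ev_star, ev_cupc hA hr, LinearMap.sum_apply, LinearMap.sum_apply, Fb_B_sum,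
    Fb_B_sum]
  refine Finset.sum_congr rfl fun b _ => ?_
  rw [LinearMap.smul_apply, LinearMap.smul_apply, LinearMap.comp_apply, LinearMap.comp_apply,
    B_smul, B_smul, B_Lh hA hr, B_Lh hA hr, B_comm]

/-- coefficients of the fused step of colour `2r` -/
def vco (A : ℝ) (r a c b : ℕ) : ℝ :=
  eps b * Real.sqrt (dl A b * Zf A r a b * Zf A r b c / Zf A (2 * r) a c)

omit hA hr in
theorem vco_def (A : ℝ) (r a c b : ℕ) : vco A r a c b =
  eps b * Real.sqrt (dl A b * Zf A r a b * Zf A r b c / Zf A (2 * r) a c) := rfl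

theorem Lh_double {a c : ℕ} (h : adm (2 * r) a c) : Lh A (2 * r) a c =
    ∑ b ∈ Finset.range (a + r + 1), vco A r a c b • (Lh A r a b ∘ₗ Lh A r b c) := by
  have h2r : 0 < 2 * r := by omega
  have hZ := Zf_pos hA h2r h
  conv_lhs => unfold Lh
  rw [if_pos h, show 2 * r = r + r by ring, Fb_Lf_add hA r r hr hr a c (a + r + 1) le_rfl,
    Finset.smul_sum]
  refine Finset.sum_congr rfl fun b _ => ?_
  by_cases h1 : a ≤ b + r ∧ b ≤ a + r ∧ (a + b + r) % 2 = 0
  · by_cases h2 : b ≤ c + r ∧ c ≤ b + r ∧ (b + c + r) % 2 = 0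
    · have h3 : adm r a b := by unfold adm at h ⊢; omega
      have h4 : adm r b c := by unfold adm at h ⊢; omega
      unfold Lh
      rw [if_pos h3, if_pos h4, LinearMap.smul_comp, LinearMap.comp_smul, smul_smul, smul_smul,
        smul_smul]
      congr 1
      have hZ1 := Zf_pos hA hr h3
      have hZ2 := Zf_pos hA hr h4
      have hd := dl_pos hA b
      rw [Fb_rho_inv hA, vco, show 2 * r = r + r by ring, Real.sqrt_div (by positivity),
        Real.sqrt_mul (by positivity), Real.sqrt_mul (by positivity)]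
      have q1 := Real.sqrt_pos.2 hZ1
      have q2 := Real.sqrt_pos.2 hZ2
      have q3 : 0 < Real.sqrt (Zf A (r + r) a c) := by
        rw [← show 2 * r = r + r by ring]; exact Real.sqrt_pos.2 hZ
      field_simp
    · have h3 : Lf A r b c = 0 := Fb_Lf_zero r b c h2
      have h4 : Lh A r b c = 0 := by unfold Lh; rw [h3, smul_zero, ite_self]
      rw [h3, h4, LinearMap.comp_zero, LinearMap.comp_zero, smul_zero, smul_zero, smul_zero]
  · have h3 : Lf A r a b = 0 := Fb_Lf_zero r a b h1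
    have h4 : Lh A r a b = 0 := by unfold Lh; rw [h3, smul_zero, ite_self]
    rw [h3, h4, LinearMap.zero_comp, LinearMap.zero_comp, smul_zero, smul_zero, smul_zero]

/-- coefficients of the recursion `r → r+1` -/
def mco (A : ℝ) (r a b c : ℕ) : ℝ := rho A c * Real.sqrt (Zf A r a b / Zf A (r + 1) a c)

omit hA hr in
theorem mco_def (A : ℝ) (r a b c : ℕ) :
  mco A r a b c = rho A c * Real.sqrt (Zf A r a b / Zf A (r + 1) a c) := rfl

theorem Lh_succ_right {a c : ℕ} (h : adm (r + 1) a c) : Lh A (r + 1) a c =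
    ∑ b ∈ Finset.range (c + 2), mco A r a b c • (Lh A r a b ∘ₗ Sm b c) := by
  have hZ := Zf_pos hA (Nat.succ_pos r) h
  conv_lhs => unfold Lh
  rw [if_pos h, Fb_Lf_right r hr a c (c + 2) le_rfl, Finset.smul_sum]
  refine Finset.sum_congr rfl fun b _ => ?_
  by_cases hb : adj b c
  · by_cases h1 : a ≤ b + r ∧ b ≤ a + r ∧ (a + b + r) % 2 = 0
    · have h3 : adm r a b := by unfold adm adj at *; omega
      have hZ1 := Zf_pos hA hr h3
      unfold Lh
      rw [if_pos h3, LinearMap.smul_comp, smul_smul, smul_smul]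
      congr 1
      rw [mco, Real.sqrt_div hZ1.le]
      have q1 := Real.sqrt_pos.2 hZ1
      have q2 := Real.sqrt_pos.2 hZ
      have q3 : Real.sqrt (Zf A (r + 1) a c) ≠ 0 := q2.ne'
      field_simp
    · have h3 : Lf A r a b = 0 := Fb_Lf_zero r a b h1
      have h4 : Lh A r a b = 0 := by unfold Lh; rw [h3, smul_zero, ite_self]
      rw [h3, h4, LinearMap.zero_comp, smul_zero, smul_zero, smul_zero]
  · rw [Sm_zero hb, LinearMap.comp_zero, LinearMap.comp_zero, smul_zero, smul_zero, smul_zero]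

theorem Lh_succ_left {a c : ℕ} (h : adm (r + 1) a c) : Lh A (r + 1) a c =
    ∑ b ∈ Finset.range (a + 2), mco A r c b a • (Sm a b ∘ₗ Lh A r b c) := by
  have hZ := Zf_pos hA (Nat.succ_pos r) h
  conv_lhs => unfold Lh
  rw [if_pos h, Fb_Lf_left r a c (a + 2) hr le_rfl, Finset.smul_sum]
  refine Finset.sum_congr rfl fun b _ => ?_
  by_cases hb : adj a b
  · by_cases h1 : b ≤ c + r ∧ c ≤ b + r ∧ (b + c + r) % 2 = 0
    · have h3 : adm r b c := by unfold adm adj at *; omega
      have hZ1 := Zf_pos hA hr h3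
      unfold Lh
      rw [if_pos h3, LinearMap.comp_smul, smul_smul, smul_smul]
      congr 1
      rw [mco, Zf_symm hA hr c b, Zf_symm hA (Nat.succ_pos r) c a, Real.sqrt_div hZ1.le]
      have q1 := Real.sqrt_pos.2 hZ1
      have q2 := Real.sqrt_pos.2 hZ
      have q3 : Real.sqrt (Zf A (r + 1) a c) ≠ 0 := q2.ne'
      field_simp
    · have h3 : Lf A r b c = 0 := Fb_Lf_zero r b c h1
      have h4 : Lh A r b c = 0 := by unfold Lh; rw [h3, smul_zero, ite_self]
      rw [h3, h4, LinearMap.comp_zero, smul_zero, smul_zero, smul_zero]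
  · rw [Sm_zero hb, LinearMap.zero_comp, LinearMap.zero_comp, smul_zero, smul_zero, smul_zero]

end facts2

end

end Pool.Agent.Tait
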