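import Pool.Agent.Lib.MP_150b40_gt.Fb

/-! # The coloured crossing -/

namespace Pool.Agent.Tait

noncomputable section

/-! ## auxiliary facts on the pairing -/

theorem Fc_B_ext {a : ℕ} {F F' : V a} (h : ∀ G, B F G = B F' G) : F = F' := by
  have h1 : B (F + (-1 : ℝ) • F') (F + (-1 : ℝ) • F') = 0 := by
    rw [B_add, B_smul, h]
    ring
  have h2 := B_self_eq_zero _ h1
  have h3 : F = F + (-1 : ℝ) • F' + F' := by
    rw [neg_smul, one_smul, neg_add_cancel_right]
  rw [h3, h2, zero_add]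

theorem Fc_B_zero {a : ℕ} (G : V a) : B 0 G = 0 := by
  have := B_smul (0 : ℝ) (0 : V a) G
  rwa [zero_smul, zero_mul] at this

theorem Fc_B_smul_right {a : ℕ} (x : ℝ) (F G : V a) : B F (x • G) = x * B F G := by
  rw [B_comm, B_smul, B_comm]

/-! ## elements of the ring supported at one height -/

/-- the rank one operator -/
def Fc_rk {c : ℕ} (p q : V c) : Module.End ℝ (V c) where
  toFun F := B F q • p
  map_add' F G := by rw [B_add, add_smul]
  map_smul' x F := by rw [B_smul, mul_smul]; rfl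

theorem Fc_rk_apply {c : ℕ} (p q F : V c) : Fc_rk p q F = B F q • p := rfl

/-- a family supported at one height -/
def Fc_fam (c : ℕ) (f : Module.End ℝ (V c)) : EE := fun a => if h : a = c then h ▸ f else 0

theorem Fc_fam_self (c : ℕ) (f : Module.End ℝ (V c)) : Fc_fam c f c = f := by
  simp [Fc_fam]

theorem Fc_fam_ne {a c : ℕ} (h : a ≠ c) (f : Module.End ℝ (V c)) : Fc_fam c f a = 0 := by
  simp [Fc_fam, h]

theorem Fc_fam_adj {c : ℕ} {f g : Module.End ℝ (V c)} (h : ∀ F G, B (f F) G = B F (g G)) :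
    IsAdj (Fc_fam c f) (Fc_fam c g) := by
  intro a
  by_cases hac : a = c
  · subst hac
    intro F G
    rw [Fc_fam_self, Fc_fam_self]
    exact h F G
  · intro F G
    rw [Fc_fam_ne hac, Fc_fam_ne hac, LinearMap.zero_apply, LinearMap.zero_apply, Fc_B_zero, B_comm,
      Fc_B_zero]

/-- the rank one element of the ring -/
def Fc_el {c : ℕ} (p q : V c) : Rm :=
  mkR (Fc_fam c (Fc_rk p q)) (Fc_fam c (Fc_rk q p)) (Fc_fam_adj fun F G => by
    rw [Fc_rk_apply, Fc_rk_apply, B_smul, Fc_B_smul_right, B_comm p G]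
    ring)

theorem Fc_ev_el {c : ℕ} (p q F : V c) : ev (Fc_el p q) c F = B F q • p := by
  show Fc_fam c (Fc_rk p q) c F = _
  rw [Fc_fam_self, Fc_rk_apply]

/-- the identity at one height -/
def Fc_id (c : ℕ) : Rm := mkR (Fc_fam c 1) (Fc_fam c 1) (Fc_fam_adj fun _ _ => rfl)

theorem Fc_ev_id (c : ℕ) (F : V c) : ev (Fc_id c) c F = F := by
  show Fc_fam c 1 c F = _
  rw [Fc_fam_self]
  rfl

theorem Fc_ev_id_ne {a c : ℕ} (h : a ≠ c) (F : V a) : ev (Fc_id c) a F = 0 := by
  show Fc_fam c 1 a F = _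
  rw [Fc_fam_ne h]
  rfl

/-- a path -/
def Fc_pth (c : ℕ) : Path c := ⟨fun j => c + j + 1, Or.inl rfl, fun _ => Or.inl rfl⟩

/-- a unit vector -/
def Fc_q (c : ℕ) : V c := Finsupp.single (Fc_pth c) 1

theorem Fc_B_q (c : ℕ) : B (Fc_q c) (Fc_q c) = 1 := by
  unfold B Fc_q
  rw [Finsupp.sum_single_index (by simp)]
  simp

theorem Fc_scalar {c : ℕ} (φ : V c →ₗ[ℝ] V c) (h : ∀ y : Rm, ∀ F, ev y c (φ F) = φ (ev y c F))
    (F : V c) : φ F = B (φ (Fc_q c)) (Fc_q c) • F := by
  have h1 := h (Fc_el F (Fc_q c)) (Fc_q c)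
  rw [Fc_ev_el, Fc_ev_el, Fc_B_q, one_smul] at h1
  exact h1.symm

theorem Fc_zero {c e : ℕ} (hce : c ≠ e) (φ : V c →ₗ[ℝ] V e)
    (h : ∀ y : Rm, ∀ F, ev y e (φ F) = φ (ev y c F)) (F : V c) : φ F = 0 := by
  have h1 := h (Fc_id c) F
  rw [Fc_ev_id, Fc_ev_id_ne hce.symm] at h1
  exact h1.symm

/-! ## iterated shifts and rotation, abstractly -/

section abstract

variable {R : Type*} [Ring R] [StarRing R] [Algebra ℝ R] [StarModule ℝ R] {A : ℝ}

theorem Fc_star_shn (T : TL R A) (n : ℕ) (x : R) : star (T.shn n x) = T.shn n (star x) := by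
  induction n with
  | zero => rfl
  | succ n ih =>
    show star (T.sh (T.shn n x)) = T.sh (T.shn n (star x))
    rw [← ih, T.sh_star]

theorem Fc_shn_shn (T : TL R A) (m n : ℕ) (x : R) : T.shn (m + n) x = T.shn m (T.shn n x) := by
  induction m with
  | zero => rw [Nat.zero_add]; rfl
  | succ m ih =>
    rw [Nat.succ_add]
    show T.sh (T.shn (m + n) x) = _
    rw [ih]
    rfl

theorem Fc_shn_mul (T : TL R A) (n : ℕ) (x y : R) : T.shn n (x * y) = T.shn n x * T.shn n y := by
  induction n with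
  | zero => rfl
  | succ n ih =>
    show T.sh (T.shn n (x * y)) = T.sh (T.shn n x) * T.sh (T.shn n y)
    rw [ih, map_mul]

variable {T : TL R A} {r : ℕ} (J : T.JW r)

theorem Fc_cupc : J.cupc = J.P * T.NU r := by
  show J.P * T.shn r J.P * T.NU r = _
  rw [mul_assoc, ← J.P_NU, ← mul_assoc, J.idem]

theorem Fc_cupc' : J.cupc = T.shn r J.P * T.NU r := by
  rw [Fc_cupc, J.P_NU]

theorem Fc_star_cupc : star J.cupc = T.NC r * J.P := by
  rw [Fc_cupc, star_mul, J.star_eq]
  rfl

theorem Fc_star_Q : star J.Q = J.Q := by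
  show star (J.P * T.shn r J.P) = J.P * T.shn r J.P
  rw [star_mul, Fc_star_shn, J.star_eq, ← J.comm_sh]

theorem Fc_P1_Q : T.shn r J.P * J.Q = J.Q := by
  show T.shn r J.P * (J.P * T.shn r J.P) = J.P * T.shn r J.P
  rw [← mul_assoc, ← J.comm_sh, mul_assoc, ← Fc_shn_mul, J.idem]

theorem Fc_P0_Q : J.P * J.Q = J.Q := by
  show J.P * (J.P * T.shn r J.P) = J.P * T.shn r J.P
  rw [← mul_assoc, J.idem]

/-- the rotated crossing with projectors -/
theorem Fc_rot_ring (hA : A ≠ 0) : ((-1 : ℝ) ^ r • T.X T.sg' r r) * J.Q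
    = star J.cupc * (T.shn r (T.X T.sg r r) * (T.shn (r + r) J.cupc * J.Q)) := by
  have hs := T.br_sg hA
  have hs' := T.br_sg' hA
  have hrot := T.X_rot hs hs' (T.sg'_mul_sg hA) (T.sg_mul_sg' hA) r
  have h2r : 2 * r = r + r := two_mul r
  rw [h2r] at hrot
  -- commutation rules
  have c1 : T.shn r (T.X T.sg r r) * T.shn (r + r) (T.shn r J.P)
      = T.shn (r + r) (T.shn r J.P) * T.shn r (T.X T.sg r r) := by
    rw [Fc_shn_shn T r r, ← Fc_shn_mul, ← Fc_shn_mul, ← Fc_shn_shn T r r,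
      T.X_comm hs r r]
  have c2 : T.shn (r + r) J.P * T.shn r (T.X T.sg r r)
      = T.shn r (T.X T.sg r r) * T.shn r J.P := by
    rw [Fc_shn_shn T r r, ← Fc_shn_mul, ← Fc_shn_mul, J.X_P hs r]
  have c3 : T.shn r J.P * T.shn (r + r) (T.NU r) = T.shn (r + r) (T.NU r) * T.shn r J.P := by
    rw [Fc_shn_shn T r r, ← Fc_shn_mul, ← Fc_shn_mul, J.comm_sh]
  have c4 : ∀ x, J.P * T.shn r x = T.shn r x * J.P := J.comm_sh
  have c5 : ∀ x, J.P * T.shn (r + r) x = T.shn (r + r) x * J.P := by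
    intro x
    rw [Fc_shn_shn T r r]
    exact c4 _
  have hcup : T.shn (r + r) J.cupc = T.shn (r + r) (T.shn r J.P) * T.shn (r + r) (T.NU r) := by
    rw [← Fc_shn_mul, ← Fc_cupc' J]
  have hQNC : J.Q * T.NC r = T.NC r * T.shn (r + r) J.Q := by
    have h1 := congrArg star (T.nat_NU r J.Q)
    rw [star_mul, star_mul, h2r, Fc_star_shn, Fc_star_Q] at h1
    exact h1.symm
  have hQ2 : T.shn (r + r) J.Q = T.shn (r + r) (T.shn r J.P) * T.shn (r + r) J.P := by
    rw [← Fc_shn_mul, ← c4]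
    rfl
  -- the left hand side
  have hM : ((-1 : ℝ) ^ r • T.X T.sg' r r) * J.Q
      = J.Q * ((-1 : ℝ) ^ r • T.X T.sg' r r) * J.Q := by
    have h1 : ((-1 : ℝ) ^ r • T.X T.sg' r r) * J.Q = J.Q * ((-1 : ℝ) ^ r • T.X T.sg' r r) := by
      rw [smul_mul_assoc, mul_smul_comm, J.X_Q hs']
    conv_lhs => rw [← J.Q_idem]
    rw [← mul_assoc, h1]
  rw [hM, ← hrot]
  calc J.Q * (T.NC r * T.shn r (T.X T.sg r r) * T.shn (r + r) (T.NU r)) * J.Q
      = (J.Q * T.NC r) * T.shn r (T.X T.sg r r) * T.shn (r + r) (T.NU r) * J.Q := by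
        simp only [mul_assoc]
    _ = T.NC r * (T.shn (r + r) (T.shn r J.P) * T.shn (r + r) J.P) * T.shn r (T.X T.sg r r)
          * T.shn (r + r) (T.NU r) * J.Q := by
        rw [hQNC, hQ2]
    _ = T.NC r * T.shn (r + r) (T.shn r J.P) * (T.shn (r + r) J.P * T.shn r (T.X T.sg r r))
          * T.shn (r + r) (T.NU r) * J.Q := by
        simp only [mul_assoc]
    _ = T.NC r * T.shn (r + r) (T.shn r J.P) * T.shn r (T.X T.sg r r)
          * (T.shn r J.P * T.shn (r + r) (T.NU r)) * J.Q := by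
        rw [c2]
        simp only [mul_assoc]
    _ = T.NC r * (T.shn (r + r) (T.shn r J.P) * T.shn r (T.X T.sg r r)) * T.shn (r + r) (T.NU r)
          * (T.shn r J.P * J.Q) := by
        rw [c3]
        simp only [mul_assoc]
    _ = T.NC r * T.shn r (T.X T.sg r r) * T.shn (r + r) (T.shn r J.P) * T.shn (r + r) (T.NU r)
          * J.Q := by
        rw [← c1, Fc_P1_Q]
        simp only [mul_assoc]
    _ = T.NC r * T.shn r (T.X T.sg r r) * T.shn (r + r) J.cupc * (J.P * J.Q) := by
        rw [hcup, Fc_P0_Q]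
        simp only [mul_assoc]
    _ = T.NC r * T.shn r (T.X T.sg r r) * (T.shn (r + r) J.cupc * J.P) * J.Q := by
        simp only [mul_assoc]
    _ = T.NC r * (T.shn r (T.X T.sg r r) * J.P) * T.shn (r + r) J.cupc * J.Q := by
        rw [← c5]
        simp only [mul_assoc]
    _ = T.NC r * J.P * (T.shn r (T.X T.sg r r) * (T.shn (r + r) J.cupc * J.Q)) := by
        rw [← c4]
        simp only [mul_assoc]
    _ = _ := by rw [Fc_star_cupc]

end abstract

section facts2

variable {A : ℝ} (hA : 1 < A) {r : ℕ} (hr : 0 < r)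
include hA hr

theorem Fc_Mh_shn (x : Rm) (a b : ℕ) (F : V a) :
    Mh A r a b (ev ((model A hA).shn r x) a F) = ev x b (Mh A r a b F) := by
  apply Fc_B_ext
  intro G
  rw [B_comm, ← B_Lh hA hr, B_comm, ev_star, Fc_star_shn]
  have h1 := LinearMap.congr_fun (ev_shn_Lh hA hr (star x) a b) G
  simp only [LinearMap.comp_apply] at h1
  rw [h1, B_comm, B_Lh hA hr, ev_star, star_star, B_comm]

theorem Fc_shn_Lh (x : Rm) (a b : ℕ) (F : V b) :
    ev ((model A hA).shn r x) a (Lh A r a b F) = Lh A r a b (ev x b F) :=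
  LinearMap.congr_fun (ev_shn_Lh hA hr x a b) F

omit hA hr in
theorem Fc_Lh_zero {a b : ℕ} (h : ¬ adm r a b) : Lh A r a b = 0 := by
  unfold Lh
  rw [if_neg h]

omit hA hr in
theorem Fc_Mh_zero {a b : ℕ} (h : ¬ adm r a b) : Mh A r a b = 0 := by
  unfold Mh
  rw [if_neg h]

theorem Fc_Mh_Lh {a b : ℕ} (h : adm r a b) (F : V b) : Mh A r a b (Lh A r a b F) = F :=
  LinearMap.congr_fun (Mh_Lh hA hr h) F

theorem Fc_Mh_Lh_ne {a b c : ℕ} (h : b ≠ c) (F : V c) : Mh A r a b (Lh A r a c F) = 0 :=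
  LinearMap.congr_fun (Mh_Lh_ne hA hr h) F

theorem Fc_P_Lh (a b : ℕ) (F : V b) : ev (jw A hA r hr).P a (Lh A r a b F) = Lh A r a b F := by
  by_cases h : adm r a b
  · rw [ev_P hA hr, LinearMap.sum_apply, Finset.sum_eq_single b]
    · rw [LinearMap.comp_apply, Fc_Mh_Lh hA hr h]
    · intro d _ hd
      rw [LinearMap.comp_apply, Fc_Mh_Lh_ne hA hr hd, map_zero]
    · intro hb
      exfalso
      apply hb
      rw [Finset.mem_range]
      have := h.2.1
      omega
  · rw [Fc_Lh_zero h, LinearMap.zero_apply, map_zero]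

theorem Fc_Q_Lh (a b c : ℕ) (F : V c) :
    ev (jw A hA r hr).Q a (Lh A r a b (Lh A r b c F)) = Lh A r a b (Lh A r b c F) := by
  show ev (jw A hA r hr).P a (ev ((model A hA).shn r (jw A hA r hr).P) a
    (Lh A r a b (Lh A r b c F))) = _
  rw [Fc_shn_Lh hA hr, Fc_P_Lh hA hr, Fc_P_Lh hA hr]

theorem Fc_ev_Q (a : ℕ) (G : V a) : ev (jw A hA r hr).Q a G
    = ∑ d ∈ Finset.range (a + r + 1), ∑ e ∈ Finset.range (d + r + 1),
      Lh A r a d (Lh A r d e (Mh A r d e (Mh A r a d G))) := by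
  have h1 : (jw A hA r hr).Q = (model A hA).shn r (jw A hA r hr).P * (jw A hA r hr).P :=
    (jw A hA r hr).comm_sh _
  rw [h1, ev_mul, LinearMap.comp_apply, ev_P hA hr, LinearMap.sum_apply, map_sum]
  refine Finset.sum_congr rfl fun d _ => ?_
  rw [LinearMap.comp_apply, Fc_shn_Lh hA hr, ev_P hA hr, LinearMap.sum_apply, map_sum]
  rfl

theorem Fc_shn2_Lh (x : Rm) (a b c : ℕ) (F : V c) :
    ev ((model A hA).shn (r + r) x) a (Lh A r a b (Lh A r b c F))
      = Lh A r a b (Lh A r b c (ev x c F)) := by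
  rw [Fc_shn_shn, Fc_shn_Lh hA hr, Fc_shn_Lh hA hr]

theorem Fc_Mh_shn2 (x : Rm) (a b c : ℕ) (F : V a) :
    Mh A r b c (Mh A r a b (ev ((model A hA).shn (r + r) x) a F))
      = ev x c (Mh A r b c (Mh A r a b F)) := by
  rw [Fc_shn_shn, Fc_Mh_shn hA hr, Fc_Mh_shn hA hr]

/-- existence of the coloured crossing matrix; `s` is `sg` or `sg'`. -/
theorem exists_cross (s : Rm) (hs : (model A hA).Br s) :
    ∃ X : ℕ → ℕ → ℕ → ℕ → ℝ, (∀ a c b d, X a c b d ≠ 0 → adm r a b ∧ adm r b c ∧ adm r a d ∧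
        adm r d c) ∧ (∀ a c b d, X a c b d = X a c d b) ∧
      ∀ a b c, ev ((model A hA).X s r r) a ∘ₗ Lh A r a b ∘ₗ Lh A r b c =
        ∑ d ∈ Finset.range (a + r + 1), X a c b d • (Lh A r a d ∘ₗ Lh A r d c) := by
  set Y : Rm := (model A hA).X s r r with hY
  have hYc : ∀ y : Rm, Y * (model A hA).shn (r + r) y = (model A hA).shn (r + r) y * Y :=
    (model A hA).X_comm hs r r
  have hYs : star Y = Y := (model A hA).star_X hs r r
  have hYQ : Y * (jw A hA r hr).Q = (jw A hA r hr).Q * Y := (jw A hA r hr).X_Q hs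
  -- the matrix coefficients, as operators
  set φ : (a b c d e : ℕ) → (V c →ₗ[ℝ] V e) := fun a b c d e =>
    Mh A r d e ∘ₗ Mh A r a d ∘ₗ ev Y a ∘ₗ Lh A r a b ∘ₗ Lh A r b c with hφ
  have hφa : ∀ a b c d e F, φ a b c d e F
      = Mh A r d e (Mh A r a d (ev Y a (Lh A r a b (Lh A r b c F)))) := fun _ _ _ _ _ _ => rfl
  have hcomm : ∀ a b c d e, ∀ y : Rm, ∀ F, ev y e (φ a b c d e F) = φ a b c d e (ev y c F) := by
    intro a b c d e y F
    rw [hφa, hφa, ← Fc_Mh_shn2 hA hr, ← Fc_shn2_Lh hA hr]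
    have h1 : ∀ G, ev ((model A hA).shn (r + r) y) a (ev Y a G)
        = ev Y a (ev ((model A hA).shn (r + r) y) a G) := by
      intro G
      show ev ((model A hA).shn (r + r) y * Y) a G = ev (Y * (model A hA).shn (r + r) y) a G
      rw [hYc]
    rw [h1]
  refine ⟨fun a c b d => B (φ a b c d c (Fc_q c)) (Fc_q c), ?_, ?_, ?_⟩
  · intro a c b d h
    have h0 : φ a b c d c (Fc_q c) ≠ 0 := by
      intro h0
      apply h
      show B (φ a b c d c (Fc_q c)) (Fc_q c) = 0
      rw [h0, Fc_B_zero]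
    rw [hφa] at h0
    refine ⟨?_, ?_, ?_, ?_⟩
    · by_contra h1
      apply h0
      rw [Fc_Lh_zero h1]
      simp
    · by_contra h1
      apply h0
      rw [Fc_Lh_zero h1]
      simp
    · by_contra h1
      apply h0
      rw [Fc_Mh_zero h1]
      simp
    · by_contra h1
      apply h0
      rw [Fc_Mh_zero h1]
      simp
  · intro a c b d
    show B (φ a b c d c (Fc_q c)) (Fc_q c) = B (φ a d c b c (Fc_q c)) (Fc_q c)
    have h1 : ∀ b d, B (φ a b c d c (Fc_q c)) (Fc_q c)
        = B (ev Y a (Lh A r a b (Lh A r b c (Fc_q c)))) (Lh A r a d (Lh A r d c (Fc_q c))) := by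
      intro b d
      rw [hφa, B_comm, ← B_Lh hA hr, ← B_Lh hA hr, B_comm]
    rw [h1, h1, ev_star, hYs, B_comm]
  · intro a b c
    apply LinearMap.ext
    intro F
    have h1 : ev Y a (Lh A r a b (Lh A r b c F))
        = ev (jw A hA r hr).Q a (ev Y a (Lh A r a b (Lh A r b c F))) := by
      conv_lhs => rw [← Fc_Q_Lh hA hr]
      show ev (Y * (jw A hA r hr).Q) a _ = ev ((jw A hA r hr).Q * Y) a _
      rw [hYQ]
    show ev Y a (Lh A r a b (Lh A r b c F)) = _
    rw [h1, Fc_ev_Q hA hr, LinearMap.sum_apply]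
    refine Finset.sum_congr rfl fun d _ => ?_
    rw [LinearMap.smul_apply, LinearMap.comp_apply]
    by_cases hd : adm r d c
    · rw [Finset.sum_eq_single c]
      · have h2 := Fc_scalar (φ a b c d c) (hcomm a b c d c) F
        rw [hφa] at h2
        rw [h2, map_smul, map_smul]
      · intro e _ he
        have h2 := Fc_zero (Ne.symm he) (φ a b c d e) (hcomm a b c d e) F
        rw [hφa] at h2
        rw [h2, map_zero, map_zero]
      · intro hc
        exfalso
        apply hc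
        rw [Finset.mem_range]
        have := hd.2.1
        omega
    · rw [Fc_Lh_zero hd, LinearMap.zero_apply, map_zero, smul_zero]
      refine Finset.sum_eq_zero fun e _ => ?_
      by_cases he : c = e
      · subst he
        rw [Fc_Lh_zero hd, LinearMap.zero_apply, map_zero]
      · have h2 := Fc_zero he (φ a b c d e) (hcomm a b c d e) F
        rw [hφa] at h2
        rw [h2, map_zero, map_zero]

end facts2

/-- The coloured positive crossing: `Xp A r a c b d` has left height `a`, right `c`,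
bottom `b`, top `d`. -/
def Xp (A : ℝ) (r a c b d : ℕ) : ℝ :=
  if h : 1 < A ∧ 0 < r then
    (exists_cross h.1 h.2 (model A h.1).sg ((model A h.1).br_sg (by linarith [h.1]))).choose a c b d
  else 0

/-- The coloured negative crossing. -/
def Xn (A : ℝ) (r a c b d : ℕ) : ℝ :=
  if h : 1 < A ∧ 0 < r then
    (exists_cross h.1 h.2 (model A h.1).sg' ((model A h.1).br_sg' (by linarith [h.1]))).choose a c b d
  else 0

section facts3

variable {A : ℝ} (hA : 1 < A) {r : ℕ} (hr : 0 < r)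
include hA hr

theorem Fc_Xp (a c b d : ℕ) : Xp A r a c b d = (exists_cross hA hr (model A hA).sg
    ((model A hA).br_sg (by linarith))).choose a c b d := by
  unfold Xp
  rw [dif_pos ⟨hA, hr⟩]

theorem Fc_Xn (a c b d : ℕ) : Xn A r a c b d = (exists_cross hA hr (model A hA).sg'
    ((model A hA).br_sg' (by linarith))).choose a c b d := by
  unfold Xn
  rw [dif_pos ⟨hA, hr⟩]

theorem Xp_spec (a b c : ℕ) : ev ((model A hA).X (model A hA).sg r r) a ∘ₗ Lh A r a b ∘ₗ Lh A r b c =
    ∑ d ∈ Finset.range (a + r + 1), Xp A r a c b d • (Lh A r a d ∘ₗ Lh A r d c) := by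
  rw [(exists_cross hA hr (model A hA).sg ((model A hA).br_sg (by linarith))).choose_spec.2.2 a b c]
  refine Finset.sum_congr rfl fun d _ => ?_
  rw [Fc_Xp hA hr]

theorem Xn_spec (a b c : ℕ) : ev ((model A hA).X (model A hA).sg' r r) a ∘ₗ Lh A r a b ∘ₗ Lh A r b c =
    ∑ d ∈ Finset.range (a + r + 1), Xn A r a c b d • (Lh A r a d ∘ₗ Lh A r d c) := by
  rw [(exists_cross hA hr (model A hA).sg' ((model A hA).br_sg' (by linarith))).choose_spec.2.2 a b c]
  refine Finset.sum_congr rfl fun d _ => ?_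
  rw [Fc_Xn hA hr]

theorem Xp_adm {a b c d : ℕ} (h : Xp A r a c b d ≠ 0) :
    adm r a b ∧ adm r b c ∧ adm r a d ∧ adm r d c := by
  rw [Fc_Xp hA hr] at h
  exact (exists_cross hA hr (model A hA).sg ((model A hA).br_sg (by linarith))).choose_spec.1 a c b d h

theorem Xn_adm {a b c d : ℕ} (h : Xn A r a c b d ≠ 0) :
    adm r a b ∧ adm r b c ∧ adm r a d ∧ adm r d c := by
  rw [Fc_Xn hA hr] at h
  exact (exists_cross hA hr (model A hA).sg' ((model A hA).br_sg' (by linarith))).choose_spec.1 a c b d h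

theorem Xp_symm (a b c d : ℕ) : Xp A r a c b d = Xp A r a c d b := by
  rw [Fc_Xp hA hr, Fc_Xp hA hr]
  exact (exists_cross hA hr (model A hA).sg ((model A hA).br_sg (by linarith))).choose_spec.2.1 a c b d

/-- a coefficient of a crossing, read off from its operator -/
theorem Fc_coeff {a c d : ℕ} {f : ℕ → ℝ} (hd : adm r a d) (hdc : adm r d c) (F : V c) :
    Mh A r d c (Mh A r a d (∑ e ∈ Finset.range (a + r + 1), f e • Lh A r a e (Lh A r e c F)))
      = f d • F := by
  rw [map_sum, map_sum, Finset.sum_eq_single d]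
  · rw [map_smul, map_smul, Fc_Mh_Lh hA hr hd, Fc_Mh_Lh hA hr hdc]
  · intro e _ he
    rw [map_smul, Fc_Mh_Lh_ne hA hr (Ne.symm he), smul_zero, map_zero]
  · intro h
    exfalso
    apply h
    rw [Finset.mem_range]
    have := hd.2.1
    omega

/-- rotation: the negative crossing in terms of the positive one -/
theorem Xn_rot {p s q t : ℕ} (h1 : adm r p q) (h2 : adm r q s) (h3 : adm r p t) (h4 : adm r t s) :
    Xn A r p s q t = (-1) ^ r * Real.sqrt (dl A q * dl A t / (dl A p * dl A s)) * Xp A r q t s p := by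
  have hA0 : A ≠ 0 := by linarith
  have h1' : adm r q p := by
    unfold adm at h1 ⊢
    omega
  have hring := Fc_rot_ring (jw A hA r hr) hA0
  set v := Fc_q s with hv
  have hev := congrArg (fun x => Mh A r t s (Mh A r p t (ev x p (Lh A r p q (Lh A r q s v))))) hring
  beta_reduce at hev
  -- the left hand side
  have hl : Mh A r t s (Mh A r p t (ev (((-1 : ℝ) ^ r • (model A hA).X (model A hA).sg' r r)
      * (jw A hA r hr).Q) p (Lh A r p q (Lh A r q s v)))) = ((-1 : ℝ) ^ r * Xn A r p s q t) • v := by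
    rw [ev_mul, LinearMap.comp_apply, Fc_Q_Lh hA hr]
    have e1 : ev ((-1 : ℝ) ^ r • (model A hA).X (model A hA).sg' r r) p
        (Lh A r p q (Lh A r q s v))
        = (-1 : ℝ) ^ r • ev ((model A hA).X (model A hA).sg' r r) p (Lh A r p q (Lh A r q s v)) := rfl
    have e2 := LinearMap.congr_fun (Xn_spec hA hr p q s) v
    simp only [LinearMap.comp_apply, LinearMap.sum_apply, LinearMap.smul_apply] at e2
    rw [e1, e2, map_smul, map_smul, Fc_coeff hA hr h3 h4, mul_smul]
  -- the right hand side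
  have hr1 : Mh A r t s (Mh A r p t (ev (star (jw A hA r hr).cupc * ((model A hA).shn r
      ((model A hA).X (model A hA).sg r r) * ((model A hA).shn (r + r) (jw A hA r hr).cupc
        * (jw A hA r hr).Q))) p (Lh A r p q (Lh A r q s v))))
      = (wt A p q * (Xp A r q t s p * wt A s t)) • v := by
    rw [ev_mul, ev_mul, ev_mul]
    simp only [LinearMap.comp_apply]
    rw [Fc_Q_Lh hA hr, Fc_shn2_Lh hA hr, Fc_shn_Lh hA hr, ev_cupc hA hr]
    simp only [LinearMap.sum_apply, LinearMap.smul_apply, LinearMap.comp_apply, map_sum, map_smul]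
    -- the crossing
    have e1 : ∀ b : ℕ, ev (star (jw A hA r hr).cupc) p (Lh A r p q
        (ev ((model A hA).X (model A hA).sg r r) q (Lh A r q s (Lh A r s b (Lh A r b s v)))))
        = (wt A p q * Xp A r q b s p) • Lh A r p b (Lh A r b s v) := by
      intro b
      have e2 := LinearMap.congr_fun (Xp_spec hA hr q s b) (Lh A r b s v)
      simp only [LinearMap.comp_apply, LinearMap.sum_apply, LinearMap.smul_apply] at e2
      rw [e2, ev_star_cupc hA hr]
      simp only [LinearMap.sum_apply, LinearMap.smul_apply, LinearMap.comp_apply]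
      rw [Finset.sum_eq_single q]
      · rw [Fc_Mh_Lh hA hr h1, map_sum, Finset.sum_eq_single p]
        · rw [map_smul, Fc_Mh_Lh hA hr h1', mul_smul]
        · intro d _ hd
          rw [map_smul, Fc_Mh_Lh_ne hA hr (Ne.symm hd), smul_zero]
        · intro h
          exfalso
          apply h
          rw [Finset.mem_range]
          have := h1.1
          omega
      · intro e _ he
        rw [Fc_Mh_Lh_ne hA hr he, map_zero, smul_zero]
      · intro h
        exfalso
        apply h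
        rw [Finset.mem_range]
        have := h1.2.1
        omega
    rw [Finset.sum_eq_single t]
    · rw [e1, map_smul, map_smul, Fc_Mh_Lh hA hr h3, Fc_Mh_Lh hA hr h4, smul_smul]
      congr 1
      ring
    · intro b _ hb
      rw [e1, map_smul, Fc_Mh_Lh_ne hA hr (Ne.symm hb), smul_zero, map_zero, smul_zero]
    · intro h
      exfalso
      apply h
      rw [Finset.mem_range]
      have := h4.1
      omega
  rw [hl, hr1] at hev
  have hB := congrArg (fun x => B x v) hev
  simp only [B_smul] at hB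
  rw [hv, Fc_B_q, mul_one, mul_one] at hB
  have hsq : (-1 : ℝ) ^ r * (-1) ^ r = 1 := by
    rw [← mul_pow]
    norm_num
  have hwt : wt A p q * wt A s t = Real.sqrt (dl A q * dl A t / (dl A p * dl A s)) := by
    unfold wt
    have hq := dl_pos hA q
    have hp := dl_pos hA p
    rw [← Real.sqrt_mul (by positivity), div_mul_div_comm]
  rw [← hwt]
  calc Xn A r p s q t = (-1 : ℝ) ^ r * (-1) ^ r * Xn A r p s q t := by rw [hsq, one_mul]
    _ = (-1 : ℝ) ^ r * ((-1) ^ r * Xn A r p s q t) := by ring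
    _ = (-1) ^ r * (wt A p q * wt A s t) * Xp A r q t s p := by
      rw [hB]
      ring

end facts3

end

end Pool.Agent.Tait
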