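import Pool.Agent.Lib.MP_150b40_gt.Fc

/-! # Bounds for the coloured crossing -/

namespace Pool.Agent.Tait

noncomputable section

/-- distance of heights -/
def hd (b d : ℕ) : ℕ := (b - d) + (d - b)

/-! ## generalities -/

theorem Fd_exists_path (a : ℕ) : ∃ _t : Path a, True :=
  ⟨⟨fun j => a + j + 1, Or.inl rfl, fun j => Or.inl (by ring)⟩, trivial⟩

/-- a unit vector -/
def Fd_e (a : ℕ) : V a := Finsupp.single (Fd_exists_path a).choose 1

theorem Fd_B_e (a : ℕ) : B (Fd_e a) (Fd_e a) = 1 := by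
  simp [B, Fd_e]

theorem Fd_e_ne (a : ℕ) : Fd_e a ≠ 0 := by
  simp [Fd_e]

theorem Fd_B_add_right {a : ℕ} (F G G' : V a) : B F (G + G') = B F G + B F G' := by
  rw [B_comm, B_add, B_comm G, B_comm G']

theorem Fd_B_smul_right {a : ℕ} (x : ℝ) (F G : V a) : B F (x • G) = x * B F G := by
  rw [B_comm, B_smul, B_comm G]

theorem Fd_B_zero_left {a : ℕ} (G : V a) : B 0 G = 0 := by simp [B]

theorem Fd_B_zero_right {a : ℕ} (G : V a) : B G 0 = 0 := by rw [B_comm, Fd_B_zero_left]

theorem Fd_B_sum_left {a : ℕ} {ι : Type*} (s : Finset ι) (f : ι → V a) (G : V a) :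
    B (∑ i ∈ s, f i) G = ∑ i ∈ s, B (f i) G := by
  classical
  induction s using Finset.induction_on with
  | empty => simp [Fd_B_zero_left]
  | insert i s hi ih => rw [Finset.sum_insert hi, Finset.sum_insert hi, B_add, ih]

theorem Fd_B_sum_right {a : ℕ} {ι : Type*} (s : Finset ι) (f : ι → V a) (G : V a) :
    B G (∑ i ∈ s, f i) = ∑ i ∈ s, B G (f i) := by
  rw [B_comm, Fd_B_sum_left]
  exact Finset.sum_congr rfl fun i _ => B_comm _ _

theorem Fd_sum_comp {M N P ι : Type*} [AddCommGroup M] [AddCommGroup N] [AddCommGroup P]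
    [Module ℝ M] [Module ℝ N] [Module ℝ P] (s : Finset ι) (f : ι → N →ₗ[ℝ] P) (g : M →ₗ[ℝ] N) :
    (∑ i ∈ s, f i) ∘ₗ g = ∑ i ∈ s, f i ∘ₗ g := by
  apply LinearMap.ext
  intro x
  simp [LinearMap.sum_apply]

theorem Fd_comp_sum {M N P ι : Type*} [AddCommGroup M] [AddCommGroup N] [AddCommGroup P]
    [Module ℝ M] [Module ℝ N] [Module ℝ P] (s : Finset ι) (g : N →ₗ[ℝ] P) (f : ι → M →ₗ[ℝ] N) :
    g ∘ₗ (∑ i ∈ s, f i) = ∑ i ∈ s, g ∘ₗ f i := by
  apply LinearMap.ext
  intro x
  simp [LinearMap.sum_apply]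

theorem Fd_smul_cancel {a c : ℕ} {L : V c →ₗ[ℝ] V a} (hL : L ≠ 0) {x y : ℝ}
    (h : x • L = y • L) : x = y := by
  by_contra hne
  apply hL
  apply LinearMap.ext
  intro F
  have e := LinearMap.congr_fun h F
  simp only [LinearMap.smul_apply, LinearMap.zero_apply] at e ⊢
  have e1 : (x - y) • L F = 0 := by rw [sub_smul, e, sub_self]
  rcases smul_eq_zero.mp e1 with h1 | h1
  · exact absurd (sub_eq_zero.mp h1) hne
  · exact h1

theorem Fd_B_nondeg {a : ℕ} (F : V a) (h : ∀ G, B F G = 0) : F = 0 :=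
  B_self_eq_zero F (h F)

section

variable (A : ℝ) (r a c : ℕ)

/-- two fused steps with a height function for the middle -/
def Phi (w : ℕ → ℝ) : V c →ₗ[ℝ] V a :=
  ∑ b ∈ Finset.range (a + r + 1), w b • (Lh A r a b ∘ₗ Lh A r b c)

theorem Phi_apply (w : ℕ → ℝ) (F : V c) : Phi A r a c w F =
    ∑ b ∈ Finset.range (a + r + 1), w b • Lh A r a b (Lh A r b c F) := by
  simp [Phi, LinearMap.sum_apply]

theorem Lh_zero {r a b : ℕ} (h : ¬ adm r a b) : Lh A r a b = 0 := by simp [Lh, h]

theorem Mh_zero {r a b : ℕ} (h : ¬ adm r a b) : Mh A r a b = 0 := by simp [Mh, h]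

theorem Phi_congr (w w' : ℕ → ℝ) (h : ∀ b, adm r a b → adm r b c → w b = w' b) :
    Phi A r a c w = Phi A r a c w' := by
  unfold Phi
  refine Finset.sum_congr rfl fun b _ => ?_
  by_cases h1 : adm r a b
  · by_cases h2 : adm r b c
    · rw [h b h1 h2]
    · rw [Lh_zero A h2]; simp
  · rw [Lh_zero A h1]; simp

end

theorem adm_range {r a b : ℕ} (h : adm r a b) : b ∈ Finset.range (a + r + 1) := by
  rw [Finset.mem_range]; have := h.2.1; omega

section

variable {A : ℝ} (hA : 1 < A) {r : ℕ} (hr : 0 < r)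
include hA hr

theorem Mh_Phi {a b c : ℕ} (h1 : adm r a b) (h2 : adm r b c) (w : ℕ → ℝ) (F : V c) :
    Mh A r b c (Mh A r a b (Phi A r a c w F)) = w b • F := by
  rw [Phi_apply, map_sum, map_sum, Finset.sum_eq_single b]
  · rw [map_smul, map_smul]
    have e1 := LinearMap.congr_fun (Mh_Lh hA hr h1) (Lh A r b c F)
    have e2 := LinearMap.congr_fun (Mh_Lh hA hr h2) F
    simp only [LinearMap.comp_apply, LinearMap.id_apply] at e1 e2
    rw [e1, e2]
  · intro d _ hd
    have e := LinearMap.congr_fun (Mh_Lh_ne hA hr (a := a) (b := b) (c := d) (Ne.symm hd))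
      (Lh A r d c F)
    simp only [LinearMap.comp_apply, LinearMap.zero_apply] at e
    rw [map_smul, map_smul, e]; simp
  · intro hb; exact absurd (adm_range h1) hb

theorem Phi_inj {a c : ℕ} {w w' : ℕ → ℝ} (h : Phi A r a c w = Phi A r a c w') {b : ℕ}
    (h1 : adm r a b) (h2 : adm r b c) : w b = w' b := by
  have e := Mh_Phi hA hr h1 h2 w (Fd_e c)
  rw [h, Mh_Phi hA hr h1 h2 w' (Fd_e c)] at e
  have : (w' b - w b) • Fd_e c = 0 := by rw [sub_smul, e, sub_self]
  rcases smul_eq_zero.mp this with h | h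
  · linarith
  · exact absurd h (Fd_e_ne c)

theorem B_Lh_Lh {a b c b' c' : ℕ} (F : V c) (G : V c') :
    B (Lh A r a b (Lh A r b c F)) (Lh A r a b' (Lh A r b' c' G)) =
      if h : b = b' ∧ c = c' ∧ adm r a b ∧ adm r b c then B F (h.2.1 ▸ G) else 0 := by
  by_cases hb : b = b'
  · subst hb
    by_cases h1 : adm r a b
    · have e1 := LinearMap.congr_fun (Mh_Lh hA hr h1) (Lh A r b c' G)
      simp only [LinearMap.comp_apply, LinearMap.id_apply] at e1
      rw [B_Lh hA hr, e1, B_Lh hA hr]
      by_cases hc : c = c'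
      · subst hc
        by_cases h2 : adm r b c
        · have e2 := LinearMap.congr_fun (Mh_Lh hA hr h2) G
          simp only [LinearMap.comp_apply, LinearMap.id_apply] at e2
          rw [e2, dif_pos ⟨rfl, rfl, h1, h2⟩]
        · rw [dif_neg (fun h => h2 h.2.2.2), Lh_zero A h2]
          simp [Fd_B_zero_right]
      · have e2 := LinearMap.congr_fun (Mh_Lh_ne hA hr (a := b) hc) G
        simp only [LinearMap.comp_apply, LinearMap.zero_apply] at e2
        rw [e2, dif_neg (fun h => hc h.2.1), Fd_B_zero_right]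
    · rw [dif_neg (fun h => h1 h.2.2.1), Lh_zero A h1]
      simp [Fd_B_zero_right]
  · have e1 := LinearMap.congr_fun (Mh_Lh_ne hA hr (a := a) hb) (Lh A r b' c' G)
    simp only [LinearMap.comp_apply, LinearMap.zero_apply] at e1
    rw [B_Lh hA hr, e1, Fd_B_zero_right, dif_neg (fun h => hb h.1)]

omit hA hr in
theorem Fd_shn_add {R : Type*} [Ring R] [StarRing R] [Algebra ℝ R] [StarModule ℝ R] {A : ℝ}
    (T : TL R A) (i j : ℕ) (x : R) : T.shn (i + j) x = T.shn i (T.shn j x) := by
  induction i with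
  | zero => rw [Nat.zero_add]; rfl
  | succ i ih => rw [Nat.succ_add]; exact congrArg T.sh ih

omit hA hr in
theorem Fd_shn_star {R : Type*} [Ring R] [StarRing R] [Algebra ℝ R] [StarModule ℝ R] {A : ℝ}
    (T : TL R A) (i : ℕ) (x : R) : T.shn i (star x) = star (T.shn i x) := by
  induction i with
  | zero => rfl
  | succ i ih => exact (congrArg T.sh ih).trans (T.sh_star _)

theorem Fd_P_Lh (a b : ℕ) : ev (jw A hA r hr).P a ∘ₗ Lh A r a b = Lh A r a b := by
  by_cases h : adm r a b
  · rw [ev_P hA hr]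
    apply LinearMap.ext
    intro F
    rw [LinearMap.comp_apply, LinearMap.sum_apply, Finset.sum_eq_single b]
    · have e1 := LinearMap.congr_fun (Mh_Lh hA hr h) F
      simp only [LinearMap.comp_apply, LinearMap.id_apply] at e1
      rw [LinearMap.comp_apply, e1]
    · intro d _ hd
      have e := LinearMap.congr_fun (Mh_Lh_ne hA hr (a := a) (b := d) (c := b) hd) F
      simp only [LinearMap.comp_apply, LinearMap.zero_apply] at e
      rw [LinearMap.comp_apply, e, map_zero]
    · intro hb; exact absurd (adm_range h) hb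
  · rw [Lh_zero A h, LinearMap.comp_zero]

theorem Fd_Q_Lh (a b c : ℕ) :
    ev (jw A hA r hr).Q a ∘ₗ Lh A r a b ∘ₗ Lh A r b c = Lh A r a b ∘ₗ Lh A r b c := by
  have e1 : ev (jw A hA r hr).Q a = ev (jw A hA r hr).P a ∘ₗ
      ev ((model A hA).shn r (jw A hA r hr).P) a := rfl
  have e2 := ev_shn_Lh hA hr (jw A hA r hr).P a b
  have e3 := Fd_P_Lh hA hr a b
  have e4 := Fd_P_Lh hA hr b c
  rw [e1, LinearMap.comp_assoc, ← LinearMap.comp_assoc (Lh A r b c), e2, LinearMap.comp_assoc, e4,
    ← LinearMap.comp_assoc, e3]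

/-- span of double steps -/
def PS (A : ℝ) (r a c : ℕ) : Submodule ℝ (V c →ₗ[ℝ] V a) :=
  Submodule.span ℝ (Set.range fun b => Lh A r a b ∘ₗ Lh A r b c)

omit hA hr in
theorem PS_mem (a b c : ℕ) : Lh A r a b ∘ₗ Lh A r b c ∈ PS A r a c :=
  Submodule.subset_span ⟨b, rfl⟩

omit hA hr in
theorem Phi_mem (a c : ℕ) (w : ℕ → ℝ) : Phi A r a c w ∈ PS A r a c :=
  Submodule.sum_mem _ fun b _ => Submodule.smul_mem _ _ (PS_mem a b c)

theorem PS_Q {a c : ℕ} {L : V c →ₗ[ℝ] V a} (hL : L ∈ PS A r a c) :
    ev (jw A hA r hr).Q a ∘ₗ L = L := by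
  induction hL using Submodule.span_induction with
  | mem x hx => obtain ⟨b, rfl⟩ := hx; exact Fd_Q_Lh hA hr a b c
  | zero => simp
  | add x y _ _ hx hy => rw [LinearMap.comp_add, hx, hy]
  | smul t x _ hx => rw [LinearMap.comp_smul, hx]

/-- the crossing preserves the span -/
theorem PS_X {a c : ℕ} {L : V c →ₗ[ℝ] V a} (hL : L ∈ PS A r a c) :
    ev ((model A hA).X (model A hA).sg r r) a ∘ₗ L ∈ PS A r a c := by
  induction hL using Submodule.span_induction with
  | mem x hx =>
    obtain ⟨b, rfl⟩ := hx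
    have := Xp_spec hA hr a b c
    simp only at this ⊢
    rw [this]
    exact Submodule.sum_mem _ fun d _ => Submodule.smul_mem _ _ (PS_mem a d c)
  | zero => simp
  | add x y _ _ hx hy => rw [LinearMap.comp_add]; exact Submodule.add_mem _ hx hy
  | smul t x _ hx => rw [LinearMap.comp_smul]; exact Submodule.smul_mem _ _ hx

/-- the double step of colour `2r` belongs to the span -/
theorem PS_double (a c : ℕ) : Lh A (2 * r) a c ∈ PS A r a c := by
  by_cases h : adm (2 * r) a c
  · rw [Lh_double hA hr h]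
    exact Submodule.sum_mem _ fun d _ => Submodule.smul_mem _ _ (PS_mem a d c)
  · rw [Lh_zero A h]; exact Submodule.zero_mem _

theorem B_PS {a b c : ℕ} (hbc : c ≠ b) {L : V c →ₗ[ℝ] V a} (hL : L ∈ PS A r a c)
    {M : V b →ₗ[ℝ] V a} (hM : M ∈ PS A r a b) (F : V c) (G : V b) : B (L F) (M G) = 0 := by
  induction hL using Submodule.span_induction with
  | mem x hx =>
    obtain ⟨d, rfl⟩ := hx
    induction hM using Submodule.span_induction with
    | mem y hy =>
      obtain ⟨e, rfl⟩ := hy
      rw [LinearMap.comp_apply, LinearMap.comp_apply, B_Lh_Lh hA hr, dif_neg (fun h => hbc h.2.1)]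
    | zero => simp [Fd_B_zero_right]
    | add x y _ _ hx hy => rw [LinearMap.add_apply, Fd_B_add_right, hx, hy, add_zero]
    | smul t x _ hx => rw [LinearMap.smul_apply, Fd_B_smul_right, hx, mul_zero]
  | zero => simp [Fd_B_zero_left]
  | add x y _ _ hx hy => rw [LinearMap.add_apply, B_add, hx, hy, add_zero]
  | smul t x _ hx => rw [LinearMap.smul_apply, B_smul, hx, mul_zero]

theorem Mh_PS {a b c : ℕ} (hbc : b ≠ c) {L : V c →ₗ[ℝ] V a} (hL : L ∈ PS A r a c) (F : V c) :
    Mh A (2 * r) a b (L F) = 0 := by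
  apply Fd_B_nondeg
  intro G
  rw [B_comm, ← B_Lh hA (by omega : 0 < 2 * r), B_comm]
  exact B_PS hA hr (Ne.symm hbc) hL (PS_double hA hr a b) F G

/-- vectors of the span which are killed by the middle cap -/
theorem PS_kill {a c : ℕ} {L : V c →ₗ[ℝ] V a} (hL : L ∈ PS A r a c)
    (hk : ev ((model A hA).shn (r - 1) (star (model A hA).u)) a ∘ₗ L = 0) :
    L = Lh A (2 * r) a c ∘ₗ Mh A (2 * r) a c ∘ₗ L := by
  have key : ∀ F, ∀ j, j + 2 ≤ 2 * r →
      ev ((model A hA).shn j (star (model A hA).u)) a (L F) = 0 := by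
    intro F j hj
    rcases Nat.lt_or_ge (j + 2) (r + 1) with h | h
    · clear hk
      induction hL using Submodule.span_induction with
      | mem x hx =>
        obtain ⟨b, rfl⟩ := hx
        have := LinearMap.congr_fun (cap_Lh hA hr j a b (by omega)) (Lh A r b c F)
        exact this
      | zero => simp
      | add x y _ _ hx hy => rw [LinearMap.add_apply, map_add, hx, hy, add_zero]
      | smul t x _ hx => rw [LinearMap.smul_apply, map_smul, hx, smul_zero]
    · rcases Nat.lt_or_ge j r with h2 | h2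
      · have : j = r - 1 := by omega
        subst this
        exact LinearMap.congr_fun hk F
      · obtain ⟨i, rfl⟩ := Nat.exists_eq_add_of_le h2
        rw [Fd_shn_add]
        clear hk
        induction hL using Submodule.span_induction with
        | mem x hx =>
          obtain ⟨b, rfl⟩ := hx
          have e1 := LinearMap.congr_fun (ev_shn_Lh hA hr
            ((model A hA).shn i (star (model A hA).u)) a b) (Lh A r b c F)
          have e2 := LinearMap.congr_fun (cap_Lh hA hr i b c (by omega)) F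
          simp only [LinearMap.comp_apply, LinearMap.zero_apply] at e1 e2 ⊢
          rw [e1, e2, map_zero]
        | zero => simp
        | add x y _ _ hx hy => rw [LinearMap.add_apply, map_add, hx, hy, add_zero]
        | smul t x _ hx => rw [LinearMap.smul_apply, map_smul, hx, smul_zero]
  apply LinearMap.ext
  intro F
  have e := complete hA (by omega : 0 < 2 * r) a (L F) (key F)
  rw [Finset.sum_eq_single c] at e
  · exact e
  · intro b _ hb
    rw [Mh_PS hA hr hb hL, map_zero]
  · intro hc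
    rw [Lh_zero A (fun h => hc (adm_range h))]; rfl

theorem X_Lh_double (a c : ℕ) : ev ((model A hA).X (model A hA).sg r r) a ∘ₗ Lh A (2 * r) a c =
    A ^ (r * r) • Lh A (2 * r) a c := by
  have h2 : 0 < 2 * r := by omega
  have e := TL.JW.X_top (T := model A hA) (r := r) (J2 := jw A hA (2 * r) h2) (by linarith)
  have e1 : ev ((model A hA).X (model A hA).sg r r * (jw A hA (2 * r) h2).P) a ∘ₗ
      Lh A (2 * r) a c = ev (A ^ (r * r) • (jw A hA (2 * r) h2).P) a ∘ₗ Lh A (2 * r) a c := by
    rw [e]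
  rw [ev_mul, LinearMap.comp_assoc, Fd_P_Lh hA h2] at e1
  rw [e1]
  have e2 : ev (A ^ (r * r) • (jw A hA (2 * r) h2).P) a =
    A ^ (r * r) • ev (jw A hA (2 * r) h2).P a := rfl
  rw [e2, LinearMap.smul_comp, Fd_P_Lh hA h2]

omit hr in
theorem cap_Sm_Sm (b' b : ℕ) : ∃ t : ℝ,
    ev (star (model A hA).u) b' ∘ₗ Sm b' b ∘ₗ Sm b b' = t • LinearMap.id := by
  by_cases h : adj b' b
  · refine ⟨wt A b' b, ?_⟩
    have h' : adj b b' := by rcases h with h | h <;> [right; left] <;> exact h
    rw [ev_star_u hA]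
    unfold cE
    rw [Fd_sum_comp, Finset.sum_eq_single b]
    · rw [LinearMap.smul_comp, LinearMap.comp_assoc, ← LinearMap.comp_assoc (Sm b b') (Sm b' b),
        Tm_Sm h, LinearMap.id_comp, Tm_Sm h']
    · intro e _ he
      rw [LinearMap.smul_comp, LinearMap.comp_assoc, ← LinearMap.comp_assoc (Sm b b') (Sm b' b),
        Tm_Sm_ne he]
      simp
    · intro hb
      exact absurd (by rw [Finset.mem_range]; rcases h with h | h <;> omega) hb
  · exact ⟨0, by rw [Sm_zero h]; simp⟩

omit hr in
theorem cap_Sm_Sm_ne {b' b b'' : ℕ} (hne : b' ≠ b'') :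
    ev (star (model A hA).u) b' ∘ₗ Sm b' b ∘ₗ Sm b b'' = 0 := by
  by_cases h : adj b' b
  · rw [ev_star_u hA]
    unfold cE
    rw [Fd_sum_comp]
    apply Finset.sum_eq_zero
    intro e _
    by_cases he : e = b
    · subst he
      rw [LinearMap.smul_comp, LinearMap.comp_assoc, ← LinearMap.comp_assoc (Sm e b'') (Sm b' e),
        Tm_Sm h, LinearMap.id_comp, Tm_Sm_ne hne, smul_zero]
    · rw [LinearMap.smul_comp, LinearMap.comp_assoc, ← LinearMap.comp_assoc (Sm b b'') (Sm b' b),
        Tm_Sm_ne he]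
      simp
  · rw [Sm_zero h]; simp

/-- the middle cap maps the span of colour `r+1` to the span of colour `r` -/
theorem PS_cap {a c : ℕ} {L : V c →ₗ[ℝ] V a} (hL : L ∈ PS A (r + 1) a c) :
    ev ((model A hA).shn r (star (model A hA).u)) a ∘ₗ L ∈ PS A r a c := by
  induction hL using Submodule.span_induction with
  | mem x hx =>
    obtain ⟨b, rfl⟩ := hx
    simp only
    by_cases h1 : adm (r + 1) a b
    · by_cases h2 : adm (r + 1) b c
      · rw [Lh_succ_right hA hr h1, Lh_succ_left hA hr h2]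
        rw [Fd_sum_comp, Fd_comp_sum]
        refine Submodule.sum_mem _ fun b' _ => ?_
        rw [Fd_comp_sum, Fd_comp_sum]
        refine Submodule.sum_mem _ fun b'' _ => ?_
        rw [LinearMap.smul_comp, LinearMap.comp_smul, LinearMap.comp_smul, LinearMap.comp_smul]
        refine Submodule.smul_mem _ _ (Submodule.smul_mem _ _ ?_)
        have e : ev ((model A hA).shn r (star (model A hA).u)) a ∘ₗ (Lh A r a b' ∘ₗ Sm b' b) ∘ₗ
            Sm b b'' ∘ₗ Lh A r b'' c = Lh A r a b' ∘ₗ
              (ev (star (model A hA).u) b' ∘ₗ Sm b' b ∘ₗ Sm b b'') ∘ₗ Lh A r b'' c := by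
          rw [← LinearMap.comp_assoc, ← LinearMap.comp_assoc (Sm b' b) (Lh A r a b'),
            ev_shn_Lh hA hr]
          rfl
        rw [e]
        by_cases hb : b' = b''
        · subst hb
          obtain ⟨t, ht⟩ := cap_Sm_Sm hA b' b
          rw [ht, LinearMap.smul_comp, LinearMap.id_comp, LinearMap.comp_smul]
          exact Submodule.smul_mem _ _ (PS_mem a b' c)
        · rw [cap_Sm_Sm_ne hA hb]; simp
      · rw [Lh_zero A h2]; simp
    · rw [Lh_zero A h1]; simp
  | zero => simp
  | add x y _ _ hx hy => rw [LinearMap.comp_add]; exact Submodule.add_mem _ hx hy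
  | smul t x _ hx => rw [LinearMap.comp_smul]; exact Submodule.smul_mem _ _ hx

theorem star_Q : star (jw A hA r hr).Q = (jw A hA r hr).Q := by
  have h1 := (jw A hA r hr).star_eq
  have h2 := (jw A hA r hr).comm_sh (jw A hA r hr).P
  unfold TL.JW.Q
  rw [star_mul, ← Fd_shn_star, h1, h2]

omit hr in
theorem cap_X {a c : ℕ} {L : V c →ₗ[ℝ] V a} (hL : L ∈ PS A (r + 1) a c) :
    ev ((model A hA).shn r (star (model A hA).u)) a ∘ₗ
      ev ((model A hA).X (model A hA).sg (r + 1) (r + 1)) a ∘ₗ L =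
    (-(A⁻¹ ^ (2 * r + 3))) • (ev ((model A hA).X (model A hA).sg r r) a ∘ₗ
      ev ((model A hA).shn r (star (model A hA).u)) a ∘ₗ L) := by
  have hr1 : 0 < r + 1 := Nat.succ_pos r
  have hA0 : A ≠ 0 := by linarith
  have hb := (model A hA).br_sg hA0
  have e := congrArg star (TL.JW.X_arc (T := model A hA) (r := r) (jw A hA (r + 1) hr1) hA0)
  rw [star_smul, star_mul, star_mul, star_mul, star_mul, star_Q hA hr1, TL.star_X _ hb,
    TL.star_X _ hb, ← Fd_shn_star] at e
  have e1 : ev ((model A hA).shn r (star (model A hA).u)) a ∘ₗ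
      ev ((model A hA).X (model A hA).sg (r + 1) (r + 1)) a ∘ₗ ev (jw A hA (r + 1) hr1).Q a ∘ₗ L =
    (-(A⁻¹ ^ (2 * r + 3))) • (ev ((model A hA).X (model A hA).sg r r) a ∘ₗ
      ev ((model A hA).shn r (star (model A hA).u)) a ∘ₗ ev (jw A hA (r + 1) hr1).Q a ∘ₗ L) := by
    have := congrArg (fun x => ev x a ∘ₗ L) e
    exact this
  rw [PS_Q hA hr1 hL] at e1
  exact e1

end

theorem spec_le {A : ℝ} (hA : 1 < A) (r : ℕ) (hr : 0 < r) : ∀ (a c : ℕ) (L : V c →ₗ[ℝ] V a),
    L ∈ PS A r a c → ∀ x : ℝ, L ≠ 0 →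
    ev ((model A hA).X (model A hA).sg r r) a ∘ₗ L = x • L →
    |x| ≤ A ^ (r * r) ∧ (Mh A (2 * r) a c ∘ₗ L = 0 → |x| * A ^ (4 * r) ≤ A ^ (r * r)) := by
  have hA0 : A ≠ 0 := by linarith
  have hApos : 0 < A := by linarith
  -- it suffices to treat the case that the middle cap does not vanish
  have red : ∀ r, 0 < r → ∀ (a c : ℕ) (L : V c →ₗ[ℝ] V a),
      L ∈ PS A r a c → ∀ x : ℝ, L ≠ 0 →
      ev ((model A hA).X (model A hA).sg r r) a ∘ₗ L = x • L →
      (ev ((model A hA).shn (r - 1) (star (model A hA).u)) a ∘ₗ L ≠ 0 →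
        |x| * A ^ (4 * r) ≤ A ^ (r * r)) →
      |x| ≤ A ^ (r * r) ∧ (Mh A (2 * r) a c ∘ₗ L = 0 → |x| * A ^ (4 * r) ≤ A ^ (r * r)) := by
    intro r hr a c L hL x hL0 hx h
    by_cases hk : ev ((model A hA).shn (r - 1) (star (model A hA).u)) a ∘ₗ L = 0
    · have e := PS_kill hA hr hL hk
      constructor
      · have e1 : ev ((model A hA).X (model A hA).sg r r) a ∘ₗ L = A ^ (r * r) • L := by
          have := X_Lh_double hA hr a c
          calc _ = (ev ((model A hA).X (model A hA).sg r r) a ∘ₗ Lh A (2 * r) a c) ∘ₗ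
                Mh A (2 * r) a c ∘ₗ L := by rw [LinearMap.comp_assoc, ← e]
            _ = A ^ (r * r) • (Lh A (2 * r) a c ∘ₗ Mh A (2 * r) a c ∘ₗ L) := by
                rw [this, LinearMap.smul_comp]
            _ = _ := by rw [← e]
        rw [hx] at e1
        rw [Fd_smul_cancel hL0 e1, abs_of_pos (by positivity)]
      · intro h4
        rw [h4, LinearMap.comp_zero] at e
        exact absurd e hL0
    · have h5 := h hk
      refine ⟨?_, fun _ => h5⟩
      have h6 : (1 : ℝ) ≤ A ^ (4 * r) := one_le_pow₀ hA.le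
      nlinarith [abs_nonneg x]
  induction r, hr using Nat.le_induction with
  | base =>
    intro a c L hL x hL0 hx
    refine red 1 one_pos a c L hL x hL0 hx fun hk => ?_
    have e0 : (model A hA).X (model A hA).sg 1 1 = (model A hA).sg := by
      simp [TL.X, TL.S]
    have e1 : star (model A hA).u * (model A hA).sg = (-(A⁻¹ ^ 3)) • star (model A hA).u := by
      have := congrArg star ((model A hA).sg_u hA0)
      rw [star_mul, star_smul, ((model A hA).br_sg hA0).star_eq] at this
      exact this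
    have e2 : ev (star (model A hA).u) a ∘ₗ ev (model A hA).sg a ∘ₗ L =
        (-(A⁻¹ ^ 3)) • (ev (star (model A hA).u) a ∘ₗ L) :=
      congrArg (fun x => ev x a ∘ₗ L) e1
    rw [e0] at hx
    rw [hx, LinearMap.comp_smul] at e2
    rw [Fd_smul_cancel hk e2, abs_neg, abs_of_pos (by positivity)]
    apply le_of_eq
    field_simp
    ring
  | succ r hr ih =>
    intro a c L hL x hL0 hx
    refine red (r + 1) (Nat.succ_pos r) a c L hL x hL0 hx fun hk => ?_
    have hk' : ev ((model A hA).shn r (star (model A hA).u)) a ∘ₗ L ≠ 0 := hk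
    have e := cap_X hA hL
    rw [hx, LinearMap.comp_smul] at e
    have hk0 : A⁻¹ ^ (2 * r + 3) ≠ 0 := by positivity
    have e1 : ev ((model A hA).X (model A hA).sg r r) a ∘ₗ
        (ev ((model A hA).shn r (star (model A hA).u)) a ∘ₗ L) =
        (-(x * A ^ (2 * r + 3))) • (ev ((model A hA).shn r (star (model A hA).u)) a ∘ₗ L) := by
      have := congrArg (fun M => (-(A ^ (2 * r + 3))) • M) e
      simp only [smul_smul] at this
      rw [show -(A ^ (2 * r + 3)) * -(A⁻¹ ^ (2 * r + 3)) = 1 by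
        rw [neg_mul_neg, ← mul_pow, mul_inv_cancel₀ hA0, one_pow], one_smul] at this
      rw [← this]
      congr 1
      ring
    have h1 := (ih a c _ (PS_cap hA hr hL) _ hk' e1).1
    rw [abs_neg, abs_mul, abs_of_pos (by positivity : 0 < A ^ (2 * r + 3))] at h1
    calc |x| * A ^ (4 * (r + 1)) = (|x| * A ^ (2 * r + 3)) * A ^ (2 * r + 1) := by
          rw [mul_assoc, ← pow_add]; congr 2; ring
      _ ≤ A ^ (r * r) * A ^ (2 * r + 1) := by
          apply mul_le_mul_of_nonneg_right h1; positivity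
      _ = A ^ ((r + 1) * (r + 1)) := by rw [← pow_add]; congr 1; ring

theorem Fd_sym_entry {n : Type*} [Fintype n] [DecidableEq n] (R : Matrix n n ℝ)
    (hR : R.IsHermitian) (ρ : ℝ) 
    (h : ∀ (x : ℝ) (w : n → ℝ), w ≠ 0 → R.mulVec w = x • w → |x| ≤ ρ) (i j : n) :
    |R i j| ≤ ρ := by
  have h1 : ∀ k, |hR.eigenvalues k| ≤ ρ := by
    intro k
    refine h _ (hR.eigenvectorBasis k).ofLp ?_ (hR.mulVec_eigenvectorBasis k)
    intro h0
    have := hR.eigenvectorBasis.orthonormal.ne_zero k
    apply this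
    ext i
    exact congrFun h0 i
  set U : Matrix n n ℝ := (hR.eigenvectorUnitary : Matrix n n ℝ) with hU
  have hUU : U * star U = 1 := by
    exact (Matrix.mem_unitaryGroup_iff).mp hR.eigenvectorUnitary.2
  have hsq : ∀ i, ∑ k, U i k * U i k = 1 := by
    intro i
    have := congrFun (congrFun hUU i) i
    rw [Matrix.mul_apply, Matrix.one_apply_eq] at this
    simpa [Matrix.star_apply] using this
  have hs : R i j = ∑ k, hR.eigenvalues k * (U i k * U j k) := by
    conv_lhs => rw [hR.spectral_theorem]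
    rw [Unitary.conjStarAlgAut_apply, Matrix.mul_apply]
    refine Finset.sum_congr rfl fun k _ => ?_
    rw [Matrix.mul_diagonal]
    simp [Matrix.star_apply, hU]
    ring
  rw [hs]
  calc |∑ k, hR.eigenvalues k * (U i k * U j k)| ≤ ∑ k, |hR.eigenvalues k * (U i k * U j k)| :=
        Finset.abs_sum_le_sum_abs _ _
    _ ≤ ∑ k, ρ * ((U i k * U i k + U j k * U j k) / 2) := by
        refine Finset.sum_le_sum fun k _ => ?_
        rw [abs_mul]
        have e : |U i k * U j k| ≤ (U i k * U i k + U j k * U j k) / 2 := by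
          rw [abs_le]; constructor <;> nlinarith [sq_nonneg (U i k + U j k), sq_nonneg (U i k - U j k)]
        have := h1 k
        exact mul_le_mul this e (abs_nonneg _) (le_trans (abs_nonneg _) this)
    _ = ρ := by
        rw [← Finset.mul_sum, ← Finset.sum_div, Finset.sum_add_distrib, hsq, hsq]; ring

/-- the unit eigenvector -/
def vv (A : ℝ) (r a c b : ℕ) : ℝ :=
  if adm (2 * r) a c ∧ adm r a b ∧ adm r b c then vco A r a c b else 0

theorem vv_adm {A : ℝ} {r a c b : ℕ} (h : vv A r a c b ≠ 0) :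
    adm (2 * r) a c ∧ adm r a b ∧ adm r b c := by
  by_contra hc
  exact h (if_neg hc)

section

variable {A : ℝ} (hA : 1 < A) {r : ℕ} (hr : 0 < r)
include hA hr

theorem double_Phi {a c : ℕ} (h : adm (2 * r) a c) :
    Lh A (2 * r) a c = Phi A r a c (vv A r a c) := by
  rw [Lh_double hA hr h]
  have : ∑ b ∈ Finset.range (a + r + 1), vco A r a c b • (Lh A r a b ∘ₗ Lh A r b c) =
    Phi A r a c (vco A r a c) := rfl
  rw [this]
  apply Phi_congr
  intro b h1 h2
  simp [vv, h, h1, h2]

theorem X_Phi (a c : ℕ) (w : ℕ → ℝ) :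
    ev ((model A hA).X (model A hA).sg r r) a ∘ₗ Phi A r a c w =
      Phi A r a c (fun d => ∑ b ∈ Finset.range (a + r + 1), w b * Xp A r a c b d) := by
  unfold Phi
  rw [Fd_comp_sum]
  have e : ∀ b ∈ Finset.range (a + r + 1), ev ((model A hA).X (model A hA).sg r r) a ∘ₗ
      (w b • (Lh A r a b ∘ₗ Lh A r b c)) = ∑ d ∈ Finset.range (a + r + 1),
        (w b * Xp A r a c b d) • (Lh A r a d ∘ₗ Lh A r d c) := by
    intro b _
    rw [LinearMap.comp_smul, Xp_spec hA hr, Finset.smul_sum]
    exact Finset.sum_congr rfl fun d _ => smul_smul _ _ _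
  rw [Finset.sum_congr rfl e, Finset.sum_comm]
  exact Finset.sum_congr rfl fun d _ => (Finset.sum_smul).symm

theorem B_Phi_Phi (a c : ℕ) (w w' : ℕ → ℝ) (F G : V c) :
    B (Phi A r a c w F) (Phi A r a c w' G) =
      (∑ b ∈ Finset.range (a + r + 1), if adm r a b ∧ adm r b c then w b * w' b else 0) *
        B F G := by
  rw [Phi_apply, Phi_apply, Fd_B_sum_left, Finset.sum_mul]
  refine Finset.sum_congr rfl fun b hb => ?_
  rw [Fd_B_sum_right, Finset.sum_eq_single b]
  · rw [B_smul, Fd_B_smul_right, B_Lh_Lh hA hr]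
    by_cases h : adm r a b ∧ adm r b c
    · rw [dif_pos ⟨rfl, rfl, h⟩, if_pos h]; ring
    · rw [dif_neg (fun h' => h h'.2.2), if_neg h]; ring
  · intro d _ hd
    rw [B_smul, Fd_B_smul_right, B_Lh_Lh hA hr, dif_neg (fun h' => hd h'.1.symm)]; ring
  · intro h; exact absurd hb h

theorem vv_norm {a c : ℕ} (h : adm (2 * r) a c) :
    ∑ b ∈ Finset.range (a + r + 1), vv A r a c b * vv A r a c b = 1 := by
  have h2 : 0 < 2 * r := by omega
  have e := B_Phi_Phi hA hr a c (vv A r a c) (vv A r a c) (Fd_e c) (Fd_e c)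
  rw [← double_Phi hA hr h, B_Lh hA h2, Fd_B_e] at e
  have e1 := LinearMap.congr_fun (Mh_Lh hA h2 h) (Fd_e c)
  simp only [LinearMap.comp_apply, LinearMap.id_apply] at e1
  rw [e1, Fd_B_e, mul_one] at e
  rw [e]
  refine Finset.sum_congr rfl fun b _ => ?_
  by_cases h' : adm r a b ∧ adm r b c
  · rw [if_pos h']
  · rw [if_neg h']
    by_contra hc
    have : vv A r a c b ≠ 0 := fun h0 => hc (by rw [h0, mul_zero])
    exact h' (vv_adm this).2

theorem vv_eig (a c d : ℕ) :
    ∑ b ∈ Finset.range (a + r + 1), vv A r a c b * Xp A r a c b d =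
      A ^ (r * r) * vv A r a c d := by
  by_cases h : adm (2 * r) a c
  · by_cases h' : adm r a d ∧ adm r d c
    · have e := X_Phi hA hr a c (vv A r a c)
      rw [← double_Phi hA hr h, X_Lh_double hA hr, double_Phi hA hr h] at e
      have e2 : A ^ (r * r) • Phi A r a c (vv A r a c) =
          Phi A r a c (fun d => A ^ (r * r) * vv A r a c d) := by
        unfold Phi
        rw [Finset.smul_sum]
        exact Finset.sum_congr rfl fun d _ => smul_smul _ _ _
      rw [e2] at e
      exact (Phi_inj hA hr e h'.1 h'.2).symm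
    · have h0 : vv A r a c d = 0 := by
        by_contra hc; exact h' (vv_adm hc).2
      rw [h0, mul_zero]
      apply Finset.sum_eq_zero
      intro b _
      have : Xp A r a c b d = 0 := by
        by_contra hc
        have := Xp_adm hA hr hc
        exact h' ⟨this.2.2.1, this.2.2.2⟩
      rw [this, mul_zero]
  · have h0 : ∀ b, vv A r a c b = 0 := fun b => if_neg fun h' => h h'.1
    simp [h0]

theorem Xp_split_fin (a c : ℕ) (i j : Fin (a + r + 1)) :
    |Xp A r a c i j - A ^ (r * r) * vv A r a c i * vv A r a c j| ≤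
      A ^ (r * r) / A ^ (4 * r) := by
  have hApos : 0 < A := by linarith
  set R : Matrix (Fin (a + r + 1)) (Fin (a + r + 1)) ℝ :=
    Matrix.of fun i j => Xp A r a c i j - A ^ (r * r) * vv A r a c i * vv A r a c j with hRdef
  have hsym : R.IsHermitian := by
    ext i j
    simp only [hRdef, Matrix.conjTranspose_apply, Matrix.of_apply, star_trivial]
    rw [Xp_symm hA hr a j c i]; ring
  have hsupp : ∀ i j : Fin (a + r + 1), R i j ≠ 0 → adm r a i ∧ adm r i c := by
    intro i j h
    by_contra hc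
    apply h
    have h1 : Xp A r a c i j = 0 := by
      by_contra hx; have := Xp_adm hA hr hx; exact hc ⟨this.1, this.2.1⟩
    have h2 : vv A r a c i = 0 := by
      by_contra hx; exact hc (vv_adm hx).2
    simp [hRdef, h1, h2]
  have hmain : ∀ (x : ℝ) (w : Fin (a + r + 1) → ℝ), w ≠ 0 → R.mulVec w = x • w →
      |x| ≤ A ^ (r * r) / A ^ (4 * r) := by
    intro x w hw hx
    by_cases hx0 : x = 0
    · rw [hx0, abs_zero]; positivity
    -- the support
    have hws : ∀ i, w i ≠ 0 → adm r a i ∧ adm r i c := by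
      intro i hi
      by_contra hc
      have h1 : R.mulVec w i = 0 := by
        rw [Matrix.mulVec, dotProduct]
        apply Finset.sum_eq_zero
        intro j _
        have : R i j = 0 := by
          by_contra h; exact hc (hsupp i j h)
        rw [this, zero_mul]
      rw [hx] at h1
      have h2 : x * w i = 0 := h1
      rcases mul_eq_zero.mp h2 with h | h
      · exact hx0 h
      · exact hi h
    -- the eigenvector equation for vv
    have hv : ∀ j : Fin (a + r + 1), ∑ i : Fin (a + r + 1), vv A r a c i * R i j = 0 := by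
      intro j
      by_cases h : adm (2 * r) a c
      · have e1 := vv_eig hA hr a c j
        have e2 := vv_norm hA hr h
        rw [Finset.sum_range] at e1 e2
        have e3 : ∑ i : Fin (a + r + 1), vv A r a c i * R i j =
            ∑ i : Fin (a + r + 1), vv A r a c i * Xp A r a c i j -
            (∑ i : Fin (a + r + 1), vv A r a c i * vv A r a c i) * (A ^ (r * r) * vv A r a c j) := by
          rw [Finset.sum_mul, ← Finset.sum_sub_distrib]
          refine Finset.sum_congr rfl fun i _ => ?_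
          simp only [hRdef, Matrix.of_apply]
          ring
        rw [e3, e1, e2]; ring
      · have h0 : ∀ b, vv A r a c b = 0 := fun b => if_neg fun h' => h h'.1
        simp [h0]
    have horth : ∑ i : Fin (a + r + 1), vv A r a c i * w i = 0 := by
      have e1 : ∑ i : Fin (a + r + 1), vv A r a c i * R.mulVec w i = 0 := by
        have : ∀ i : Fin (a + r + 1), vv A r a c i * R.mulVec w i =
            ∑ j : Fin (a + r + 1), (vv A r a c i * R i j) * w j := by
          intro i
          rw [Matrix.mulVec, dotProduct, Finset.mul_sum]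
          exact Finset.sum_congr rfl fun j _ => by ring
        rw [Finset.sum_congr rfl fun i _ => this i, Finset.sum_comm]
        apply Finset.sum_eq_zero
        intro j _
        rw [← Finset.sum_mul, hv j, zero_mul]
      rw [hx] at e1
      have e2 : x * ∑ i : Fin (a + r + 1), vv A r a c i * w i = 0 := by
        rw [Finset.mul_sum, ← e1]
        exact Finset.sum_congr rfl fun i _ => by simp only [Pi.smul_apply, smul_eq_mul]; ring
      exact (mul_eq_zero.mp e2).resolve_left hx0
    -- extension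
    set w' : ℕ → ℝ := fun b => if h : b < a + r + 1 then w ⟨b, h⟩ else 0 with hw'
    have hw'i : ∀ i : Fin (a + r + 1), w' i = w i := by
      intro i; exact dif_pos i.2
    have hxw : ∀ i : Fin (a + r + 1), ∑ j : Fin (a + r + 1), w j * Xp A r a c j i = x * w i := by
      intro i
      have e1 : R.mulVec w i = x * w i := by rw [hx]; rfl
      rw [← e1, Matrix.mulVec, dotProduct]
      have e2 : ∑ j : Fin (a + r + 1), R i j * w j =
          ∑ j : Fin (a + r + 1), w j * Xp A r a c j i -
            A ^ (r * r) * vv A r a c i * ∑ j : Fin (a + r + 1), vv A r a c j * w j := by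
        rw [Finset.mul_sum, ← Finset.sum_sub_distrib]
        refine Finset.sum_congr rfl fun j _ => ?_
        simp only [hRdef, Matrix.of_apply]
        rw [Xp_symm hA hr a i c j]; ring
      rw [e2, horth, mul_zero, sub_zero]
    have hL0 : Phi A r a c w' ≠ 0 := by
      intro h0
      apply hw
      funext i
      by_contra hi
      have h1 := hws i hi
      have h2 : Phi A r a c w' = Phi A r a c (fun _ => 0) := by
        rw [h0]; simp [Phi]
      have h3 := Phi_inj hA hr h2 h1.1 h1.2
      rw [hw'i] at h3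
      exact hi h3
    have hXL : ev ((model A hA).X (model A hA).sg r r) a ∘ₗ Phi A r a c w' =
        x • Phi A r a c w' := by
      rw [X_Phi hA hr]
      have e2 : x • Phi A r a c w' = Phi A r a c (fun d => x * w' d) := by
        unfold Phi
        rw [Finset.smul_sum]
        exact Finset.sum_congr rfl fun d _ => smul_smul _ _ _
      rw [e2]
      apply Phi_congr
      intro b h1 h2
      have hb := Finset.mem_range.mp (adm_range h1)
      rw [Finset.sum_range]
      have := hxw ⟨b, hb⟩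
      rw [← hw'i ⟨b, hb⟩] at this
      rw [← this]
      exact Finset.sum_congr rfl fun j _ => by rw [hw'i]
    have hM : Mh A (2 * r) a c ∘ₗ Phi A r a c w' = 0 := by
      by_cases h : adm (2 * r) a c
      · apply LinearMap.ext
        intro F
        apply Fd_B_nondeg
        intro G
        rw [LinearMap.comp_apply, B_comm, ← B_Lh hA (by omega : 0 < 2 * r), B_comm,
          double_Phi hA hr h, B_Phi_Phi hA hr]
        have : ∑ b ∈ Finset.range (a + r + 1),
            (if adm r a b ∧ adm r b c then w' b * vv A r a c b else 0) = 0 := by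
          rw [Finset.sum_range]
          refine Eq.trans (Finset.sum_congr rfl fun i _ => ?_) horth
          by_cases h' : adm r a i ∧ adm r i c
          · rw [if_pos h', hw'i]; ring
          · rw [if_neg h']
            have : w i = 0 := by
              by_contra hi; exact h' (hws i hi)
            rw [this, mul_zero]
        rw [this, zero_mul]
      · rw [Mh_zero A h, LinearMap.zero_comp]
    have hfin := (spec_le hA r hr a c _ (Phi_mem a c w') x hL0 hXL).2 hM
    rw [le_div_iff₀ (by positivity)]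
    exact hfin
  exact Fd_sym_entry R hsym _ hmain i j

theorem Xp_split (a c b d : ℕ) :
    |Xp A r a c b d - A ^ (r * r) * vv A r a c b * vv A r a c d| ≤
      A ^ (r * r) / A ^ (4 * r) := by
  have hApos : 0 < A := by linarith
  by_cases hb : b < a + r + 1
  · by_cases hd : d < a + r + 1
    · exact Xp_split_fin hA hr a c ⟨b, hb⟩ ⟨d, hd⟩
    · have h1 : Xp A r a c b d = 0 := by
        by_contra hx; exact hd (Finset.mem_range.mp (adm_range (Xp_adm hA hr hx).2.2.1))
      have h2 : vv A r a c d = 0 := by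
        by_contra hx; exact hd (Finset.mem_range.mp (adm_range (vv_adm hx).2.1))
      rw [h1, h2, mul_zero, sub_zero, abs_zero]; positivity
  · have h1 : Xp A r a c b d = 0 := by
      by_contra hx; exact hb (Finset.mem_range.mp (adm_range (Xp_adm hA hr hx).1))
    have h2 : vv A r a c b = 0 := by
      by_contra hx; exact hb (Finset.mem_range.mp (adm_range (vv_adm hx).2.1))
    rw [h1, h2, mul_zero, zero_mul, sub_zero, abs_zero]; positivity

omit hA hr in
theorem Fd_adm_symm {a b : ℕ} (h : adm r a b) : adm r b a := by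
  unfold adm at *; omega

theorem vv_sq {a c b : ℕ} (h : adm (2 * r) a c) (h1 : adm r a b) (h2 : adm r b c) :
    vv A r a c b ^ 2 = dl A b * Zf A r a b * Zf A r b c / Zf A (2 * r) a c := by
  have e : vv A r a c b = vco A r a c b := if_pos ⟨h, h1, h2⟩
  have hp := Zf_pos hA hr h1
  have hp2 := Zf_pos hA hr h2
  have hp3 := Zf_pos hA (by omega : 0 < 2 * r) h
  have hd := dl_pos hA b
  rw [e, vco, mul_pow, Real.sq_sqrt (by positivity)]
  have : eps b ^ 2 = 1 := by
    unfold eps; rw [← pow_mul, mul_comm, pow_mul]; simp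
  rw [this, one_mul]

end

section

variable {A : ℝ} (hA : 2 ≤ A) {r : ℕ} (hr : 0 < r)
include hA hr

omit hr in
theorem Fd_K : ((1 - A⁻¹ ^ 4)⁻¹ : ℝ) ^ 2 ≤ 2 ∧ 0 < (1 - A⁻¹ ^ 4)⁻¹ := by
  have hA1 : A⁻¹ ≤ 2⁻¹ := inv_anti₀ (by norm_num) hA
  have hA0 : 0 < A⁻¹ := by positivity
  have h4 : A⁻¹ ^ 4 ≤ (2⁻¹ : ℝ) ^ 4 := pow_le_pow_left₀ hA0.le hA1 4
  have h5 : (15 / 16 : ℝ) ≤ 1 - A⁻¹ ^ 4 := by norm_num at h4 ⊢; linarith
  have h6 : (1 - A⁻¹ ^ 4)⁻¹ ≤ (15 / 16 : ℝ)⁻¹ := inv_anti₀ (by norm_num) h5
  have h7 : 0 < (1 - A⁻¹ ^ 4)⁻¹ := by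
    apply inv_pos.mpr; linarith
  refine ⟨?_, h7⟩
  rw [show ((15 / 16 : ℝ))⁻¹ = 16 / 15 by norm_num] at h6
  nlinarith

theorem vv_step {a c b : ℕ} (h1 : adm r a b) (h2 : adm r b c) :
    vv A r a c (b + 2) ^ 2 * A ^ 4 ≤ 2 * vv A r a c b ^ 2 := by
  have hA1 : 1 < A := by linarith
  have hA0 : 0 < A := by linarith
  by_cases h0 : vv A r a c (b + 2) = 0
  · rw [h0]; norm_num; positivity
  · obtain ⟨h, h1', h2'⟩ := vv_adm h0
    rw [vv_sq hA1 hr h h1' h2', vv_sq hA1 hr h h1 h2]
    have hD := Zf_pos hA1 (by omega : 0 < 2 * r) h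
    have p1 := Zf_pos hA1 hr h1
    have p2 := Zf_pos hA1 hr h2
    have p1' := Zf_pos hA1 hr h1'
    have p2' := Zf_pos hA1 hr h2'
    have hd := dl_pos hA1 b
    have hd' := dl_pos hA1 (b + 2)
    have r1 := Zf_ratio hA1 hr h1 h1'
    have r2 := Zf_ratio hA1 hr (Fd_adm_symm h2) (Fd_adm_symm h2')
    rw [Zf_symm hA1 hr c, Zf_symm hA1 hr c] at r2
    have r3 := dl_ratio hA1 b
    obtain ⟨hK, hK0⟩ := Fd_K hA
    set K := (1 - A⁻¹ ^ 4)⁻¹ with hKdef
    set D := Zf A (2 * r) a c
    set x := dl A b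
    set x' := dl A (b + 2)
    set y := Zf A r a b
    set y' := Zf A r a (b + 2)
    set z := Zf A r b c
    set z' := Zf A r (b + 2) c
    have r4 : z' * A ^ 4 ≤ K * z := by
      have e1 : x * (z' * A ^ 4) ≤ x * (K * z) := by
        calc x * (z' * A ^ 4) = z' * (x * A ^ 4) := by ring
          _ ≤ z' * x' := mul_le_mul_of_nonneg_left r3 p2'.le
          _ ≤ K * (x * z) := r2
          _ = x * (K * z) := by ring
      exact le_of_mul_le_mul_left e1 hd
    rw [div_mul_eq_mul_div, ← mul_div_assoc, div_le_div_iff_of_pos_right hD]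
    calc x' * y' * z' * A ^ 4 = (y' * x') * (z' * A ^ 4) := by ring
      _ ≤ (K * (x * y)) * (K * z) := mul_le_mul r1 r4 (by positivity) (by positivity)
      _ = K ^ 2 * (x * y * z) := by ring
      _ ≤ 2 * (x * y * z) := mul_le_mul_of_nonneg_right hK (by positivity)

theorem vv_steps {a c : ℕ} (m : ℕ) : ∀ b, adm r a b → adm r b c → adm r a (b + 2 * m) →
    adm r (b + 2 * m) c → vv A r a c (b + 2 * m) ^ 2 * A ^ (4 * m) ≤ 2 ^ m * vv A r a c b ^ 2 := by
  have hA0 : 0 < A := by linarith
  induction m with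
  | zero => intro b _ _ _ _; simp
  | succ m ih =>
    intro b h1 h2 h3 h4
    have e : b + 2 * (m + 1) = (b + 2) + 2 * m := by ring
    rw [e] at h3 h4 ⊢
    have h5 : adm r a (b + 2) := by unfold adm at *; omega
    have h6 : adm r (b + 2) c := by unfold adm at *; omega
    have i1 := ih (b + 2) h5 h6 h3 h4
    have i2 := vv_step hA hr h1 h2
    calc vv A r a c (b + 2 + 2 * m) ^ 2 * A ^ (4 * (m + 1)) =
          (vv A r a c (b + 2 + 2 * m) ^ 2 * A ^ (4 * m)) * A ^ 4 := by ring
      _ ≤ (2 ^ m * vv A r a c (b + 2) ^ 2) * A ^ 4 :=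
          mul_le_mul_of_nonneg_right i1 (by positivity)
      _ = 2 ^ m * (vv A r a c (b + 2) ^ 2 * A ^ 4) := by ring
      _ ≤ 2 ^ m * (2 * vv A r a c b ^ 2) := mul_le_mul_of_nonneg_left i2 (by positivity)
      _ = 2 ^ (m + 1) * vv A r a c b ^ 2 := by ring

theorem vv_le_one (a c b : ℕ) : vv A r a c b ^ 2 ≤ 1 := by
  have hA1 : 1 < A := by linarith
  by_cases h0 : vv A r a c b = 0
  · rw [h0]; norm_num
  · obtain ⟨h, h1, _⟩ := vv_adm h0
    rw [← vv_norm hA1 hr h, sq]
    exact Finset.single_le_sum (f := fun b => vv A r a c b * vv A r a c b)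
      (fun i _ => mul_self_nonneg _) (adm_range h1)

theorem vv_prod {a c b d : ℕ} (hbd : b ≤ d) (h1 : adm r a b) (h2 : adm r b c) (h3 : adm r a d)
    (h4 : adm r d c) : |vv A r a c b * vv A r a c d| * A ^ hd b d ≤ 2 ^ hd b d := by
  have hA0 : 0 < A := by linarith
  obtain ⟨m, rfl⟩ : ∃ m, d = b + 2 * m := by
    refine ⟨(d - b) / 2, ?_⟩
    unfold adm at *; omega
  have e : hd b (b + 2 * m) = 2 * m := by unfold hd; omega
  rw [e]
  have i1 := vv_steps hA hr m b h1 h2 h3 h4
  have i2 := vv_le_one hA hr a c b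
  have h5 : (|vv A r a c b * vv A r a c (b + 2 * m)| * A ^ (2 * m)) ^ 2 ≤ (2 ^ (2 * m)) ^ 2 := by
    rw [mul_pow, sq_abs]
    calc (vv A r a c b * vv A r a c (b + 2 * m)) ^ 2 * (A ^ (2 * m)) ^ 2 =
          vv A r a c b ^ 2 * (vv A r a c (b + 2 * m) ^ 2 * A ^ (4 * m)) := by ring
      _ ≤ vv A r a c b ^ 2 * (2 ^ m * vv A r a c b ^ 2) :=
          mul_le_mul_of_nonneg_left i1 (sq_nonneg _)
      _ ≤ 1 * (2 ^ m * 1) := by
          apply mul_le_mul i2 _ (by positivity) (by norm_num)
          exact mul_le_mul_of_nonneg_left i2 (by positivity)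
      _ ≤ (2 ^ (2 * m)) ^ 2 := by
          rw [one_mul, mul_one, ← pow_mul]
          exact pow_le_pow_right₀ (by norm_num) (by omega)
  exact (pow_le_pow_iff_left₀ (by positivity) (by positivity) two_ne_zero).mp h5

/-- upper bound for the entries of the coloured crossing -/
theorem Xp_le (a c b d : ℕ) :
    |Xp A r a c b d| * A ^ hd b d ≤ 8 ^ (hd b d + 1) * A ^ (r * r) := by
  have hA1 : 1 < A := by linarith
  have hA0 : 0 < A := by linarith
  by_cases h0 : Xp A r a c b d = 0
  · rw [h0, abs_zero, zero_mul]; positivity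
  · obtain ⟨h1, h2, h3, h4⟩ := Xp_adm hA1 hr h0
    have hv : |vv A r a c b * vv A r a c d| * A ^ hd b d ≤ 2 ^ hd b d := by
      rcases le_total b d with h | h
      · exact vv_prod hA hr h h1 h2 h3 h4
      · have := vv_prod hA hr h h3 h4 h1 h2
        rw [show hd d b = hd b d by unfold hd; omega, mul_comm (vv A r a c d)] at this
        exact this
    have hs := Xp_split hA1 hr a c b d
    have e1 : |Xp A r a c b d| ≤ A ^ (r * r) * |vv A r a c b * vv A r a c d| +
        A ^ (r * r) / A ^ (4 * r) := by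
      calc |Xp A r a c b d| = |(A ^ (r * r) * vv A r a c b * vv A r a c d) +
            (Xp A r a c b d - A ^ (r * r) * vv A r a c b * vv A r a c d)| := by ring_nf
        _ ≤ |A ^ (r * r) * vv A r a c b * vv A r a c d| +
            |Xp A r a c b d - A ^ (r * r) * vv A r a c b * vv A r a c d| := abs_add_le _ _
        _ ≤ _ := by
            refine add_le_add (le_of_eq ?_) hs
            rw [mul_assoc, abs_mul, abs_of_pos (by positivity : 0 < A ^ (r * r))]
    have e2 : A ^ hd b d ≤ A ^ (4 * r) := by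
      apply pow_le_pow_right₀ hA1.le
      unfold adm hd at *; omega
    have e3 : A ^ (r * r) / A ^ (4 * r) * A ^ hd b d ≤ A ^ (r * r) := by
      rw [div_mul_eq_mul_div, div_le_iff₀ (by positivity)]
      exact mul_le_mul_of_nonneg_left e2 (by positivity)
    have e4 : (2 : ℝ) ^ hd b d + 1 ≤ 8 ^ (hd b d + 1) := by
      have i1 : (2 : ℝ) ^ hd b d ≤ 8 ^ hd b d := pow_le_pow_left₀ (by norm_num) (by norm_num) _
      have i2 : (1 : ℝ) ≤ 8 ^ hd b d := one_le_pow₀ (by norm_num)
      rw [pow_succ]; linarith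
    calc |Xp A r a c b d| * A ^ hd b d ≤ (A ^ (r * r) * |vv A r a c b * vv A r a c d| +
          A ^ (r * r) / A ^ (4 * r)) * A ^ hd b d :=
          mul_le_mul_of_nonneg_right e1 (by positivity)
      _ = A ^ (r * r) * (|vv A r a c b * vv A r a c d| * A ^ hd b d) +
          A ^ (r * r) / A ^ (4 * r) * A ^ hd b d := by ring
      _ ≤ A ^ (r * r) * 2 ^ hd b d + A ^ (r * r) :=
          add_le_add (mul_le_mul_of_nonneg_left hv (by positivity)) e3
      _ = (2 ^ hd b d + 1) * A ^ (r * r) := by ring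
      _ ≤ _ := mul_le_mul_of_nonneg_right e4 (by positivity)

omit hA hr in
theorem Fd_shift_sum (f : ℕ → ℝ) (hf : ∀ b, 0 ≤ f b) (N : ℕ) :
    ∑ b ∈ Finset.range N, (if 2 ≤ b then f (b - 2) else 0) ≤ ∑ b ∈ Finset.range N, f b := by
  have e : ∀ N, ∑ b ∈ Finset.range (N + 2), (if 2 ≤ b then f (b - 2) else 0) =
      ∑ b ∈ Finset.range N, f b := by
    intro N
    induction N with
    | zero => simp [Finset.sum_range_succ]
    | succ N ih =>
      rw [show N + 1 + 2 = (N + 2) + 1 by ring, Finset.sum_range_succ, ih,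
        Finset.sum_range_succ, if_pos (by omega)]
      simp
  calc _ ≤ ∑ b ∈ Finset.range (N + 2), (if 2 ≤ b then f (b - 2) else 0) := by
        apply Finset.sum_le_sum_of_subset_of_nonneg
        · intro b hb; rw [Finset.mem_range] at *; omega
        · intro b _ _
          split_ifs
          · exact hf _
          · exact le_rfl
    _ = _ := e N

/-- the entry at the lowest height is large -/
theorem Xp_low {a c : ℕ} (h : adm (2 * r) a c) :
    A ^ (r * r) ≤ 4 * |Xp A r a c (max a c - r) (max a c - r)| := by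
  have hA1 : 1 < A := by linarith
  have hA0 : 0 < A := by linarith
  obtain ⟨m, hm⟩ : ∃ m, m = max a c - r := ⟨_, rfl⟩
  rw [← hm]
  have hA16 : 16 ≤ A ^ 4 := by
    calc (16 : ℝ) = 2 ^ 4 := by norm_num
      _ ≤ A ^ 4 := pow_le_pow_left₀ (by norm_num) hA 4
  have f0 : ∀ b, 0 ≤ vv A r a c b ^ 2 := fun b => sq_nonneg _
  have hrec : ∀ b, vv A r a c b ^ 2 ≤ (if b = m then vv A r a c m ^ 2 else 0) +
      1 / 8 * (if 2 ≤ b then vv A r a c (b - 2) ^ 2 else 0) := by
    intro b
    by_cases hb : b = m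
    · rw [if_pos hb, hb]
      have : 0 ≤ (if 2 ≤ m then vv A r a c (m - 2) ^ 2 else 0) := by
        split_ifs
        · exact f0 _
        · exact le_rfl
      linarith
    · rw [if_neg hb, zero_add]
      by_cases h0 : vv A r a c b = 0
      · rw [h0]
        have : 0 ≤ (if 2 ≤ b then vv A r a c (b - 2) ^ 2 else 0) := by
          split_ifs
          · exact f0 _
          · exact le_rfl
        nlinarith
      · obtain ⟨_, h1, h2⟩ := vv_adm h0
        have hb2 : 2 ≤ b ∧ adm r a (b - 2) ∧ adm r (b - 2) c := by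
          unfold adm at *; omega
        rw [if_pos hb2.1]
        have i1 := vv_step hA hr hb2.2.1 hb2.2.2
        rw [Nat.sub_add_cancel hb2.1] at i1
        nlinarith [f0 b, f0 (b - 2)]
  have hsum : ∑ b ∈ Finset.range (a + r + 1), vv A r a c b ^ 2 = 1 := by
    rw [← vv_norm hA1 hr h]
    exact Finset.sum_congr rfl fun b _ => sq _
  have h1 : (1 : ℝ) ≤ vv A r a c m ^ 2 + 1 / 8 := by
    calc (1 : ℝ) = ∑ b ∈ Finset.range (a + r + 1), vv A r a c b ^ 2 := hsum.symm
      _ ≤ ∑ b ∈ Finset.range (a + r + 1), ((if b = m then vv A r a c m ^ 2 else 0) +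
          1 / 8 * (if 2 ≤ b then vv A r a c (b - 2) ^ 2 else 0)) :=
          Finset.sum_le_sum fun b _ => hrec b
      _ = ∑ b ∈ Finset.range (a + r + 1), (if b = m then vv A r a c m ^ 2 else 0) +
          1 / 8 * ∑ b ∈ Finset.range (a + r + 1),
            (if 2 ≤ b then vv A r a c (b - 2) ^ 2 else 0) := by
          rw [Finset.sum_add_distrib, Finset.mul_sum]
      _ ≤ vv A r a c m ^ 2 + 1 / 8 * 1 := by
          refine add_le_add ?_ ?_
          · rw [Finset.sum_ite_eq']
            split_ifs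
            · exact le_rfl
            · exact f0 _
          · refine mul_le_mul_of_nonneg_left ?_ (by norm_num)
            rw [← hsum]
            exact Fd_shift_sum (fun b => vv A r a c b ^ 2) f0 _
      _ = _ := by ring
  have hs := Xp_split hA1 hr a c m m
  have hdiv : A ^ (r * r) / A ^ (4 * r) ≤ A ^ (r * r) * (1 / 16) := by
    rw [div_eq_mul_inv]
    apply mul_le_mul_of_nonneg_left _ (by positivity)
    rw [one_div]
    apply inv_anti₀ (by norm_num)
    calc (16 : ℝ) ≤ A ^ 4 := hA16
      _ ≤ A ^ (4 * r) := pow_le_pow_right₀ hA1.le (by omega)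
  have habs := (abs_le.mp hs).1
  have hpos : 0 < A ^ (r * r) := by positivity
  have hx : A ^ (r * r) * vv A r a c m * vv A r a c m = A ^ (r * r) * vv A r a c m ^ 2 := by ring
  rw [hx] at habs
  have hx2 : A ^ (r * r) * (7 / 8) ≤ A ^ (r * r) * vv A r a c m ^ 2 :=
    mul_le_mul_of_nonneg_left (by linarith) hpos.le
  have hx3 := le_abs_self (Xp A r a c m m)
  linarith

end

end

end Pool.Agent.Tait
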