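import Mathlib

/-! # The height model -/

namespace Pool.Agent.Tait

/-- neighbouring heights -/
def adj (a b : ℕ) : Prop := b = a + 1 ∨ a = b + 1

instance (a b : ℕ) : Decidable (adj a b) := by unfold adj; infer_instance

/-- Height paths starting at `a`: `t j` is the height of the gap `j+1`. -/
def Path (a : ℕ) : Type := {t : ℕ → ℕ // adj a (t 0) ∧ ∀ j, adj (t j) (t (j + 1))}

/-- prepend a step -/
def Path.cons {a b : ℕ} (h : adj a b) (t : Path b) : Path a :=
  ⟨fun j => match j with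
    | 0 => b
    | j + 1 => t.1 j, h, fun j => match j with
    | 0 => t.2.1
    | j + 1 => t.2.2 j⟩

/-- remove the first step -/
def Path.tail {a : ℕ} (t : Path a) : Path (t.1 0) :=
  ⟨fun j => t.1 (j + 1), t.2.2 0, fun j => t.2.2 (j + 1)⟩

theorem Path.cons_injective {a b : ℕ} (h : adj a b) : Function.Injective (Path.cons h) := by
  intro s t e
  apply Subtype.ext
  funext j
  exact congrFun (congrArg Subtype.val e) (j + 1)

theorem Ma_cons_tail {a : ℕ} (t : Path a) : Path.cons t.2.1 t.tail = t := by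
  apply Subtype.ext
  funext j
  cases j <;> rfl

theorem Ma_adj_lt {a b : ℕ} (h : adj a b) : b < a + 2 := by
  unfold adj at h; omega

noncomputable section

/-- state spaces -/
abbrev V (a : ℕ) : Type := Path a →₀ ℝ

/-- one step: `V b → V a` -/
def Sm (a b : ℕ) : V b →ₗ[ℝ] V a :=
  if h : adj a b then Finsupp.lmapDomain ℝ ℝ (Path.cons h) else 0

/-- its adjoint -/
def Tm (a b : ℕ) : V a →ₗ[ℝ] V b :=
  if h : adj a b then Finsupp.lcomapDomain (Path.cons h) (Path.cons_injective h) else 0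

theorem Ma_Tm_apply {a b : ℕ} (h : adj a b) (F : V a) (t : Path b) :
    Tm a b F t = F (Path.cons h t) := by
  rw [Tm, dif_pos h]
  rfl

theorem Ma_Sm_single {a b : ℕ} (h : adj a b) (t : Path b) (x : ℝ) :
    Sm a b (Finsupp.single t x) = Finsupp.single (Path.cons h t) x := by
  rw [Sm, dif_pos h, Finsupp.lmapDomain_apply, Finsupp.mapDomain_single]

theorem Ma_Sm_apply {a b : ℕ} (h : adj a b) (F : V b) (t : Path b) :
    Sm a b F (Path.cons h t) = F t := by
  rw [Sm, dif_pos h, Finsupp.lmapDomain_apply, Finsupp.mapDomain_apply (Path.cons_injective h)]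

theorem Ma_Sm_apply_ne {a b : ℕ} (F : V b) (t : Path a) (h : t.1 0 ≠ b) :
    Sm a b F t = 0 := by
  by_cases hab : adj a b
  · rw [Sm, dif_pos hab, Finsupp.lmapDomain_apply]
    apply Finsupp.mapDomain_of_notMem_range
    rintro ⟨s, rfl⟩
    exact h rfl
  · rw [Sm, dif_neg hab]; rfl

theorem Tm_Sm {a b : ℕ} (h : adj a b) : Tm a b ∘ₗ Sm a b = LinearMap.id := by
  apply LinearMap.ext
  intro F
  ext t
  rw [LinearMap.comp_apply, Ma_Tm_apply h, Ma_Sm_apply h, LinearMap.id_apply]

theorem Tm_Sm_ne {a b c : ℕ} (h : b ≠ c) : Tm a b ∘ₗ Sm a c = 0 := by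
  by_cases hab : adj a b
  · apply LinearMap.ext
    intro F
    ext t
    rw [LinearMap.comp_apply, Ma_Tm_apply hab, Ma_Sm_apply_ne]
    · rfl
    · exact h
  · rw [Tm, dif_neg hab, LinearMap.zero_comp]

theorem Sm_zero {a b : ℕ} (h : ¬ adj a b) : Sm a b = 0 := by
  simp [Sm, h]

theorem Tm_zero {a b : ℕ} (h : ¬ adj a b) : Tm a b = 0 := by
  simp [Tm, h]

theorem sum_Sm_Tm (a : ℕ) : ∑ b ∈ Finset.range (a + 2), Sm a b ∘ₗ Tm a b = LinearMap.id := by
  apply LinearMap.ext
  intro F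
  ext t
  rw [LinearMap.sum_apply, Finsupp.finsetSum_apply, LinearMap.id_apply]
  rw [Finset.sum_eq_single (t.1 0)]
  · have h := t.2.1
    conv_lhs => rw [← Ma_cons_tail t]
    rw [LinearMap.comp_apply]
    have e : (Path.cons t.2.1 t.tail).1 0 = t.1 0 := rfl
    rw [e, Ma_Sm_apply h, Ma_Tm_apply h, Ma_cons_tail]
  · intro b _ hb
    rw [LinearMap.comp_apply, Ma_Sm_apply_ne]
    exact fun h => hb h.symm
  · intro hn
    exact absurd (Finset.mem_range.2 (Ma_adj_lt t.2.1)) hn

/-- the pairing -/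
def B {a : ℕ} (F G : V a) : ℝ := F.sum fun t x => x * G t

theorem Ma_B_single_left {a : ℕ} (t : Path a) (x : ℝ) (G : V a) :
    B (Finsupp.single t x) G = x * G t := by
  unfold B
  rw [Finsupp.sum_single_index]
  rw [zero_mul]

theorem B_comm {a : ℕ} (F G : V a) : B F G = B G F := by
  classical
  unfold B
  rw [Finsupp.sum, Finsupp.sum]
  have h1 : ∑ t ∈ F.support, F t * G t = ∑ t ∈ F.support ∪ G.support, F t * G t := by
    apply Finset.sum_subset Finset.subset_union_left
    intro t _ ht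
    rw [Finsupp.notMem_support_iff.1 ht, zero_mul]
  have h2 : ∑ t ∈ G.support, G t * F t = ∑ t ∈ F.support ∪ G.support, G t * F t := by
    apply Finset.sum_subset Finset.subset_union_right
    intro t _ ht
    rw [Finsupp.notMem_support_iff.1 ht, zero_mul]
  rw [h1, h2]
  exact Finset.sum_congr rfl fun t _ => mul_comm _ _

theorem B_add {a : ℕ} (F F' G : V a) : B (F + F') G = B F G + B F' G := by
  unfold B
  rw [Finsupp.sum_add_index' (fun t => zero_mul _) (fun t x y => add_mul _ _ _)]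

theorem B_smul {a : ℕ} (x : ℝ) (F G : V a) : B (x • F) G = x * B F G := by
  unfold B
  rw [Finsupp.sum_smul_index (fun t => zero_mul _), Finsupp.sum, Finsupp.sum, Finset.mul_sum]
  exact Finset.sum_congr rfl fun t _ => mul_assoc _ _ _

theorem Ma_B_add_right {a : ℕ} (F G G' : V a) : B F (G + G') = B F G + B F G' := by
  rw [B_comm, B_add, B_comm G, B_comm G']

theorem Ma_B_smul_right {a : ℕ} (x : ℝ) (F G : V a) : B F (x • G) = x * B F G := by
  rw [B_comm, B_smul, B_comm]

theorem Ma_B_zero_left {a : ℕ} (G : V a) : B 0 G = 0 := by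
  unfold B; exact Finsupp.sum_zero_index

theorem Ma_B_zero_right {a : ℕ} (F : V a) : B F 0 = 0 := by
  rw [B_comm, Ma_B_zero_left]

theorem Ma_B_neg_left {a : ℕ} (F G : V a) : B (-F) G = -B F G := by
  have := B_smul (-1) F G
  rw [neg_one_smul] at this
  rw [this]; ring

theorem Ma_B_sub_left {a : ℕ} (F F' G : V a) : B (F - F') G = B F G - B F' G := by
  rw [sub_eq_add_neg, B_add, Ma_B_neg_left]; ring

theorem Ma_B_sub_right {a : ℕ} (F G G' : V a) : B F (G - G') = B F G - B F G' := by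
  rw [B_comm, Ma_B_sub_left, B_comm G, B_comm G']

/-- the pairing as a bilinear map -/
def Ma_BL (a : ℕ) : V a →ₗ[ℝ] V a →ₗ[ℝ] ℝ :=
  LinearMap.mk₂ ℝ (fun F G => B F G) (fun F F' G => B_add F F' G) (fun x F G => B_smul x F G)
    (fun F G G' => Ma_B_add_right F G G') (fun x F G => Ma_B_smul_right x F G)

theorem Ma_BL_apply {a : ℕ} (F G : V a) : Ma_BL a F G = B F G := rfl

theorem Ma_B_sum_left {a : ℕ} {ι : Type*} (s : Finset ι) (f : ι → V a) (G : V a) :
    B (∑ i ∈ s, f i) G = ∑ i ∈ s, B (f i) G := by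
  rw [← Ma_BL_apply, map_sum, LinearMap.sum_apply]
  rfl

theorem Ma_B_sum_right {a : ℕ} {ι : Type*} (s : Finset ι) (F : V a) (f : ι → V a) :
    B F (∑ i ∈ s, f i) = ∑ i ∈ s, B F (f i) := by
  rw [← Ma_BL_apply, map_sum]
  rfl

theorem B_Sm {a b : ℕ} (F : V b) (G : V a) : B (Sm a b F) G = B F (Tm a b G) := by
  by_cases h : adj a b
  · induction F using Finsupp.induction_linear with
    | zero => rw [map_zero, Ma_B_zero_left, Ma_B_zero_left]
    | add F F' hF hF' => rw [map_add, B_add, hF, hF', B_add]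
    | single t x => rw [Ma_Sm_single h, Ma_B_single_left, Ma_B_single_left, Ma_Tm_apply h]
  · rw [Sm_zero h, Tm_zero h, LinearMap.zero_apply, LinearMap.zero_apply, Ma_B_zero_left,
      Ma_B_zero_right]

theorem Ma_B_Tm {a b : ℕ} (F : V a) (G : V b) : B (Tm a b F) G = B F (Sm a b G) := by
  rw [B_comm, ← B_Sm, B_comm]

theorem B_self_nonneg {a : ℕ} (F : V a) : 0 ≤ B F F := by
  unfold B
  exact Finset.sum_nonneg fun t _ => mul_self_nonneg _

theorem B_self_eq_zero {a : ℕ} (F : V a) (h : B F F = 0) : F = 0 := by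
  unfold B at h
  rw [Finsupp.sum, Finset.sum_eq_zero_iff_of_nonneg fun t _ => mul_self_nonneg _] at h
  ext t
  by_cases ht : t ∈ F.support
  · exact mul_self_eq_zero.1 (h t ht)
  · exact Finsupp.notMem_support_iff.1 ht

theorem Ma_eq_of_B {a : ℕ} {G G' : V a} (h : ∀ F, B F G = B F G') : G = G' := by
  rw [← sub_eq_zero]
  apply B_self_eq_zero
  rw [Ma_B_sub_right, h, sub_self]

/-- Families of endomorphisms. -/
def EE : Type := (a : ℕ) → Module.End ℝ (V a)

instance instRingEE : Ring EE := inferInstanceAs (Ring ((a : ℕ) → Module.End ℝ (V a)))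

instance instAlgebraEE : Algebra ℝ EE :=
  inferInstanceAs (Algebra ℝ ((a : ℕ) → Module.End ℝ (V a)))

theorem Ma_mul_apply (x y : EE) (a : ℕ) (F : V a) : (x * y) a F = x a (y a F) := rfl

theorem Ma_add_apply (x y : EE) (a : ℕ) (F : V a) : (x + y) a F = x a F + y a F := rfl

theorem Ma_smul_apply (c : ℝ) (x : EE) (a : ℕ) (F : V a) : (c • x) a F = c • x a F := rfl

theorem Ma_one_apply (a : ℕ) (F : V a) : (1 : EE) a F = F := rfl

/-- `y` is the adjoint of `x`. -/
def IsAdj (x y : EE) : Prop := ∀ a F G, B (x a F) G = B F (y a G)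

theorem Ma_IsAdj_mul {x y x' y' : EE} (h : IsAdj x y) (h' : IsAdj x' y') :
    IsAdj (x * x') (y' * y) := by
  intro a F G
  rw [Ma_mul_apply, Ma_mul_apply, h, h']

theorem Ma_IsAdj_add {x y x' y' : EE} (h : IsAdj x y) (h' : IsAdj x' y') :
    IsAdj (x + x') (y + y') := by
  intro a F G
  rw [Ma_add_apply, Ma_add_apply, B_add, Ma_B_add_right, h, h']

theorem Ma_IsAdj_smul {x y : EE} (c : ℝ) (h : IsAdj x y) : IsAdj (c • x) (c • y) := by
  intro a F G
  rw [Ma_smul_apply, Ma_smul_apply, B_smul, Ma_B_smul_right, h]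

theorem Ma_IsAdj_one : IsAdj 1 1 := fun _ _ _ => rfl

/-- The ring of adjointable families. -/
def RmSub : Subalgebra ℝ EE where
  carrier := {x | ∃ y, IsAdj x y}
  mul_mem' := by
    rintro x x' ⟨y, h⟩ ⟨y', h'⟩
    exact ⟨y' * y, Ma_IsAdj_mul h h'⟩
  add_mem' := by
    rintro x x' ⟨y, h⟩ ⟨y', h'⟩
    exact ⟨y + y', Ma_IsAdj_add h h'⟩
  algebraMap_mem' := by
    intro c
    refine ⟨c • 1, ?_⟩
    rw [Algebra.algebraMap_eq_smul_one]
    exact Ma_IsAdj_smul c Ma_IsAdj_one

abbrev Rm : Type := RmSub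

theorem IsAdj.unique {x y y' : EE} (h : IsAdj x y) (h' : IsAdj x y') : y = y' := by
  funext a
  apply LinearMap.ext
  intro G
  apply Ma_eq_of_B
  intro F
  rw [← h, ← h']

theorem IsAdj.symm {x y : EE} (h : IsAdj x y) : IsAdj y x := by
  intro a F G
  rw [B_comm, ← h, B_comm]

/-- the adjoint -/
def Ma_star (x : Rm) : Rm := ⟨x.2.choose, x.1, x.2.choose_spec.symm⟩

theorem Ma_star_spec (x : Rm) : IsAdj x.1 (Ma_star x).1 := x.2.choose_spec

theorem Ma_star_eq {x : Rm} {y : EE} (h : IsAdj x.1 y) : (Ma_star x).1 = y :=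
  (Ma_star_spec x).unique h

instance : StarRing Rm where
  star x := ⟨x.2.choose, x.1, x.2.choose_spec.symm⟩
  star_involutive := by
    intro x
    exact Subtype.ext (Ma_star_eq (x := Ma_star x) (Ma_star_spec x).symm)
  star_mul := by
    intro x y
    exact Subtype.ext (Ma_star_eq (x := x * y) (Ma_IsAdj_mul (Ma_star_spec x) (Ma_star_spec y)))
  star_add := by
    intro x y
    exact Subtype.ext (Ma_star_eq (x := x + y) (Ma_IsAdj_add (Ma_star_spec x) (Ma_star_spec y)))

theorem Ma_star_def (x : Rm) : star x = Ma_star x := rfl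

instance : StarModule ℝ Rm where
  star_smul := by
    intro c x
    exact Subtype.ext (Ma_star_eq (x := c • x) (Ma_IsAdj_smul c (Ma_star_spec x)))

/-- action on the state spaces -/
def ev (x : Rm) (a : ℕ) : V a →ₗ[ℝ] V a := x.1 a

theorem ev_mul (x y : Rm) (a : ℕ) : ev (x * y) a = ev x a ∘ₗ ev y a := rfl

theorem ev_star (x : Rm) (a : ℕ) (F G : V a) : B (ev x a F) G = B F (ev (star x) a G) :=
  Ma_star_spec x a F G

/-- elements of `Rm` from adjoint pairs -/
def mkR (x y : EE) (h : IsAdj x y) : Rm := ⟨x, y, h⟩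

theorem star_mkR (x y : EE) (h : IsAdj x y) : star (mkR x y h) = mkR y x h.symm :=
  Subtype.ext (Ma_star_eq (x := mkR x y h) h)

theorem Rm_ext {x y : Rm} (h : ∀ a, ev x a = ev y a) : x = y :=
  Subtype.ext (funext h)

end

end Pool.Agent.Tait
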