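import Mathlib

/-! # Abstract Temperley–Lieb calculus with a shift -/

namespace Pool.Agent.Tait

/-- A ring with involution and a shift endomorphism, containing the cup `u` (and the cap
`star u`).  `sh^[k] u` is the cup in the gap `k`. Multiplication is composition: in `x * y` the
piece `y` is below `x`. `A > 1` is a real number, the value of a circle is `A^2 + A^(-2)`; the
`h`-part: `h` is the projection for a hole in the gap `0`. -/
structure TL (R : Type*) [Ring R] [StarRing R] [Algebra ℝ R] [StarModule ℝ R] (A : ℝ) where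
  sh : R →ₐ[ℝ] R
  sh_star : ∀ x, sh (star x) = star (sh x)
  u : R
  cu : star u * u = algebraMap ℝ R (A ^ 2 + (A ^ 2)⁻¹)
  csu : star u * sh u = 1
  nat_u : ∀ x, sh (sh x) * u = u * x

variable {R : Type*} [Ring R] [StarRing R] [Algebra ℝ R] [StarModule ℝ R] {A : ℝ}

namespace TL

variable (T : TL R A)

/-- iterated shift -/
def shn : ℕ → R → R
  | 0, x => x
  | n + 1, x => T.sh (shn n x)

/-- positive crossing of the strands 0,1 -/
noncomputable def sg : R := A • (1 : R) - A⁻¹ • (T.u * star T.u)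

/-- negative crossing -/
noncomputable def sg' : R := A⁻¹ • (1 : R) - A • (T.u * star T.u)

theorem TLa_cu : star T.u * T.u = (A ^ 2 + (A ^ 2)⁻¹) • (1 : R) := by
  rw [T.cu, Algebra.algebraMap_eq_smul_one]

theorem TLa_csu' : T.sh (star T.u) * T.u = 1 := by
  have h := congrArg star T.csu
  rw [star_mul, star_star, star_one, ← T.sh_star] at h
  exact h

theorem TLa_nat_star (x : R) : star T.u * T.sh (T.sh x) = x * star T.u := by
  have h := congrArg star (T.nat_u (star x))
  rw [star_mul, star_mul, T.sh_star, T.sh_star, star_star, star_star] at h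
  exact h

theorem TLa_cu_mul (x : R) : star T.u * (T.u * x) = (A ^ 2 + (A ^ 2)⁻¹) • x := by
  rw [← mul_assoc, T.TLa_cu, smul_mul_assoc, one_mul]

theorem TLa_csu_mul (x : R) : star T.u * (T.sh T.u * x) = x := by
  rw [← mul_assoc, T.csu, one_mul]

theorem TLa_csu'_mul (x : R) : T.sh (star T.u) * (T.u * x) = x := by
  rw [← mul_assoc, T.TLa_csu', one_mul]

theorem TLa_shcu_mul (x : R) :
    T.sh (star T.u) * (T.sh T.u * x) = (A ^ 2 + (A ^ 2)⁻¹) • x := by
  rw [← mul_assoc, ← map_mul, T.TLa_cu, map_smul, map_one, smul_mul_assoc, one_mul]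

theorem TLa_shcu : T.sh (star T.u) * T.sh T.u = (A ^ 2 + (A ^ 2)⁻¹) • (1 : R) := by
  rw [← map_mul, T.TLa_cu, map_smul, map_one]

/-- general crossing with parameter `B` -/
noncomputable def TLa_gen (B : ℝ) : R := B • (1 : R) - B⁻¹ • (T.u * star T.u)

theorem TLa_gen_sg : T.TLa_gen A = T.sg := rfl

theorem TLa_gen_sg' : T.TLa_gen A⁻¹ = T.sg' := by
  unfold TLa_gen sg'
  rw [inv_inv]

/-- Properties of a crossing element `s`. -/
structure Br (T : TL R A) (s : R) : Prop where
  star_eq : star s = s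
  comm : ∀ x, s * T.sh (T.sh x) = T.sh (T.sh x) * s
  braid : s * T.sh s * s = T.sh s * s * T.sh s
  slideR : T.sh s * s * T.sh T.u = - T.u
  slideL : s * T.sh s * T.u = - T.sh T.u

theorem TLa_gen_u {B : ℝ} (hB : B ≠ 0) (h : A ^ 2 + (A ^ 2)⁻¹ = B ^ 2 + (B ^ 2)⁻¹) :
    T.TLa_gen B * T.u = (-(B⁻¹ ^ 3)) • T.u := by
  unfold TLa_gen
  rw [sub_mul, smul_mul_assoc, one_mul, smul_mul_assoc, mul_assoc, T.TLa_cu, h, mul_smul_comm,
    mul_one, smul_smul, ← sub_smul]
  congr 1
  field_simp
  ring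

theorem TLa_gen_shu (B : ℝ) :
    T.TLa_gen B * T.sh T.u = B • T.sh T.u - B⁻¹ • T.u := by
  unfold TLa_gen
  rw [sub_mul, smul_mul_assoc, one_mul, smul_mul_assoc, mul_assoc, T.csu, mul_one]

theorem TLa_shgen_u (B : ℝ) :
    T.sh (T.TLa_gen B) * T.u = B • T.u - B⁻¹ • T.sh T.u := by
  unfold TLa_gen
  rw [map_sub, map_smul, map_smul, map_one, map_mul, sub_mul, smul_mul_assoc, one_mul,
    smul_mul_assoc, mul_assoc, T.TLa_csu', mul_one]

theorem TLa_br_gen {B : ℝ} (hB : B ≠ 0) (h : A ^ 2 + (A ^ 2)⁻¹ = B ^ 2 + (B ^ 2)⁻¹) :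
    T.Br (T.TLa_gen B) where
  star_eq := by
    unfold TLa_gen
    rw [star_sub, star_smul, star_smul, star_one, star_mul, star_star]
    simp
  comm := by
    intro x
    unfold TLa_gen
    rw [sub_mul, mul_sub, smul_mul_assoc, one_mul, smul_mul_assoc, mul_assoc, T.TLa_nat_star,
      mul_smul_comm, mul_one, mul_smul_comm, ← mul_assoc (T.sh (T.sh x)), T.nat_u, mul_assoc]
  braid := by
    unfold TLa_gen
    simp only [map_sub, map_smul, map_one, map_mul, sub_mul, mul_sub, smul_mul_assoc,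
      mul_smul_comm, one_mul, mul_one, smul_sub, mul_assoc, T.TLa_cu_mul, T.TLa_csu_mul,
      T.TLa_csu'_mul, T.TLa_shcu_mul, T.csu, T.TLa_csu']
    simp only [h, smul_smul]
    match_scalars <;> field_simp <;> ring
  slideR := by
    rw [mul_assoc, T.TLa_gen_shu, mul_sub, mul_smul_comm, mul_smul_comm, ← map_mul,
      T.TLa_gen_u hB h, map_smul, T.TLa_shgen_u]
    simp only [smul_sub, smul_smul]
    match_scalars <;> field_simp <;> ring
  slideL := by
    rw [mul_assoc, T.TLa_shgen_u, mul_sub, mul_smul_comm, mul_smul_comm, T.TLa_gen_u hB h,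
      T.TLa_gen_shu]
    simp only [smul_sub, smul_smul]
    match_scalars <;> field_simp <;> ring

theorem TLa_inv_eq (A : ℝ) : A ^ 2 + (A ^ 2)⁻¹ = A⁻¹ ^ 2 + (A⁻¹ ^ 2)⁻¹ := by
  rw [inv_pow, inv_inv, add_comm]

theorem br_sg (hA : A ≠ 0) : T.Br T.sg := T.TLa_br_gen hA rfl

theorem br_sg' (hA : A ≠ 0) : T.Br T.sg' := by
  rw [← T.TLa_gen_sg']
  exact T.TLa_br_gen (inv_ne_zero hA) (TLa_inv_eq A)

theorem TLa_gen_mul {B : ℝ} (hB : B ≠ 0) (h : A ^ 2 + (A ^ 2)⁻¹ = B ^ 2 + (B ^ 2)⁻¹) :
    T.TLa_gen B * T.TLa_gen B⁻¹ = 1 := by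
  unfold TLa_gen
  simp only [sub_mul, mul_sub, smul_mul_assoc, mul_smul_comm, one_mul, mul_one, smul_sub,
    mul_assoc, T.TLa_cu_mul]
  simp only [h, smul_smul]
  match_scalars <;> field_simp
  ring

theorem sg_mul_sg' (hA : A ≠ 0) : T.sg * T.sg' = 1 := by
  rw [← T.TLa_gen_sg', ← T.TLa_gen_sg]
  exact T.TLa_gen_mul hA rfl

theorem sg'_mul_sg (hA : A ≠ 0) : T.sg' * T.sg = 1 := by
  have := T.TLa_gen_mul (inv_ne_zero hA) (TLa_inv_eq A)
  rw [inv_inv] at this
  rw [← T.TLa_gen_sg', ← T.TLa_gen_sg]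
  exact this

theorem sg_u (hA : A ≠ 0) : T.sg * T.u = (-(A⁻¹ ^ 3)) • T.u := T.TLa_gen_u hA rfl

theorem sg'_u (hA : A ≠ 0) : T.sg' * T.u = (-(A ^ 3)) • T.u := by
  rw [← T.TLa_gen_sg', T.TLa_gen_u (inv_ne_zero hA) (TLa_inv_eq A), inv_inv]

/-- the strand `0` passes over (`s = sg`) or under (`s = sg'`) the next `n` strands -/
def S (s : R) : ℕ → R
  | 0 => 1
  | n + 1 => T.sh (S s n) * s

/-- the bundle of the strands `0..m-1` passes over/under the next `n` strands -/
def X (s : R) : ℕ → ℕ → R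
  | 0, _ => 1
  | m + 1, n => T.S s n * T.sh (X s m n)

/-- `n` nested cups -/
def NU : ℕ → R
  | 0 => 1
  | n + 1 => T.shn n T.u * NU n

/-- `n` nested caps -/
def NC (n : ℕ) : R := star (T.NU n)

/-! ### the iterated shift -/

theorem shn_succ (n : ℕ) (x : R) : T.shn (n + 1) x = T.sh (T.shn n x) := rfl

theorem shn_zero (x : R) : T.shn 0 x = x := rfl

theorem shn_one (x : R) : T.shn 1 x = T.sh x := rfl

theorem shn_mul (n : ℕ) (x y : R) : T.shn n (x * y) = T.shn n x * T.shn n y := by
  induction n with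
  | zero => rfl
  | succ n ih => rw [shn_succ, ih, map_mul]; rfl

theorem shn_map_one (n : ℕ) : T.shn n (1 : R) = 1 := by
  induction n with
  | zero => rfl
  | succ n ih => rw [shn_succ, ih, map_one]

theorem shn_smul (n : ℕ) (c : ℝ) (x : R) : T.shn n (c • x) = c • T.shn n x := by
  induction n with
  | zero => rfl
  | succ n ih => rw [shn_succ, ih, map_smul]; rfl

theorem shn_map_zero (n : ℕ) : T.shn n (0 : R) = 0 := by
  induction n with
  | zero => rfl
  | succ n ih => rw [shn_succ, ih, map_zero]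

theorem shn_map_add (n : ℕ) (x y : R) : T.shn n (x + y) = T.shn n x + T.shn n y := by
  induction n with
  | zero => rfl
  | succ n ih => rw [shn_succ, ih, map_add]; rfl

theorem shn_map_sub (n : ℕ) (x y : R) : T.shn n (x - y) = T.shn n x - T.shn n y := by
  induction n with
  | zero => rfl
  | succ n ih => rw [shn_succ, ih, map_sub]; rfl

theorem shn_map_neg (n : ℕ) (x : R) : T.shn n (-x) = -T.shn n x := by
  induction n with
  | zero => rfl
  | succ n ih => rw [shn_succ, ih, map_neg]; rfl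

theorem shn_star (n : ℕ) (x : R) : T.shn n (star x) = star (T.shn n x) := by
  induction n with
  | zero => rfl
  | succ n ih => rw [shn_succ, ih, T.sh_star]; rfl

theorem shn_shn (m n : ℕ) (x : R) : T.shn m (T.shn n x) = T.shn (m + n) x := by
  induction m with
  | zero => rw [Nat.zero_add]; rfl
  | succ m ih => rw [shn_succ, ih, Nat.add_right_comm]; rfl

theorem shn_succ' (n : ℕ) (x : R) : T.shn (n + 1) x = T.shn n (T.sh x) := by
  rw [← T.shn_one, shn_shn]

theorem sh_shn (n : ℕ) (x : R) : T.sh (T.shn n x) = T.shn (n + 1) x := rfl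

/-- a far element passes through a cup -/
theorem shn_nat_u (n j : ℕ) (x : R) :
    T.shn (n + 2 + j) x * T.shn n T.u = T.shn n T.u * T.shn (n + j) x := by
  have h : T.shn (n + 2 + j) x = T.shn n (T.sh (T.sh (T.shn j x))) := by
    rw [sh_shn, sh_shn, shn_shn]
    congr 1
    omega
  rw [h, ← shn_mul, T.nat_u, shn_mul, shn_shn]

theorem shn_nat_star (n j : ℕ) (x : R) :
    T.shn n (star T.u) * T.shn (n + 2 + j) x = T.shn (n + j) x * T.shn n (star T.u) := by
  have h : T.shn (n + 2 + j) x = T.shn n (T.sh (T.sh (T.shn j x))) := by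
    rw [sh_shn, sh_shn, shn_shn]
    congr 1
    omega
  rw [h, ← shn_mul, T.TLa_nat_star, shn_mul, shn_shn]

/-! ### one strand over many -/

theorem S_zero (s : R) : T.S s 0 = 1 := rfl

theorem S_succ (s : R) (n : ℕ) : T.S s (n + 1) = T.sh (T.S s n) * s := rfl

theorem S_one (s : R) : T.S s 1 = s := by rw [S_succ, S_zero, map_one, one_mul]

theorem X_zero_left (s : R) (n : ℕ) : T.X s 0 n = 1 := rfl

theorem X_succ (s : R) (m n : ℕ) : T.X s (m + 1) n = T.S s n * T.sh (T.X s m n) := rfl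

theorem X_one_left (s : R) (n : ℕ) : T.X s 1 n = T.S s n := by
  rw [X_succ, X_zero_left, map_one, mul_one]

theorem NU_zero : T.NU 0 = 1 := rfl

theorem NU_succ (n : ℕ) : T.NU (n + 1) = T.shn n T.u * T.NU n := rfl

theorem S_add (s : R) (l m : ℕ) : T.S s (l + m) = T.shn l (T.S s m) * T.S s l := by
  induction l with
  | zero => rw [Nat.zero_add, S_zero, mul_one]; rfl
  | succ l ih =>
    rw [Nat.add_right_comm, S_succ, ih, map_mul, mul_assoc, ← S_succ]; rfl

theorem S_comm {s : R} (hs : T.Br s) (n : ℕ) (x : R) :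
    T.S s n * T.shn (n + 1) x = T.shn (n + 1) x * T.S s n := by
  induction n with
  | zero => rw [S_zero, one_mul, mul_one]
  | succ n ih =>
    rw [S_succ, mul_assoc]
    change T.sh (T.S s n) * (s * T.sh (T.sh (T.shn n x))) = _
    rw [hs.comm, ← mul_assoc]
    change T.sh (T.S s n) * T.sh (T.shn (n + 1) x) * s = _
    rw [← map_mul, ih, map_mul, mul_assoc]; rfl

/-- `S` slides a cup -/
theorem S_cup {s : R} (hs : T.Br s) (n j : ℕ) (hj : j ≤ n) :
    T.S s (n + 2) * T.shn (j + 1) T.u = -(T.shn j T.u * T.S s n) := by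
  induction j generalizing n with
  | zero =>
    have h : T.S s (n + 2) = T.sh (T.sh (T.S s n)) * (T.sh s * s) := by
      rw [S_succ, S_succ, map_mul, mul_assoc]
    rw [h, mul_assoc]
    change T.sh (T.sh (T.S s n)) * (T.sh s * s * T.sh T.u) = _
    rw [hs.slideR, mul_neg, T.nat_u]; rfl
  | succ j ih =>
    obtain ⟨k, rfl⟩ : ∃ k, n = k + 1 := ⟨n - 1, by omega⟩
    have h := ih k (by omega)
    rw [show k + 1 + 2 = (k + 2) + 1 from rfl, S_succ, mul_assoc]
    change T.sh (T.S s (k + 2)) * (s * T.sh (T.sh (T.shn j T.u))) = _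
    rw [hs.comm, ← mul_assoc, ← map_mul]
    change T.sh (T.S s (k + 2) * T.shn (j + 1) T.u) * s = _
    rw [h, map_neg, map_mul, neg_mul, mul_assoc, ← S_succ]; rfl

/-- `S` slides a crossing -/
theorem S_s {s : R} (hs : T.Br s) (n j : ℕ) (hj : j + 2 ≤ n) :
    T.S s n * T.shn (j + 1) s = T.shn j s * T.S s n := by
  induction j generalizing n with
  | zero =>
    obtain ⟨k, rfl⟩ : ∃ k, n = k + 2 := ⟨n - 2, by omega⟩
    have h : T.S s (k + 2) = T.sh (T.sh (T.S s k)) * (T.sh s * s) := by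
      rw [S_succ, S_succ, map_mul, mul_assoc]
    rw [h, mul_assoc]
    change T.sh (T.sh (T.S s k)) * (T.sh s * s * T.sh s) = s * _
    rw [← hs.braid, ← mul_assoc, ← mul_assoc, ← hs.comm]
    simp only [mul_assoc]
  | succ j ih =>
    obtain ⟨k, rfl⟩ : ∃ k, n = k + 1 := ⟨n - 1, by omega⟩
    have h := ih k (by omega)
    rw [S_succ, mul_assoc]
    change T.sh (T.S s k) * (s * T.sh (T.sh (T.shn j s))) = _
    rw [hs.comm, ← mul_assoc, ← map_mul]
    change T.sh (T.S s k * T.shn (j + 1) s) * s = _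
    rw [h, map_mul, mul_assoc, ← S_succ]; rfl

theorem X_zero_right (s : R) (m : ℕ) : T.X s m 0 = 1 := by
  induction m with
  | zero => rfl
  | succ m ih => rw [X_succ, ih, S_zero, map_one, one_mul]

theorem X_add_right {s : R} (hs : T.Br s) (k l m : ℕ) :
    T.X s k (l + m) = T.shn l (T.X s k m) * T.X s k l := by
  induction k with
  | zero => rw [X_zero_left, X_zero_left, X_zero_left, shn_map_one, one_mul]
  | succ k ih =>
    rw [X_succ, X_succ, X_succ, ih, S_add, map_mul, shn_mul, sh_shn, ← T.shn_one (T.X s k m),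
      shn_shn]
    calc T.shn l (T.S s m) * T.S s l * (T.shn (l + 1) (T.X s k m) * T.sh (T.X s k l))
        = T.shn l (T.S s m) * (T.S s l * T.shn (l + 1) (T.X s k m)) * T.sh (T.X s k l) := by
          simp only [mul_assoc]
      _ = _ := by
          rw [T.S_comm hs]
          simp only [mul_assoc]

theorem X_add_left {s : R} (k l m : ℕ) :
    T.X s (k + l) m = T.X s k m * T.shn k (T.X s l m) := by
  induction k with
  | zero => rw [Nat.zero_add, X_zero_left, one_mul]; rfl
  | succ k ih =>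
    rw [Nat.add_right_comm, X_succ, ih, map_mul, X_succ, mul_assoc]; rfl

theorem star_S {s : R} (hs : T.Br s) (n : ℕ) : star (T.S s n) = T.X s n 1 := by
  induction n with
  | zero => rw [S_zero, star_one, X_zero_left]
  | succ n ih => rw [S_succ, star_mul, hs.star_eq, ← T.sh_star, ih, X_succ, S_one]

/-- the adjoint of a block -/
theorem star_X {s : R} (hs : T.Br s) (m n : ℕ) : star (T.X s m n) = T.X s n m := by
  induction m with
  | zero => rw [X_zero_left, star_one, X_zero_right]
  | succ m ih =>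
    rw [X_succ, star_mul, ← T.sh_star, ih, T.star_S hs, add_comm m 1, T.X_add_right hs, shn_one]

theorem X_inv {s s' : R} (hs : T.Br s) (hs' : T.Br s') (h : s' * s = 1) (m n : ℕ) :
    T.X s' n m * T.X s m n = 1 := by
  have h1 : ∀ n, T.X s' n 1 * T.S s n = 1 := by
    intro n
    induction n with
    | zero => rw [X_zero_left, S_zero, one_mul]
    | succ n ih =>
      rw [X_succ, S_one, S_succ]
      calc s' * T.sh (T.X s' n 1) * (T.sh (T.S s n) * s)
          = s' * T.sh (T.X s' n 1 * T.S s n) * s := by rw [map_mul]; simp only [mul_assoc]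
        _ = 1 := by rw [ih, map_one, mul_one, h]
  induction m with
  | zero => rw [X_zero_right, X_zero_left, one_mul]
  | succ m ih =>
    rw [X_succ, add_comm m 1, T.X_add_right hs', shn_one]
    calc T.sh (T.X s' n m) * T.X s' n 1 * (T.S s n * T.sh (T.X s m n))
        = T.sh (T.X s' n m) * (T.X s' n 1 * T.S s n) * T.sh (T.X s m n) := by
          simp only [mul_assoc]
      _ = 1 := by rw [h1, mul_one, ← map_mul, ih, map_one]

/-- far commutation of a block -/
theorem X_comm {s : R} (hs : T.Br s) (m n : ℕ) (x : R) :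
    T.X s m n * T.shn (m + n) x = T.shn (m + n) x * T.X s m n := by
  induction m with
  | zero => rw [X_zero_left, one_mul, mul_one]
  | succ m ih =>
    rw [X_succ, mul_assoc, Nat.add_right_comm, shn_succ, ← map_mul, ih, map_mul, ← mul_assoc]
    have h : T.sh (T.shn (m + n) x) = T.shn (n + 1) (T.shn m x) := by
      rw [sh_shn, shn_shn]; congr 1; omega
    rw [h, T.S_comm hs, mul_assoc]

/-- an element which slides through one strand slides through a bundle -/
theorem X_slide {s : R} (n : ℕ) (y : R) (h : T.S s n * T.sh y = y * T.S s n) (m : ℕ) :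
    T.X s m n * T.shn m y = y * T.X s m n := by
  induction m with
  | zero => rw [X_zero_left, one_mul, mul_one]; rfl
  | succ m ih =>
    rw [X_succ, mul_assoc, shn_succ, ← map_mul, ih, map_mul, ← mul_assoc, h, mul_assoc]

/-- a cup among the strands on the right of the bundle: for `j ≤ n` -/
theorem X_cup_right {s : R} (hs : T.Br s) (m n j : ℕ) (hj : j ≤ n) :
    T.X s m (n + 2) * T.shn (m + j) T.u = (-1 : ℝ) ^ m • (T.shn j T.u * T.X s m n) := by
  induction m with
  | zero => rw [X_zero_left, X_zero_left, one_mul, mul_one, pow_zero, one_smul, Nat.zero_add]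
  | succ m ih =>
    rw [X_succ, mul_assoc, Nat.add_right_comm, shn_succ, ← map_mul, ih, map_smul, map_mul,
      sh_shn, mul_smul_comm, ← mul_assoc, T.S_cup hs n j hj, X_succ, pow_succ, mul_smul,
      neg_mul, mul_assoc, neg_smul, one_smul]

theorem X_two_u {s : R} (hs : T.Br s) (n : ℕ) :
    T.X s 2 n * T.u = (-1 : ℝ) ^ n • T.shn n T.u := by
  rw [X_succ, X_one_left]
  induction n with
  | zero => rw [S_zero, map_one, one_mul, one_mul, pow_zero, one_smul]; rfl
  | succ n ih =>
    rw [S_succ, map_mul]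
    calc T.sh (T.S s n) * s * (T.sh (T.sh (T.S s n)) * T.sh s) * T.u
        = T.sh (T.S s n) * (s * T.sh (T.sh (T.S s n))) * T.sh s * T.u := by
          simp only [mul_assoc]
      _ = T.sh (T.S s n * T.sh (T.S s n)) * (s * T.sh s * T.u) := by
          rw [hs.comm, map_mul]; simp only [mul_assoc]
      _ = _ := by
          rw [hs.slideL, mul_neg, ← map_mul, ih, map_smul, pow_succ, mul_smul, neg_smul,
            one_smul, smul_neg]
          rfl

/-- a cup in the bundle -/
theorem X_cup_left {s : R} (hs : T.Br s) (m n j : ℕ) (hj : j ≤ m) :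
    T.X s (m + 2) n * T.shn j T.u = (-1 : ℝ) ^ n • (T.shn (n + j) T.u * T.X s m n) := by
  obtain ⟨k, rfl⟩ : ∃ k, m = j + k := ⟨m - j, by omega⟩
  have h1 : T.X s (j + k + 2) n = T.X s j n * T.shn j (T.X s 2 n * T.sh (T.sh (T.X s k n))) := by
    rw [show j + k + 2 = j + (2 + k) by omega, X_add_left, X_add_left]
    rfl
  rw [h1, mul_assoc, ← shn_mul, mul_assoc, T.nat_u, ← mul_assoc, T.X_two_u hs, smul_mul_assoc,
    shn_smul, mul_smul_comm, shn_mul, shn_shn, ← mul_assoc, T.X_comm hs, mul_assoc,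
    ← X_add_left, add_comm j n]

theorem X_cap_right {s : R} (hs : T.Br s) (m n j : ℕ) (hj : j ≤ n) :
    T.shn j (star T.u) * T.X s m (n + 2) = (-1 : ℝ) ^ m • (T.X s m n * T.shn (m + j) (star T.u)) := by
  have h := congrArg star (T.X_cup_left hs n m j hj)
  rw [star_mul, T.star_X hs, star_smul, star_mul, T.star_X hs, ← shn_star, ← shn_star] at h
  simpa using h

theorem X_cap_left {s : R} (hs : T.Br s) (m n j : ℕ) (hj : j ≤ m) :
    T.shn (n + j) (star T.u) * T.X s (m + 2) n = (-1 : ℝ) ^ n • (T.X s m n * T.shn j (star T.u)) := by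
  have h := congrArg star (T.X_cup_right hs n m j hj)
  rw [star_mul, T.star_X hs, star_smul, star_mul, T.star_X hs, ← shn_star, ← shn_star] at h
  simpa using h

theorem TLa_slide_shift {s : R} (hs : T.Br s) (n : ℕ) (y : R)
    (h : T.S s n * T.sh y = y * T.S s n) :
    T.S s (n + 1) * T.sh (T.sh y) = T.sh y * T.S s (n + 1) := by
  rw [S_succ, mul_assoc, hs.comm, ← mul_assoc, ← map_mul, h, map_mul, mul_assoc]

theorem TLa_slide_mul {s : R} (n : ℕ) (y z : R)
    (hy : T.S s n * T.sh y = y * T.S s n) (hz : T.S s n * T.sh z = z * T.S s n) :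
    T.S s n * T.sh (y * z) = y * z * T.S s n := by
  rw [map_mul, ← mul_assoc, hy, mul_assoc, hz, mul_assoc]

theorem TLa_slide_S {s : R} (hs : T.Br s) (b n : ℕ) (h : b + 1 ≤ n) :
    T.S s n * T.sh (T.S s b) = T.S s b * T.S s n := by
  induction b generalizing n with
  | zero => rw [S_zero, map_one, mul_one, one_mul]
  | succ b ih =>
    obtain ⟨k, rfl⟩ : ∃ k, n = k + 1 := ⟨n - 1, by omega⟩
    rw [T.S_succ s b]
    refine T.TLa_slide_mul _ _ _ (T.TLa_slide_shift hs k _ (ih k (by omega))) ?_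
    exact T.S_s hs (k + 1) 0 (by omega)

theorem TLa_slide_X {s : R} (hs : T.Br s) (a b n : ℕ) (h : a + b ≤ n) :
    T.S s n * T.sh (T.X s a b) = T.X s a b * T.S s n := by
  induction a generalizing n with
  | zero => rw [X_zero_left, map_one, mul_one, one_mul]
  | succ a ih =>
    obtain ⟨k, rfl⟩ : ∃ k, n = k + 1 := ⟨n - 1, by omega⟩
    rw [X_succ]
    exact T.TLa_slide_mul _ _ _ (T.TLa_slide_S hs b (k + 1) (by omega))
      (T.TLa_slide_shift hs k _ (ih k (by omega)))

theorem X_yb {s : R} (hs : T.Br s) (r : ℕ) :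
    T.X s r r * T.shn r (T.X s r r) * T.X s r r =
      T.shn r (T.X s r r) * T.X s r r * T.shn r (T.X s r r) := by
  have h1 := T.X_slide (2 * r) (T.X s r r) (T.TLa_slide_X hs r r (2 * r) (by omega)) r
  rw [two_mul, T.X_add_right hs] at h1
  rw [h1, mul_assoc]

theorem nat_NU (n : ℕ) (x : R) : T.shn (2 * n) x * T.NU n = T.NU n * x := by
  induction n with
  | zero => rw [NU_zero, mul_one, one_mul]; rfl
  | succ n ih =>
    rw [NU_succ, show 2 * (n + 1) = n + 2 + n by omega, ← mul_assoc, T.shn_nat_u, mul_assoc,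
      ← two_mul, ih, mul_assoc]

theorem X_NU_right {s : R} (hs : T.Br s) (m n : ℕ) :
    T.X s m (2 * n) * T.shn m (T.NU n) = (-1 : ℝ) ^ (m * n) • T.NU n := by
  induction n with
  | zero => rw [NU_zero, shn_map_one, mul_one, Nat.mul_zero, X_zero_right, Nat.mul_zero, pow_zero,
      one_smul]
  | succ n ih =>
    rw [NU_succ, shn_mul, shn_shn, ← mul_assoc, show 2 * (n + 1) = 2 * n + 2 by omega,
      T.X_cup_right hs m (2 * n) n (by omega), smul_mul_assoc, mul_assoc, ih, mul_smul_comm,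
      smul_smul, ← pow_add]
    congr 2
    ring

theorem X_NU_left {s : R} (hs : T.Br s) (m n : ℕ) :
    T.X s (2 * n) m * T.NU n = (-1 : ℝ) ^ (m * n) • T.shn m (T.NU n) := by
  induction n with
  | zero => rw [NU_zero, shn_map_one, mul_one, Nat.mul_zero, X_zero_left, Nat.mul_zero, pow_zero,
      one_smul]
  | succ n ih =>
    rw [NU_succ, ← mul_assoc, show 2 * (n + 1) = 2 * n + 2 by omega,
      T.X_cup_left hs (2 * n) m n (by omega), smul_mul_assoc, mul_assoc, ih, mul_smul_comm,
      smul_smul, ← pow_add, shn_mul, shn_shn]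
    congr 2
    ring

theorem NU_succ' (n : ℕ) : T.NU (n + 1) = T.sh (T.NU n) * T.u := by
  induction n with
  | zero => rw [NU_succ, NU_zero, mul_one, map_one, one_mul]; rfl
  | succ n ih =>
    rw [NU_succ, ih, shn_succ, ← mul_assoc, ← map_mul, ← NU_succ, ih]

theorem NC_zero : T.NC 0 = 1 := by rw [NC, NU_zero, star_one]

theorem NC_succ (n : ℕ) : T.NC (n + 1) = T.NC n * T.shn n (star T.u) := by
  rw [NC, NU_succ, star_mul, shn_star]; rfl

theorem NC_succ' (n : ℕ) : T.NC (n + 1) = star T.u * T.sh (T.NC n) := by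
  rw [NC, NU_succ', star_mul, ← T.sh_star]; rfl

theorem zig (n : ℕ) : T.NC n * T.shn n (T.NU n) = 1 := by
  induction n with
  | zero => rw [NC_zero, NU_zero, one_mul]; rfl
  | succ n ih =>
    rw [NC_succ, NU_succ', shn_mul]
    have h1 : T.shn (n + 1) (T.sh (T.NU n)) = T.shn (n + 2 + 0) (T.NU n) := by
      rw [← shn_succ']
    calc T.NC n * T.shn n (star T.u) * (T.shn (n + 1) (T.sh (T.NU n)) * T.shn (n + 1) T.u)
        = T.NC n * (T.shn n (star T.u) * T.shn (n + 2 + 0) (T.NU n)) * T.shn (n + 1) T.u := by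
          rw [h1]; simp only [mul_assoc]
      _ = T.NC n * T.shn n (T.NU n) * (T.shn n (star T.u) * T.shn (n + 1) T.u) := by
          rw [T.shn_nat_star]; simp only [mul_assoc, Nat.add_zero]
      _ = 1 := by
          rw [ih, one_mul, shn_succ', ← shn_mul, T.csu, shn_map_one]

theorem zag (n : ℕ) : T.shn n (T.NC n) * T.NU n = 1 := by
  have h := congrArg star (T.zig n)
  rw [star_mul, star_one, ← shn_star] at h
  simpa [NC] using h

/-- rotation of a block crossing -/
theorem X_rot {s s' : R} (hs : T.Br s) (hs' : T.Br s') (h : s' * s = 1) (h' : s * s' = 1) (r : ℕ) :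
    T.NC r * T.shn r (T.X s r r) * T.shn (2 * r) (T.NU r) = (-1 : ℝ) ^ r • T.X s' r r := by
  -- caps absorb a block
  have h1 := congrArg star (T.X_NU_left hs r r)
  rw [star_mul, T.star_X hs, star_smul, ← shn_star, two_mul, T.X_add_right hs] at h1
  have hpow : (-1 : ℝ) ^ (r * r) = (-1 : ℝ) ^ r := by
    rcases Nat.even_or_odd r with hr | hr
    · rw [hr.neg_one_pow, (hr.mul_left r).neg_one_pow]
    · rw [hr.neg_one_pow, (hr.mul hr).neg_one_pow]
  have h2 : T.NC r * T.shn r (T.X s r r) * T.X s r r = (-1 : ℝ) ^ r • T.shn r (T.NC r) := by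
    rw [hpow] at h1
    simpa [NC, mul_assoc] using h1
  have h3 : T.X s r r * T.X s' r r = 1 := T.X_inv hs' hs h' r r
  have h4 : T.NC r * T.shn r (T.X s r r) = (-1 : ℝ) ^ r • (T.shn r (T.NC r) * T.X s' r r) := by
    calc T.NC r * T.shn r (T.X s r r)
        = T.NC r * T.shn r (T.X s r r) * T.X s r r * T.X s' r r := by
          rw [mul_assoc, h3, mul_one]
      _ = _ := by rw [h2, smul_mul_assoc]
  rw [h4, smul_mul_assoc, mul_assoc, two_mul, T.X_comm hs', ← mul_assoc, ← shn_shn, ← shn_mul,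
    T.zig, shn_map_one, one_mul]

/-- The Jones–Wenzl projector on the strands `0..r-1`. -/
structure JW (T : TL R A) (r : ℕ) where
  P : R
  star_eq : star P = P
  cap : ∀ j, j + 2 ≤ r → T.shn j (star T.u) * P = 0
  left : ∀ x, (∀ j, j + 2 ≤ r → T.shn j (star T.u) * x = 0) → P * x = x

end TL

end Pool.Agent.Tait
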