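import Pool.Agent.Lib.MP_150b40_gt.Ma
import Pool.Agent.Lib.MP_150b40_gt.TLa

/-! # The Temperley–Lieb ring of the height model -/

namespace Pool.Agent.Tait

noncomputable section

/-- quantum dimension `[x+1]` at `q = A^2` -/
def dl (A : ℝ) (x : ℕ) : ℝ := ((A ^ 2) ^ (x + 1) - ((A ^ 2)⁻¹) ^ (x + 1)) / (A ^ 2 - (A ^ 2)⁻¹)

theorem Mb_q {A : ℝ} (hA : 1 < A) : 1 < A ^ 2 ∧ (A ^ 2)⁻¹ < 1 ∧ 0 < (A ^ 2)⁻¹ ∧
    A ^ 2 * (A ^ 2)⁻¹ = 1 ∧ 0 < A ^ 2 - (A ^ 2)⁻¹ := by
  have h1 : 1 < A ^ 2 := by nlinarith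
  have h2 : (A ^ 2)⁻¹ < 1 := inv_lt_one_of_one_lt₀ h1
  have h3 : 0 < (A ^ 2)⁻¹ := by positivity
  exact ⟨h1, h2, h3, mul_inv_cancel₀ (by positivity), by linarith⟩

theorem dl_pos {A : ℝ} (hA : 1 < A) (x : ℕ) : 0 < dl A x := by
  obtain ⟨h1, h2, h3, h4, h5⟩ := Mb_q hA
  unfold dl
  apply div_pos _ h5
  have e1 : 1 < (A ^ 2) ^ (x + 1) := one_lt_pow₀ h1 (by omega)
  have e2 : ((A ^ 2)⁻¹) ^ (x + 1) < 1 := pow_lt_one₀ h3.le h2 (by omega)
  linarith

theorem dl_zero {A : ℝ} (hA : 1 < A) : dl A 0 = 1 := by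
  obtain ⟨h1, h2, h3, h4, h5⟩ := Mb_q hA
  unfold dl
  rw [zero_add, pow_one, pow_one, div_self h5.ne']

theorem dl_one {A : ℝ} (hA : 1 < A) : dl A 1 = A ^ 2 + (A ^ 2)⁻¹ := by
  obtain ⟨h1, h2, h3, h4, h5⟩ := Mb_q hA
  unfold dl
  rw [div_eq_iff h5.ne']
  ring

theorem dl_rec {A : ℝ} (hA : 1 < A) (x : ℕ) :
    (A ^ 2 + (A ^ 2)⁻¹) * dl A (x + 1) = dl A (x + 2) + dl A x := by
  obtain ⟨h1, h2, h3, h4, h5⟩ := Mb_q hA
  unfold dl
  generalize (A ^ 2)⁻¹ = p at *
  generalize A ^ 2 = q at *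
  have h6 : q - p ≠ 0 := h5.ne'
  field_simp
  have : p * q = 1 := by rw [mul_comm]; exact h4
  linear_combination (q ^ (x + 1) - p ^ (x + 1)) * h4

theorem dl_ge {A : ℝ} (hA : 1 < A) (x : ℕ) : A ^ (2 * x) ≤ dl A x := by
  obtain ⟨h1, h2, h3, h4, h5⟩ := Mb_q hA
  unfold dl
  rw [le_div_iff₀ h5, pow_mul]
  generalize (A ^ 2)⁻¹ = p at *
  generalize A ^ 2 = q at *
  have e1 : p ^ x ≤ 1 := pow_le_one₀ h3.le h2.le
  have e2 : 1 ≤ q ^ x := one_le_pow₀ h1.le
  rw [pow_succ, pow_succ]
  nlinarith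

theorem dl_le {A : ℝ} (hA : 1 < A) (x : ℕ) : dl A x ≤ A ^ (2 * x) * (1 - A⁻¹ ^ 4)⁻¹ := by
  obtain ⟨h1, h2, h3, h4, h5⟩ := Mb_q hA
  have e0 : A⁻¹ ^ 4 = (A ^ 2)⁻¹ ^ 2 := by
    rw [inv_pow, inv_pow, ← pow_mul]
  unfold dl
  rw [e0, pow_mul]
  generalize (A ^ 2)⁻¹ = p at *
  generalize A ^ 2 = q at *
  have e1 : 0 < 1 - p ^ 2 := by nlinarith
  have e3 : q - p = q * (1 - p ^ 2) := by
    linear_combination p * h4
  rw [e3, div_le_iff₀ (by positivity)]
  have e4 : q ^ x * (1 - p ^ 2)⁻¹ * (q * (1 - p ^ 2)) = q ^ (x + 1) := by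
    field_simp
    ring
  rw [e4]
  have : 0 ≤ p ^ (x + 1) := by positivity
  linarith

/-- `Δ_{x} / Δ_{x+2} ≤ A^{-4}` -/
theorem dl_ratio {A : ℝ} (hA : 1 < A) (x : ℕ) : dl A x * A ^ 4 ≤ dl A (x + 2) := by
  obtain ⟨h1, h2, h3, h4, h5⟩ := Mb_q hA
  have e0 : A ^ 4 = (A ^ 2) ^ 2 := by ring
  unfold dl
  rw [e0, div_mul_eq_mul_div]
  apply div_le_div_of_nonneg_right _ h5.le
  generalize (A ^ 2)⁻¹ = p at *
  generalize A ^ 2 = q at *
  have e1 : 0 ≤ p ^ (x + 1) := by positivity
  have e2 : p ^ 2 ≤ q ^ 2 := by nlinarith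
  have e3 : p ^ (x + 2 + 1) = p ^ (x + 1) * p ^ 2 := by ring
  have e4 : q ^ (x + 2 + 1) = q ^ (x + 1) * q ^ 2 := by ring
  rw [e3, e4]
  nlinarith [mul_le_mul_of_nonneg_left e2 e1]

/-- weight of a step -/
def wt (A : ℝ) (a b : ℕ) : ℝ := Real.sqrt (dl A b / dl A a)

theorem Mb_wt_pos {A : ℝ} (hA : 1 < A) (a b : ℕ) : 0 < wt A a b :=
  Real.sqrt_pos.mpr (div_pos (dl_pos hA b) (dl_pos hA a))

theorem Mb_wt_mul {A : ℝ} (hA : 1 < A) (a b : ℕ) : wt A a b * wt A b a = 1 := by
  have ha := dl_pos hA a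
  have hb := dl_pos hA b
  unfold wt
  rw [← Real.sqrt_mul (by positivity)]
  rw [show dl A b / dl A a * (dl A a / dl A b) = 1 by field_simp]
  exact Real.sqrt_one

theorem Mb_wt_sq {A : ℝ} (hA : 1 < A) (a b : ℕ) : wt A a b * wt A a b = dl A b / dl A a := by
  have ha := dl_pos hA a
  have hb := dl_pos hA b
  unfold wt
  exact Real.mul_self_sqrt (by positivity)


theorem Mb_sum_comp {U V W : Type*} [AddCommMonoid U] [AddCommMonoid V] [AddCommMonoid W]
    [Module ℝ U] [Module ℝ V] [Module ℝ W] {ι : Type*} (s : Finset ι) (f : ι → V →ₗ[ℝ] W)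
    (g : U →ₗ[ℝ] V) : (∑ i ∈ s, f i) ∘ₗ g = ∑ i ∈ s, f i ∘ₗ g := by
  ext x
  simp [LinearMap.sum_apply]

theorem Mb_comp_sum {U V W : Type*} [AddCommMonoid U] [AddCommMonoid V] [AddCommMonoid W]
    [Module ℝ U] [Module ℝ V] [Module ℝ W] {ι : Type*} (s : Finset ι) (f : ι → U →ₗ[ℝ] V)
    (g : V →ₗ[ℝ] W) : g ∘ₗ (∑ i ∈ s, f i) = ∑ i ∈ s, g ∘ₗ f i := by
  ext x
  simp [LinearMap.sum_apply]

/-- shift of a family -/
def shE (x : EE) : EE := fun a => ∑ b ∈ Finset.range (a + 2), Sm a b ∘ₗ x b ∘ₗ Tm a b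

/-- the cup -/
def uE (A : ℝ) : EE := fun a => ∑ b ∈ Finset.range (a + 2), wt A a b • (Sm a b ∘ₗ Sm b a)

/-- the cap -/
def cE (A : ℝ) : EE := fun a => ∑ b ∈ Finset.range (a + 2), wt A a b • (Tm b a ∘ₗ Tm a b)

/-- the hole -/
def hE : EE := fun a => if a = 0 then 1 else 0

theorem Mb_B_add_right {a : ℕ} (F G G' : V a) : B F (G + G') = B F G + B F G' := by
  rw [B_comm, B_add, B_comm G, B_comm G']

theorem Mb_B_smul_right {a : ℕ} (x : ℝ) (F G : V a) : B F (x • G) = x * B F G := by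
  rw [B_comm, B_smul, B_comm G]

theorem Mb_B_zero_left {a : ℕ} (G : V a) : B 0 G = 0 := by
  have h := B_smul 0 (0 : V a) G
  rwa [zero_smul, zero_mul] at h

theorem Mb_B_zero_right {a : ℕ} (G : V a) : B G 0 = 0 := by
  rw [B_comm, Mb_B_zero_left]

theorem Mb_B_sum_left {a : ℕ} {ι : Type*} (s : Finset ι) (f : ι → V a) (G : V a) :
    B (∑ i ∈ s, f i) G = ∑ i ∈ s, B (f i) G := by
  classical
  induction s using Finset.induction_on with
  | empty => simp [Mb_B_zero_left]
  | insert i s hi ih => rw [Finset.sum_insert hi, Finset.sum_insert hi, B_add, ih]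

theorem Mb_B_sum_right {a : ℕ} {ι : Type*} (s : Finset ι) (f : ι → V a) (G : V a) :
    B G (∑ i ∈ s, f i) = ∑ i ∈ s, B G (f i) := by
  rw [B_comm, Mb_B_sum_left]
  exact Finset.sum_congr rfl fun i _ => B_comm _ _

theorem Mb_B_Tm {a b : ℕ} (F : V a) (G : V b) : B (Tm a b F) G = B F (Sm a b G) := by
  rw [B_comm, ← B_Sm, B_comm]

theorem Mb_adj_sh {x y : EE} (h : IsAdj x y) : IsAdj (shE x) (shE y) := by
  intro a F G
  unfold shE
  rw [LinearMap.sum_apply, LinearMap.sum_apply, Mb_B_sum_left, Mb_B_sum_right]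
  apply Finset.sum_congr rfl
  intro b _
  rw [LinearMap.comp_apply, LinearMap.comp_apply, LinearMap.comp_apply, LinearMap.comp_apply,
    B_Sm, h, Mb_B_Tm]

theorem adj_u (A : ℝ) : IsAdj (uE A) (cE A) := by
  intro a F G
  unfold uE cE
  rw [LinearMap.sum_apply, LinearMap.sum_apply, Mb_B_sum_left, Mb_B_sum_right]
  apply Finset.sum_congr rfl
  intro b _
  rw [LinearMap.smul_apply, LinearMap.smul_apply, LinearMap.comp_apply, LinearMap.comp_apply,
    B_smul, Mb_B_smul_right, B_Sm, B_Sm]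

theorem adj_h : IsAdj hE hE := by
  intro a F G
  unfold hE
  split_ifs
  · rfl
  · rw [LinearMap.zero_apply, LinearMap.zero_apply, Mb_B_zero_left, Mb_B_zero_right]

theorem Mb_adj_range {a b : ℕ} (h : adj a b) : b ∈ Finset.range (a + 2) := by
  rw [Finset.mem_range]
  rcases h with h | h <;> omega

theorem Mb_adj_symm {a b : ℕ} (h : adj a b) : adj b a := h.symm

theorem Mb_shE_Sm (x : EE) (a b : ℕ) : shE x a ∘ₗ Sm a b = Sm a b ∘ₗ x b := by
  by_cases h : adj a b
  · unfold shE
    rw [Mb_sum_comp, Finset.sum_eq_single b]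
    · rw [LinearMap.comp_assoc, LinearMap.comp_assoc, Tm_Sm h, LinearMap.comp_id]
    · intro c _ hc
      rw [LinearMap.comp_assoc, LinearMap.comp_assoc, Tm_Sm_ne hc, LinearMap.comp_zero,
        LinearMap.comp_zero]
    · intro hb
      exact absurd (Mb_adj_range h) hb
  · rw [Sm_zero h, LinearMap.comp_zero, LinearMap.zero_comp]

theorem Mb_Tm_shE (x : EE) (a b : ℕ) : Tm a b ∘ₗ shE x a = x b ∘ₗ Tm a b := by
  by_cases h : adj a b
  · unfold shE
    rw [Mb_comp_sum, Finset.sum_eq_single b]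
    · rw [← LinearMap.comp_assoc, Tm_Sm h, LinearMap.id_comp]
    · intro c _ hc
      rw [← LinearMap.comp_assoc, Tm_Sm_ne hc.symm, LinearMap.zero_comp]
    · intro hb
      exact absurd (Mb_adj_range h) hb
  · rw [Tm_zero h, LinearMap.comp_zero, LinearMap.zero_comp]

/-- the shift as an algebra homomorphism -/
def Mb_sh : Rm →ₐ[ℝ] Rm where
  toFun x := ⟨shE x.1, by
    obtain ⟨y, hy⟩ := x.2
    exact ⟨shE y, Mb_adj_sh hy⟩⟩
  map_one' := by
    apply Rm_ext
    intro a
    change shE (fun _ => LinearMap.id) a = LinearMap.id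
    unfold shE
    simp only [LinearMap.id_comp]
    exact sum_Sm_Tm a
  map_mul' := by
    intro x y
    apply Rm_ext
    intro a
    change shE (fun b => x.1 b ∘ₗ y.1 b) a = shE x.1 a ∘ₗ shE y.1 a
    have h : ∀ b, shE x.1 a ∘ₗ (Sm a b ∘ₗ y.1 b ∘ₗ Tm a b) =
        Sm a b ∘ₗ (x.1 b ∘ₗ y.1 b) ∘ₗ Tm a b := by
      intro b
      rw [← LinearMap.comp_assoc, Mb_shE_Sm]
      rfl
    have h1 : shE y.1 a = ∑ b ∈ Finset.range (a + 2), Sm a b ∘ₗ y.1 b ∘ₗ Tm a b := rfl
    rw [h1, Mb_comp_sum]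
    simp only [h]
    rfl
  map_zero' := by
    apply Rm_ext
    intro a
    change shE (fun _ => 0) a = 0
    unfold shE
    simp
  map_add' := by
    intro x y
    apply Rm_ext
    intro a
    change shE (fun b => x.1 b + y.1 b) a = shE x.1 a + shE y.1 a
    unfold shE
    rw [← Finset.sum_add_distrib]
    apply Finset.sum_congr rfl
    intro b _
    rw [LinearMap.add_comp, LinearMap.comp_add]
  commutes' := by
    intro r
    apply Rm_ext
    intro a
    change shE (fun _ => algebraMap ℝ (Module.End ℝ _) r) a = algebraMap ℝ (Module.End ℝ _) r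
    have h1 : ∀ b, algebraMap ℝ (Module.End ℝ (V b)) r = r • LinearMap.id := by
      intro b
      rw [Algebra.algebraMap_eq_smul_one]
      rfl
    simp only [h1]
    rw [← sum_Sm_Tm a, Finset.smul_sum]
    unfold shE
    apply Finset.sum_congr rfl
    intro b _
    rw [LinearMap.smul_comp, LinearMap.comp_smul, LinearMap.id_comp]

theorem Mb_star_val (x : Rm) : IsAdj x.1 (star x).1 := x.2.choose_spec

theorem Mb_sum_wt {A : ℝ} (hA : 1 < A) (a : ℕ) :
    ∑ b ∈ Finset.range (a + 2), (if adj a b then wt A a b * wt A a b else 0) =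
      A ^ 2 + (A ^ 2)⁻¹ := by
  have ha := dl_pos hA a
  rcases a with _ | a
  · rw [Finset.sum_range_succ, Finset.sum_range_succ, Finset.sum_range_zero, zero_add,
      if_neg (by unfold adj; omega), if_pos (by unfold adj; omega), Mb_wt_sq hA, dl_zero hA,
      dl_one hA]
    simp
  · rw [Finset.sum_range_succ, Finset.sum_range_succ, Finset.sum_range_succ,
      Finset.sum_eq_zero, zero_add,
      if_pos (by unfold adj; omega), if_neg (by unfold adj; omega), if_pos (by unfold adj; omega),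
      Mb_wt_sq hA, Mb_wt_sq hA]
    · have h := dl_rec hA a
      field_simp
      rw [show a + 1 + 1 = a + 2 by ring]
      have h1 : 0 < A := by linarith
      field_simp at h
      linarith
    · intro b hb
      rw [Finset.mem_range] at hb
      rw [if_neg (by unfold adj; omega)]

theorem Mb_star_mkR (x y : EE) (h : IsAdj x y) : (star (mkR x y h)).1 = y := by
  rw [star_mkR]
  rfl

/-- The height model is a Temperley–Lieb ring. -/
def model (A : ℝ) (hA : 1 < A) : TL Rm A where
  sh := Mb_sh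
  sh_star := by
    intro x
    apply Subtype.ext
    exact IsAdj.unique (Mb_adj_sh (Mb_star_val x)) (Mb_star_val (Mb_sh x))
  u := mkR (uE A) (cE A) (adj_u A)
  cu := by
    apply Rm_ext
    intro a
    rw [ev_mul, star_mkR]
    change cE A a ∘ₗ uE A a = algebraMap ℝ (Module.End ℝ _) _
    unfold cE uE
    rw [Mb_sum_comp]
    have h1 : ∀ b ∈ Finset.range (a + 2), (wt A a b • (Tm b a ∘ₗ Tm a b)) ∘ₗ
        (∑ c ∈ Finset.range (a + 2), wt A a c • (Sm a c ∘ₗ Sm c a)) =
        (if adj a b then wt A a b * wt A a b else 0) • LinearMap.id := by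
      intro b hb
      by_cases h : adj a b
      · rw [if_pos h, Mb_comp_sum, Finset.sum_eq_single b]
        · rw [LinearMap.smul_comp, LinearMap.comp_smul, smul_smul, LinearMap.comp_assoc,
            ← LinearMap.comp_assoc _ _ (Tm a b), Tm_Sm h, LinearMap.id_comp, Tm_Sm h.symm]
        · intro c _ hc
          rw [LinearMap.smul_comp, LinearMap.comp_smul, LinearMap.comp_assoc,
            ← LinearMap.comp_assoc _ _ (Tm a b), Tm_Sm_ne hc.symm, LinearMap.zero_comp,
            LinearMap.comp_zero, smul_zero, smul_zero]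
        · intro hb'
          exact absurd hb hb'
      · rw [if_neg h, Tm_zero h, LinearMap.comp_zero, smul_zero, LinearMap.zero_comp, zero_smul]
    rw [Finset.sum_congr rfl h1, ← Finset.sum_smul, Mb_sum_wt hA, Algebra.algebraMap_eq_smul_one]
    rfl
  csu := by
    apply Rm_ext
    intro a
    rw [ev_mul, star_mkR]
    change cE A a ∘ₗ shE (uE A) a = LinearMap.id
    rw [← sum_Sm_Tm a]
    unfold cE
    rw [Mb_sum_comp]
    apply Finset.sum_congr rfl
    intro b hb
    by_cases h : adj a b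
    · rw [LinearMap.smul_comp, LinearMap.comp_assoc, Mb_Tm_shE]
      unfold uE
      rw [Mb_sum_comp, Mb_comp_sum, Finset.sum_eq_single a]
      · rw [LinearMap.smul_comp, LinearMap.comp_smul, smul_smul, Mb_wt_mul hA, one_smul,
          LinearMap.comp_assoc, ← LinearMap.comp_assoc, Tm_Sm h.symm, LinearMap.id_comp]
      · intro c _ hc
        rw [LinearMap.smul_comp, LinearMap.comp_smul, LinearMap.comp_assoc,
          ← LinearMap.comp_assoc, Tm_Sm_ne hc.symm, LinearMap.zero_comp, smul_zero]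
      · intro ha
        exact absurd (Mb_adj_range h.symm) ha
    · rw [Tm_zero h, LinearMap.comp_zero, LinearMap.comp_zero, smul_zero, LinearMap.zero_comp]
  nat_u := by
    intro x
    apply Rm_ext
    intro a
    rw [ev_mul, ev_mul]
    change shE (shE x.1) a ∘ₗ uE A a = uE A a ∘ₗ x.1 a
    unfold uE
    rw [Mb_comp_sum, Mb_sum_comp]
    apply Finset.sum_congr rfl
    intro b _
    rw [LinearMap.smul_comp, LinearMap.comp_smul, ← LinearMap.comp_assoc, Mb_shE_Sm,
      LinearMap.comp_assoc, Mb_shE_Sm, LinearMap.comp_assoc]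

theorem ev_sh {A : ℝ} (hA : 1 < A) (x : Rm) (a : ℕ) :
    ev ((model A hA).sh x) a = ∑ b ∈ Finset.range (a + 2), Sm a b ∘ₗ ev x b ∘ₗ Tm a b := rfl

theorem ev_u {A : ℝ} (hA : 1 < A) (a : ℕ) : ev ((model A hA).u) a = uE A a := rfl

theorem ev_star_u {A : ℝ} (hA : 1 < A) (a : ℕ) : ev (star (model A hA).u) a = cE A a := by
  change ev (star (mkR (uE A) (cE A) (adj_u A))) a = _
  rw [star_mkR]
  rfl

/-- the hole, in the gap 0 -/
def hm : Rm := mkR hE hE adj_h

theorem star_hm : star hm = hm := by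
  unfold hm
  rw [star_mkR]

theorem hm_comm (x : Rm) : hm * x = x * hm := by
  apply Rm_ext
  intro a
  rw [ev_mul, ev_mul]
  change hE a ∘ₗ ev x a = ev x a ∘ₗ hE a
  unfold hE
  split_ifs
  · rfl
  · rw [LinearMap.comp_zero, LinearMap.zero_comp]

theorem ev_sh_Sm {A : ℝ} (hA : 1 < A) (x : Rm) (a b : ℕ) :
    ev ((model A hA).sh x) a ∘ₗ Sm a b = Sm a b ∘ₗ ev x b := Mb_shE_Sm x.1 a b

/-- prepend to a sequence -/
def Mb_cons (b : ℕ) (s : ℕ → ℕ) : ℕ → ℕ
  | 0 => b
  | i + 1 => s i

theorem Mb_cons_tail (s : ℕ → ℕ) : Mb_cons (s 0) (fun i => s (i + 1)) = s := by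
  funext i
  rcases i with _ | i <;> rfl

open Classical in
/-- the value of a vector at a sequence -/
def Mb_hat {a : ℕ} (F : V a) (s : ℕ → ℕ) : ℝ :=
  if h : adj a (s 0) ∧ ∀ j, adj (s j) (s (j + 1)) then F ⟨s, h⟩ else 0

theorem Mb_hat_zero {a : ℕ} (s : ℕ → ℕ) : Mb_hat (0 : V a) s = 0 := by
  unfold Mb_hat
  split_ifs <;> rfl

theorem Mb_hat_add {a : ℕ} (F G : V a) (s : ℕ → ℕ) :
    Mb_hat (F + G) s = Mb_hat F s + Mb_hat G s := by
  unfold Mb_hat
  split_ifs
  · rfl
  · rw [add_zero]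

theorem Mb_hat_smul {a : ℕ} (c : ℝ) (F : V a) (s : ℕ → ℕ) :
    Mb_hat (c • F) s = c * Mb_hat F s := by
  unfold Mb_hat
  split_ifs
  · rfl
  · rw [mul_zero]

theorem Mb_hat_sum {a : ℕ} {ι : Type*} (S : Finset ι) (F : ι → V a) (s : ℕ → ℕ) :
    Mb_hat (∑ i ∈ S, F i) s = ∑ i ∈ S, Mb_hat (F i) s := by
  classical
  induction S using Finset.induction_on with
  | empty => simp [Mb_hat_zero]
  | insert i S hi ih => rw [Finset.sum_insert hi, Finset.sum_insert hi, Mb_hat_add, ih]

theorem Mb_hat_ext {a : ℕ} {F : V a} (h : ∀ s, Mb_hat F s = 0) : F = 0 := by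
  ext t
  have h1 := h t.1
  unfold Mb_hat at h1
  rw [dif_pos t.2] at h1
  exact h1

theorem Mb_hat_Tm {a b : ℕ} (F : V a) (s : ℕ → ℕ) :
    Mb_hat (Tm a b F) s = Mb_hat F (Mb_cons b s) := by
  by_cases h : adj a b
  · by_cases hs : adj b (s 0) ∧ ∀ j, adj (s j) (s (j + 1))
    · have hs' : adj a (Mb_cons b s 0) ∧ ∀ j, adj (Mb_cons b s j) (Mb_cons b s (j + 1)) := by
        refine ⟨h, fun j => ?_⟩
        rcases j with _ | j
        · exact hs.1
        · exact hs.2 j
      unfold Mb_hat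
      rw [dif_pos hs, dif_pos hs']
      unfold Tm
      rw [dif_pos h]
      change F (Path.cons h ⟨s, hs⟩) = _
      congr 1
    · unfold Mb_hat
      rw [dif_neg hs, dif_neg]
      rintro ⟨_, h2⟩
      exact hs ⟨h2 0, fun j => h2 (j + 1)⟩
  · rw [Tm_zero h, LinearMap.zero_apply, Mb_hat_zero]
    unfold Mb_hat
    rw [dif_neg]
    rintro ⟨h1, _⟩
    exact h h1

theorem Mb_hat_shE (x : EE) {a : ℕ} (F : V a) (s : ℕ → ℕ) :
    Mb_hat (shE x a F) s = Mb_hat (x (s 0) (Tm a (s 0) F)) (fun i => s (i + 1)) := by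
  have h1 : Mb_hat (shE x a F) s = Mb_hat (Tm a (s 0) (shE x a F)) (fun i => s (i + 1)) := by
    rw [Mb_hat_Tm, Mb_cons_tail]
  rw [h1]
  have h2 := LinearMap.congr_fun (Mb_Tm_shE x a (s 0)) F
  rw [LinearMap.comp_apply, LinearMap.comp_apply] at h2
  rw [h2]

theorem Mb_hat_cE (A : ℝ) {a : ℕ} (F : V a) (s : ℕ → ℕ) :
    Mb_hat (cE A a F) s =
      ∑ b ∈ Finset.range (a + 2), wt A a b * Mb_hat F (Mb_cons b (Mb_cons a s)) := by
  unfold cE
  rw [LinearMap.sum_apply, Mb_hat_sum]
  apply Finset.sum_congr rfl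
  intro b _
  rw [LinearMap.smul_apply, Mb_hat_smul, LinearMap.comp_apply, Mb_hat_Tm, Mb_hat_Tm]

/-- insertion of a turn -/
def Mb_ins (j a b : ℕ) (s : ℕ → ℕ) : ℕ → ℕ := fun i =>
  if i < j then s i else if i = j then b else if i = j + 1 then Mb_cons a s j else s (i - 2)

theorem Mb_ins_zero (a b : ℕ) (s : ℕ → ℕ) : Mb_ins 0 a b s = Mb_cons b (Mb_cons a s) := by
  funext i
  unfold Mb_ins
  rcases i with _ | _ | i
  · rfl
  · rfl
  · rw [if_neg (by omega), if_neg (by omega), if_neg (by omega)]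
    rfl

theorem Mb_ins_succ (j a b : ℕ) (s : ℕ → ℕ) :
    Mb_ins (j + 1) a b s = Mb_cons (s 0) (Mb_ins j (s 0) b (fun i => s (i + 1))) := by
  funext i
  rcases i with _ | i
  · unfold Mb_ins
    rw [if_pos (by omega)]
    rfl
  · change Mb_ins (j + 1) a b s (i + 1) = Mb_ins j (s 0) b (fun i => s (i + 1)) i
    unfold Mb_ins
    rw [Mb_cons_tail]
    by_cases h1 : i < j
    · rw [if_pos (by omega), if_pos h1]
    · rw [if_neg (by omega), if_neg h1]
      by_cases h2 : i = j
      · rw [if_pos (by omega), if_pos h2]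
      · rw [if_neg (by omega), if_neg h2]
        by_cases h3 : i = j + 1
        · rw [if_pos (by omega), if_pos h3]
          rfl
        · rw [if_neg (by omega), if_neg h3]
          congr 1
          omega

theorem Mb_hat_cap {A : ℝ} (hA : 1 < A) (j : ℕ) : ∀ {a : ℕ} (F : V a) (s : ℕ → ℕ),
    Mb_hat (ev ((model A hA).shn j (star (model A hA).u)) a F) s =
      ∑ b ∈ Finset.range (Mb_cons a s j + 2), wt A (Mb_cons a s j) b *
        Mb_hat F (Mb_ins j a b s) := by
  induction j with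
  | zero =>
    intro a F s
    change Mb_hat (ev (star (model A hA).u) a F) s = _
    rw [ev_star_u, Mb_hat_cE]
    simp only [Mb_ins_zero]
    rfl
  | succ j ih =>
    intro a F s
    change Mb_hat (shE ((model A hA).shn j (star (model A hA).u)).1 a F) s = _
    rw [Mb_hat_shE]
    change Mb_hat (ev ((model A hA).shn j (star (model A hA).u)) (s 0) (Tm a (s 0) F)) _ = _
    rw [ih, Mb_cons_tail]
    simp only [Mb_hat_Tm, Mb_ins_succ]
    rfl

theorem Mb_hat_hole {A : ℝ} (hA : 1 < A) (m : ℕ) : ∀ {a : ℕ} (F : V a) (s : ℕ → ℕ),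
    Mb_hat (ev ((model A hA).shn m hm) a F) s =
      if Mb_cons a s m = 0 then Mb_hat F s else 0 := by
  induction m with
  | zero =>
    intro a F s
    change Mb_hat (hE a F) s = if a = 0 then _ else _
    unfold hE
    split_ifs
    · rfl
    · rw [LinearMap.zero_apply, Mb_hat_zero]
  | succ m ih =>
    intro a F s
    change Mb_hat (shE ((model A hA).shn m hm).1 a F) s = _
    rw [Mb_hat_shE]
    change Mb_hat (ev ((model A hA).shn m hm) (s 0) (Tm a (s 0) F)) _ = _
    rw [ih, Mb_cons_tail, Mb_hat_Tm, Mb_cons_tail]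
    rfl

/-- a vector of `V 0` with total height `0` after `m > 0` strands which is killed by all caps
vanishes -/
theorem hole_caps {A : ℝ} (hA : 1 < A) (m : ℕ) (hm0 : 0 < m) (F : V 0)
    (h : ∀ j, j + 2 ≤ m → ev ((model A hA).shn (m - 2) hm) 0
      (ev ((model A hA).shn j (star (model A hA).u)) 0 F) = 0) :
    ev ((model A hA).shn m hm) 0 F = 0 := by
  have key : ∀ (N : ℕ) (s : ℕ → ℕ), ∑ i ∈ Finset.range m, s i = N → Mb_cons 0 s m = 0 →
      Mb_hat F s = 0 := by
    intro N
    induction N using Nat.strong_induction_on with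
    | _ N ih =>
      intro s hN hs
      by_cases hv : adj 0 (s 0) ∧ ∀ j, adj (s j) (s (j + 1))
      swap
      · unfold Mb_hat
        rw [dif_neg hv]
      obtain ⟨hv0, hv1⟩ := hv
      have hadj : ∀ i, adj (Mb_cons 0 s i) (Mb_cons 0 s (i + 1)) := by
        intro i
        rcases i with _ | i
        · exact hv0
        · exact hv1 i
      obtain ⟨i0, hi0, hmax⟩ := Finset.exists_max_image (Finset.range (m + 1)) (Mb_cons 0 s)
        ⟨0, Finset.mem_range.mpr (by omega)⟩
      have h1 : Mb_cons 0 s 1 = 1 := by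
        have h2 : adj 0 (Mb_cons 0 s 1) := hv0
        rcases h2 with h2 | h2 <;> omega
      have h2 : 1 ≤ Mb_cons 0 s i0 := by
        have := hmax 1 (Finset.mem_range.mpr (by omega))
        omega
      rw [Finset.mem_range] at hi0
      have h3 : i0 ≠ m := by
        intro e
        rw [e] at h2
        omega
      obtain ⟨j, rfl⟩ : ∃ j, i0 = j + 1 := by
        rcases i0 with _ | j
        · change 1 ≤ 0 at h2
          omega
        · exact ⟨j, rfl⟩
      have hj : j + 2 ≤ m := by omega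
      have hp : Mb_cons 0 s j + 1 = s j := by
        have e1 := hadj j
        have e2 := hmax j (Finset.mem_range.mpr (by omega))
        change adj _ (s j) at e1
        change _ ≤ s j at e2
        rcases e1 with e1 | e1 <;> omega
      have hq : s (j + 1) + 1 = s j := by
        have e1 := hadj (j + 1)
        have e2 := hmax (j + 2) (Finset.mem_range.mpr (by omega))
        change adj (s j) (s (j + 1)) at e1
        change s (j + 1) ≤ s j at e2
        rcases e1 with e1 | e1 <;> omega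
      -- the shorter sequence
      let s' : ℕ → ℕ := fun i => if i < j then s i else s (i + 2)
      have e1 := congrArg (fun G => Mb_hat G s') (h j hj)
      simp only [Mb_hat_zero, Mb_hat_hole, Mb_hat_cap] at e1
      have hs'm : Mb_cons 0 s' (m - 2) = 0 := by
        obtain ⟨m', rfl⟩ : ∃ m', m = m' + 2 := ⟨m - 2, by omega⟩
        rw [Nat.add_sub_cancel]
        rcases m' with _ | m'
        · rfl
        · change (if m' < j then s m' else s (m' + 2)) = 0
          change s (m' + 2) = 0 at hs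
          by_cases hc : m' < j
          · rw [if_pos hc]
            have : j = m' + 1 := by omega
            subst this
            change s m' + 1 = s (m' + 1) at hp
            change s (m' + 1 + 1) + 1 = s (m' + 1) at hq
            change s (m' + 1 + 1) = 0 at hs
            omega
          · rw [if_neg hc]
            exact hs
      rw [if_pos hs'm] at e1
      have hs'j : Mb_cons 0 s' j = Mb_cons 0 s j := by
        rcases j with _ | j
        · rfl
        · change (if j < j + 1 then s j else s (j + 2)) = s j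
          rw [if_pos (by omega)]
      have hins : ∀ b, Mb_ins j 0 b s' = Function.update s j b := by
        intro b
        funext i
        unfold Mb_ins
        rw [Function.update_apply, hs'j]
        by_cases c1 : i < j
        · rw [if_pos c1, if_neg (by omega)]
          change (if i < j then s i else s (i + 2)) = s i
          rw [if_pos c1]
        · rw [if_neg c1]
          by_cases c2 : i = j
          · rw [if_pos c2, if_pos c2]
          · rw [if_neg c2, if_neg c2]
            by_cases c3 : i = j + 1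
            · rw [if_pos c3, c3]
              omega
            · rw [if_neg c3]
              change (if i - 2 < j then s (i - 2) else s (i - 2 + 2)) = s i
              rw [if_neg (by omega)]
              congr 1
              omega
      rw [hs'j, Finset.sum_eq_single (Mb_cons 0 s j + 1)] at e1
      · rw [hins, hp, Function.update_eq_self] at e1
        rcases mul_eq_zero.mp e1 with e2 | e2
        · exact absurd e2 (Mb_wt_pos hA _ _).ne'
        · exact e2
      · intro b hb hb'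
        rw [Finset.mem_range] at hb
        have hbs : b < s j := by omega
        have hsum : ∑ i ∈ Finset.range m, Function.update s j b i < ∑ i ∈ Finset.range m, s i := by
          apply Finset.sum_lt_sum
          · intro i _
            rw [Function.update_apply]
            split_ifs with c
            · subst c
              exact hbs.le
            · exact le_rfl
          · exact ⟨j, Finset.mem_range.mpr (by omega), by rwa [Function.update_self]⟩
        have hend : Mb_cons 0 (Function.update s j b) m = 0 := by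
          obtain ⟨m', rfl⟩ : ∃ m', m = m' + 1 := ⟨m - 1, by omega⟩
          change Function.update s j b m' = 0
          rw [Function.update_of_ne (by omega)]
          exact hs
        rw [hins, ih _ (by rw [← hN]; exact hsum) _ rfl hend, mul_zero]
      · intro hb
        exact absurd (Finset.mem_range.mpr (by omega)) hb
  apply Mb_hat_ext
  intro s
  rw [Mb_hat_hole]
  split_ifs with hs
  · exact key _ s rfl hs
  · rfl

end

end Pool.Agent.Tait
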