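import Pool.Agent.Lib.MP_150b40_gt.Defs

/-! # Auxiliary definitions: switching of crossings, numbered corners -/

namespace Pool.Agent.Tait

/-- Switch the crossing. -/
def Ev.mirror : Ev → Ev
  | Ev.cup i => Ev.cup i | Ev.cap i => Ev.cap i | Ev.pos i => Ev.neg i | Ev.neg i => Ev.pos i
  | Ev.hole i => Ev.hole i

/-- The four corners of a crossing: left, right, bottom, top. -/
def corner (l i : ℕ) : Fin 4 → ℕ × ℕ
  | 0 => (l, i) | 1 => (l, i + 2) | 2 => (l, i + 1) | 3 => (l + 1, i + 1)

theorem corner_mem (l i : ℕ) (x : Fin 4) : corner l i x ∈ corners l i := by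
  fin_cases x <;> simp [corner, corners]

theorem corner_inj (l i : ℕ) {x y : Fin 4} (h : x ≠ y) : corner l i x ≠ corner l i y := by
  revert h
  fin_cases x <;> fin_cases y <;> simp [corner]

theorem Simple.noTwoF {w : List Ev} (hs : Simple w) (l i : ℕ) (h : IsCrossing w l i)
    (x y : Fin 4) (h1 : External w (corner l i x)) (h2 : External w (corner l i y)) :
    SameRegion w (corner l i x) (corner l i y) :=
  hs.noTwo l i h _ (corner_mem l i x) _ (corner_mem l i y) h1 h2

theorem Simple.noTwiceF {w : List Ev} (hs : Simple w) (l i : ℕ) (h : IsCrossing w l i)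
    (x y : Fin 4) (hxy : x ≠ y) (h1 : External w (corner l i x))
    (h2 : External w (corner l i y)) : ¬ SameRegion w (corner l i x) (corner l i y) :=
  hs.noTwice l i h _ (corner_mem l i x) _ (corner_mem l i y) (corner_inj l i hxy) h1 h2

end Pool.Agent.Tait
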