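import Pool.Agent.Lib.MP_150b40_gt.Pdefs

/-! # Alternating diagrams -/

namespace Pool.Agent.Tait

theorem Pa_runs_lev_aux (w : List Ev) : ∀ n m : ℕ, Runs n w m → ∀ l e, w[l]? = some e →
    e.gap + e.inn ≤ (w.take l).foldl (fun n e => n - e.inn + e.out) n := by
  induction w with
  | nil => intro n m _ l e h; simp at h
  | cons a w ih =>
    intro n m h l e he
    cases l with
    | zero =>
      simp only [List.getElem?_cons_zero, Option.some.injEq] at he
      subst he
      simpa using h.1
    | succ l =>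
      simp only [List.getElem?_cons_succ] at he
      have := ih _ m h.2 l e he
      simpa using this

theorem Pa_runs_end (w : List Ev) : ∀ n m : ℕ, Runs n w m →
    w.foldl (fun n e => n - e.inn + e.out) n = m := by
  induction w with
  | nil => intro n m h; exact h
  | cons a w ih =>
    intro n m h
    exact ih _ m h.2

theorem Pa_lev_le (D : Diagram) {l : ℕ} {e : Ev} (he : D.word[l]? = some e) :
    e.gap + e.inn ≤ lev D.word l :=
  Pa_runs_lev_aux D.word 0 0 D.closed l e he

theorem Pa_lev_succ (w : List Ev) {l : ℕ} {e : Ev} (he : w[l]? = some e) :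
    lev w (l + 1) = lev w l - e.inn + e.out := by
  obtain ⟨hl, hle⟩ := List.getElem?_eq_some_iff.1 he
  rw [lev, lev, List.take_add_one, List.foldl_append, he]
  rfl

theorem Pa_lev_end (D : Diagram) : lev D.word D.word.length = 0 := by
  rw [lev, List.take_length]
  exact Pa_runs_end D.word 0 0 D.closed

/-- indicator of an edge -/
noncomputable def Pa_chi (w : List Ev) (p0 p : ℕ × ℕ) : ℤ :=
  open Classical in if SameEdge w p0 p then 1 else 0

theorem Pa_chi_step {w : List Ev} {p0 p q : ℕ × ℕ} (h : StrandStep w p q) :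
    Pa_chi w p0 p = Pa_chi w p0 q := by
  classical
  rw [Pa_chi, Pa_chi]
  have : SameEdge w p0 p ↔ SameEdge w p0 q :=
    ⟨fun h' => Relation.EqvGen.trans _ _ _ h' (Relation.EqvGen.rel _ _ h),
      fun h' => Relation.EqvGen.trans _ _ _ h' (Relation.EqvGen.symm _ _ (Relation.EqvGen.rel _ _ h))⟩
  simp only [this]

/-- alternating sum at a level -/
noncomputable def Pa_S (w : List Ev) (p0 : ℕ × ℕ) (l : ℕ) : ℤ :=
  ∑ j ∈ Finset.range (lev w l), (-1) ^ j * Pa_chi w p0 (l, j)

theorem Pa_S_step (D : Diagram) (p0 : ℕ × ℕ) {l : ℕ} {e : Ev} (he : D.word[l]? = some e) :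
    Pa_S D.word p0 l - Pa_S D.word p0 (l + 1) =
      ∑ k ∈ Finset.range e.inn, (-1) ^ (e.gap + k) * Pa_chi D.word p0 (l, e.gap + k) -
      ∑ k ∈ Finset.range e.out, (-1) ^ (e.gap + k) * Pa_chi D.word p0 (l + 1, e.gap + k) := by
  have h1 := Pa_lev_le D he
  obtain ⟨m, hm⟩ : ∃ m, lev D.word l = e.gap + e.inn + m := ⟨_, (Nat.add_sub_of_le h1).symm⟩
  have h2 : lev D.word (l + 1) = e.gap + e.out + m := by
    rw [Pa_lev_succ D.word he, hm]; omega
  rw [Pa_S, Pa_S, hm, h2]
  rw [Finset.sum_range_add, Finset.sum_range_add, Finset.sum_range_add, Finset.sum_range_add]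
  have h3 : ∑ j ∈ Finset.range e.gap, (-1 : ℤ) ^ j * Pa_chi D.word p0 (l, j) =
      ∑ j ∈ Finset.range e.gap, (-1 : ℤ) ^ j * Pa_chi D.word p0 (l + 1, j) := by
    refine Finset.sum_congr rfl fun j hj => ?_
    rw [Pa_chi_step (StrandStep.left l j e he (Finset.mem_range.1 hj))]
  have h4 : ∑ k ∈ Finset.range m, (-1 : ℤ) ^ (e.gap + e.inn + k) *
        Pa_chi D.word p0 (l, e.gap + e.inn + k) =
      ∑ k ∈ Finset.range m, (-1 : ℤ) ^ (e.gap + e.out + k) *
        Pa_chi D.word p0 (l + 1, e.gap + e.out + k) := by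
    refine Finset.sum_congr rfl fun k hk => ?_
    rw [Finset.mem_range] at hk
    have h5 := Pa_chi_step (p0 := p0) (StrandStep.right l (e.gap + e.inn + k) e he (by omega)
      (by rw [hm]; omega))
    have h6 : e.gap + e.inn + k - e.inn + e.out = e.gap + e.out + k := by omega
    rw [h6] at h5
    rw [h5]
    congr 1
    cases e <;> simp [Ev.inn, Ev.out, Ev.gap, pow_add]
  rw [h3, h4]
  ring

/-- the contribution of a leg -/
noncomputable def Pa_g (w : List Ev) (p0 : ℕ × ℕ) (x : ℕ × Bool × Bool) : ℤ :=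
  match w[x.1]? with
  | some (Ev.pos i) => (if x.2.1 then -1 else 1) * (-1) ^ (if x.2.2 then i + 1 else i) *
      Pa_chi w p0 (leg x.1 i x.2.1 x.2.2)
  | some (Ev.neg i) => (if x.2.1 then -1 else 1) * (-1) ^ (if x.2.2 then i + 1 else i) *
      Pa_chi w p0 (leg x.1 i x.2.1 x.2.2)
  | _ => 0

theorem Pa_g_of {w : List Ev} {p0 : ℕ × ℕ} {l i : ℕ} (h : IsCrossing w l i) (t s : Bool) :
    Pa_g w p0 (l, t, s) = (if t then -1 else 1) * (-1) ^ (if s then i + 1 else i) *
      Pa_chi w p0 (leg l i t s) := by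
  rcases h with h | h <;> simp [Pa_g, h]

theorem Pa_total (D : Diagram) (p0 : ℕ × ℕ) :
    ∑ x ∈ (Finset.range D.word.length) ×ˢ (Finset.univ : Finset (Bool × Bool)),
      Pa_g D.word p0 x = 0 := by
  rw [Finset.sum_product]
  have key : ∀ l ∈ Finset.range D.word.length,
      ∑ y : Bool × Bool, Pa_g D.word p0 (l, y) =
        Pa_S D.word p0 l - Pa_S D.word p0 (l + 1) := by
    intro l hl
    rw [Finset.mem_range] at hl
    have he : D.word[l]? = some D.word[l] := List.getElem?_eq_getElem hl
    rw [Pa_S_step D p0 he]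
    generalize D.word[l] = e at he
    cases e with
    | cup i =>
      have h1 := Pa_chi_step (p0 := p0) (StrandStep.cup l i he)
      simp [Pa_g, he, Ev.inn, Ev.out, Ev.gap, Finset.sum_range_succ, h1, pow_succ]
    | cap i =>
      have h1 := Pa_chi_step (p0 := p0) (StrandStep.cap l i he)
      simp [Pa_g, he, Ev.inn, Ev.out, Ev.gap, Finset.sum_range_succ, h1, pow_succ]
    | hole i =>
      simp [Pa_g, he, Ev.inn, Ev.out]
    | pos i =>
      simp [Pa_g, he, Ev.inn, Ev.out, Ev.gap, Finset.sum_range_succ, Fintype.sum_prod_type, leg,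
        pow_succ]
      ring
    | neg i =>
      simp [Pa_g, he, Ev.inn, Ev.out, Ev.gap, Finset.sum_range_succ, Fintype.sum_prod_type, leg,
        pow_succ]
      ring
  rw [Finset.sum_congr rfl key, Finset.sum_range_sub']
  rw [Pa_S, Pa_S, Pa_lev_end]
  have : lev D.word 0 = 0 := by simp [lev]
  rw [this]
  simp

/-- the sign of a crossing times the parity of its gap -/
def Pa_tau (w : List Ev) (l i : ℕ) : ℤ :=
  if w[l]? = some (Ev.pos i) then (-1) ^ i else -(-1) ^ i

open Classical in
theorem Pa_over {w : List Ev} {l i : ℕ} (h : IsCrossing w l i) (t s : Bool) :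
    ((if t then -1 else 1) * (-1) ^ (if s then i + 1 else i) : ℤ) =
      (if Over w l t s then 1 else -1) * Pa_tau w l i := by
  rcases h with h | h
  · have h1 : Over w l t s ↔ t = s := by
      constructor
      · rintro (⟨j, -, h3⟩ | ⟨j, h2, -⟩)
        · exact h3
        · rw [h] at h2; simp at h2
      · intro h3; exact Or.inl ⟨i, h, h3⟩
    rw [Pa_tau, if_pos h]
    simp only [h1]
    cases t <;> cases s <;> simp [pow_succ]
  · have h1 : Over w l t s ↔ t ≠ s := by
      constructor
      · rintro (⟨j, h2, -⟩ | ⟨j, -, h3⟩)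
        · rw [h] at h2; simp at h2
        · exact h3
      · intro h3; exact Or.inr ⟨i, h, h3⟩
    have h4 : w[l]? ≠ some (Ev.pos i) := by rw [h]; simp
    rw [Pa_tau, if_neg h4]
    simp only [h1]
    cases t <;> cases s <;> simp [pow_succ]

theorem Pa_tau_sq (w : List Ev) (l i : ℕ) : Pa_tau w l i * Pa_tau w l i = 1 := by
  rw [Pa_tau]
  have : ((-1 : ℤ) ^ i) * (-1) ^ i = 1 := by rw [← mul_pow]; simp
  split_ifs
  · exact this
  · linarith

theorem Pa_crossing_unique {w : List Ev} {l i i' : ℕ} (h : IsCrossing w l i)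
    (h' : IsCrossing w l i') : i = i' := by
  rcases h with h | h <;> rcases h' with h' | h' <;> rw [h] at h' <;> simp_all

theorem Pa_crossing_lt {w : List Ev} {l i : ℕ} (h : IsCrossing w l i) : l < w.length := by
  rcases h with h | h <;> exact (List.getElem?_eq_some_iff.1 h).1

/-- Two legs of the same edge belong to crossings of the same type. -/
theorem Pa_edge (D : Diagram) (ha : Alternating D.word) {l i l' i' : ℕ} {t s t' s' : Bool}
    (h : IsCrossing D.word l i) (h' : IsCrossing D.word l' i')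
    (he : SameEdge D.word (leg l i t s) (leg l' i' t' s')) :
    Pa_tau D.word l i = Pa_tau D.word l' i' := by
  classical
  by_cases hne : (l, t, s) = (l', t', s')
  · obtain ⟨rfl, rfl, rfl⟩ : l = l' ∧ t = t' ∧ s = s' := by simpa using hne
    rw [Pa_crossing_unique h h']
  · have hov := ha l i t s l' i' t' s' h h' hne he
    have hsum := Pa_total D (leg l i t s)
    have hsym : SameEdge D.word (leg l i t s) (leg l i t s) := Relation.EqvGen.refl _
    rw [Finset.sum_eq_add (l, t, s) (l', t', s') hne] at hsum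
    · rw [Pa_g_of h, Pa_g_of h', Pa_over h, Pa_over h'] at hsum
      have c1 : Pa_chi D.word (leg l i t s) (leg l i t s) = 1 := if_pos hsym
      have c2 : Pa_chi D.word (leg l i t s) (leg l' i' t' s') = 1 := if_pos he
      rw [c1, c2, mul_one, mul_one] at hsum
      by_cases ho : Over D.word l t s
      · rw [if_pos ho, if_neg (hov.1 ho)] at hsum
        linarith
      · have ho' : Over D.word l' t' s' := by
          by_contra hcon
          exact ho (hov.2 hcon)
        rw [if_neg ho, if_pos ho'] at hsum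
        linarith
    · rintro ⟨l'', t'', s''⟩ _ ⟨hn1, hn2⟩
      -- a third leg would contradict the alternation
      by_contra hg
      have hcr : ∃ i'', IsCrossing D.word l'' i'' := by
        rw [Pa_g] at hg
        dsimp only at hg
        split at hg
        · next j hj => exact ⟨j, Or.inl hj⟩
        · next j hj => exact ⟨j, Or.inr hj⟩
        · exact absurd rfl hg
      obtain ⟨i'', h''⟩ := hcr
      rw [Pa_g_of h''] at hg
      have hchi : Pa_chi D.word (leg l i t s) (leg l'' i'' t'' s'') ≠ 0 := right_ne_zero_of_mul hg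
      have he2 : SameEdge D.word (leg l i t s) (leg l'' i'' t'' s'') := by
        by_contra hcon
        exact hchi (if_neg hcon)
      have he3 : SameEdge D.word (leg l' i' t' s') (leg l'' i'' t'' s'') :=
        Relation.EqvGen.trans _ _ _ (Relation.EqvGen.symm _ _ he) he2
      have a1 := ha l i t s l'' i'' t'' s'' h h'' (Ne.symm hn1) he2
      have a2 := ha l' i' t' s' l'' i'' t'' s'' h' h'' (Ne.symm hn2) he3
      tauto
    · intro hcon
      exact absurd (Finset.mem_product.2 ⟨Finset.mem_range.2 (Pa_crossing_lt h),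
        Finset.mem_univ _⟩) hcon
    · intro hcon
      exact absurd (Finset.mem_product.2 ⟨Finset.mem_range.2 (Pa_crossing_lt h'),
        Finset.mem_univ _⟩) hcon

theorem Pa_leg_strand (D : Diagram) {l i : ℕ} (h : IsCrossing D.word l i) (t s : Bool) :
    IsStrand D.word (leg l i t s) := by
  have hl := Pa_crossing_lt h
  obtain ⟨e, he, hg, hi, ho⟩ : ∃ e : Ev, D.word[l]? = some e ∧ e.gap = i ∧ e.inn = 2 ∧
      e.out = 2 := by
    rcases h with h | h
    · exact ⟨_, h, rfl, rfl, rfl⟩
    · exact ⟨_, h, rfl, rfl, rfl⟩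
  have h1 := Pa_lev_le D he
  have h2 := Pa_lev_succ D.word he
  rw [hg, hi] at h1
  rw [hi, ho] at h2
  constructor
  · cases t <;> simp [leg] <;> omega
  · cases t <;> cases s <;> simp [leg] <;> omega

/-- all the crossings on the edge of `p` have type `T` -/
def Pa_P (w : List Ev) (T : ℤ) (p : ℕ × ℕ) : Prop :=
  ∀ l i t s, IsCrossing w l i → SameEdge w p (leg l i t s) → Pa_tau w l i = T

theorem Pa_P_step (D : Diagram) (ha : Alternating D.word) (T : ℤ) {p q : ℕ × ℕ}
    (h : GraphStep D.word none p q) : Pa_P D.word T p ↔ Pa_P D.word T q := by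
  rcases h with h | ⟨l, i, -, hc, t, s, t', s', rfl, rfl⟩
  · constructor
    · intro hP l i t s hc he
      exact hP l i t s hc (Relation.EqvGen.trans _ _ _ (Relation.EqvGen.rel _ _ h) he)
    · intro hP l i t s hc he
      exact hP l i t s hc (Relation.EqvGen.trans _ _ _
        (Relation.EqvGen.symm _ _ (Relation.EqvGen.rel _ _ h)) he)
  · constructor
    · intro hP l2 i2 t2 s2 hc2 he
      rw [← Pa_edge D ha hc hc2 he]
      exact hP l i t s hc (Relation.EqvGen.refl _)
    · intro hP l2 i2 t2 s2 hc2 he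
      rw [← Pa_edge D ha hc hc2 he]
      exact hP l i t' s' hc (Relation.EqvGen.refl _)

theorem Pa_P_eqv (D : Diagram) (ha : Alternating D.word) (T : ℤ) {p q : ℕ × ℕ}
    (h : Relation.EqvGen (GraphStep D.word none) p q) : Pa_P D.word T p ↔ Pa_P D.word T q := by
  induction h with
  | rel x y h => exact Pa_P_step D ha T h
  | refl x => exact Iff.rfl
  | symm x y _ ih => exact ih.symm
  | trans x y z _ _ ih1 ih2 => exact ih1.trans ih2

theorem caseA_or_caseB (D : Diagram) (hc : Connected D.word) (ha : Alternating D.word) :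
    CaseA D.word ∨ CaseB D.word := by
  by_cases hex : ∃ l i, IsCrossing D.word l i
  · obtain ⟨l0, i0, h0⟩ := hex
    have hall : ∀ l i, IsCrossing D.word l i → Pa_tau D.word l i = Pa_tau D.word l0 i0 := by
      intro l i h
      have hP : Pa_P D.word (Pa_tau D.word l0 i0) (leg l0 i0 false false) := by
        intro l1 i1 t1 s1 h1 he
        exact (Pa_edge D ha h0 h1 he).symm
      have hcon := hc _ _ (Pa_leg_strand D h0 false false) (Pa_leg_strand D h false false)
      exact (Pa_P_eqv D ha _ hcon).1 hP l i false false h (Relation.EqvGen.refl _)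
    have hpm : Pa_tau D.word l0 i0 = 1 ∨ Pa_tau D.word l0 i0 = -1 := by
      have := Pa_tau_sq D.word l0 i0
      exact mul_self_eq_one_iff.1 this
    have hpos : ∀ i, Ev.pos i ∈ D.word → (-1 : ℤ) ^ i = Pa_tau D.word l0 i0 := by
      intro i hi
      obtain ⟨l, hl⟩ := List.mem_iff_getElem?.1 hi
      rw [← hall l i (Or.inl hl), Pa_tau, if_pos hl]
    have hneg : ∀ i, Ev.neg i ∈ D.word → -(-1 : ℤ) ^ i = Pa_tau D.word l0 i0 := by
      intro i hi
      obtain ⟨l, hl⟩ := List.mem_iff_getElem?.1 hi
      rw [← hall l i (Or.inr hl), Pa_tau, if_neg (by rw [hl]; simp)]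
    have hodd : ∀ i : ℕ, (-1 : ℤ) ^ i = -1 → i % 2 = 1 := by
      intro i hi
      rcases Nat.even_or_odd i with he | ho
      · rw [he.neg_one_pow] at hi; norm_num at hi
      · exact Nat.odd_iff.1 ho
    have heven : ∀ i : ℕ, (-1 : ℤ) ^ i = 1 → i % 2 = 0 := by
      intro i hi
      rcases Nat.even_or_odd i with he | ho
      · exact Nat.even_iff.1 he
      · rw [ho.neg_one_pow] at hi; norm_num at hi
    rcases hpm with h1 | h1
    · left
      refine ⟨fun i hi => heven i ?_, fun i hi => hodd i ?_⟩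
      · rw [hpos i hi, h1]
      · have := hneg i hi; rw [h1] at this; linarith
    · right
      refine ⟨fun i hi => hodd i ?_, fun i hi => heven i ?_⟩
      · rw [hpos i hi, h1]
      · have := hneg i hi; rw [h1] at this; linarith
  · left
    refine ⟨fun i hi => ?_, fun i hi => ?_⟩
    · obtain ⟨l, hl⟩ := List.mem_iff_getElem?.1 hi
      exact absurd ⟨l, i, Or.inl hl⟩ hex
    · obtain ⟨l, hl⟩ := List.mem_iff_getElem?.1 hi
      exact absurd ⟨l, i, Or.inr hl⟩ hex

end Pool.Agent.Tait
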