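import Pool.Agent.Lib.MP_150b40_gt.Pdefs

/-! # Gradients -/

namespace Pool.Agent.Tait

theorem Pb_lev_succ {w : List Ev} {l : ℕ} {e : Ev} (he : w[l]? = some e) :
    lev w (l + 1) = lev w l - e.inn + e.out := by
  unfold lev
  rw [List.take_add_one, he]
  simp

theorem Pb_runs {n m : ℕ} {w : List Ev} (h : Runs n w m) :
    (∀ l e, w[l]? = some e →
      e.gap + e.inn ≤ (w.take l).foldl (fun n e => n - e.inn + e.out) n) ∧
    w.foldl (fun n e => n - e.inn + e.out) n = m := by
  induction w generalizing n with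
  | nil => exact ⟨by simp, h⟩
  | cons a w ih =>
    obtain ⟨h1, h2⟩ := h
    obtain ⟨ih1, ih2⟩ := ih h2
    refine ⟨?_, by simpa using ih2⟩
    intro l e he
    cases l with
    | zero => simp only [List.getElem?_cons_zero, Option.some.injEq] at he; subst he; simpa using h1
    | succ l => simpa using ih1 l e (by simpa using he)

theorem Pb_gap_le (D : Diagram) {l : ℕ} {e : Ev} (he : D.word[l]? = some e) :
    e.gap + e.inn ≤ lev D.word l := (Pb_runs D.closed).1 l e he

theorem Pb_lev_end (D : Diagram) : lev D.word D.word.length = 0 := by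
  have := (Pb_runs D.closed).2
  unfold lev
  rwa [List.take_length]

theorem Pb_lev_zero (w : List Ev) : lev w 0 = 0 := by simp [lev]

theorem Pb_lt_length {w : List Ev} {l : ℕ} {e : Ev} (he : w[l]? = some e) : l < w.length := by
  by_contra h
  rw [List.getElem?_eq_none (not_lt.1 h)] at he
  exact absurd he (by simp)

theorem Pb_exists {w : List Ev} {l : ℕ} (hl : l < w.length) : ∃ e, w[l]? = some e :=
  ⟨w[l], List.getElem?_eq_getElem hl⟩

theorem Pb_lev_even (D : Diagram) (l : ℕ) (hl : l ≤ D.word.length) : lev D.word l % 2 = 0 := by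
  induction l with
  | zero => simp [Pb_lev_zero]
  | succ l ih =>
    obtain ⟨e, he⟩ := Pb_exists (w := D.word) (l := l) (by omega)
    have h1 := ih (by omega)
    have h2 := Pb_gap_le D he
    rw [Pb_lev_succ he]
    cases e <;> simp only [Ev.inn, Ev.out] at h2 ⊢ <;> omega

/-- the boundary term of the telescoping sum -/
private noncomputable def om (f g : ℕ × ℕ → ℝ) (l j : ℕ) : ℝ :=
  f (l, j) * g (l, j + 1) - g (l, j) * f (l, j + 1)

private noncomputable def Phi (w : List Ev) (f g : ℕ × ℕ → ℝ) (l : ℕ) : ℝ :=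
  ∑ j ∈ Finset.range (lev w l), om f g l j

private theorem Pb_left {w : List Ev} {f : ℕ × ℕ → ℝ} (hf : RegFun w f) {l : ℕ} {e : Ev}
    (he : w[l]? = some e) {j : ℕ} (hj : j ≤ e.gap) : f (l + 1, j) = f (l, j) :=
  (hf _ _ (GapStep.left l j e he hj)).symm

private theorem Pb_right {w : List Ev} {f : ℕ × ℕ → ℝ} (hf : RegFun w f) {l : ℕ} {e : Ev}
    (he : w[l]? = some e) {j : ℕ} (hj : e.gap + e.inn ≤ j) (hn : j ≤ lev w l) {k : ℕ}
    (hk : k = j - e.inn + e.out) : f (l + 1, k) = f (l, j) := by
  subst hk
  exact (hf _ _ (GapStep.right l j e he hj hn)).symm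

private theorem Phi_succ (D : Diagram) (f g : ℕ × ℕ → ℝ) (hf : RegFun D.word f)
    (hg : RegFun D.word g) {l : ℕ} {e : Ev} (he : D.word[l]? = some e) :
    Phi D.word f g (l + 1) - Phi D.word f g l =
      (∑ k ∈ Finset.range e.out, om f g (l + 1) (e.gap + k)) -
      ∑ k ∈ Finset.range e.inn, om f g l (e.gap + k) := by
  have h := Pb_gap_le D he
  obtain ⟨r, hr⟩ : ∃ r, lev D.word l = e.gap + e.inn + r := ⟨_, (Nat.add_sub_cancel' h).symm⟩
  have hr' : lev D.word (l + 1) = e.gap + e.out + r := by rw [Pb_lev_succ he]; omega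
  unfold Phi
  rw [hr, hr', Finset.sum_range_add, Finset.sum_range_add, Finset.sum_range_add,
    Finset.sum_range_add]
  have h1 : ∑ x ∈ Finset.range e.gap, om f g (l + 1) x = ∑ x ∈ Finset.range e.gap, om f g l x := by
    refine Finset.sum_congr rfl fun x hx => ?_
    have hx' := Finset.mem_range.1 hx
    unfold om
    rw [Pb_left hf he (by omega), Pb_left hg he (by omega), Pb_left hf he (by omega),
      Pb_left hg he (by omega)]
  have h2 : ∑ x ∈ Finset.range r, om f g (l + 1) (e.gap + e.out + x) =
      ∑ x ∈ Finset.range r, om f g l (e.gap + e.inn + x) := by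
    refine Finset.sum_congr rfl fun x hx => ?_
    have hx' := Finset.mem_range.1 hx
    unfold om
    rw [Pb_right hf he (j := e.gap + e.inn + x) (k := e.gap + e.out + x) (by omega) (by omega)
        (by omega),
      Pb_right hg he (j := e.gap + e.inn + x) (k := e.gap + e.out + x) (by omega) (by omega)
        (by omega),
      Pb_right hf he (j := e.gap + e.inn + x + 1) (k := e.gap + e.out + x + 1) (by omega)
        (by omega) (by omega),
      Pb_right hg he (j := e.gap + e.inn + x + 1) (k := e.gap + e.out + x + 1) (by omega)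
        (by omega) (by omega)]
  rw [h1, h2]
  ring

/-- gradients of functions of different parity are orthogonal -/
theorem grad_orth (D : Diagram) (f g : ℕ × ℕ → ℝ) (hf : RegFun D.word f) (hg : RegFun D.word g)
    (hf0 : ∀ p, p.2 % 2 = 0 → f p = 0) (hg0 : ∀ p, p.2 % 2 = 1 → g p = 0) :
    sumX D.word (fun l i => gOdd f l i * gEven g l i) = 0 := by
  have key : ∀ l ∈ Finset.range D.word.length,
      (D.word[l]?).elim 0 (fun e => if e.isX then gOdd f l e.gap * gEven g l e.gap else 0) =
        Phi D.word f g (l + 1) - Phi D.word f g l := by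
    intro l hl
    obtain ⟨e, he⟩ := Pb_exists (w := D.word) (l := l) (Finset.mem_range.1 hl)
    have hle := Pb_gap_le D he
    rw [Phi_succ D f g hf hg he, he]
    have hx : ∀ i, e.gap = i → e.inn = 2 → e.out = 2 →
        gOdd f l i * gEven g l i =
          (∑ k ∈ Finset.range 2, om f g (l + 1) (i + k)) - ∑ k ∈ Finset.range 2, om f g l (i + k) := by
      intro i hi hin hout
      have e1 : f (l + 1, i) = f (l, i) := Pb_left hf he (by omega)
      have e2 : g (l + 1, i) = g (l, i) := Pb_left hg he (by omega)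
      have e3 : f (l + 1, i + 2) = f (l, i + 2) :=
        Pb_right hf he (by omega) (by omega) (by omega)
      have e4 : g (l + 1, i + 2) = g (l, i + 2) :=
        Pb_right hg he (by omega) (by omega) (by omega)
      simp only [Finset.sum_range_succ, Finset.sum_range_zero, zero_add, om, add_zero, add_assoc,
        Nat.reduceAdd, e1, e2, e3, e4]
      unfold gOdd gEven
      rcases Nat.mod_two_eq_zero_or_one i with h | h
      · rw [if_pos h, if_pos h, hf0 (l, i) h, hf0 (l, i + 2) (by show (i + 2) % 2 = 0; omega),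
          hg0 (l, i + 1) (by show (i + 1) % 2 = 1; omega),
          hg0 (l + 1, i + 1) (by show (i + 1) % 2 = 1; omega)]
        ring
      · rw [if_neg (by omega), if_neg (by omega), hg0 (l, i) h,
          hg0 (l, i + 2) (by show (i + 2) % 2 = 1; omega),
          hf0 (l, i + 1) (by show (i + 1) % 2 = 0; omega),
          hf0 (l + 1, i + 1) (by show (i + 1) % 2 = 0; omega)]
        ring
    cases e with
    | cup i =>
      simp only [Ev.gap, Ev.inn] at hle
      have e1 : f (l + 1, i) = f (l, i) := Pb_left hf he (by simp [Ev.gap])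
      have e2 : g (l + 1, i) = g (l, i) := Pb_left hg he (by simp [Ev.gap])
      have e3 : f (l + 1, i + 2) = f (l, i) :=
        Pb_right hf he (j := i) (by simp [Ev.gap, Ev.inn]) (by omega) (by simp [Ev.inn, Ev.out])
      have e4 : g (l + 1, i + 2) = g (l, i) :=
        Pb_right hg he (j := i) (by simp [Ev.gap, Ev.inn]) (by omega) (by simp [Ev.inn, Ev.out])
      simp only [Option.elim_some, Ev.isX, Ev.gap, Ev.inn, Ev.out, Finset.sum_range_succ,
        Finset.sum_range_zero, zero_add, om, add_zero, add_assoc, Nat.reduceAdd, e1, e2, e3, e4,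
        Bool.false_eq_true, if_false]
      ring
    | cap i =>
      simp only [Ev.gap, Ev.inn] at hle
      have e1 : f (l + 1, i) = f (l, i) := Pb_left hf he (by simp [Ev.gap])
      have e2 : g (l + 1, i) = g (l, i) := Pb_left hg he (by simp [Ev.gap])
      have e3 : f (l + 1, i) = f (l, i + 2) :=
        Pb_right hf he (j := i + 2) (by simp [Ev.gap, Ev.inn]) (by omega) (by simp [Ev.inn, Ev.out])
      have e4 : g (l + 1, i) = g (l, i + 2) :=
        Pb_right hg he (j := i + 2) (by simp [Ev.gap, Ev.inn]) (by omega) (by simp [Ev.inn, Ev.out])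
      simp only [Option.elim_some, Ev.isX, Ev.gap, Ev.inn, Ev.out, Finset.sum_range_succ,
        Finset.sum_range_zero, zero_add, om, add_zero, add_assoc, Nat.reduceAdd, ← e3, ← e4, ← e1,
        ← e2, Bool.false_eq_true, if_false]
      ring
    | pos i => simpa [Ev.isX, Ev.gap, Ev.inn, Ev.out] using hx i rfl rfl rfl
    | neg i => simpa [Ev.isX, Ev.gap, Ev.inn, Ev.out] using hx i rfl rfl rfl
    | hole i => simp [Ev.isX, Ev.inn, Ev.out]
  unfold sumX
  rw [Finset.sum_congr rfl key, Finset.sum_range_sub]
  unfold Phi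
  rw [Pb_lev_end, Pb_lev_zero]
  simp

/-- the gap on the side of parity `b` of the strand `p` -/
private def side (b : ℕ) (p : ℕ × ℕ) : ℕ × ℕ := (p.1, if p.2 % 2 = b then p.2 else p.2 + 1)

private theorem side_eq {b l j : ℕ} (h : j % 2 = b) : side b (l, j) = (l, j) := by
  unfold side; rw [if_pos h]

private theorem side_ne {b l j : ℕ} (h : j % 2 ≠ b) : side b (l, j) = (l, j + 1) := by
  unfold side; rw [if_neg h]

/-- a function on regions which has zero gradient, read on the side of parity `b` -/
private theorem side_const (D : Diagram) (f : ℕ × ℕ → ℝ) (hf : RegFun D.word f) (b : ℕ)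
    (hb : b < 2)
    (h0 : ∀ l i, IsCrossing D.word l i → if i % 2 = b then f (l, i) = f (l, i + 2)
      else f (l + 1, i + 1) = f (l, i + 1))
    (p q : ℕ × ℕ) (h : Relation.EqvGen (GraphStep D.word none) p q) :
    f (side b p) = f (side b q) := by
  have hs : ∀ p q, StrandStep D.word p q → f (side b p) = f (side b q) := by
    intro p q h
    cases h with
    | left l j e he hj =>
      by_cases hjb : j % 2 = b
      · rw [side_eq hjb, side_eq hjb, Pb_left hf he (by omega)]
      · rw [side_ne hjb, side_ne hjb, Pb_left hf he (by omega)]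
    | right l j e he hj hn =>
      have hpar : (j - e.inn + e.out) % 2 = j % 2 := by
        cases e <;> simp only [Ev.inn, Ev.out] at hj ⊢ <;> omega
      by_cases hjb : j % 2 = b
      · rw [side_eq hjb, side_eq (by omega), Pb_right hf he (j := j) (by omega) (by omega) rfl]
      · rw [side_ne hjb, side_ne (by omega),
          Pb_right hf he (j := j + 1) (by omega) (by omega) (by omega)]
    | cup l i he =>
      have hle := Pb_gap_le D he
      simp only [Ev.gap, Ev.inn] at hle
      by_cases hib : i % 2 = b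
      · rw [side_eq hib, side_ne (by omega), Pb_left hf he (by simp [Ev.gap]),
          Pb_right hf he (j := i) (by simp [Ev.gap, Ev.inn]) (by omega) (by simp [Ev.inn, Ev.out])]
      · rw [side_ne hib, side_eq (by omega)]
    | cap l i he =>
      have hle := Pb_gap_le D he
      simp only [Ev.gap, Ev.inn] at hle
      by_cases hib : i % 2 = b
      · rw [side_eq hib, side_ne (by omega), ← Pb_left hf he (j := i) (by simp [Ev.gap]),
          ← Pb_right hf he (j := i + 2) (k := i) (by simp [Ev.gap, Ev.inn]) (by omega)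
            (by simp [Ev.inn, Ev.out])]
      · rw [side_ne hib, side_eq (by omega)]
  have hx : ∀ l i, IsCrossing D.word l i → ∀ t s, f (side b (leg l i t s)) =
      if i % 2 = b then f (l, i) else f (l, i + 1) := by
    intro l i hc
    have hg := h0 l i hc
    have hex : ∃ e, D.word[l]? = some e ∧ e.gap = i ∧ e.inn = 2 ∧ e.out = 2 := by
      rcases hc with h | h
      · exact ⟨_, h, rfl, rfl, rfl⟩
      · exact ⟨_, h, rfl, rfl, rfl⟩
    obtain ⟨e, he, hgap, hin, hout⟩ := hex
    have hle := Pb_gap_le D he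
    intro t s
    by_cases hib : i % 2 = b
    · rw [if_pos hib] at hg ⊢
      have e1 : f (l + 1, i) = f (l, i) := Pb_left hf he (by omega)
      have e3 : f (l + 1, i + 2) = f (l, i + 2) :=
        Pb_right hf he (by omega) (by omega) (by omega)
      cases t <;> cases s <;> simp only [leg, if_true, if_false, Bool.false_eq_true]
      · rw [side_eq hib]
      · rw [side_ne (by omega), add_assoc, ← hg]
      · rw [side_eq hib, e1]
      · rw [side_ne (by omega), add_assoc, e3, ← hg]
    · rw [if_neg hib] at hg ⊢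
      cases t <;> cases s <;> simp only [leg, if_true, if_false, Bool.false_eq_true]
      · rw [side_ne hib]
      · rw [side_eq (by omega)]
      · rw [side_ne hib, hg]
      · rw [side_eq (by omega), hg]
  induction h with
  | rel p q h =>
    rcases h with h | ⟨l, i, -, hc, t, s, t', s', rfl, rfl⟩
    · exact hs p q h
    · rw [hx l i hc, hx l i hc]
  | refl p => rfl
  | symm p q _ ih => exact ih.symm
  | trans p q r _ _ ih1 ih2 => exact ih1.trans ih2

/-- a function on odd regions with zero gradient is constant -/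
theorem gOdd_const (D : Diagram) (hc : Connected D.word) (f : ℕ × ℕ → ℝ)
    (hf : RegFun D.word f) (h0 : ∀ l i, IsCrossing D.word l i → gOdd f l i = 0)
    (p q : ℕ × ℕ) (hp : IsGap D.word p) (hq : IsGap D.word q) (hp1 : p.2 % 2 = 1)
    (hq1 : q.2 % 2 = 1) : f p = f q := by
  have hst : ∀ p : ℕ × ℕ, IsGap D.word p → p.2 % 2 = 1 → IsStrand D.word p := by
    intro p hp hp1
    have := Pb_lev_even D p.1 hp.1
    have h2 := hp.2
    exact ⟨hp.1, by omega⟩
  have h := side_const D f hf 1 (by omega) (fun l i hx => by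
    have := h0 l i hx
    unfold gOdd at this
    split_ifs with h1
    · rw [if_neg (by omega)] at this; linarith
    · rw [if_pos (by omega)] at this; linarith) p q (hc p q (hst p hp hp1) (hst q hq hq1))
  rwa [show side 1 p = p from side_eq hp1, show side 1 q = q from side_eq hq1] at h

theorem gEven_const (D : Diagram) (hc : Connected D.word) (f : ℕ × ℕ → ℝ)
    (hf : RegFun D.word f) (h0 : ∀ l i, IsCrossing D.word l i → gEven f l i = 0)
    (p q : ℕ × ℕ) (hp : IsGap D.word p) (hq : IsGap D.word q) (hp1 : p.2 % 2 = 0)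
    (hq1 : q.2 % 2 = 0) : f p = f q := by
  have hout : ∀ l, l ≤ D.word.length → f (l, 0) = f (0, 0) := by
    intro l
    induction l with
    | zero => intro _; rfl
    | succ l ih =>
      intro hl
      obtain ⟨e, he⟩ := Pb_exists (w := D.word) (l := l) (by omega)
      rw [Pb_left hf he (Nat.zero_le _), ih (by omega)]
  have hside := side_const D f hf 0 (by omega) (fun l i hx => by
    have := h0 l i hx
    unfold gEven at this
    split_ifs with h1
    · rw [if_pos (by omega)] at this; linarith
    · rw [if_neg (by omega)] at this; linarith)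
  have hall : ∀ p : ℕ × ℕ, IsGap D.word p → p.2 % 2 = 0 → f p = f (0, 0) := by
    rintro ⟨l, j⟩ ⟨hl, hj⟩ hp0
    simp only at hl hj hp0
    have hev := Pb_lev_even D l hl
    rw [← hout l hl]
    rcases Nat.eq_zero_or_pos (lev D.word l) with h | h
    · have : j = 0 := by omega
      rw [this]
    · have h0s : IsStrand D.word (l, 0) := ⟨hl, h⟩
      rcases Nat.lt_or_ge j (lev D.word l) with hj' | hj'
      · have := hside (l, j) (l, 0) (hc _ _ ⟨hl, hj'⟩ h0s)
        rwa [side_eq hp0, side_eq (Nat.zero_mod 2)] at this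
      · obtain ⟨k, rfl⟩ : ∃ k, j = k + 1 := ⟨j - 1, by omega⟩
        have := hside (l, k) (l, 0) (hc _ _ ⟨hl, by show k < lev D.word l; omega⟩ h0s)
        rwa [side_ne (by omega), side_eq (Nat.zero_mod 2)] at this
  rw [hall p hp hp1, hall q hq hq1]

theorem Pb_mem_gaps (w : List Ev) (p : ℕ × ℕ) : p ∈ gaps w ↔ IsGap w p := by
  unfold gaps IsGap
  simp only [Finset.mem_biUnion, Finset.mem_range, Finset.mem_image]
  constructor
  · rintro ⟨l, hl, j, hj, rfl⟩
    exact ⟨by omega, by show j ≤ lev w l; omega⟩
  · rintro ⟨h1, h2⟩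
    exact ⟨p.1, by omega, p.2, by omega, rfl⟩

theorem exists_reps (D : Diagram) : ∃ s, Reps D.word s ∧ (0, 0) ∈ s := by
  classical
  let st : Setoid (ℕ × ℕ) := Relation.EqvGen.setoid (GapStep D.word)
  have h00 : (0, 0) ∈ gaps D.word := by
    rw [Pb_mem_gaps]
    exact ⟨Nat.zero_le _, Nat.zero_le _⟩
  have hch : ∀ c : Quotient st, ∃ q : ℕ × ℕ, (c = Quotient.mk st (0, 0) → q = (0, 0)) ∧
      ((∃ p ∈ gaps D.word, Quotient.mk st p = c) → q ∈ gaps D.word ∧ Quotient.mk st q = c) := by
    intro c
    by_cases h : c = Quotient.mk st (0, 0)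
    · exact ⟨(0, 0), fun _ => rfl, fun _ => ⟨h00, h.symm⟩⟩
    · by_cases h' : ∃ p ∈ gaps D.word, Quotient.mk st p = c
      · obtain ⟨p, hp, hpc⟩ := h'
        exact ⟨p, fun h'' => absurd h'' h, fun _ => ⟨hp, hpc⟩⟩
      · exact ⟨(0, 0), fun _ => rfl, fun h'' => absurd h'' h'⟩
  choose r hr0 hr using hch
  have hmk : ∀ p q, Quotient.mk st p = Quotient.mk st q ↔ SameRegion D.word p q := by
    intro p q
    rw [Quotient.eq]
    rfl
  refine ⟨(gaps D.word).image fun p => r (Quotient.mk st p), ⟨?_, ?_, ?_⟩, ?_⟩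
  · intro q hq
    obtain ⟨p, hp, rfl⟩ := Finset.mem_image.1 hq
    exact (hr _ ⟨p, hp, rfl⟩).1
  · intro p hp
    rw [← Pb_mem_gaps] at hp
    refine ⟨_, Finset.mem_image_of_mem _ hp, ?_⟩
    rw [← hmk]
    exact (hr _ ⟨p, hp, rfl⟩).2.symm
  · intro p hp q hq hpq
    obtain ⟨p', hp', rfl⟩ := Finset.mem_image.1 hp
    obtain ⟨q', hq', rfl⟩ := Finset.mem_image.1 hq
    rw [← hmk, (hr _ ⟨p', hp', rfl⟩).2, (hr _ ⟨q', hq', rfl⟩).2] at hpq
    rw [hpq]
  · refine Finset.mem_image.2 ⟨(0, 0), h00, hr0 _ rfl⟩

end Pool.Agent.Tait
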