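import Pool.Agent.Lib.MP_150b40_gt.Pb

/-! # Euler and Gauss–Bonnet -/

namespace Pool.Agent.Tait

open Finset

/-! ## Levels -/

theorem Pc_lev_zero (w : List Ev) : lev w 0 = 0 := rfl

theorem Pc_lev_succ {w : List Ev} {l : ℕ} {e : Ev} (he : w[l]? = some e) :
    lev w (l + 1) = lev w l - e.inn + e.out := by
  unfold lev
  rw [List.take_add_one, he]
  simp [List.foldl_append]

theorem Pc_runs {w : List Ev} : ∀ {n m : ℕ}, Runs n w m → ∀ l e, w[l]? = some e →
    e.gap + e.inn ≤ (w.take l).foldl (fun n e => n - e.inn + e.out) n := by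
  induction w with
  | nil => intro n m h l e he; simp at he
  | cons a w ih =>
    intro n m h l e he
    obtain ⟨h1, h2⟩ := h
    cases l with
    | zero =>
      simp at he
      subst he
      simpa using h1
    | succ l =>
      simp at he
      simpa using ih h2 l e he

theorem Pc_runs_end {w : List Ev} : ∀ {n m : ℕ}, Runs n w m →
    w.foldl (fun n e => n - e.inn + e.out) n = m := by
  induction w with
  | nil => intro n m h; exact h
  | cons a w ih =>
    intro n m h
    obtain ⟨h1, h2⟩ := h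
    simpa using ih h2

theorem Pc_gap_le (D : Diagram) {l : ℕ} {e : Ev} (he : D.word[l]? = some e) :
    e.gap + e.inn ≤ lev D.word l := Pc_runs D.closed l e he

theorem Pc_lev_length (D : Diagram) : lev D.word D.word.length = 0 := by
  unfold lev
  rw [List.take_length]
  exact Pc_runs_end D.closed

theorem Pc_lt {w : List Ev} {l : ℕ} {e : Ev} (he : w[l]? = some e) : l < w.length := by
  by_contra h
  rw [List.getElem?_eq_none (by omega)] at he
  cases he

theorem Pc_some {w : List Ev} {l : ℕ} (h : l < w.length) : ∃ e, w[l]? = some e :=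
  ⟨w[l], List.getElem?_eq_getElem h⟩

theorem Pc_step_gap (D : Diagram) {p q : ℕ × ℕ} (h : GapStep D.word p q) :
    IsGap D.word p ∧ IsGap D.word q := by
  cases h with
  | left l j e he hj =>
    have h1 := Pc_gap_le D he
    have h2 := Pc_lt he
    have h3 := Pc_lev_succ he
    exact ⟨⟨h2.le, by simp only; omega⟩, ⟨by simp only; omega, by simp only; omega⟩⟩
  | right l j e he hj hn =>
    have h1 := Pc_gap_le D he
    have h2 := Pc_lt he
    have h3 := Pc_lev_succ he
    exact ⟨⟨h2.le, by simp only; omega⟩, ⟨by simp only; omega, by simp only; omega⟩⟩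

theorem Pc_regFun {α : Type*} {w : List Ev} {f : ℕ × ℕ → α} (hf : RegFun w f) {p q : ℕ × ℕ}
    (h : SameRegion w p q) : f p = f q := by
  induction h with
  | rel x y h => exact hf x y h
  | refl x => rfl
  | symm x y _ ih => exact ih.symm
  | trans x y z _ _ ih1 ih2 => exact ih1.trans ih2

theorem Pc_parity {w : List Ev} : RegFun w (fun p => p.2 % 2) := by
  intro p q h
  cases h with
  | left l j e he hj => rfl
  | right l j e he hj hn =>
    cases e <;> simp [Ev.inn, Ev.out, Ev.gap] at * <;> omega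

/-- indicator of a region -/
noncomputable def Pc_ind (w : List Ev) (p x : ℕ × ℕ) : ℤ :=
  open Classical in if SameRegion w x p then 1 else 0

theorem Pc_ind_reg (w : List Ev) (p : ℕ × ℕ) : RegFun w (Pc_ind w p) := by
  intro x y h
  unfold Pc_ind
  have h1 : SameRegion w x y := Relation.EqvGen.rel _ _ h
  have : SameRegion w x p ↔ SameRegion w y p :=
    ⟨fun h => (Relation.EqvGen.symm _ _ h1).trans _ _ _ h, fun h => h1.trans _ _ _ h⟩
  by_cases hx : SameRegion w x p
  · rw [if_pos hx, if_pos (this.1 hx)]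
  · rw [if_neg hx, if_neg (fun h => hx (this.2 h))]

/-! ## Counting links -/

/-- links over a piece -/
def Pc_links (w : List Ev) (l : ℕ) (e : Ev) : Finset ((ℕ × ℕ) × (ℕ × ℕ)) :=
  (range (e.gap + 1)).image (fun j => ((l, j), (l + 1, j))) ∪
    (Ico (e.gap + e.inn) (lev w l + 1)).image (fun j => ((l, j), (l + 1, j - e.inn + e.out)))

theorem Pc_mem_links {w : List Ev} {l : ℕ} {e : Ev} (he : w[l]? = some e)
    {x : (ℕ × ℕ) × (ℕ × ℕ)} (hx : x ∈ Pc_links w l e) : GapStep w x.1 x.2 ∧ x.1.1 = l := by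
  unfold Pc_links at hx
  rw [mem_union, mem_image, mem_image] at hx
  rcases hx with ⟨j, hj, rfl⟩ | ⟨j, hj, rfl⟩
  · rw [mem_range] at hj
    exact ⟨GapStep.left l j e he (by omega), rfl⟩
  · rw [mem_Ico] at hj
    exact ⟨GapStep.right l j e he (by omega) (by omega), rfl⟩

/-- all links -/
def Pc_E (w : List Ev) : Finset ((ℕ × ℕ) × (ℕ × ℕ)) :=
  (range w.length).biUnion fun l => (w[l]?).elim ∅ (Pc_links w l)

theorem Pc_mem_E {w : List Ev} {p q : ℕ × ℕ} : (p, q) ∈ Pc_E w ↔ GapStep w p q := by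
  unfold Pc_E
  rw [mem_biUnion]
  constructor
  · rintro ⟨l, hl, h⟩
    obtain ⟨e, he⟩ := Pc_some (mem_range.1 hl)
    rw [he] at h
    exact (Pc_mem_links he h).1
  · intro h
    cases h with
    | left l j e he hj =>
      refine ⟨l, mem_range.2 (Pc_lt he), ?_⟩
      rw [he]
      exact mem_union_left _ (mem_image.2 ⟨j, mem_range.2 (by omega), rfl⟩)
    | right l j e he hj hn =>
      refine ⟨l, mem_range.2 (Pc_lt he), ?_⟩
      rw [he]
      exact mem_union_right _ (mem_image.2 ⟨j, mem_Ico.2 (by omega), rfl⟩)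

theorem Pc_sum_E (w : List Ev) (f : (ℕ × ℕ) × (ℕ × ℕ) → ℤ) :
    ∑ x ∈ Pc_E w, f x =
      ∑ l ∈ range w.length, (w[l]?).elim 0 (fun e => ∑ x ∈ Pc_links w l e, f x) := by
  unfold Pc_E
  rw [sum_biUnion]
  · refine sum_congr rfl fun l hl => ?_
    obtain ⟨e, he⟩ := Pc_some (mem_range.1 hl)
    rw [he]
    rfl
  · intro l hl l' hl' hne
    obtain ⟨e, he⟩ := Pc_some (mem_range.1 hl)
    obtain ⟨e', he'⟩ := Pc_some (mem_range.1 hl')
    simp only [Function.onFun]
    rw [disjoint_left]
    intro x hx hx'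
    rw [he] at hx
    rw [he'] at hx'
    exact hne ((Pc_mem_links he hx).2.symm.trans (Pc_mem_links he' hx').2)

theorem Pc_sum_gaps (w : List Ev) (f : ℕ × ℕ → ℤ) :
    ∑ x ∈ gaps w, f x = ∑ l ∈ range (w.length + 1), ∑ j ∈ range (lev w l + 1), f (l, j) := by
  unfold gaps
  rw [sum_biUnion]
  · refine sum_congr rfl fun l _ => ?_
    rw [sum_image]
    intro a _ b _ h
    simpa using h
  · intro l _ l' _ hne
    simp only [Function.onFun]
    rw [disjoint_left]
    intro x hx hx'
    rw [mem_image] at hx hx'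
    obtain ⟨a, _, rfl⟩ := hx
    obtain ⟨b, _, hb⟩ := hx'
    apply hne
    simpa using (congrArg Prod.fst hb).symm

theorem Pc_mem_gaps {w : List Ev} {p : ℕ × ℕ} : p ∈ gaps w ↔ IsGap w p := by
  unfold gaps IsGap
  rw [mem_biUnion]
  constructor
  · rintro ⟨l, hl, h⟩
    rw [mem_image] at h
    obtain ⟨j, hj, rfl⟩ := h
    rw [mem_range] at hl hj
    exact ⟨by simp only; omega, by simp only; omega⟩
  · rintro ⟨h1, h2⟩
    exact ⟨p.1, mem_range.2 (by omega), mem_image.2 ⟨p.2, mem_range.2 (by omega), rfl⟩⟩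

theorem Pc_S0 (g : ℕ → ℤ) {i n : ℕ} (h : i ≤ n) :
    ∑ j ∈ range (i + 1), g j + ∑ j ∈ Ico i (n + 1), g j = ∑ j ∈ range (n + 1), g j + g i := by
  rw [← sum_range_add_sum_Ico g (show i ≤ n + 1 by omega), sum_range_succ]
  ring

theorem Pc_S2 (g : ℕ → ℤ) {i n : ℕ} (h : i + 2 ≤ n + 1) :
    ∑ j ∈ range (i + 1), g j + ∑ j ∈ Ico (i + 2) (n + 1), g j =
      ∑ j ∈ range (n + 1), g j - g (i + 1) := by
  rw [← sum_range_add_sum_Ico g h, sum_range_succ g (i + 1)]
  ring

theorem Pc_links_sum (D : Diagram) {f : ℕ × ℕ → ℤ} (hf : RegFun D.word f) {l : ℕ} {e : Ev}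
    (he : D.word[l]? = some e) :
    2 * ∑ x ∈ Pc_links D.word l e, f x.1 =
      ∑ j ∈ range (lev D.word l + 1), f (l, j) + ∑ j ∈ range (lev D.word (l + 1) + 1), f (l + 1, j)
        - gbEv f l e := by
  have h1 := Pc_gap_le D he
  have h3 := Pc_lev_succ he
  set n := lev D.word l with hn
  have hA : ∀ F : (ℕ × ℕ) × (ℕ × ℕ) → ℤ,
      ∑ x ∈ (range (e.gap + 1)).image (fun j => (((l, j), (l + 1, j)) : (ℕ × ℕ) × (ℕ × ℕ))), F x =
      ∑ j ∈ range (e.gap + 1), F ((l, j), (l + 1, j)) := by
    intro F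
    rw [sum_image]
    intro a _ b _ h
    simpa using h
  have hB : ∀ F : (ℕ × ℕ) × (ℕ × ℕ) → ℤ,
      ∑ x ∈ (Ico (e.gap + e.inn) (n + 1)).image
        (fun j => (((l, j), (l + 1, j - e.inn + e.out)) : (ℕ × ℕ) × (ℕ × ℕ))), F x =
      ∑ j ∈ Ico (e.gap + e.inn) (n + 1), F ((l, j), (l + 1, j - e.inn + e.out)) := by
    intro F
    rw [sum_image]
    intro a _ b _ h
    exact congrArg (fun z => z.1.2) h
  have key : ∀ F : (ℕ × ℕ) × (ℕ × ℕ) → ℤ, ∑ x ∈ Pc_links D.word l e, F x =
      ∑ j ∈ range (e.gap + 1), F ((l, j), (l + 1, j)) +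
      ∑ j ∈ Ico (e.gap + e.inn) (n + 1), F ((l, j), (l + 1, j - e.inn + e.out)) -
      (if e.inn = 0 ∧ e.out = 0 then F ((l, e.gap), (l + 1, e.gap)) else 0) := by
    intro F
    rw [← hA F, ← hB F, ← sum_union_inter]
    unfold Pc_links
    have hint : ∑ x ∈ (range (e.gap + 1)).image
          (fun j => (((l, j), (l + 1, j)) : (ℕ × ℕ) × (ℕ × ℕ))) ∩
        (Ico (e.gap + e.inn) (n + 1)).image
          (fun j => (((l, j), (l + 1, j - e.inn + e.out)) : (ℕ × ℕ) × (ℕ × ℕ))), F x =
        (if e.inn = 0 ∧ e.out = 0 then F ((l, e.gap), (l + 1, e.gap)) else 0) := by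
      split_ifs with hio
      · rw [hio.1, hio.2]
        have : (range (e.gap + 1)).image
            (fun j => (((l, j), (l + 1, j)) : (ℕ × ℕ) × (ℕ × ℕ))) ∩
          (Ico (e.gap + 0) (n + 1)).image
            (fun j => (((l, j), (l + 1, j - 0 + 0)) : (ℕ × ℕ) × (ℕ × ℕ))) =
            {((l, e.gap), (l + 1, e.gap))} := by
          ext x
          simp only [mem_inter, mem_image, mem_range, mem_Ico, mem_singleton]
          constructor
          · rintro ⟨⟨a, ha, rfl⟩, ⟨b, hb, hab⟩⟩
            have : b = a := congrArg (fun z => z.1.2) hab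
            have h5 : a = e.gap := by omega
            rw [h5]
          · rintro rfl
            exact ⟨⟨e.gap, by omega, rfl⟩, ⟨e.gap, by omega, rfl⟩⟩
        rw [this, sum_singleton]
      · have : (range (e.gap + 1)).image
            (fun j => (((l, j), (l + 1, j)) : (ℕ × ℕ) × (ℕ × ℕ))) ∩
          (Ico (e.gap + e.inn) (n + 1)).image
            (fun j => (((l, j), (l + 1, j - e.inn + e.out)) : (ℕ × ℕ) × (ℕ × ℕ))) = ∅ := by
          rw [Finset.eq_empty_iff_forall_notMem]
          intro x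
          simp only [mem_inter, mem_image, mem_range, mem_Ico]
          rintro ⟨⟨a, ha, rfl⟩, ⟨b, hb, hab⟩⟩
          have h6 : b = a := congrArg (fun z => z.1.2) hab
          have h7 : b - e.inn + e.out = a := congrArg (fun z => z.2.2) hab
          apply hio
          cases e <;> simp [Ev.inn, Ev.out, Ev.gap] at * <;> omega
        rw [this, sum_empty]
    rw [hint]
    ring
  have hstep : ∀ x ∈ Pc_links D.word l e, f x.1 = f x.2 := fun x hx =>
    hf _ _ (Pc_mem_links he hx).1
  have k1 := key (fun x => f x.1)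
  have k2 := key (fun x => f x.2)
  rw [← sum_congr rfl hstep] at k2
  simp only at k1 k2
  cases e with
  | cup i =>
    simp only [Ev.inn, Ev.out, Ev.gap, gbEv] at *
    rw [h3]
    simp only [Nat.sub_zero, Nat.add_zero] at *
    rw [Pc_S0 (fun j => f (l, j)) h1] at k1
    rw [sum_Ico_add' (fun j => f (l + 1, j)) i (n + 1) 2,
      show n + 1 + 2 = (n + 2) + 1 by omega,
      Pc_S2 (fun j => f (l + 1, j)) (show i + 2 ≤ (n + 2) + 1 by omega)] at k2
    simp at k1 k2
    linarith
  | cap i =>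
    simp only [Ev.inn, Ev.out, Ev.gap, gbEv] at *
    rw [h3]
    obtain ⟨m, hm⟩ : ∃ m, n = m + 2 := ⟨n - 2, by omega⟩
    rw [hm] at k1 k2 ⊢
    rw [Pc_S2 (fun j => f (l, j)) (by omega)] at k1
    have : ∑ j ∈ Ico (i + 2) (m + 2 + 1), f (l + 1, j - 2 + 0) =
        ∑ j ∈ Ico i (m + 1), f (l + 1, j) := by
      rw [show m + 2 + 1 = m + 1 + 2 by omega,
        ← sum_Ico_add' (fun j => f (l + 1, j - 2 + 0)) i (m + 1) 2]
      simp
    rw [this, Pc_S0 (fun j => f (l + 1, j)) (by omega)] at k2
    have h4 : f (l, i) = f (l + 1, i) := hf _ _ (GapStep.left l i _ he le_rfl)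
    simp at k1 k2 ⊢
    rw [h4]
    linarith
  | pos i =>
    simp only [Ev.inn, Ev.out, Ev.gap, gbEv] at *
    rw [h3]
    obtain ⟨m, hm⟩ : ∃ m, n = m + 2 := ⟨n - 2, by omega⟩
    rw [hm] at k1 k2 ⊢
    rw [Pc_S2 (fun j => f (l, j)) (by omega)] at k1
    have : ∑ j ∈ Ico (i + 2) (m + 2 + 1), f (l + 1, j - 2 + 2) =
        ∑ j ∈ Ico (i + 2) (m + 2 + 1), f (l + 1, j) := by
      refine sum_congr rfl fun j hj => ?_
      rw [mem_Ico] at hj
      rw [show j - 2 + 2 = j by omega]
    rw [this, Pc_S2 (fun j => f (l + 1, j)) (by omega)] at k2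
    simp at k1 k2 ⊢
    linarith
  | neg i =>
    simp only [Ev.inn, Ev.out, Ev.gap, gbEv] at *
    rw [h3]
    obtain ⟨m, hm⟩ : ∃ m, n = m + 2 := ⟨n - 2, by omega⟩
    rw [hm] at k1 k2 ⊢
    rw [Pc_S2 (fun j => f (l, j)) (by omega)] at k1
    have : ∑ j ∈ Ico (i + 2) (m + 2 + 1), f (l + 1, j - 2 + 2) =
        ∑ j ∈ Ico (i + 2) (m + 2 + 1), f (l + 1, j) := by
      refine sum_congr rfl fun j hj => ?_
      rw [mem_Ico] at hj
      rw [show j - 2 + 2 = j by omega]
    rw [this, Pc_S2 (fun j => f (l + 1, j)) (by omega)] at k2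
    simp at k1 k2 ⊢
    linarith
  | hole i =>
    simp only [Ev.inn, Ev.out, Ev.gap, gbEv] at *
    rw [h3]
    simp only [Nat.sub_zero, Nat.add_zero] at *
    rw [Pc_S0 (fun j => f (l, j)) h1] at k1
    rw [Pc_S0 (fun j => f (l + 1, j)) h1] at k2
    simp at k1 k2
    linarith

/-! ## Gauss–Bonnet for one region -/

/-- the total Gauss–Bonnet contribution -/
def Pc_gb (w : List Ev) (f : ℕ × ℕ → ℤ) : ℤ :=
  ∑ l ∈ range w.length, (w[l]?).elim 0 (gbEv f l)

theorem Pc_left_chain (D : Diagram) : ∀ l, l ≤ D.word.length →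
    SameRegion D.word (l, 0) (0, 0) := by
  intro l
  induction l with
  | zero => intro _; exact Relation.EqvGen.refl _
  | succ l ih =>
    intro hl
    obtain ⟨e, he⟩ := Pc_some (show l < D.word.length by omega)
    exact (Relation.EqvGen.symm _ _ (Relation.EqvGen.rel _ _
      (GapStep.left l 0 e he (Nat.zero_le _)))).trans _ _ _ (ih (by omega))

theorem Pc_right_step (D : Diagram) {l : ℕ} (hl : l < D.word.length) :
    GapStep D.word (l, lev D.word l) (l + 1, lev D.word (l + 1)) := by
  obtain ⟨e, he⟩ := Pc_some hl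
  rw [Pc_lev_succ he]
  exact GapStep.right l _ e he (Pc_gap_le D he) le_rfl

theorem Pc_right_chain (D : Diagram) : ∀ l, l ≤ D.word.length →
    SameRegion D.word (l, lev D.word l) (0, 0) := by
  intro l
  induction l with
  | zero => intro _; exact Relation.EqvGen.refl _
  | succ l ih =>
    intro hl
    exact (Relation.EqvGen.symm _ _ (Relation.EqvGen.rel _ _
      (Pc_right_step D (by omega)))).trans _ _ _ (ih (by omega))

theorem Pc_gb_eq (D : Diagram) {f : ℕ × ℕ → ℤ} (hf : RegFun D.word f) :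
    2 * (∑ x ∈ gaps D.word, f x - ∑ x ∈ Pc_E D.word, f x.1) = 2 * f (0, 0) + Pc_gb D.word f := by
  set σ : ℕ → ℤ := fun l => ∑ j ∈ range (lev D.word l + 1), f (l, j) with hσ
  have h1 : ∑ x ∈ gaps D.word, f x = ∑ l ∈ range (D.word.length + 1), σ l := Pc_sum_gaps _ _
  have h2 : 2 * ∑ x ∈ Pc_E D.word, f x.1 = ∑ l ∈ range D.word.length, (σ l + σ (l + 1)) -
      Pc_gb D.word f := by
    rw [Pc_sum_E, mul_sum]
    unfold Pc_gb
    rw [← sum_sub_distrib]
    refine sum_congr rfl fun l hl => ?_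
    obtain ⟨e, he⟩ := Pc_some (mem_range.1 hl)
    have := Pc_links_sum D hf he
    rw [he]
    exact this
  have h3 : σ 0 = f (0, 0) := by
    simp [hσ, Pc_lev_zero]
  have h4 : σ D.word.length = f (0, 0) := by
    simp only [hσ]
    rw [Pc_lev_length]
    simp only [zero_add, sum_range_one]
    exact Pc_regFun hf (Pc_left_chain D _ le_rfl)
  have h5 : 2 * ∑ l ∈ range (D.word.length + 1), σ l =
      ∑ l ∈ range D.word.length, (σ l + σ (l + 1)) + σ 0 + σ D.word.length := by
    rw [sum_add_distrib, two_mul]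
    nth_rewrite 1 [sum_range_succ]
    rw [sum_range_succ']
    ring
  rw [mul_sub, h1, h2, h5, h3, h4]
  ring

/-! ## Linear algebra -/

theorem Pc_card_le_functional {ι κ : Type*} [Fintype ι] [Fintype κ] (M : κ → ι → ℝ)
    (h : ∀ g : ι → ℝ, (∀ k, ∑ i, M k i * g i = 0) → g = 0) :
    Fintype.card ι ≤ Fintype.card κ := by
  let L : (ι → ℝ) →ₗ[ℝ] (κ → ℝ) := Matrix.mulVecLin (Matrix.of M)
  have hinj : Function.Injective L := by
    rw [← LinearMap.ker_eq_bot, LinearMap.ker_eq_bot']
    intro g hg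
    apply h
    intro k
    have := congrFun hg k
    simpa [L, Matrix.mulVec, dotProduct] using this
  have := LinearMap.finrank_le_finrank_of_injective hinj
  simpa using this

theorem Pc_card_le {α : Type*} [DecidableEq α] (V : Finset α) (E : Finset (α × α)) (p : α)
    (h : ∀ g : α → ℝ, (∀ e ∈ E, g e.1 = g e.2) → ∀ x ∈ V, g x = g p) :
    V.card ≤ E.card + 1 := by
  have := Pc_card_le_functional (ι := V) (κ := Option E)
    (fun k x => match k with
      | none => if p = x.1 then 1 else 0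
      | some e => (if e.1.1 = x.1 then 1 else 0) - (if e.1.2 = x.1 then 1 else 0)) ?_
  · simpa using this
  · intro g hg
    let G : α → ℝ := fun y => ∑ x : V, if y = x.1 then g x else 0
    have hG : ∀ x : V, G x.1 = g x := by
      intro x
      have : ∀ z : V, (if x.1 = z.1 then g z else 0) = if x = z then g z else 0 := by
        intro z
        simp only [Subtype.ext_iff]
      simp only [G, this]
      simp
    have hG0 : G p = 0 := by
      have := hg none
      simpa [G] using this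
    have hGE : ∀ e ∈ E, G e.1 = G e.2 := by
      intro e he
      have := hg (some ⟨e, he⟩)
      simp only [sub_mul, ite_mul, one_mul, zero_mul, sum_sub_distrib] at this
      exact sub_eq_zero.1 this
    funext x
    rw [← hG x, h G hGE x.1 x.2, hG0]
    rfl

theorem Pc_sum_ind {α : Type*} (S : Finset α) (P : α → Prop) [DecidablePred P] (f : α → ℤ)
    (h : ∀ x, f x = if P x then 1 else 0) : ∑ x ∈ S, f x = ((S.filter P).card : ℤ) := by
  rw [card_filter, Nat.cast_sum]
  refine sum_congr rfl fun x _ => ?_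
  rw [h x]
  split_ifs <;> rfl

theorem Pc_V_le (D : Diagram) (p : ℕ × ℕ) :
    ∑ x ∈ gaps D.word, Pc_ind D.word p x ≤ ∑ x ∈ Pc_E D.word, Pc_ind D.word p x.1 + 1 := by
  classical
  rw [Pc_sum_ind (gaps D.word) (fun x => SameRegion D.word x p) (Pc_ind D.word p)
      (fun x => by unfold Pc_ind; congr),
    Pc_sum_ind (Pc_E D.word) (fun x => SameRegion D.word x.1 p) (fun x => Pc_ind D.word p x.1)
      (fun x => by unfold Pc_ind; congr)]
  norm_cast
  refine Pc_card_le _ _ p ?_
  intro g hg x hx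
  rw [mem_filter] at hx
  have hreg : RegFun D.word (fun x => if SameRegion D.word x p then g x else 0) := by
    intro x y h
    have h1 : SameRegion D.word x y := Relation.EqvGen.rel _ _ h
    by_cases hx : SameRegion D.word x p
    · have hy : SameRegion D.word y p := (Relation.EqvGen.symm _ _ h1).trans _ _ _ hx
      simp only [hx, hy, if_true]
      exact hg (x, y) (by rw [mem_filter]; exact ⟨Pc_mem_E.2 h, hx⟩)
    · have hy : ¬ SameRegion D.word y p := fun hy => hx (h1.trans _ _ _ hy)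
      simp only [hx, hy, if_false]
  have := Pc_regFun hreg hx.2
  have hpp : SameRegion D.word p p := Relation.EqvGen.refl _
  simpa [hx.2, hpp] using this

theorem Pc_exists_crossing {w : List Ev} (hX : 0 < crossings w) :
    ∃ (l : ℕ) (e : Ev), w[l]? = some e ∧ e.isX = true := by
  unfold crossings at hX
  rw [List.countP_pos_iff] at hX
  obtain ⟨e, he, hx⟩ := hX
  obtain ⟨l, hl⟩ := List.mem_iff_getElem?.1 he
  exact ⟨l, e, hl, hx⟩

theorem Pc_V_le_outer (D : Diagram) (hX : 0 < crossings D.word) :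
    ∑ x ∈ gaps D.word, Pc_ind D.word (0, 0) x ≤ ∑ x ∈ Pc_E D.word, Pc_ind D.word (0, 0) x.1 := by
  classical
  obtain ⟨l0, e0, he0, hx0⟩ := Pc_exists_crossing hX
  have hl0 : l0 < D.word.length := Pc_lt he0
  have hlev : 0 < lev D.word l0 := by
    have := Pc_gap_le D he0
    cases e0 <;> simp [Ev.isX, Ev.inn] at * <;> omega
  rw [Pc_sum_ind (gaps D.word) (fun x => SameRegion D.word x (0, 0)) (Pc_ind D.word (0, 0))
      (fun x => by unfold Pc_ind; congr),
    Pc_sum_ind (Pc_E D.word) (fun x => SameRegion D.word x.1 (0, 0))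
      (fun x => Pc_ind D.word (0, 0) x.1) (fun x => by unfold Pc_ind; congr)]
  norm_cast
  set E := (Pc_E D.word).filter (fun x => SameRegion D.word x.1 (0, 0)) with hE
  have hmem : (((l0, 0), (l0 + 1, 0)) : (ℕ × ℕ) × (ℕ × ℕ)) ∈ E := by
    rw [hE, mem_filter]
    exact ⟨Pc_mem_E.2 (GapStep.left l0 0 e0 he0 (Nat.zero_le _)), Pc_left_chain D l0 hl0.le⟩
  have hcard : (E.erase ((l0, 0), (l0 + 1, 0))).card + 1 = E.card := card_erase_add_one hmem
  rw [← hcard]
  refine Pc_card_le _ _ ((0, 0) : ℕ × ℕ) ?_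
  intro g hg x hx
  rw [mem_filter] at hx
  have hg' : ∀ p q, GapStep D.word p q → SameRegion D.word p (0, 0) →
      (p, q) ≠ ((l0, 0), (l0 + 1, 0)) → g p = g q := by
    intro p q h hp hne
    exact hg (p, q) (by rw [mem_erase, hE, mem_filter]; exact ⟨hne, Pc_mem_E.2 h, hp⟩)
  have hR : ∀ l, l ≤ D.word.length → g (l, lev D.word l) = g (0, 0) := by
    intro l
    induction l with
    | zero => intro _; rfl
    | succ l ih =>
      intro hl
      rw [← ih (by omega)]
      refine (hg' _ _ (Pc_right_step D (by omega)) (Pc_right_chain D l (by omega)) ?_).symm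
      intro h
      have h1 : l = l0 := congrArg (fun z => z.1.1) h
      have h2 : lev D.word l = 0 := congrArg (fun z => z.1.2) h
      rw [h1] at h2
      omega
  have hL1 : ∀ l, l ≤ l0 → g (l, 0) = g (0, 0) := by
    intro l
    induction l with
    | zero => intro _; rfl
    | succ l ih =>
      intro hl
      rw [← ih (by omega)]
      obtain ⟨e, he⟩ := Pc_some (show l < D.word.length by omega)
      refine (hg' _ _ (GapStep.left l 0 e he (Nat.zero_le _)) (Pc_left_chain D l (by omega))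
        ?_).symm
      intro h
      have h1 : l = l0 := congrArg (fun z => z.1.1) h
      omega
  have hL2 : ∀ k, l0 + 1 + k ≤ D.word.length → g (l0 + 1 + k, 0) = g (l0 + 1, 0) := by
    intro k
    induction k with
    | zero => intro _; rfl
    | succ k ih =>
      intro hl
      rw [← ih (by omega)]
      obtain ⟨e, he⟩ := Pc_some (show l0 + 1 + k < D.word.length by omega)
      refine (hg' _ _ (GapStep.left (l0 + 1 + k) 0 e he (Nat.zero_le _))
        (Pc_left_chain D _ (by omega)) ?_).symm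
      intro h
      have h1 : l0 + 1 + k = l0 := congrArg (fun z => z.1.1) h
      omega
  have hkey : g (l0, 0) = g (l0 + 1, 0) := by
    rw [hL1 l0 le_rfl]
    have h1 := hR D.word.length le_rfl
    rw [Pc_lev_length] at h1
    rw [← h1]
    have h2 := hL2 (D.word.length - (l0 + 1)) (by omega)
    rw [show l0 + 1 + (D.word.length - (l0 + 1)) = D.word.length by omega] at h2
    exact h2
  have hreg : RegFun D.word (fun x => if SameRegion D.word x (0, 0) then g x else 0) := by
    intro x y h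
    have h1 : SameRegion D.word x y := Relation.EqvGen.rel _ _ h
    by_cases hx : SameRegion D.word x (0, 0)
    · have hy : SameRegion D.word y (0, 0) := (Relation.EqvGen.symm _ _ h1).trans _ _ _ hx
      simp only [hx, hy, if_true]
      by_cases hne : (x, y) = ((l0, 0), (l0 + 1, 0))
      · have h3 : x = (l0, 0) := congrArg Prod.fst hne
        have h4 : y = (l0 + 1, 0) := congrArg Prod.snd hne
        rw [h3, h4, hkey]
      · exact hg' x y h hx hne
    · have hy : ¬ SameRegion D.word y (0, 0) := fun hy => hx (h1.trans _ _ _ hy)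
      simp only [hx, hy, if_false]
  have := Pc_regFun hreg hx.2
  have hpp : SameRegion D.word (0, 0) (0, 0) := Relation.EqvGen.refl _
  simpa [hx.2, hpp] using this

/-! ## The upper bound for the number of regions -/

theorem Pc_sum_map {M : Type*} [AddCommMonoid M] (w : List Ev) (g : Ev → M) :
    ∑ l ∈ range w.length, (w[l]?).elim 0 g = (w.map g).sum := by
  induction w with
  | nil => simp
  | cons a w ih =>
    rw [List.length_cons, sum_range_succ', List.map_cons, List.sum_cons, add_comm]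
    simp only [List.getElem?_cons_succ, List.getElem?_cons_zero, Option.elim]
    rw [← ih]
    rfl

/-- levels of the crossings -/
def Pc_X (w : List Ev) : Finset ℕ :=
  (range w.length).filter fun l => (w[l]?).elim false (fun e => e.isX) = true

theorem Pc_card_X (w : List Ev) : (Pc_X w).card = crossings w := by
  unfold Pc_X crossings
  rw [card_filter]
  have h : ∀ l ∈ range w.length, (if (w[l]?).elim false (fun e => e.isX) = true then 1 else 0) =
      (w[l]?).elim 0 (fun e => if e.isX then 1 else 0) := by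
    intro l hl
    obtain ⟨e, he⟩ := Pc_some (mem_range.1 hl)
    rw [he]
    rfl
  rw [sum_congr rfl h, Pc_sum_map, List.countP_eq_length_filter]
  induction w with
  | nil => rfl
  | cons a w ih =>
    rw [List.map_cons, List.sum_cons, ih ?_, List.filter_cons]
    · by_cases ha : a.isX = true
      · simp [ha, add_comm]
      · simp [ha]
    · intro l hl
      obtain ⟨e, he⟩ := Pc_some (mem_range.1 hl)
      rw [he]
      rfl

theorem Pc_mem_X {w : List Ev} {l : ℕ} : l ∈ Pc_X w ↔ ∃ e, w[l]? = some e ∧ e.isX = true := by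
  unfold Pc_X
  rw [mem_filter, mem_range]
  constructor
  · rintro ⟨h1, h2⟩
    obtain ⟨e, he⟩ := Pc_some h1
    rw [he] at h2
    exact ⟨e, he, h2⟩
  · rintro ⟨e, he, hx⟩
    refine ⟨Pc_lt he, ?_⟩
    rw [he]
    exact hx

theorem Pc_isCrossing {w : List Ev} {l i : ℕ} (h : IsCrossing w l i) :
    ∃ e, w[l]? = some e ∧ e.isX = true ∧ e.gap = i := by
  rcases h with h | h
  · exact ⟨_, h, rfl, rfl⟩
  · exact ⟨_, h, rfl, rfl⟩

theorem Pc_gOdd_sum {ι : Type*} (S : Finset ι) (c : ι → ℝ) (F : ι → ℕ × ℕ → ℝ) (l i : ℕ) :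
    gOdd (fun x => ∑ p ∈ S, c p * F p x) l i = ∑ p ∈ S, c p * gOdd (F p) l i := by
  unfold gOdd
  split_ifs
  · rw [← sum_sub_distrib]
    exact sum_congr rfl fun _ _ => by ring
  · rw [← sum_sub_distrib]
    exact sum_congr rfl fun _ _ => by ring

theorem Pc_gEven_sum {ι : Type*} (S : Finset ι) (c : ι → ℝ) (F : ι → ℕ × ℕ → ℝ) (l i : ℕ) :
    gEven (fun x => ∑ p ∈ S, c p * F p x) l i = ∑ p ∈ S, c p * gEven (F p) l i := by
  unfold gEven
  split_ifs
  · rw [← sum_sub_distrib]
    exact sum_congr rfl fun _ _ => by ring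
  · rw [← sum_sub_distrib]
    exact sum_congr rfl fun _ _ => by ring

/-- odd part of a function -/
noncomputable def Pc_o (f : ℕ × ℕ → ℝ) (x : ℕ × ℕ) : ℝ := if x.2 % 2 = 1 then f x else 0

/-- even part of a function -/
noncomputable def Pc_e (f : ℕ × ℕ → ℝ) (x : ℕ × ℕ) : ℝ := if x.2 % 2 = 0 then f x else 0

theorem Pc_o_reg {w : List Ev} {f : ℕ × ℕ → ℝ} (hf : RegFun w f) : RegFun w (Pc_o f) := by
  intro x y h
  have h1 : x.2 % 2 = y.2 % 2 := Pc_parity x y h
  unfold Pc_o
  rw [h1, hf x y h]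

theorem Pc_e_reg {w : List Ev} {f : ℕ × ℕ → ℝ} (hf : RegFun w f) : RegFun w (Pc_e f) := by
  intro x y h
  have h1 : x.2 % 2 = y.2 % 2 := Pc_parity x y h
  unfold Pc_e
  rw [h1, hf x y h]

theorem Pc_grad_zero (D : Diagram) (f : ℕ × ℕ → ℝ) (hf : RegFun D.word f)
    (h : ∀ l e, D.word[l]? = some e → e.isX = true →
      gOdd (Pc_o f) l e.gap + gEven (Pc_e f) l e.gap = 0) :
    ∀ l i, IsCrossing D.word l i → gOdd (Pc_o f) l i = 0 ∧ gEven (Pc_e f) l i = 0 := by
  have h1 := grad_orth D (Pc_o f) (Pc_e f) (Pc_o_reg hf) (Pc_e_reg hf)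
    (fun p hp => by unfold Pc_o; rw [if_neg (by omega)])
    (fun p hp => by unfold Pc_e; rw [if_neg (by omega)])
  have h2 : ∀ l ∈ range D.word.length, (D.word[l]?).elim (0 : ℝ) (fun e => if e.isX then
      (fun l i => gOdd (Pc_o f) l i * gEven (Pc_e f) l i) l e.gap else 0) =
      - (D.word[l]?).elim (0 : ℝ) (fun e => if e.isX then gOdd (Pc_o f) l e.gap ^ 2 else 0) := by
    intro l hl
    obtain ⟨e, he⟩ := Pc_some (mem_range.1 hl)
    rw [he]
    simp only [Option.elim]
    by_cases hx : e.isX = true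
    · have := h l e he hx
      rw [if_pos hx, if_pos hx]
      have h3 : gEven (Pc_e f) l e.gap = - gOdd (Pc_o f) l e.gap := by linarith
      rw [h3]
      ring
    · rw [if_neg hx, if_neg hx, neg_zero]
  unfold sumX at h1
  rw [sum_congr rfl h2, sum_neg_distrib, neg_eq_zero, sum_eq_zero_iff_of_nonneg] at h1
  · intro l i hc
    obtain ⟨e, he, hx, rfl⟩ := Pc_isCrossing hc
    have h4 := h1 l (mem_range.2 (Pc_lt he))
    rw [he] at h4
    simp only [Option.elim, hx, if_true] at h4
    have h5 : gOdd (Pc_o f) l e.gap = 0 := by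
      exact pow_eq_zero_iff (two_ne_zero) |>.1 h4
    have := h l e he hx
    exact ⟨h5, by linarith⟩
  · intro l hl
    obtain ⟨e, he⟩ := Pc_some (mem_range.1 hl)
    rw [he]
    simp only [Option.elim]
    split_ifs
    · positivity
    · exact le_rfl

theorem Pc_crossing_gap (D : Diagram) {l : ℕ} {e : Ev} (he : D.word[l]? = some e)
    (hx : e.isX = true) : IsGap D.word (l, e.gap) ∧ IsGap D.word (l, e.gap + 1) := by
  have h1 := Pc_gap_le D he
  have h2 := Pc_lt he
  refine ⟨⟨h2.le, by simp only; omega⟩, ⟨h2.le, ?_⟩⟩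
  cases e <;> simp [Ev.isX, Ev.inn, Ev.gap] at * <;> omega

theorem Pc_exists_odd (D : Diagram) (hX : 0 < crossings D.word) :
    ∃ x, IsGap D.word x ∧ x.2 % 2 = 1 := by
  obtain ⟨l, e, he, hx⟩ := Pc_exists_crossing hX
  obtain ⟨h1, h2⟩ := Pc_crossing_gap D he hx
  by_cases h : e.gap % 2 = 1
  · exact ⟨_, h1, h⟩
  · exact ⟨_, h2, by simp only; omega⟩

/-- a function on the regions which vanishes at one even and one odd gap, and whose gradient
vanishes, is zero -/
theorem Pc_zero (D : Diagram) (hc : Connected D.word) (f : ℕ × ℕ → ℝ) (hf : RegFun D.word f)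
    (h : ∀ l e, D.word[l]? = some e → e.isX = true →
      gOdd (Pc_o f) l e.gap + gEven (Pc_e f) l e.gap = 0)
    (h0 : f (0, 0) = 0) (x : ℕ × ℕ) (hx : IsGap D.word x) (hx1 : x.2 % 2 = 1) (hfx : f x = 0)
    (p : ℕ × ℕ) (hp : IsGap D.word p) : f p = 0 := by
  have h1 := Pc_grad_zero D f hf h
  by_cases hp1 : p.2 % 2 = 1
  · have := gOdd_const D hc (Pc_o f) (Pc_o_reg hf) (fun l i hli => (h1 l i hli).1) p x hp hx
      hp1 hx1
    unfold Pc_o at this
    rw [if_pos hp1, if_pos hx1, hfx] at this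
    exact this
  · have hp0 : p.2 % 2 = 0 := by omega
    have := gEven_const D hc (Pc_e f) (Pc_e_reg hf) (fun l i hli => (h1 l i hli).2) p (0, 0) hp
      ⟨Nat.zero_le _, Nat.zero_le _⟩ hp0 rfl
    unfold Pc_e at this
    rw [if_pos hp0, if_pos (show ((0, 0) : ℕ × ℕ).2 % 2 = 0 from rfl), h0] at this
    exact this

theorem Pc_ind_self {w : List Ev} (p : ℕ × ℕ) : Pc_ind w p p = 1 := by
  unfold Pc_ind
  rw [if_pos (show SameRegion w p p from Relation.EqvGen.refl _)]

theorem Pc_ind_sum {w : List Ev} {s : Finset (ℕ × ℕ)} (hs : Reps w s) {M : Type*} [CommRing M]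
    (c : ℕ × ℕ → M) {x q : ℕ × ℕ} (hq : q ∈ s) (hxq : SameRegion w x q) :
    ∑ p ∈ s, c p * (Pc_ind w p x : M) = c q := by
  rw [sum_eq_single q]
  · unfold Pc_ind
    rw [if_pos hxq]
    simp
  · intro p hp hne
    unfold Pc_ind
    rw [if_neg]
    · simp
    · intro h
      exact hne (hs.uniq p hp q hq
        ((Relation.EqvGen.symm _ _ h).trans _ _ _ hxq))
  · intro h
    exact absurd hq h

theorem Pc_upper (D : Diagram) (hc : Connected D.word) (hX : 0 < crossings D.word)
    (s : Finset (ℕ × ℕ)) (hs : Reps D.word s) : s.card ≤ crossings D.word + 2 := by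
  classical
  obtain ⟨x1, hx1, hodd⟩ := Pc_exists_odd D hX
  have := Pc_card_le_functional (ι := s) (κ := Option (Option (Pc_X D.word)))
    (fun k p => match k with
      | none => (Pc_ind D.word p.1 (0, 0) : ℝ)
      | some none => (Pc_ind D.word p.1 x1 : ℝ)
      | some (some l) => (D.word[l.1]?).elim 0 (fun e =>
          gOdd (Pc_o (fun x => (Pc_ind D.word p.1 x : ℝ))) l.1 e.gap +
          gEven (Pc_e (fun x => (Pc_ind D.word p.1 x : ℝ))) l.1 e.gap)) ?_
  · simpa [Pc_card_X] using this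
  · intro g hg
    let G : ℕ × ℕ → ℝ := fun q => if h : q ∈ s then g ⟨q, h⟩ else 0
    have hG : ∀ q : s, G q.1 = g q := fun q => by simp [G, q.2]
    let F : ℕ × ℕ → ℝ := fun x => ∑ p ∈ s, G p * (Pc_ind D.word p x : ℝ)
    have hsum : ∀ c : ℕ × ℕ → ℝ, ∑ p : s, c p.1 * g p = ∑ p ∈ s, G p * c p := by
      intro c
      rw [← sum_coe_sort s (fun p => G p * c p)]
      refine sum_congr rfl fun p _ => ?_
      rw [hG, mul_comm]
    have hF : RegFun D.word F := by
      intro x y h
      refine sum_congr rfl fun p _ => ?_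
      rw [Pc_ind_reg D.word p x y h]
    have h0 : F (0, 0) = 0 := by
      have := hg none
      rw [hsum (fun p => (Pc_ind D.word p (0, 0) : ℝ))] at this
      exact this
    have h1 : F x1 = 0 := by
      have := hg (some none)
      rw [hsum (fun p => (Pc_ind D.word p x1 : ℝ))] at this
      exact this
    have hFo : Pc_o F = fun x => ∑ p ∈ s, G p * Pc_o (fun x => (Pc_ind D.word p x : ℝ)) x := by
      funext x
      unfold Pc_o
      split_ifs
      · rfl
      · simp
    have hFe : Pc_e F = fun x => ∑ p ∈ s, G p * Pc_e (fun x => (Pc_ind D.word p x : ℝ)) x := by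
      funext x
      unfold Pc_e
      split_ifs
      · rfl
      · simp
    have h2 : ∀ l e, D.word[l]? = some e → e.isX = true →
        gOdd (Pc_o F) l e.gap + gEven (Pc_e F) l e.gap = 0 := by
      intro l e he hx
      have := hg (some (some ⟨l, Pc_mem_X.2 ⟨e, he, hx⟩⟩))
      simp only [he, Option.elim] at this
      rw [hsum (fun p => gOdd (Pc_o (fun x => (Pc_ind D.word p x : ℝ))) l e.gap +
          gEven (Pc_e (fun x => (Pc_ind D.word p x : ℝ))) l e.gap)] at this
      rw [hFo, hFe, Pc_gOdd_sum, Pc_gEven_sum, ← sum_add_distrib, ← this]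
      exact sum_congr rfl fun _ _ => by ring
    funext q
    have h3 := Pc_zero D hc F hF h2 h0 x1 hx1 hodd h1 q.1 (Pc_mem_gaps.1 (hs.sub q.2))
    have h4 : F q.1 = G q.1 := Pc_ind_sum hs G q.2 (Relation.EqvGen.refl _)
    rw [← hG q, ← h4, h3]
    rfl

/-! ## The final statements -/

theorem Pc_gb_lin (D : Diagram) (s : Finset (ℕ × ℕ)) (c : ℕ × ℕ → ℤ) (f : ℕ × ℕ → ℤ)
    (h : ∀ x, IsGap D.word x → f x = ∑ p ∈ s, c p * Pc_ind D.word p x) :
    Pc_gb D.word f = ∑ p ∈ s, c p * Pc_gb D.word (Pc_ind D.word p) := by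
  unfold Pc_gb
  simp only [mul_sum]
  rw [sum_comm]
  refine sum_congr rfl fun l hl => ?_
  obtain ⟨e, he⟩ := Pc_some (mem_range.1 hl)
  rw [he]
  have h1 := Pc_gap_le D he
  have h2 := Pc_lt he
  have h3 := Pc_lev_succ he
  simp only [Option.elim]
  cases e with
  | cup i =>
    simp only [Ev.inn, Ev.out, Ev.gap, gbEv] at *
    rw [h (l + 1, i + 1) ⟨by simp only; omega, by simp only; omega⟩,
      h (l, i) ⟨by simp only; omega, by simp only; omega⟩, ← sum_sub_distrib]
    exact sum_congr rfl fun _ _ => by ring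
  | cap i =>
    simp only [Ev.inn, Ev.out, Ev.gap, gbEv] at *
    rw [h (l, i + 1) ⟨by simp only; omega, by simp only; omega⟩,
      h (l, i) ⟨by simp only; omega, by simp only; omega⟩, ← sum_sub_distrib]
    exact sum_congr rfl fun _ _ => by ring
  | pos i =>
    simp only [Ev.inn, Ev.out, Ev.gap, gbEv] at *
    rw [h (l, i + 1) ⟨by simp only; omega, by simp only; omega⟩,
      h (l + 1, i + 1) ⟨by simp only; omega, by simp only; omega⟩, ← sum_add_distrib]
    exact sum_congr rfl fun _ _ => by ring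
  | neg i =>
    simp only [Ev.inn, Ev.out, Ev.gap, gbEv] at *
    rw [h (l, i + 1) ⟨by simp only; omega, by simp only; omega⟩,
      h (l + 1, i + 1) ⟨by simp only; omega, by simp only; omega⟩, ← sum_add_distrib]
    exact sum_congr rfl fun _ _ => by ring
  | hole i =>
    simp only [gbEv]
    simp

theorem Pc_gb_one (w : List Ev) : Pc_gb w (fun _ => 1) = 2 * crossings w := by
  unfold Pc_gb
  have h : ∀ l ∈ range w.length, (w[l]?).elim 0 (gbEv (fun _ => 1) l) =
      (w[l]?).elim 0 (fun e => if e.isX then (2 : ℤ) else 0) := by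
    intro l hl
    obtain ⟨e, he⟩ := Pc_some (mem_range.1 hl)
    rw [he]
    cases e <;> simp [gbEv, Ev.isX]
  rw [sum_congr rfl h, Pc_sum_map]
  unfold crossings
  clear h
  induction w with
  | nil => simp
  | cons a w ih =>
    rw [List.map_cons, List.sum_cons, ih, List.countP_cons]
    by_cases ha : a.isX = true
    · simp [ha]
      ring
    · simp [ha]

theorem Pc_main (D : Diagram) (hc : Connected D.word) (hX : 0 < crossings D.word)
    (s : Finset (ℕ × ℕ)) (hs : Reps D.word s) :
    s.card = crossings D.word + 2 ∧ ∀ p ∈ s, ¬ SameRegion D.word (0, 0) p →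
      Pc_gb D.word (Pc_ind D.word p) = 2 := by
  obtain ⟨q0, hq0, hq⟩ := hs.ex (0, 0) ⟨Nat.zero_le _, Nat.zero_le _⟩
  have hsum : ∑ p ∈ s, Pc_gb D.word (Pc_ind D.word p) = 2 * crossings D.word := by
    have := Pc_gb_lin D s (fun _ => 1) (fun _ => 1) ?_
    · rw [Pc_gb_one] at this
      rw [this]
      simp
    · intro x hx
      obtain ⟨q, hqs, hxq⟩ := hs.ex x hx
      have := Pc_ind_sum hs (fun _ => (1 : ℤ)) hqs hxq
      simpa using this.symm
  have hle : ∀ p ∈ s, Pc_gb D.word (Pc_ind D.word p) ≤ 2 - (if p = q0 then 4 else 0) := by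
    intro p hp
    have h1 := Pc_gb_eq D (Pc_ind_reg D.word p)
    split_ifs with hpq
    · subst hpq
      have h2 : Pc_ind D.word p = Pc_ind D.word (0, 0) := by
        funext x
        unfold Pc_ind
        have : SameRegion D.word x p ↔ SameRegion D.word x (0, 0) :=
          ⟨fun h => h.trans _ _ _ (Relation.EqvGen.symm _ _ hq), fun h => h.trans _ _ _ hq⟩
        by_cases hx : SameRegion D.word x p
        · rw [if_pos hx, if_pos (this.1 hx)]
        · rw [if_neg hx, if_neg (fun h => hx (this.2 h))]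
      rw [h2] at h1 ⊢
      have h3 := Pc_V_le_outer D hX
      rw [Pc_ind_self] at h1
      linarith
    · have h3 := Pc_V_le D p
      have h4 : Pc_ind D.word p (0, 0) = 0 := by
        unfold Pc_ind
        rw [if_neg]
        intro h
        exact hpq (hs.uniq p hp q0 hq0 ((Relation.EqvGen.symm _ _ h).trans _ _ _ hq))
      rw [h4] at h1
      linarith
  have hb : ∑ p ∈ s, ((2 : ℤ) - (if p = q0 then 4 else 0)) = 2 * s.card - 4 := by
    rw [sum_sub_distrib, sum_ite_eq' s q0, if_pos hq0]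
    simp
    ring
  have hup := Pc_upper D hc hX s hs
  have hlow : 2 * (crossings D.word : ℤ) ≤ 2 * s.card - 4 := by
    rw [← hsum, ← hb]
    exact sum_le_sum hle
  have hcard : s.card = crossings D.word + 2 := by omega
  refine ⟨hcard, ?_⟩
  have heq : ∑ p ∈ s, Pc_gb D.word (Pc_ind D.word p) =
      ∑ p ∈ s, ((2 : ℤ) - (if p = q0 then 4 else 0)) := by
    rw [hsum, hb, hcard]
    push_cast
    ring
  intro p hp hnot
  have := (sum_eq_sum_iff_of_le hle).1 heq p hp
  rw [this, if_neg, sub_zero]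
  rintro rfl
  exact hnot hq

/-- Euler's formula -/
theorem euler (D : Diagram) (hc : Connected D.word) (hX : 0 < crossings D.word)
    (s : Finset (ℕ × ℕ)) (hs : Reps D.word s) : s.card = crossings D.word + 2 :=
  (Pc_main D hc hX s hs).1

/-- Gauss–Bonnet for all regions but the outer one -/
theorem gauss_bonnet (D : Diagram) (hc : Connected D.word) (hX : 0 < crossings D.word)
    (s : Finset (ℕ × ℕ)) (hs : Reps D.word s) (f : ℕ × ℕ → ℤ) (hf : RegFun D.word f)
    (h0 : f (0, 0) = 0) :
    ∑ l ∈ Finset.range D.word.length, (D.word[l]?).elim 0 (gbEv f l) = 2 * ∑ p ∈ s, f p := by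
  have h1 := Pc_gb_lin D s f f ?_
  · unfold Pc_gb at h1
    rw [h1, mul_sum]
    refine sum_congr rfl fun p hp => ?_
    by_cases h : SameRegion D.word (0, 0) p
    · have : f p = 0 := by rw [← Pc_regFun hf h, h0]
      rw [this]
      simp
    · have := (Pc_main D hc hX s hs).2 p hp h
      unfold Pc_gb at this
      rw [this]
      ring
  · intro x hx
    obtain ⟨q, hqs, hxq⟩ := hs.ex x hx
    have := Pc_ind_sum hs f hqs hxq
    rw [Pc_regFun hf hxq]
    simpa using this.symm

end Pool.Agent.Tait
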