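import Pool.Agent.Lib.MP_150b40_gt.Pc

/-! # The dominant colouring -/

namespace Pool.Agent.Tait

open Relation

/-! ### validity of a word, regions -/

theorem Pd_lev_succ {w : List Ev} {l : ℕ} {e : Ev} (he : w[l]? = some e) :
    lev w (l + 1) = lev w l - e.inn + e.out := by
  unfold lev
  rw [List.take_add_one, he]
  simp [List.foldl_append]

theorem Pd_valid_aux (w : List Ev) : ∀ (n m l : ℕ) (e : Ev), Runs n w m → w[l]? = some e →
    e.gap + e.inn ≤ (w.take l).foldl (fun n e => n - e.inn + e.out) n := by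
  induction w with
  | nil => intro n m l e _ h; simp at h
  | cons a w ih =>
    intro n m l e hr h
    cases l with
    | zero =>
      simp only [List.getElem?_cons_zero, Option.some.injEq] at h
      subst h
      simpa using hr.1
    | succ l =>
      simp only [List.getElem?_cons_succ] at h
      simpa using ih _ _ l e hr.2 h

theorem Pd_valid (D : Diagram) {l : ℕ} {e : Ev} (he : D.word[l]? = some e) :
    e.gap + e.inn ≤ lev D.word l :=
  Pd_valid_aux D.word 0 0 l e D.closed he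

theorem Pd_lt_of_get {w : List Ev} {l : ℕ} {e : Ev} (he : w[l]? = some e) : l < w.length := by
  by_contra h
  rw [List.getElem?_eq_none (by omega)] at he
  exact absurd he (by simp)

theorem Pd_regFun_same {α : Type*} {w : List Ev} {f : ℕ × ℕ → α} (hf : RegFun w f)
    {p q : ℕ × ℕ} (h : SameRegion w p q) : f p = f q := by
  induction h with
  | rel _ _ h => exact hf _ _ h
  | refl _ => rfl
  | symm _ _ _ ih => exact ih.symm
  | trans _ _ _ _ _ ih1 ih2 => exact ih1.trans ih2

theorem Pd_same_iff {w : List Ev} {p q : ℕ × ℕ} (h : GapStep w p q) (x : ℕ × ℕ) :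
    SameRegion w p x ↔ SameRegion w q x :=
  ⟨fun h' => EqvGen.trans _ _ _ (EqvGen.symm _ _ (EqvGen.rel _ _ h)) h',
    fun h' => EqvGen.trans _ _ _ (EqvGen.rel _ _ h) h'⟩

theorem Pd_same_iff' {w : List Ev} {p q : ℕ × ℕ} (h : GapStep w p q) (x : ℕ × ℕ) :
    SameRegion w x p ↔ SameRegion w x q :=
  ⟨fun h' => EqvGen.trans _ _ _ h' (EqvGen.rel _ _ h),
    fun h' => EqvGen.trans _ _ _ h' (EqvGen.symm _ _ (EqvGen.rel _ _ h))⟩

theorem Pd_regFun_ext (w : List Ev) : RegFun w (External w) := by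
  intro p q h
  unfold External
  simp only [Pd_same_iff h]

theorem Pd_regFun_par (w : List Ev) : RegFun w (fun p => p.2 % 2) := by
  intro p q h
  cases h with
  | left l j e he hj => rfl
  | right l j e he hj hn =>
    cases e <;> simp only [Ev.gap, Ev.inn, Ev.out] at * <;> omega

theorem Pd_ext_even {w : List Ev} (hh : HomTrivial w) {p : ℕ × ℕ} (h : External w p) :
    p.2 % 2 = 0 := by
  rcases h with h | ⟨l, i, he, h⟩
  · exact Pd_regFun_same (Pd_regFun_par w) h
  · have := Pd_regFun_same (Pd_regFun_par w) h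
    simp only at this
    rw [this]
    have h2 : Ev.hole i ∈ w := List.mem_of_getElem? he
    have := hh i h2
    exact Nat.even_iff.mp this

/-! ### sides of strands -/

/-- the side of parity `c` of a strand -/
def Pd_side (c : ℕ) (p : ℕ × ℕ) : ℕ × ℕ := if p.2 % 2 = c then p else (p.1, p.2 + 1)

theorem Pd_side_par {c : ℕ} (hc : c < 2) (p : ℕ × ℕ) : (Pd_side c p).2 % 2 = c := by
  unfold Pd_side
  split_ifs with h
  · exact h
  · simp only; omega

/-- the first corner of parity `c` -/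
def Pd_cA (c l i : ℕ) : ℕ × ℕ := if (i + 1) % 2 = c then (l, i + 1) else (l, i)

/-- the second corner of parity `c` -/
def Pd_cB (c l i : ℕ) : ℕ × ℕ := if (i + 1) % 2 = c then (l + 1, i + 1) else (l, i + 2)

theorem Pd_cA_par {c : ℕ} (hc : c < 2) (l i : ℕ) : (Pd_cA c l i).2 % 2 = c := by
  unfold Pd_cA
  split_ifs with h
  · exact h
  · simp only; omega

theorem Pd_cB_par {c : ℕ} (hc : c < 2) (l i : ℕ) : (Pd_cB c l i).2 % 2 = c := by
  unfold Pd_cB
  split_ifs with h
  · exact h
  · simp only; omega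

/-- gradient of parity `c` -/
def Pd_G (c : ℕ) (f : ℕ × ℕ → ℝ) (l i : ℕ) : ℝ := if c = 1 then gOdd f l i else gEven f l i

theorem Pd_G_zero {c : ℕ} (hc : c < 2) (f : ℕ × ℕ → ℝ) (l i : ℕ) :
    Pd_G c f l i = 0 ↔ f (Pd_cA c l i) = f (Pd_cB c l i) := by
  unfold Pd_G gOdd gEven Pd_cA Pd_cB
  have h1 : c = 0 ∨ c = 1 := by omega
  have h2 : i % 2 = 0 ∨ i % 2 = 1 := by omega
  rcases h1 with rfl | rfl <;> rcases h2 with h2 | h2
  · have h3 : (i + 1) % 2 = 1 := by omega
    simp only [h2, h3]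
    norm_num
    constructor <;> intro h <;> linarith
  · have h3 : (i + 1) % 2 = 0 := by omega
    simp only [h2, h3]
    norm_num
    constructor <;> intro h <;> linarith
  · have h3 : (i + 1) % 2 = 1 := by omega
    simp only [h2, h3]
    norm_num
    constructor <;> intro h <;> linarith
  · have h3 : (i + 1) % 2 = 0 := by omega
    simp only [h2, h3]
    norm_num
    constructor <;> intro h <;> linarith

theorem Pd_G_add (c : ℕ) (f : ℕ × ℕ → ℝ) (l i : ℕ) (hc : c < 2) :
    gOdd f l i + gEven f l i = Pd_G c f l i + Pd_G (1 - c) f l i := by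
  have h1 : c = 0 ∨ c = 1 := by omega
  rcases h1 with rfl | rfl <;> simp [Pd_G, add_comm]

/-- data at a crossing -/
theorem Pd_isX_get {w : List Ev} {l i : ℕ} (h : IsCrossing w l i) :
    ∃ e, w[l]? = some e ∧ e.gap = i ∧ e.inn = 2 ∧ e.out = 2 ∧ e.isX = true := by
  rcases h with h | h
  · exact ⟨_, h, rfl, rfl, rfl, rfl⟩
  · exact ⟨_, h, rfl, rfl, rfl, rfl⟩

theorem Pd_cross_lev (D : Diagram) {l i : ℕ} (h : IsCrossing D.word l i) :
    l < D.word.length ∧ i + 2 ≤ lev D.word l ∧ lev D.word (l + 1) = lev D.word l := by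
  obtain ⟨e, he, h1, h2, h3, h4⟩ := Pd_isX_get h
  have := Pd_valid D he
  have h5 := Pd_lev_succ he
  exact ⟨Pd_lt_of_get he, by omega, by omega⟩

theorem Pd_cross_left (D : Diagram) {l i : ℕ} (h : IsCrossing D.word l i) :
    GapStep D.word (l, i) (l + 1, i) := by
  obtain ⟨e, he, h1, h2, h3, h4⟩ := Pd_isX_get h
  exact GapStep.left l i e he (by omega)

theorem Pd_cross_right (D : Diagram) {l i : ℕ} (h : IsCrossing D.word l i) :
    GapStep D.word (l, i + 2) (l + 1, i + 2) := by
  obtain ⟨e, he, h1, h2, h3, h4⟩ := Pd_isX_get h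
  have h5 := Pd_cross_lev D h
  have := GapStep.right (w := D.word) l (i + 2) e he (by omega) (by omega)
  rw [h2, h3] at this
  simpa using this

/-- transfer from the type-2 sides to the type-1 sides, at a crossing -/
theorem Pd_corner_adj (D : Diagram) {c : ℕ} (hc : c < 2) (P : ℕ × ℕ → Prop)
    (hP : RegFun D.word P)
    (ha : ∀ p, IsStrand D.word p → P (Pd_side (1 - c) p) → P (Pd_side c p))
    {l i : ℕ} (h : IsCrossing D.word l i)
    (h0 : P (Pd_cA (1 - c) l i) ∨ P (Pd_cB (1 - c) l i)) :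
    P (Pd_cA c l i) ∧ P (Pd_cB c l i) := by
  obtain ⟨h1, h2, h3⟩ := Pd_cross_lev D h
  have a1 := ha (l, i) ⟨by simp; omega, by simp; omega⟩
  have a2 := ha (l, i + 1) ⟨by simp; omega, by simp; omega⟩
  have a3 := ha (l + 1, i) ⟨by simp; omega, by simp; omega⟩
  have a4 := ha (l + 1, i + 1) ⟨by simp; omega, by simp; omega⟩
  have e1 := hP _ _ (Pd_cross_left D h)
  have e2 := hP _ _ (Pd_cross_right D h)
  have h1 : c = 0 ∨ c = 1 := by omega
  have h2 : i % 2 = 0 ∨ i % 2 = 1 := by omega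
  rcases h1 with rfl | rfl <;> rcases h2 with h2 | h2
  · have h3 : (i + 1) % 2 = 1 := by omega
    simp [Pd_side, Pd_cA, Pd_cB, h2, h3] at *
    rw [← e1] at a3
    rw [← e2] at a4
    tauto
  · have h3 : (i + 1) % 2 = 0 := by omega
    simp [Pd_side, Pd_cA, Pd_cB, h2, h3] at *
    rw [← e1] at a3
    rw [← e2] at a4
    tauto
  · have h3 : (i + 1) % 2 = 1 := by omega
    simp [Pd_side, Pd_cA, Pd_cB, h2, h3] at *
    rw [← e1] at a3
    rw [← e2] at a4
    tauto
  · have h3 : (i + 1) % 2 = 0 := by omega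
    simp [Pd_side, Pd_cA, Pd_cB, h2, h3] at *
    rw [← e1] at a3
    rw [← e2] at a4
    tauto


/-! ### strands and gaps -/

theorem Pd_col0 (w : List Ev) (l : ℕ) (hl : l ≤ w.length) : SameRegion w (l, 0) (0, 0) := by
  induction l with
  | zero => exact EqvGen.refl _
  | succ l ih =>
    have h1 : l < w.length := by omega
    have he : w[l]? = some w[l] := List.getElem?_eq_getElem h1
    exact EqvGen.trans _ _ _ (EqvGen.symm _ _ (EqvGen.rel _ _ (GapStep.left l 0 _ he (by omega))))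
      (ih (by omega))

/-- levels of crossings -/
def Pd_C (w : List Ev) : Finset ℕ :=
  (Finset.range w.length).filter (fun l => (w[l]?).elim false Ev.isX = true)

/-- gap of the piece at a level -/
def Pd_gp (w : List Ev) (l : ℕ) : ℕ := (w[l]?).elim 0 Ev.gap

theorem Pd_mem_C {w : List Ev} {l : ℕ} : l ∈ Pd_C w ↔ IsCrossing w l (Pd_gp w l) := by
  unfold Pd_C Pd_gp IsCrossing
  rw [Finset.mem_filter, Finset.mem_range]
  constructor
  · rintro ⟨h1, h2⟩
    have he : w[l]? = some w[l] := List.getElem?_eq_getElem h1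
    rw [he] at h2 ⊢
    simp only [Option.elim_some] at h2 ⊢
    generalize w[l] = e at h2 ⊢
    cases e <;> simp_all [Ev.isX, Ev.gap]
  · intro h
    rcases h with h | h
    · refine ⟨Pd_lt_of_get h, ?_⟩
      rw [h]; rfl
    · refine ⟨Pd_lt_of_get h, ?_⟩
      rw [h]; rfl

theorem Pd_cross_gp {w : List Ev} {l i : ℕ} (h : IsCrossing w l i) : Pd_gp w l = i := by
  unfold Pd_gp
  rcases h with h | h <;> rw [h] <;> rfl

theorem Pd_cross_mem {w : List Ev} {l i : ℕ} (h : IsCrossing w l i) : l ∈ Pd_C w := by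
  rw [Pd_mem_C, Pd_cross_gp h]; exact h

theorem Pd_sumX (w : List Ev) (F : ℕ → ℕ → ℝ) : sumX w F = ∑ l ∈ Pd_C w, F l (Pd_gp w l) := by
  unfold sumX Pd_C Pd_gp
  rw [Finset.sum_filter]
  refine Finset.sum_congr rfl fun l hl => ?_
  have he : w[l]? = some (w[l]'(Finset.mem_range.mp hl)) := List.getElem?_eq_getElem _
  rw [he]
  simp only [Option.elim_some]
  all_goals congr

theorem Pd_card_C (w : List Ev) : (Pd_C w).card = crossings w := by
  unfold Pd_C crossings
  induction w with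
  | nil => rfl
  | cons a w ih =>
    rw [Finset.card_filter, List.length_cons, Finset.sum_range_succ', List.countP_cons]
    rw [Finset.card_filter] at ih
    simp only [List.getElem?_cons_succ, List.getElem?_cons_zero, Option.elim_some]
    rw [ih]
    congr

theorem Pd_exists_cross {w : List Ev} (hX : 0 < crossings w) : ∃ l i, IsCrossing w l i := by
  rw [← Pd_card_C, Finset.card_pos] at hX
  obtain ⟨l, hl⟩ := hX
  exact ⟨l, _, Pd_mem_C.mp hl⟩

/-- every gap is the side of a strand -/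
theorem Pd_gap_side (D : Diagram) (hX : 0 < crossings D.word) {c : ℕ}
    {q : ℕ × ℕ} (hq : IsGap D.word q) (hq2 : q.2 % 2 = c) :
    ∃ p, IsStrand D.word p ∧ SameRegion D.word q (Pd_side c p) := by
  obtain ⟨l, j⟩ := q
  obtain ⟨h1, h2⟩ := hq
  simp only at h1 h2 hq2
  by_cases hlev : lev D.word l = 0
  · obtain ⟨l0, i, hc⟩ := Pd_exists_cross hX
    obtain ⟨h3, h4, h5⟩ := Pd_cross_lev D hc
    have hj : j = 0 := by omega
    subst hj
    refine ⟨(l0, 0), ⟨by simp; omega, by simp; omega⟩, ?_⟩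
    have h6 : Pd_side c (l0, 0) = (l0, 0) := by
      unfold Pd_side; rw [if_pos]; simpa using hq2
    rw [h6]
    exact EqvGen.trans _ _ _ (Pd_col0 _ _ h1) (EqvGen.symm _ _ (Pd_col0 _ _ (by omega)))
  · by_cases hj : j < lev D.word l
    · refine ⟨(l, j), ⟨h1, hj⟩, ?_⟩
      have h6 : Pd_side c (l, j) = (l, j) := by
        unfold Pd_side; rw [if_pos]; simpa using hq2
      rw [h6]; exact EqvGen.refl _
    · refine ⟨(l, j - 1), ⟨h1, by simp; omega⟩, ?_⟩
      have h6 : Pd_side c (l, j - 1) = (l, j) := by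
        unfold Pd_side
        rw [if_neg (by simp only; omega)]
        simp only [Prod.mk.injEq, true_and]; omega
      rw [h6]; exact EqvGen.refl _

theorem Pd_side_gap {c : ℕ} {w : List Ev} {p : ℕ × ℕ} (hp : IsStrand w p) :
    IsGap w (Pd_side c p) := by
  obtain ⟨h1, h2⟩ := hp
  unfold Pd_side
  split_ifs
  · exact ⟨h1, h2.le⟩
  · exact ⟨h1, h2⟩

/-! ### propagation along the graph -/

theorem Pd_cup_gaps (D : Diagram) {l i : ℕ} (he : D.word[l]? = some (Ev.cup i)) :
    GapStep D.word (l, i) (l + 1, i) ∧ GapStep D.word (l, i) (l + 1, i + 2) := by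
  have h1 := Pd_valid D he
  simp only [Ev.gap, Ev.inn] at h1
  refine ⟨GapStep.left l i _ he (by simp [Ev.gap]), ?_⟩
  have := GapStep.right (w := D.word) l i _ he (by simp [Ev.gap, Ev.inn]) (by omega)
  simpa [Ev.inn, Ev.out] using this

theorem Pd_cap_gaps (D : Diagram) {l i : ℕ} (he : D.word[l]? = some (Ev.cap i)) :
    GapStep D.word (l, i) (l + 1, i) ∧ GapStep D.word (l, i + 2) (l + 1, i) := by
  have h1 := Pd_valid D he
  simp only [Ev.gap, Ev.inn] at h1
  refine ⟨GapStep.left l i _ he (by simp [Ev.gap]), ?_⟩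
  have := GapStep.right (w := D.word) l (i + 2) _ he (by simp [Ev.gap, Ev.inn]) (by omega)
  simpa [Ev.inn, Ev.out] using this

theorem Pd_side_strandStep (D : Diagram) {α : Type*} {c : ℕ} (hc : c < 2) (f : ℕ × ℕ → α)
    (hf : RegFun D.word f) {p q : ℕ × ℕ} (h : StrandStep D.word p q) :
    f (Pd_side c p) = f (Pd_side c q) := by
  cases h with
  | left l j e he hj =>
    unfold Pd_side
    simp only
    split_ifs
    · exact hf _ _ (GapStep.left l j e he hj.le)
    · exact hf _ _ (GapStep.left l (j + 1) e he hj)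
  | right l j e he hj hn =>
    have h1 : (j - e.inn + e.out) % 2 = j % 2 := by
      cases e <;> simp only [Ev.gap, Ev.inn, Ev.out] at * <;> omega
    unfold Pd_side
    simp only [h1]
    split_ifs
    · exact hf _ _ (GapStep.right l j e he hj hn.le)
    · have := hf _ _ (GapStep.right l (j + 1) e he (by omega) hn)
      rw [this]
      congr 2
      omega
  | cup l i he =>
    obtain ⟨g1, g2⟩ := Pd_cup_gaps D he
    have e1 := hf _ _ g1
    have e2 := hf _ _ g2
    unfold Pd_side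
    simp only
    by_cases h1 : i % 2 = c
    · rw [if_pos h1, if_neg (by omega), ← e1, ← e2]
    · rw [if_neg h1, if_pos (by omega)]
  | cap l i he =>
    obtain ⟨g1, g2⟩ := Pd_cap_gaps D he
    have e1 := hf _ _ g1
    have e2 := hf _ _ g2
    unfold Pd_side
    simp only
    by_cases h1 : i % 2 = c
    · rw [if_pos h1, if_neg (by omega), e1, e2]
    · rw [if_neg h1, if_pos (by omega)]

theorem Pd_side_leg (D : Diagram) {α : Type*} {c : ℕ} (hc : c < 2) (f : ℕ × ℕ → α)
    (hf : RegFun D.word f) {l i : ℕ} (h : IsCrossing D.word l i)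
    (h0 : f (Pd_cA c l i) = f (Pd_cB c l i)) (t s : Bool) :
    f (Pd_side c (leg l i t s)) = f (Pd_cA c l i) := by
  have e1 := hf _ _ (Pd_cross_left D h)
  have e2 := hf _ _ (Pd_cross_right D h)
  have h1 : c = 0 ∨ c = 1 := by omega
  have h2 : i % 2 = 0 ∨ i % 2 = 1 := by omega
  rcases h1 with rfl | rfl <;> rcases h2 with h2 | h2
  · have h3 : (i + 1) % 2 = 1 := by omega
    cases t <;> cases s <;> simp [Pd_side, Pd_cA, Pd_cB, leg, h2, h3] at * <;> simp_all
  · have h3 : (i + 1) % 2 = 0 := by omega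
    cases t <;> cases s <;> simp [Pd_side, Pd_cA, Pd_cB, leg, h2, h3] at * <;> simp_all
  · have h3 : (i + 1) % 2 = 1 := by omega
    cases t <;> cases s <;> simp [Pd_side, Pd_cA, Pd_cB, leg, h2, h3] at * <;> simp_all
  · have h3 : (i + 1) % 2 = 0 := by omega
    cases t <;> cases s <;> simp [Pd_side, Pd_cA, Pd_cB, leg, h2, h3] at * <;> simp_all

theorem Pd_graph_const (D : Diagram) {α : Type*} {c : ℕ} (hc : c < 2) (f : ℕ × ℕ → α)
    (hf : RegFun D.word f) (o : Option ℕ)
    (h0 : ∀ l i, IsCrossing D.word l i → some l ≠ o → f (Pd_cA c l i) = f (Pd_cB c l i))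
    {p q : ℕ × ℕ} (h : EqvGen (GraphStep D.word o) p q) :
    f (Pd_side c p) = f (Pd_side c q) := by
  induction h with
  | rel _ _ h =>
    rcases h with h | ⟨l, i, hl, hX, t, s, t', s', rfl, rfl⟩
    · exact Pd_side_strandStep D hc f hf h
    · rw [Pd_side_leg D hc f hf hX (h0 l i hX hl), Pd_side_leg D hc f hf hX (h0 l i hX hl)]
  | refl _ => rfl
  | symm _ _ _ ih => exact ih.symm
  | trans _ _ _ _ _ ih1 ih2 => exact ih1.trans ih2

/-- a region function without jump at the crossings is constant on each parity class -/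
theorem Pd_const (D : Diagram) (hcon : Connected D.word) (hX : 0 < crossings D.word)
    {α : Type*} {c : ℕ} (hc : c < 2) (f : ℕ × ℕ → α) (hf : RegFun D.word f)
    (h0 : ∀ l i, IsCrossing D.word l i → f (Pd_cA c l i) = f (Pd_cB c l i))
    {p q : ℕ × ℕ} (hp : IsGap D.word p) (hq : IsGap D.word q) (hpc : p.2 % 2 = c)
    (hqc : q.2 % 2 = c) : f p = f q := by
  obtain ⟨p', hp', hp2⟩ := Pd_gap_side D hX hp hpc
  obtain ⟨q', hq', hq2⟩ := Pd_gap_side D hX hq hqc
  rw [Pd_regFun_same hf hp2, Pd_regFun_same hf hq2]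
  exact Pd_graph_const D hc f hf none (fun l i h _ => h0 l i h) (hcon p' q' hp' hq')

/-! ### linear algebra -/

open Classical in
/-- region function with given values on some representatives -/
noncomputable def Pd_F (w : List Ev) (s' : Finset (ℕ × ℕ)) (a : s' → ℝ) (q : ℕ × ℕ) : ℝ :=
  ∑ p : s', a p * (if SameRegion w p.1 q then 1 else 0)

theorem Pd_F_reg (w : List Ev) (s' : Finset (ℕ × ℕ)) (a : s' → ℝ) : RegFun w (Pd_F w s' a) := by
  intro p q h
  unfold Pd_F
  refine Finset.sum_congr rfl fun x _ => ?_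
  by_cases h1 : SameRegion w x.1 p
  · rw [if_pos h1, if_pos ((Pd_same_iff' h x.1).mp h1)]
  · rw [if_neg h1, if_neg (fun h2 => h1 ((Pd_same_iff' h x.1).mpr h2))]

theorem Pd_F_val {w : List Ev} {s s' : Finset (ℕ × ℕ)} (hs : Reps w s) (hsub : s' ⊆ s)
    (a : s' → ℝ) (p : s') : Pd_F w s' a p.1 = a p := by
  unfold Pd_F
  rw [Finset.sum_eq_single p]
  · rw [if_pos (show SameRegion w p.1 p.1 from EqvGen.refl _), mul_one]
  · intro b _ hb
    rw [if_neg, mul_zero]
    intro h
    exact hb (Subtype.ext (hs.uniq _ (hsub b.2) _ (hsub p.2) h))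
  · intro h; exact absurd (Finset.mem_univ _) h

theorem Pd_F_zero {w : List Ev} {s' : Finset (ℕ × ℕ)} {P : ℕ × ℕ → Prop} (hP : RegFun w P)
    (hs' : ∀ p ∈ s', P p) (a : s' → ℝ) {q : ℕ × ℕ} (hq : ¬ P q) : Pd_F w s' a q = 0 := by
  unfold Pd_F
  refine Finset.sum_eq_zero fun p _ => ?_
  rw [if_neg, mul_zero]
  intro h
  apply hq
  rw [← Pd_regFun_same hP h]
  exact hs' _ p.2

theorem Pd_F_add (w : List Ev) (s' : Finset (ℕ × ℕ)) (a b : s' → ℝ) (q : ℕ × ℕ) :
    Pd_F w s' (a + b) q = Pd_F w s' a q + Pd_F w s' b q := by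
  unfold Pd_F
  rw [← Finset.sum_add_distrib]
  refine Finset.sum_congr rfl fun x _ => ?_
  rw [Pi.add_apply, add_mul]

theorem Pd_F_smul (w : List Ev) (s' : Finset (ℕ × ℕ)) (x : ℝ) (a : s' → ℝ) (q : ℕ × ℕ) :
    Pd_F w s' (x • a) q = x * Pd_F w s' a q := by
  unfold Pd_F
  rw [Finset.mul_sum]
  refine Finset.sum_congr rfl fun y _ => ?_
  rw [Pi.smul_apply, smul_eq_mul, mul_assoc]

/-- total gradient plus a multiple of a unit vector -/
noncomputable def Pd_lin (w : List Ev) (s' : Finset (ℕ × ℕ)) (K : Finset ℕ) (k : ℕ) :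
    ((s' → ℝ) × ℝ) →ₗ[ℝ] (K → ℝ) where
  toFun z := fun l => gOdd (Pd_F w s' z.1) l.1 (Pd_gp w l.1) +
    gEven (Pd_F w s' z.1) l.1 (Pd_gp w l.1) + if l.1 = k then z.2 else 0
  map_add' y z := by
    funext l
    simp only [Prod.fst_add, Prod.snd_add, Pi.add_apply, gOdd, gEven, Pd_F_add]
    split_ifs <;> ring
  map_smul' x z := by
    funext l
    simp only [Prod.smul_fst, Prod.smul_snd, Pi.smul_apply, gOdd, gEven, Pd_F_smul, smul_eq_mul,
      RingHom.id_apply]
    split_ifs <;> ring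

theorem Pd_orth (D : Diagram) (x : ℕ × ℕ → ℝ) (hx : RegFun D.word x) :
    ∑ l ∈ Pd_C D.word, gOdd x l (Pd_gp D.word l) * gEven x l (Pd_gp D.word l) = 0 := by
  have h := grad_orth D (fun p => if p.2 % 2 = 1 then x p else 0)
    (fun p => if p.2 % 2 = 1 then 0 else x p)
    (fun p q h => by
      have h1 := Pd_regFun_par D.word p q h
      have h2 := hx p q h
      simp only at h1
      simp only [h1, h2])
    (fun p q h => by
      have h1 := Pd_regFun_par D.word p q h
      have h2 := hx p q h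
      simp only at h1
      simp only [h1, h2])
    (fun p hp => by simp [hp]) (fun p hp => by simp [hp])
  rw [Pd_sumX] at h
  rw [← h]
  refine Finset.sum_congr rfl fun l _ => ?_
  generalize Pd_gp D.word l = i
  have h2 : i % 2 = 0 ∨ i % 2 = 1 := by omega
  rcases h2 with h2 | h2
  · have h3 : (i + 1) % 2 = 1 := by omega
    simp [gOdd, gEven, h2, h3]
  · have h3 : (i + 1) % 2 = 0 := by omega
    simp [gOdd, gEven, h2, h3]

theorem Pd_orth' (D : Diagram) {c : ℕ} (hc : c < 2) (x : ℕ × ℕ → ℝ) (hx : RegFun D.word x) :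
    ∑ l ∈ Pd_C D.word, Pd_G c x l (Pd_gp D.word l) * Pd_G (1 - c) x l (Pd_gp D.word l) = 0 := by
  rw [← Pd_orth D x hx]
  refine Finset.sum_congr rfl fun l _ => ?_
  have h1 : c = 0 ∨ c = 1 := by omega
  rcases h1 with rfl | rfl <;> simp [Pd_G, mul_comm]

theorem Pd_kernel (D : Diagram) {c : ℕ} (hc : c < 2) (x : ℕ × ℕ → ℝ) (hx : RegFun D.word x)
    (k : ℕ) (al : ℝ) (hk : Pd_G (1 - c) x k (Pd_gp D.word k) = 0 ∨ al = 0)
    (h : ∀ l ∈ Pd_C D.word, gOdd x l (Pd_gp D.word l) + gEven x l (Pd_gp D.word l) +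
      (if l = k then al else 0) = 0) :
    (∀ l ∈ Pd_C D.word, Pd_G (1 - c) x l (Pd_gp D.word l) = 0) ∧
    ∀ l ∈ Pd_C D.word, Pd_G c x l (Pd_gp D.word l) + (if l = k then al else 0) = 0 := by
  have key : ∑ l ∈ Pd_C D.word, (Pd_G (1 - c) x l (Pd_gp D.word l)) ^ 2 = 0 := by
    have e1 : ∑ l ∈ Pd_C D.word, (Pd_G (1 - c) x l (Pd_gp D.word l)) ^ 2 =
        ∑ l ∈ Pd_C D.word, - (Pd_G c x l (Pd_gp D.word l) *
          Pd_G (1 - c) x l (Pd_gp D.word l)) := by
      refine Finset.sum_congr rfl fun l hl => ?_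
      have h1 := h l hl
      rw [Pd_G_add c _ _ _ hc] at h1
      by_cases hlk : l = k
      · subst hlk
        rw [if_pos rfl] at h1
        rcases hk with hk | hk
        · rw [hk]; ring
        · rw [hk] at h1
          have h2 : Pd_G (1 - c) x l (Pd_gp D.word l) = - Pd_G c x l (Pd_gp D.word l) := by
            linarith
          rw [h2]; ring
      · rw [if_neg hlk] at h1
        have h2 : Pd_G (1 - c) x l (Pd_gp D.word l) = - Pd_G c x l (Pd_gp D.word l) := by
          linarith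
        rw [h2]; ring
    rw [e1, Finset.sum_neg_distrib, Pd_orth' D hc x hx, neg_zero]
  have h2 : ∀ l ∈ Pd_C D.word, Pd_G (1 - c) x l (Pd_gp D.word l) = 0 := by
    intro l hl
    have := (Finset.sum_eq_zero_iff_of_nonneg (fun i _ => sq_nonneg _)).mp key l hl
    exact pow_eq_zero_iff (two_ne_zero) |>.mp this
  refine ⟨h2, fun l hl => ?_⟩
  have h1 := h l hl
  rw [Pd_G_add c _ _ _ hc, h2 l hl] at h1
  linarith

section hall

variable (D : Diagram) (hcon : Connected D.word) (hX : 0 < crossings D.word)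
  {s : Finset (ℕ × ℕ)} (hs : Reps D.word s) {c : ℕ} (hc : c < 2)
  (P : ℕ × ℕ → Prop) [DecidablePred P] (hP : RegFun D.word P)
  (ha : ∀ p, IsStrand D.word p → P (Pd_side (1 - c) p) → P (Pd_side c p))

/-- the crossings with a corner of parity `c` in `P` -/
def Pd_K (w : List Ev) (c : ℕ) (P : ℕ × ℕ → Prop) [DecidablePred P] : Finset ℕ :=
  (Pd_C w).filter (fun l => P (Pd_cA c l (Pd_gp w l)) ∨ P (Pd_cB c l (Pd_gp w l)))

include hc hP ha in
theorem Pd_ext_eq (z : (↥(s.filter P) → ℝ) × ℝ) (k : ℕ)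
    (hk : z.2 = 0 ∨ k ∈ Pd_K D.word c P)
    (hz : Pd_lin D.word (s.filter P) (Pd_K D.word c P) k z = 0) :
    ∀ l ∈ Pd_C D.word, gOdd (Pd_F D.word (s.filter P) z.1) l (Pd_gp D.word l) +
      gEven (Pd_F D.word (s.filter P) z.1) l (Pd_gp D.word l) +
      (if l = k then z.2 else 0) = 0 := by
  intro l hl
  by_cases hlK : l ∈ Pd_K D.word c P
  · exact congrFun hz ⟨l, hlK⟩
  · have h1 : ¬ (P (Pd_cA c l (Pd_gp D.word l)) ∨ P (Pd_cB c l (Pd_gp D.word l))) := by
      intro h; exact hlK (Finset.mem_filter.mpr ⟨hl, h⟩)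
    have hX' := Pd_mem_C.mp hl
    have h2 : ¬ (P (Pd_cA (1 - c) l (Pd_gp D.word l)) ∨
        P (Pd_cB (1 - c) l (Pd_gp D.word l))) := by
      intro h
      exact h1 (Or.inl (Pd_corner_adj D hc P hP ha hX' h).1)
    rw [not_or] at h1 h2
    have hF : ∀ p ∈ s.filter P, P p := fun p hp => (Finset.mem_filter.mp hp).2
    have e1 : Pd_G c (Pd_F D.word (s.filter P) z.1) l (Pd_gp D.word l) = 0 := by
      rw [Pd_G_zero hc, Pd_F_zero hP hF _ h1.1, Pd_F_zero hP hF _ h1.2]
    have e2 : Pd_G (1 - c) (Pd_F D.word (s.filter P) z.1) l (Pd_gp D.word l) = 0 := by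
      rw [Pd_G_zero (by omega), Pd_F_zero hP hF _ h2.1, Pd_F_zero hP hF _ h2.2]
    rw [Pd_G_add c _ _ _ hc, e1, e2]
    have e3 : (if l = k then z.2 else 0) = 0 := by
      split_ifs with h
      · subst h
        exact hk.resolve_right hlK
      · rfl
    rw [e3]; ring

include hcon hX hP ha in
/-- the type-2 part of a kernel vector vanishes -/
theorem Pd_type2_zero (z : ↥(s.filter P) → ℝ)
    (hne : ∃ p, IsStrand D.word p ∧ ¬ P (Pd_side c p))
    (h2 : ∀ l ∈ Pd_C D.word,
      Pd_G (1 - c) (Pd_F D.word (s.filter P) z) l (Pd_gp D.word l) = 0)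
    {q : ℕ × ℕ} (hq : IsGap D.word q) (hqc : q.2 % 2 = 1 - c) :
    Pd_F D.word (s.filter P) z q = 0 := by
  obtain ⟨p, hp, hp2⟩ := hne
  have h3 : ¬ P (Pd_side (1 - c) p) := fun h => hp2 (ha p hp h)
  have hF : ∀ p ∈ s.filter P, P p := fun p hp => (Finset.mem_filter.mp hp).2
  rw [← Pd_F_zero hP hF z h3]
  refine Pd_const D hcon hX (c := 1 - c) (by omega) _ (Pd_F_reg _ _ _) ?_ hq (Pd_side_gap hp) hqc
    (Pd_side_par (by omega) p)
  intro l i hX'
  have := h2 l (Pd_cross_mem hX')
  rwa [Pd_G_zero (by omega), Pd_cross_gp hX'] at this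

include hcon hX hs hc hP ha in
/-- the weak inequality -/
theorem Pd_weak (hne : ∃ p, IsStrand D.word p ∧ ¬ P (Pd_side c p)) :
    (s.filter P).card ≤ (Pd_K D.word c P).card := by
  have hF : ∀ p ∈ s.filter P, P p := fun p hp => (Finset.mem_filter.mp hp).2
  have inj : Function.Injective ((Pd_lin D.word (s.filter P) (Pd_K D.word c P) 0).comp
      (LinearMap.inl ℝ _ ℝ)) := by
    rw [← LinearMap.ker_eq_bot, LinearMap.ker_eq_bot']
    intro a hz
    have hz' : Pd_lin D.word (s.filter P) (Pd_K D.word c P) 0 (a, 0) = 0 := hz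
    have h1 := Pd_ext_eq D hc P hP ha (a, 0) 0 (Or.inl rfl) hz'
    obtain ⟨h2, h3⟩ := Pd_kernel D hc _ (Pd_F_reg _ _ _) 0 0 (Or.inr rfl) h1
    funext p
    have hpr := Finset.mem_filter.mp p.2
    rw [← Pd_F_val hs (Finset.filter_subset _ _) a p]
    have hgap : IsGap D.word p.1 := by
      have := hs.sub hpr.1
      unfold gaps at this
      simp only [Finset.mem_biUnion, Finset.mem_range, Finset.mem_image] at this
      obtain ⟨l, hl, j, hj, hlj⟩ := this
      rw [← hlj]
      exact ⟨by simp only; omega, by simp only; omega⟩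
    by_cases hpc : p.1.2 % 2 = c
    · obtain ⟨q, hq, hq2⟩ := hne
      rw [Pi.zero_apply, ← Pd_F_zero hP hF a hq2]
      refine Pd_const D hcon hX hc _ (Pd_F_reg _ _ _) ?_ hgap (Pd_side_gap hq) hpc
        (Pd_side_par hc q)
      intro l i hX'
      have := h3 l (Pd_cross_mem hX')
      rw [ite_self, add_zero, Pd_G_zero hc, Pd_cross_gp hX'] at this
      exact this
    · rw [Pi.zero_apply]
      exact Pd_type2_zero D hcon hX P hP ha a hne h2 hgap (by omega)
  have := LinearMap.finrank_le_finrank_of_injective inj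
  simpa using this

include hcon hX hs hc hP ha in
/-- the strict inequality -/
theorem Pd_strict (hsim : Simple D.word)
    (hb : ∀ p, IsStrand D.word p → External D.word p ∨ External D.word (p.1, p.2 + 1) →
      ¬ P (Pd_side c p))
    (hex : ∃ q, IsGap D.word q ∧ P q) :
    (s.filter P).card + 1 ≤ (Pd_K D.word c P).card := by
  have hF : ∀ p ∈ s.filter P, P p := fun p hp => (Finset.mem_filter.mp hp).2
  have hgaps : ∀ p ∈ s, IsGap D.word p := by
    intro p hp
    have := hs.sub hp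
    unfold gaps at this
    simp only [Finset.mem_biUnion, Finset.mem_range, Finset.mem_image] at this
    obtain ⟨l, hl, j, hj, hlj⟩ := this
    rw [← hlj]
    exact ⟨by simp only; omega, by simp only; omega⟩
  -- a strand whose type-1 side is not in `P`
  have hne : ∃ p, IsStrand D.word p ∧ ¬ P (Pd_side c p) := by
    obtain ⟨l, i, hX'⟩ := Pd_exists_cross hX
    obtain ⟨h1, h2, h3⟩ := Pd_cross_lev D hX'
    obtain ⟨q, hq, _, hq2⟩ := hsim.noDisk l i hX' (l, i) ⟨by simp only; omega, by simp only; omega⟩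
    exact ⟨q, hq, hb q hq hq2⟩
  -- a strand whose type-1 side is in `P`
  have hse : ∃ p, IsStrand D.word p ∧ P (Pd_side c p) := by
    obtain ⟨q, hq, hPq⟩ := hex
    by_cases hqc : q.2 % 2 = c
    · obtain ⟨p, hp, hp2⟩ := Pd_gap_side D hX hq hqc
      exact ⟨p, hp, by rw [← Pd_regFun_same hP hp2]; exact hPq⟩
    · obtain ⟨p, hp, hp2⟩ := Pd_gap_side D hX (c := 1 - c) hq (by omega)
      exact ⟨p, hp, ha p hp (by rw [← Pd_regFun_same hP hp2]; exact hPq)⟩
  -- a crossing with exactly one type-1 corner in `P`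
  have hk : ∃ l i, IsCrossing D.word l i ∧ P (Pd_cA c l i) ≠ P (Pd_cB c l i) := by
    by_contra hcon'
    push Not at hcon'
    obtain ⟨p, hp, hp2⟩ := hne
    obtain ⟨q, hq, hq2⟩ := hse
    have := Pd_const D hcon hX hc P hP hcon' (Pd_side_gap hp) (Pd_side_gap hq)
      (Pd_side_par hc p) (Pd_side_par hc q)
    rw [this] at hp2
    exact hp2 hq2
  obtain ⟨k, i, hkX, hkP⟩ := hk
  have hki := Pd_cross_gp hkX
  have hkC := Pd_cross_mem hkX
  have hkK : k ∈ Pd_K D.word c P := by
    refine Finset.mem_filter.mpr ⟨hkC, ?_⟩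
    rw [hki]
    by_contra h
    rw [not_or] at h
    exact hkP (by simp [h.1, h.2])
  have inj : Function.Injective (Pd_lin D.word (s.filter P) (Pd_K D.word c P) k) := by
    rw [← LinearMap.ker_eq_bot, LinearMap.ker_eq_bot']
    intro z hz
    have h1 := Pd_ext_eq D hc P hP ha z k (Or.inr hkK) hz
    have hk2 : Pd_G (1 - c) (Pd_F D.word (s.filter P) z.1) k (Pd_gp D.word k) = 0 := by
      have h2 : ¬ (P (Pd_cA (1 - c) k i) ∨ P (Pd_cB (1 - c) k i)) := by
        intro h
        obtain ⟨h3, h4⟩ := Pd_corner_adj D hc P hP ha hkX h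
        exact hkP (by simp [h3, h4])
      rw [not_or] at h2
      rw [Pd_G_zero (by omega), hki, Pd_F_zero hP hF _ h2.1, Pd_F_zero hP hF _ h2.2]
    obtain ⟨h2, h3⟩ := Pd_kernel D hc _ (Pd_F_reg _ _ _) k z.2 (Or.inl hk2) h1
    -- the type-1 part vanishes
    have h4 : ∀ p, IsStrand D.word p → Pd_F D.word (s.filter P) z.1 (Pd_side c p) = 0 := by
      intro p hp
      obtain ⟨q, hq, hpq, hq2⟩ := hsim.noDisk k i hkX p hp
      rw [Pd_graph_const D hc _ (Pd_F_reg _ _ _) (some k) ?_ hpq]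
      · exact Pd_F_zero hP hF _ (hb q hq hq2)
      · intro l j hX' hlk
        have := h3 l (Pd_cross_mem hX')
        rw [if_neg (fun h => hlk (by rw [h])), add_zero, Pd_G_zero hc, Pd_cross_gp hX'] at this
        exact this
    have h5 : ∀ q, IsGap D.word q → q.2 % 2 = c → Pd_F D.word (s.filter P) z.1 q = 0 := by
      intro q hq hqc
      obtain ⟨p, hp, hp2⟩ := Pd_gap_side D hX hq hqc
      rw [Pd_regFun_same (Pd_F_reg _ _ _) hp2]
      exact h4 p hp
    have h6 : z.1 = 0 := by
      funext p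
      have hpr := Finset.mem_filter.mp p.2
      rw [← Pd_F_val hs (Finset.filter_subset _ _) z.1 p]
      by_cases hpc : p.1.2 % 2 = c
      · exact h5 _ (hgaps _ hpr.1) hpc
      · exact Pd_type2_zero D hcon hX P hP ha z.1 hne h2 (hgaps _ hpr.1) (by omega)
    have h7 : z.2 = 0 := by
      have h8 := h3 k hkC
      rw [if_pos rfl] at h8
      have h9 : Pd_G c (Pd_F D.word (s.filter P) z.1) k (Pd_gp D.word k) = 0 := by
        rw [h6]
        have : ∀ q, Pd_F D.word (s.filter P) 0 q = 0 := by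
          intro q; unfold Pd_F; simp
        rw [Pd_G_zero hc, this, this]
      rw [h9, zero_add] at h8
      exact h8
    exact Prod.ext h6 h7
  have := LinearMap.finrank_le_finrank_of_injective inj
  simpa using this

end hall

/-! ### the complement -/

theorem Pd_compl (D : Diagram) (hcon : Connected D.word) (hX : 0 < crossings D.word)
    {s : Finset (ℕ × ℕ)} (hs : Reps D.word s) {c : ℕ} (hc : c < 2)
    (P : ℕ × ℕ → Prop) [DecidablePred P] (hP : RegFun D.word P)
    (ha : ∀ p, IsStrand D.word p → P (Pd_side c p) → P (Pd_side (1 - c) p))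
    (hne : ∃ p, IsStrand D.word p ∧ P (Pd_side c p)) :
    ((Pd_C D.word).filter (fun l => P (Pd_cA c l (Pd_gp D.word l)) ∧
      P (Pd_cB c l (Pd_gp D.word l)))).card + 2 ≤ (s.filter P).card := by
  have h1 := Pd_weak D hcon hX hs hc (fun p => ¬ P p)
    (fun p q h => by simp only [hP p q h])
    (fun p hp h h' => h (ha p hp h'))
    (by obtain ⟨p, hp, hp2⟩ := hne; exact ⟨p, hp, not_not.mpr hp2⟩)
  have h2 := euler D hcon hX s hs
  rw [← Pd_card_C] at h2
  have h3 := Finset.card_filter_add_card_filter_not (s := s) P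
  have h4 := Finset.card_filter_add_card_filter_not (s := Pd_C D.word)
    (fun l => P (Pd_cA c l (Pd_gp D.word l)) ∧ P (Pd_cB c l (Pd_gp D.word l)))
  have h5 : Pd_K D.word c (fun p => ¬ P p) = (Pd_C D.word).filter
      (fun l => ¬ (P (Pd_cA c l (Pd_gp D.word l)) ∧ P (Pd_cB c l (Pd_gp D.word l)))) := by
    unfold Pd_K
    refine Finset.filter_congr fun l _ => ?_
    rw [not_and_or]
  rw [h5] at h1
  omega

/-! ### decomposition into level sets -/

theorem Pd_layer (K : ℕ) (z : ℤ) (h : |z| ≤ K) :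
    z = ∑ t ∈ Finset.range K, ((if (t : ℤ) + 1 ≤ z then 1 else 0) -
      (if z ≤ -((t : ℤ) + 1) then 1 else 0)) := by
  induction K generalizing z with
  | zero =>
    have : z = 0 := by
      rw [← abs_nonpos_iff]; simpa using h
    simp [this]
  | succ K ih =>
    rw [Finset.sum_range_succ]
    rcases lt_trichotomy |z| ((K : ℤ) + 1) with h1 | h1 | h1
    · have h2 : |z| ≤ K := by omega
      rw [← ih z h2]
      rw [abs_le] at h2
      rw [if_neg (by omega), if_neg (by omega)]
      omega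
    · rcases abs_eq (by omega : (0 : ℤ) ≤ (K : ℤ) + 1) |>.mp h1 with h2 | h2
      · subst h2
        rw [if_pos (by omega), if_neg (by omega)]
        have : ∑ t ∈ Finset.range K, ((if (t : ℤ) + 1 ≤ (K : ℤ) + 1 then (1 : ℤ) else 0) -
            (if (K : ℤ) + 1 ≤ -((t : ℤ) + 1) then 1 else 0)) = ∑ t ∈ Finset.range K, (1 : ℤ) := by
          refine Finset.sum_congr rfl fun t ht => ?_
          rw [Finset.mem_range] at ht
          rw [if_pos (by omega), if_neg (by omega)]
          omega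
        rw [this]
        simp
      · subst h2
        rw [if_neg (by omega), if_pos (by omega)]
        have : ∑ t ∈ Finset.range K, ((if (t : ℤ) + 1 ≤ -((K : ℤ) + 1) then (1 : ℤ) else 0) -
            (if -((K : ℤ) + 1) ≤ -((t : ℤ) + 1) then 1 else 0)) =
              ∑ t ∈ Finset.range K, (-1 : ℤ) := by
          refine Finset.sum_congr rfl fun t ht => ?_
          rw [Finset.mem_range] at ht
          rw [if_neg (by omega), if_pos (by omega)]
          omega
        rw [this]
        simp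
        ring
    · push_cast at h; omega

/-- at a positive crossing the type-`c` corners are bottom and top, at a negative one left and
right -/
def Pd_case (c : ℕ) (w : List Ev) : Prop :=
  (∀ i, Ev.pos i ∈ w → (i + 1) % 2 = c) ∧ ∀ i, Ev.neg i ∈ w → (i + 1) % 2 ≠ c

theorem Pd_ex (w : List Ev) {c : ℕ} (hcase : Pd_case c w) (h : ℕ × ℕ → ℕ) :
    ex w h = ∑ l ∈ Finset.range w.length, (w[l]?).elim 0 (gbEv (fun p => (h p : ℤ)) l) -
      2 * ∑ l ∈ Pd_C w, max (h (Pd_cA c l (Pd_gp w l)) : ℤ) (h (Pd_cB c l (Pd_gp w l))) := by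
  have habs : ∀ x y : ℤ, -|x - y| = x + y - 2 * max x y := by
    intro x y
    rcases le_total x y with hxy | hxy
    · rw [max_eq_right hxy, abs_of_nonpos (by linarith)]; ring
    · rw [max_eq_left hxy, abs_of_nonneg (by linarith)]; ring
  unfold ex Pd_C
  rw [Finset.mul_sum, Finset.sum_filter, ← Finset.sum_sub_distrib]
  refine Finset.sum_congr rfl fun l hl => ?_
  have he : w[l]? = some (w[l]'(Finset.mem_range.mp hl)) := List.getElem?_eq_getElem _
  have hmem : w[l]'(Finset.mem_range.mp hl) ∈ w := List.getElem_mem _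
  unfold Pd_gp
  rw [he]
  generalize w[l]'(Finset.mem_range.mp hl) = e at hmem
  simp only [Option.elim_some]
  cases e with
  | cup i => simp [exEv, gbEv, Ev.isX]
  | cap i => simp [exEv, gbEv, Ev.isX]
  | hole i => simp [exEv, gbEv, Ev.isX]
  | pos i =>
    have h1 := hcase.1 i hmem
    have a1 : Pd_cA c l (Ev.pos i).gap = (l, i + 1) := if_pos h1
    have a2 : Pd_cB c l (Ev.pos i).gap = (l + 1, i + 1) := if_pos h1
    rw [a1, a2]
    simp only [exEv, gbEv, Ev.isX, if_true]
    rw [habs]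
  | neg i =>
    have h1 := hcase.2 i hmem
    have a1 : Pd_cA c l (Ev.neg i).gap = (l, i) := if_neg h1
    have a2 : Pd_cB c l (Ev.neg i).gap = (l, i + 2) := if_neg h1
    rw [a1, a2]
    simp only [exEv, gbEv, Ev.isX, if_true]
    have := habs (h (l, i)) (h (l, i + 2))
    linarith

theorem Pd_layer_abs (K : ℕ) (z : ℤ) (h : |z| ≤ K) :
    |z| = ∑ t ∈ Finset.range K, ((if (t : ℤ) + 1 ≤ z then 1 else 0) +
      (if z ≤ -((t : ℤ) + 1) then 1 else 0)) := by
  rcases le_total 0 z with h0 | h0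
  · rw [abs_of_nonneg h0] at h ⊢
    conv_lhs => rw [Pd_layer K z (by rwa [abs_of_nonneg h0])]
    refine Finset.sum_congr rfl fun t _ => ?_
    rw [if_neg (show ¬ z ≤ -((t : ℤ) + 1) by omega)]
    omega
  · rw [abs_of_nonpos h0] at h ⊢
    conv_lhs => rw [Pd_layer K z (by rwa [abs_of_nonpos h0])]
    rw [← Finset.sum_neg_distrib]
    refine Finset.sum_congr rfl fun t _ => ?_
    rw [if_neg (show ¬ (t : ℤ) + 1 ≤ z by omega)]
    omega

theorem Pd_gaps {w : List Ev} {s : Finset (ℕ × ℕ)} (hs : Reps w s) : ∀ p ∈ s, IsGap w p := by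
  intro p hp
  have := hs.sub hp
  unfold gaps at this
  simp only [Finset.mem_biUnion, Finset.mem_range, Finset.mem_image] at this
  obtain ⟨l, hl, j, hj, hlj⟩ := this
  rw [← hlj]
  exact ⟨by simp only; omega, by simp only; omega⟩

theorem Pd_corner_gap (D : Diagram) {c l i : ℕ} (h : IsCrossing D.word l i) :
    IsGap D.word (Pd_cA c l i) ∧ IsGap D.word (Pd_cB c l i) := by
  obtain ⟨h1, h2, h3⟩ := Pd_cross_lev D h
  unfold Pd_cA Pd_cB
  split_ifs
  · exact ⟨⟨by simp only; omega, by simp only; omega⟩, ⟨by simp only; omega, by simp only; omega⟩⟩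
  · exact ⟨⟨by simp only; omega, by simp only; omega⟩, ⟨by simp only; omega, by simp only; omega⟩⟩

theorem Pd_cast {a b : ℕ} (h : a + 1 ≤ b) : (a : ℤ) + 1 ≤ b := by omega

theorem Pd_main (D : Diagram) (hcon : Connected D.word) (hX : 0 < crossings D.word)
    {s : Finset (ℕ × ℕ)} (hs : Reps D.word s) {c : ℕ} (hcase : Pd_case c D.word)
    (h g : ℕ × ℕ → ℕ) (hh : RegFun D.word h) (hg : RegFun D.word g) (h0 : h (0, 0) = 0)
    (g0 : g (0, 0) = 0) (m : ℕ)
    (hm : ∀ l i, IsCrossing D.word l i → g (Pd_cA c l i) = m ∧ g (Pd_cB c l i) = m)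
    (hU : ∀ t : ℤ, 1 ≤ t → (∃ q, IsGap D.word q ∧ t ≤ (h q : ℤ) - g q) →
      (s.filter (fun p => t ≤ (h p : ℤ) - g p)).card + 1 ≤
        (Pd_K D.word c (fun p => t ≤ (h p : ℤ) - g p)).card)
    (hV : ∀ t : ℤ, 1 ≤ t → (∃ q, IsGap D.word q ∧ (h q : ℤ) - g q ≤ -t) →
      ((Pd_C D.word).filter (fun l =>
        (h (Pd_cA c l (Pd_gp D.word l)) : ℤ) - g (Pd_cA c l (Pd_gp D.word l)) ≤ -t ∧
        (h (Pd_cB c l (Pd_gp D.word l)) : ℤ) - g (Pd_cB c l (Pd_gp D.word l)) ≤ -t)).card + 1 ≤
        (s.filter (fun p => (h p : ℤ) - g p ≤ -t)).card)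
    (p : ℕ × ℕ) (hp : IsGap D.word p) :
    ex D.word h + 2 * |(h p : ℤ) - g p| ≤ ex D.word g := by
  set d : ℕ × ℕ → ℤ := fun q => (h q : ℤ) - g q with hd
  have hdreg : RegFun D.word d := by
    intro p q hpq
    simp only [hd, hh p q hpq, hg p q hpq]
  -- the bound
  obtain ⟨K, hK⟩ : ∃ K : ℕ, ∀ q, IsGap D.word q → |d q| ≤ K := by
    refine ⟨∑ q ∈ s, (d q).natAbs, fun q hq => ?_⟩
    obtain ⟨q', hq', hqq⟩ := hs.ex q hq
    rw [Pd_regFun_same hdreg hqq]
    have h1 : (d q').natAbs ≤ ∑ q ∈ s, (d q).natAbs :=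
      Finset.single_le_sum (f := fun q => (d q).natAbs) (fun _ _ => Nat.zero_le _) hq'
    have h2 : |d q'| = ((d q').natAbs : ℤ) := (Int.natCast_natAbs _).symm
    rw [h2]
    exact_mod_cast h1
  -- Gauss–Bonnet
  have gb1 := gauss_bonnet D hcon hX s hs (fun p => (h p : ℤ))
    (fun p q hpq => by simp only [hh p q hpq]) (by simp [h0])
  have gb2 := gauss_bonnet D hcon hX s hs (fun p => (g p : ℤ))
    (fun p q hpq => by simp only [hg p q hpq]) (by simp [g0])
  have e1 := Pd_ex D.word hcase h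
  have e2 := Pd_ex D.word hcase g
  rw [gb1] at e1
  rw [gb2] at e2
  set cA : ℕ → ℕ × ℕ := fun l => Pd_cA c l (Pd_gp D.word l) with hcA
  set cB : ℕ → ℕ × ℕ := fun l => Pd_cB c l (Pd_gp D.word l) with hcB
  have e3 : ∑ l ∈ Pd_C D.word, max (h (cA l) : ℤ) (h (cB l)) -
      ∑ l ∈ Pd_C D.word, max (g (cA l) : ℤ) (g (cB l)) =
      ∑ l ∈ Pd_C D.word, max (d (cA l)) (d (cB l)) := by
    rw [← Finset.sum_sub_distrib]
    refine Finset.sum_congr rfl fun l hl => ?_
    obtain ⟨h1, h2⟩ := hm l _ (Pd_mem_C.mp hl)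
    have h1' : g (cA l) = m := h1
    have h2' : g (cB l) = m := h2
    simp only [hd, h1', h2', max_self]
    rw [max_sub_sub_right]
  have e4 : ∑ p ∈ s, (h p : ℤ) - ∑ p ∈ s, (g p : ℤ) = ∑ p ∈ s, d p := by
    rw [← Finset.sum_sub_distrib]
  -- layers
  have l1 : ∑ p ∈ s, d p = ∑ t ∈ Finset.range K,
      (((s.filter (fun p => (t : ℤ) + 1 ≤ d p)).card : ℤ) -
        ((s.filter (fun p => d p ≤ -((t : ℤ) + 1))).card : ℤ)) := by
    have : ∑ p ∈ s, d p = ∑ p ∈ s, ∑ t ∈ Finset.range K, ((if (t : ℤ) + 1 ≤ d p then (1 : ℤ) else 0) -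
        (if d p ≤ -((t : ℤ) + 1) then 1 else 0)) :=
      Finset.sum_congr rfl fun q hq => Pd_layer K (d q) (hK q (Pd_gaps hs q hq))
    rw [this, Finset.sum_comm]
    refine Finset.sum_congr rfl fun t _ => ?_
    rw [Finset.sum_sub_distrib, Finset.card_filter, Finset.card_filter]
    push_cast
    rfl
  have l2 : ∑ l ∈ Pd_C D.word, max (d (cA l)) (d (cB l)) = ∑ t ∈ Finset.range K,
      (((Pd_C D.word).filter (fun l => (t : ℤ) + 1 ≤ d (cA l) ∨ (t : ℤ) + 1 ≤ d (cB l))).card -
        (((Pd_C D.word).filter (fun l => d (cA l) ≤ -((t : ℤ) + 1) ∧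
          d (cB l) ≤ -((t : ℤ) + 1))).card : ℤ)) := by
    have : ∑ l ∈ Pd_C D.word, max (d (cA l)) (d (cB l)) = ∑ l ∈ Pd_C D.word,
        ∑ t ∈ Finset.range K, ((if (t : ℤ) + 1 ≤ max (d (cA l)) (d (cB l)) then (1 : ℤ) else 0) -
        (if max (d (cA l)) (d (cB l)) ≤ -((t : ℤ) + 1) then 1 else 0)) := by
      refine Finset.sum_congr rfl fun l hl => Pd_layer K _ ?_
      obtain ⟨h1, h2⟩ := Pd_corner_gap (c := c) D (Pd_mem_C.mp hl)
      have h3 := hK _ h1
      have h4 := hK _ h2
      rcases max_choice (d (cA l)) (d (cB l)) with h5 | h5 <;> rw [h5]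
      · exact h3
      · exact h4
    rw [this, Finset.sum_comm]
    refine Finset.sum_congr rfl fun t _ => ?_
    rw [Finset.sum_sub_distrib, Finset.card_filter, Finset.card_filter]
    push_cast
    simp only [le_max_iff, max_le_iff]
  have l3 := Pd_layer_abs K (d p) (hK p hp)
  have key : ∑ p ∈ s, d p - ∑ l ∈ Pd_C D.word, max (d (cA l)) (d (cB l)) ≤ - |d p| := by
    rw [l1, l2, l3, ← Finset.sum_sub_distrib, ← Finset.sum_neg_distrib]
    refine Finset.sum_le_sum fun t _ => ?_
    have u1 : ((s.filter (fun p => (t : ℤ) + 1 ≤ d p)).card : ℤ) +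
        (if (t : ℤ) + 1 ≤ d p then 1 else 0) ≤
        ((Pd_C D.word).filter (fun l => (t : ℤ) + 1 ≤ d (cA l) ∨ (t : ℤ) + 1 ≤ d (cB l))).card := by
      by_cases hq : ∃ q, IsGap D.word q ∧ (t : ℤ) + 1 ≤ d q
      · have h2 : ((s.filter (fun p => (t : ℤ) + 1 ≤ d p)).card : ℤ) + 1 ≤
          ((Pd_C D.word).filter (fun l => (t : ℤ) + 1 ≤ d (cA l) ∨
            (t : ℤ) + 1 ≤ d (cB l))).card := Pd_cast (hU (t + 1) (by omega) hq)
        split_ifs <;> linarith
      · push Not at hq
        have h1 : s.filter (fun p => (t : ℤ) + 1 ≤ d p) = ∅ := by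
          refine Finset.filter_eq_empty_iff.mpr fun q hq' => ?_
          have := hq q (Pd_gaps hs q hq')
          omega
        have h2 : ¬ ((t : ℤ) + 1 ≤ d p) := by
          have := hq p hp
          omega
        rw [h1, if_neg h2]
        simp
    have u2 : (((Pd_C D.word).filter (fun l => d (cA l) ≤ -((t : ℤ) + 1) ∧
          d (cB l) ≤ -((t : ℤ) + 1))).card : ℤ) + (if d p ≤ -((t : ℤ) + 1) then 1 else 0) ≤
        (s.filter (fun p => d p ≤ -((t : ℤ) + 1))).card := by
      by_cases hq : ∃ q, IsGap D.word q ∧ d q ≤ -((t : ℤ) + 1)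
      · have h2 : (((Pd_C D.word).filter (fun l => d (cA l) ≤ -((t : ℤ) + 1) ∧
          d (cB l) ≤ -((t : ℤ) + 1))).card : ℤ) + 1 ≤
          (s.filter (fun p => d p ≤ -((t : ℤ) + 1))).card := Pd_cast (hV (t + 1) (by omega) hq)
        split_ifs <;> linarith
      · push Not at hq
        have h1 : (Pd_C D.word).filter (fun l => d (cA l) ≤ -((t : ℤ) + 1) ∧
            d (cB l) ≤ -((t : ℤ) + 1)) = ∅ := by
          refine Finset.filter_eq_empty_iff.mpr fun l hl => ?_
          have := hq _ (Pd_corner_gap (c := c) D (Pd_mem_C.mp hl)).1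
          intro h2
          have h3 := h2.1
          simp only [hcA] at h3
          omega
        have h2 : ¬ (d p ≤ -((t : ℤ) + 1)) := by
          have := hq p hp
          omega
        rw [h1, if_neg h2]
        simp
    linarith
  have e5 : ex D.word h - ex D.word g = 2 * (∑ p ∈ s, d p -
      ∑ l ∈ Pd_C D.word, max (d (cA l)) (d (cB l))) := by
    rw [e1, e2, ← e3, ← e4]; ring
  linarith

/-! ### colourings -/

theorem Pd_col_ext {w : List Ev} {r : ℕ} {h : ℕ × ℕ → ℕ} (hc : Coloring w r h) {p : ℕ × ℕ}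
    (hp : External w p) : h p = 0 := by
  rcases hp with hp | ⟨l, i, he, hp⟩
  · rw [Pd_regFun_same hc.step hp, hc.outer]
  · rw [Pd_regFun_same hc.step hp, hc.hole l i he]

theorem Pd_adm_symm {r a b : ℕ} (h : adm r a b) : adm r b a := by
  obtain ⟨h1, h2, h3, h4⟩ := h
  exact ⟨h2, h1, by omega, by omega⟩

/-- the two sides of a strand -/
theorem Pd_col_side {w : List Ev} {r : ℕ} {h : ℕ × ℕ → ℕ} (hcol : Coloring w r h) {p : ℕ × ℕ}
    (hp : IsStrand w p) {c : ℕ} (hc : c < 2) :
    adm r (h (Pd_side c p)) (h (Pd_side (1 - c) p)) := by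
  have h1 := hcol.adm p.1 p.2 hp.1 hp.2
  unfold Pd_side
  by_cases h2 : p.2 % 2 = c
  · rw [if_pos h2, if_neg (by omega)]
    exact h1
  · rw [if_neg h2, if_pos (by omega)]
    exact Pd_adm_symm h1

/-- one of the sides is external -/
theorem Pd_ext_side {w : List Ev} (hh : HomTrivial w) {p : ℕ × ℕ}
    (h : External w p ∨ External w (p.1, p.2 + 1)) : External w (Pd_side 0 p) := by
  unfold Pd_side
  rcases h with h | h
  · rw [if_pos (Pd_ext_even hh h)]; exact h
  · have := Pd_ext_even hh h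
    simp only at this
    rw [if_neg (by omega)]; exact h

theorem Pd_regFun_hA {w : List Ev} (r : ℕ) : RegFun w (hA w r) := by
  intro p q hpq
  have h1 := Pd_regFun_par w p q hpq
  have h2 := Pd_regFun_ext w p q hpq
  simp only at h1
  unfold hA
  rw [h1]
  by_cases h3 : External w p
  · have h4 : External w q := by rw [← h2]; exact h3
    rw [if_pos h3, if_pos h4]
  · have h4 : ¬ External w q := by rw [← h2]; exact h3
    rw [if_neg h3, if_neg h4]

theorem Pd_regFun_hB {w : List Ev} (r : ℕ) : RegFun w (hB r) := by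
  intro p q hpq
  have h1 := Pd_regFun_par w p q hpq
  simp only at h1
  unfold hB
  rw [h1]

theorem Pd_hA_odd {w : List Ev} {r : ℕ} {p : ℕ × ℕ} (h : p.2 % 2 = 1) : hA w r p = r := by
  unfold hA; rw [if_pos h]

theorem Pd_hA_ext {w : List Ev} {r : ℕ} (hh : HomTrivial w) {p : ℕ × ℕ} (h : External w p) :
    hA w r p = 0 := by
  unfold hA; rw [if_neg (by have := Pd_ext_even hh h; omega), if_pos h]

theorem Pd_hA_even {w : List Ev} {r : ℕ} {p : ℕ × ℕ} (h : p.2 % 2 = 0) (h' : ¬ External w p) :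
    hA w r p = 2 * r := by
  unfold hA; rw [if_neg (by omega), if_neg h']

theorem Pd_hB_odd {r : ℕ} {p : ℕ × ℕ} (h : p.2 % 2 = 1) : hB r p = r := by
  unfold hB; rw [if_pos h]

theorem Pd_hB_even {r : ℕ} {p : ℕ × ℕ} (h : p.2 % 2 = 0) : hB r p = 0 := by
  unfold hB; rw [if_neg (by omega)]

/-- The dominant colouring in case A. -/
theorem planarA (D : Diagram) (hc : Connected D.word) (hX : 0 < crossings D.word)
    (hs : Simple D.word) (hh : HomTrivial D.word) (hA' : CaseA D.word) (r : ℕ) (hr : 0 < r) :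
    Coloring D.word r (hA D.word r) ∧ ∀ h, Coloring D.word r h → ∀ p, IsGap D.word p →
      ex D.word h + 2 * |(h p : ℤ) - hA D.word r p| ≤ ex D.word (hA D.word r) := by
  have h00 : External D.word (0, 0) := Or.inl (EqvGen.refl _)
  refine ⟨⟨Pd_regFun_hA r, ?_, Pd_hA_ext hh h00, ?_⟩, ?_⟩
  · intro l j hl hj
    by_cases hj2 : j % 2 = 1
    · rw [Pd_hA_odd (p := (l, j)) hj2]
      by_cases he : External D.word (l, j + 1)
      · rw [Pd_hA_ext hh he]; unfold adm; omega
      · rw [Pd_hA_even (by simp only; omega) he]; unfold adm; omega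
    · rw [Pd_hA_odd (p := (l, j + 1)) (by simp only; omega)]
      by_cases he : External D.word (l, j)
      · rw [Pd_hA_ext hh he]; unfold adm; omega
      · rw [Pd_hA_even (by simp only; omega) he]; unfold adm; omega
  · intro l i he
    exact Pd_hA_ext hh (Or.inr ⟨l, i, he, EqvGen.refl _⟩)
  · intro h hcol p hp
    obtain ⟨s, hreps, _⟩ := exists_reps D
    have hcase : Pd_case 1 D.word :=
      ⟨fun i hi => by have := hA'.1 i hi; omega, fun i hi => by have := hA'.2 i hi; omega⟩
    have hreg : RegFun D.word (fun q => (h q : ℤ) - hA D.word r q) := by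
      intro p q hpq
      simp only [hcol.step p q hpq, Pd_regFun_hA r p q hpq]
    -- sides of a strand: `1` is odd, `0` even
    have side : ∀ q, IsStrand D.word q →
        (External D.word (Pd_side 0 q) ∧ h (Pd_side 1 q) = r ∧ h (Pd_side 0 q) = 0 ∧
          hA D.word r (Pd_side 1 q) = r ∧ hA D.word r (Pd_side 0 q) = 0) ∨
        (¬ External D.word (Pd_side 0 q) ∧ h (Pd_side 0 q) ≤ h (Pd_side 1 q) + r ∧
          hA D.word r (Pd_side 1 q) = r ∧ hA D.word r (Pd_side 0 q) = 2 * r) := by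
      intro q hq
      have h1 := Pd_col_side hcol hq (c := 1) (by norm_num)
      have h2 := Pd_side_par (c := 1) (by norm_num) q
      have h3 := Pd_side_par (c := 0) (by norm_num) q
      by_cases he : External D.word (Pd_side 0 q)
      · left
        have h4 := Pd_col_ext hcol he
        refine ⟨he, ?_, h4, Pd_hA_odd h2, Pd_hA_ext hh he⟩
        obtain ⟨a1, a2, a3, a4⟩ := h1
        simp only [Nat.sub_self] at a1 a2 a3
        omega
      · right
        refine ⟨he, ?_, Pd_hA_odd h2, Pd_hA_even h3 he⟩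
        exact h1.2.1
    refine Pd_main D hc hX hreps hcase h (hA D.word r) hcol.step (Pd_regFun_hA r) hcol.outer
      (Pd_hA_ext hh h00) r ?_ ?_ ?_ p hp
    · intro l i _
      exact ⟨Pd_hA_odd (Pd_cA_par (by norm_num) l i), Pd_hA_odd (Pd_cB_par (by norm_num) l i)⟩
    · intro t ht hq
      refine Pd_strict D hc hX hreps (c := 1) (by norm_num) _
        (fun p q hpq => by have := hreg p q hpq; simp only at this; simp only [this]) ?_ hs ?_ hq
      · intro q hq hq2
        simp only [Nat.sub_self] at hq2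
        rcases side q hq with ⟨_, a1, a2, a3, a4⟩ | ⟨_, a1, a3, a4⟩ <;>
          rw [a3] <;> rw [a4] at hq2 <;> omega
      · intro q hq hq2
        have he := Pd_ext_side hh hq2
        rcases side q hq with ⟨_, a1, a2, a3, a4⟩ | ⟨b, a1, a3, a4⟩
        · rw [a1, a3]; omega
        · exact absurd he b
    · intro t ht hq
      have ha : ∀ p, IsStrand D.word p → (h (Pd_side 1 p) : ℤ) - hA D.word r (Pd_side 1 p) ≤ -t →
          (h (Pd_side (1 - 1) p) : ℤ) - hA D.word r (Pd_side (1 - 1) p) ≤ -t := by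
        intro q hq hq2
        simp only [Nat.sub_self]
        rcases side q hq with ⟨_, a1, a2, a3, a4⟩ | ⟨_, a1, a3, a4⟩ <;>
          rw [a4] <;> rw [a3] at hq2 <;> omega
      by_cases hne : ∃ p, IsStrand D.word p ∧
          (h (Pd_side 1 p) : ℤ) - hA D.word r (Pd_side 1 p) ≤ -t
      · have := Pd_compl D hc hX hreps (c := 1) (by norm_num)
          (fun q => (h q : ℤ) - hA D.word r q ≤ -t)
          (fun p q hpq => by have := hreg p q hpq; simp only at this; simp only [this]) ha hne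
        omega
      · have h1 : (Pd_C D.word).filter (fun l =>
            (h (Pd_cA 1 l (Pd_gp D.word l)) : ℤ) - hA D.word r (Pd_cA 1 l (Pd_gp D.word l)) ≤ -t ∧
            (h (Pd_cB 1 l (Pd_gp D.word l)) : ℤ) - hA D.word r (Pd_cB 1 l (Pd_gp D.word l)) ≤ -t)
              = ∅ := by
          refine Finset.filter_eq_empty_iff.mpr fun l hl h2 => hne ?_
          obtain ⟨q, hq1, hq2⟩ := Pd_gap_side D hX
            (Pd_corner_gap (c := 1) D (Pd_mem_C.mp hl)).1 (Pd_cA_par (by norm_num) l _)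
          refine ⟨q, hq1, ?_⟩
          have h3 := Pd_regFun_same hreg hq2
          rw [← h3]
          exact h2.1
        rw [h1, Finset.card_empty, zero_add]
        obtain ⟨q, hq1, hq2⟩ := hq
        obtain ⟨q', hq', hqq⟩ := hreps.ex q hq1
        refine Finset.card_pos.mpr ⟨q', Finset.mem_filter.mpr ⟨hq', ?_⟩⟩
        have h3 := Pd_regFun_same hreg hqq
        rw [← h3]
        exact hq2

theorem planarB (D : Diagram) (hc : Connected D.word) (hX : 0 < crossings D.word)
    (hs : Simple D.word) (hh : HomTrivial D.word) (hB' : CaseB D.word) (r : ℕ) (hr : 0 < r) :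
    Coloring D.word r (hB r) ∧ ∀ h, Coloring D.word r h → ∀ p, IsGap D.word p →
      ex D.word h + 2 * |(h p : ℤ) - hB r p| ≤ ex D.word (hB r) := by
  have h00 : External D.word (0, 0) := Or.inl (EqvGen.refl _)
  refine ⟨⟨Pd_regFun_hB r, ?_, rfl, ?_⟩, ?_⟩
  · intro l j hl hj
    by_cases hj2 : j % 2 = 1
    · rw [Pd_hB_odd (p := (l, j)) hj2, Pd_hB_even (by simp only; omega)]
      unfold adm; omega
    · rw [Pd_hB_odd (p := (l, j + 1)) (by simp only; omega), Pd_hB_even (by simp only; omega)]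
      unfold adm; omega
  · intro l i he
    exact Pd_hB_even (Pd_ext_even hh (Or.inr ⟨l, i, he, EqvGen.refl _⟩))
  · intro h hcol p hp
    obtain ⟨s, hreps, _⟩ := exists_reps D
    have hcase : Pd_case 0 D.word :=
      ⟨fun i hi => by have := hB'.1 i hi; omega, fun i hi => by have := hB'.2 i hi; omega⟩
    have hreg : RegFun D.word (fun q => (h q : ℤ) - hB r q) := by
      intro p q hpq
      simp only [hcol.step p q hpq, Pd_regFun_hB r p q hpq]
    have side : ∀ q, IsStrand D.word q →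
        hB r (Pd_side 1 q) = r ∧ hB r (Pd_side 0 q) = 0 ∧
          h (Pd_side 1 q) ≤ h (Pd_side 0 q) + r ∧
          (External D.word (Pd_side 0 q) → h (Pd_side 0 q) = 0) := by
      intro q hq
      have h1 := Pd_col_side hcol hq (c := 1) (by norm_num)
      have h2 := Pd_side_par (c := 1) (by norm_num) q
      have h3 := Pd_side_par (c := 0) (by norm_num) q
      exact ⟨Pd_hB_odd h2, Pd_hB_even h3, h1.1, fun he => Pd_col_ext hcol he⟩
    refine Pd_main D hc hX hreps hcase h (hB r) hcol.step (Pd_regFun_hB r) hcol.outer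
      rfl 0 ?_ ?_ ?_ p hp
    · intro l i _
      exact ⟨Pd_hB_even (Pd_cA_par (by norm_num) l i), Pd_hB_even (Pd_cB_par (by norm_num) l i)⟩
    · intro t ht hq
      refine Pd_strict D hc hX hreps (c := 0) (by norm_num) _
        (fun p q hpq => by have := hreg p q hpq; simp only at this; simp only [this]) ?_ hs ?_ hq
      · intro q hq hq2
        simp only [Nat.sub_zero] at hq2
        obtain ⟨a1, a2, a3, a4⟩ := side q hq
        rw [a2]; rw [a1] at hq2; omega
      · intro q hq hq2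
        have he := Pd_ext_side hh hq2
        obtain ⟨a1, a2, a3, a4⟩ := side q hq
        have := a4 he
        rw [a2, this]; omega
    · intro t ht hq
      have h1 : (Pd_C D.word).filter (fun l =>
          (h (Pd_cA 0 l (Pd_gp D.word l)) : ℤ) - hB r (Pd_cA 0 l (Pd_gp D.word l)) ≤ -t ∧
          (h (Pd_cB 0 l (Pd_gp D.word l)) : ℤ) - hB r (Pd_cB 0 l (Pd_gp D.word l)) ≤ -t)
            = ∅ := by
        refine Finset.filter_eq_empty_iff.mpr fun l hl h2 => ?_
        have h3 := h2.1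
        rw [Pd_hB_even (Pd_cA_par (by norm_num) l _)] at h3
        omega
      rw [h1, Finset.card_empty, zero_add]
      obtain ⟨q, hq1, hq2⟩ := hq
      obtain ⟨q', hq', hqq⟩ := hreps.ex q hq1
      refine Finset.card_pos.mpr ⟨q', Finset.mem_filter.mpr ⟨hq', ?_⟩⟩
      have h3 := Pd_regFun_same hreg hqq
      rw [← h3]
      exact hq2

end Pool.Agent.Tait
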