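import Pool.Agent.Lib.MP_150b40_gt.Mir
import Pool.Agent.Lib.MP_150b40_gt.Adm

/-! # Planar combinatorics: colourings of the regions by heights -/

namespace Pool.Agent.Tait

/-- `(l, j)` is a gap of the diagram. -/
def IsGap (w : List Ev) (p : ℕ × ℕ) : Prop := p.1 ≤ w.length ∧ p.2 ≤ lev w p.1

/-- Heights of the regions, given as a function on the gaps. -/
structure Coloring (w : List Ev) (r : ℕ) (h : ℕ × ℕ → ℕ) : Prop where
  step : ∀ p q, GapStep w p q → h p = h q
  adm : ∀ l j, l ≤ w.length → j < lev w l → adm r (h (l, j)) (h (l, j + 1))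
  outer : h (0, 0) = 0
  hole : ∀ l i, w[l]? = some (Ev.hole i) → h (l, i) = 0

/-- exponent of the weight of a piece at level `l`, apart from `r^2` for each crossing -/
def exEv (h : ℕ × ℕ → ℕ) (l : ℕ) : Ev → ℤ
  | Ev.cup i => (h (l + 1, i + 1) : ℤ) - h (l, i)
  | Ev.cap i => (h (l, i + 1) : ℤ) - h (l, i)
  | Ev.pos i => -|(h (l, i + 1) : ℤ) - h (l + 1, i + 1)|
  | Ev.neg i => (h (l, i + 1) : ℤ) + h (l + 1, i + 1) - h (l, i) - h (l, i + 2)
      - |(h (l, i) : ℤ) - h (l, i + 2)|
  | Ev.hole _ => 0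

/-- exponent of the weight of a colouring -/
def ex (w : List Ev) (h : ℕ × ℕ → ℕ) : ℤ :=
  ∑ l ∈ Finset.range w.length, (w[l]?).elim 0 (exEv h l)

/-- All positive crossings have an even gap on the left, all negative ones an odd one. -/
def CaseA (w : List Ev) : Prop :=
  (∀ i, Ev.pos i ∈ w → i % 2 = 0) ∧ ∀ i, Ev.neg i ∈ w → i % 2 = 1

def CaseB (w : List Ev) : Prop :=
  (∀ i, Ev.pos i ∈ w → i % 2 = 1) ∧ ∀ i, Ev.neg i ∈ w → i % 2 = 0

/-- the dominant colouring -/
noncomputable def hA (w : List Ev) (r : ℕ) (p : ℕ × ℕ) : ℕ :=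
  open Classical in if p.2 % 2 = 1 then r else if External w p then 0 else 2 * r

def hB (r : ℕ) (p : ℕ × ℕ) : ℕ := if p.2 % 2 = 1 then r else 0

/-! ## planar lemmas. `f` is a function on regions if it is constant along `GapStep`. -/

/-- function on the regions -/
def RegFun {α : Type*} (w : List Ev) (f : ℕ × ℕ → α) : Prop := ∀ p q, GapStep w p q → f p = f q

/-- gradient across a crossing of a function on the odd regions -/
def gOdd (f : ℕ × ℕ → ℝ) (l i : ℕ) : ℝ :=
  if i % 2 = 0 then f (l + 1, i + 1) - f (l, i + 1) else f (l, i) - f (l, i + 2)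

/-- gradient across a crossing of a function on the even regions -/
def gEven (f : ℕ × ℕ → ℝ) (l i : ℕ) : ℝ :=
  if i % 2 = 0 then f (l, i + 2) - f (l, i) else f (l + 1, i + 1) - f (l, i + 1)

/-- sum over the crossings -/
noncomputable def sumX (w : List Ev) (F : ℕ → ℕ → ℝ) : ℝ :=
  ∑ l ∈ Finset.range w.length, (w[l]?).elim 0 (fun e => if e.isX then F l e.gap else 0)

/-- the gaps of a diagram, as a finite set -/
def gaps (w : List Ev) : Finset (ℕ × ℕ) :=
  (Finset.range (w.length + 1)).biUnion fun l => (Finset.range (lev w l + 1)).image fun j => (l, j)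

/-- a set of representatives of the regions: `Reps w s` -/
structure Reps (w : List Ev) (s : Finset (ℕ × ℕ)) : Prop where
  sub : s ⊆ gaps w
  ex : ∀ p, IsGap w p → ∃ q ∈ s, SameRegion w p q
  uniq : ∀ p ∈ s, ∀ q ∈ s, SameRegion w p q → p = q

/-- the contribution of a piece to the Gauss–Bonnet formula -/
def gbEv (f : ℕ × ℕ → ℤ) (l : ℕ) : Ev → ℤ
  | Ev.cup i => f (l + 1, i + 1) - f (l, i)
  | Ev.cap i => f (l, i + 1) - f (l, i)
  | Ev.pos i => f (l, i + 1) + f (l + 1, i + 1)
  | Ev.neg i => f (l, i + 1) + f (l + 1, i + 1)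
  | Ev.hole _ => 0

end Pool.Agent.Tait
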