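import Pool.Agent.Lib.MP_150b40_gt.Fc
import Pool.Agent.Lib.MP_150b40_gt.Mir

/-! # Operators of words and the state sum -/

namespace Pool.Agent.Tait

noncomputable section

/-- insert two gaps of heights `b` and `η i` after the gap `i` -/
def ins2 (i b : ℕ) (η : ℕ → ℕ) : ℕ → ℕ :=
  fun j => if j ≤ i then η j else if j = i + 1 then b else η (j - 2)

/-- remove the gaps `i+1`, `i+2` -/
def rem2 (i : ℕ) (η : ℕ → ℕ) : ℕ → ℕ := fun j => if j ≤ i then η j else η (j + 2)

/-- change the height of the gap `i+1` -/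
def upd (i d : ℕ) (η : ℕ → ℕ) : ℕ → ℕ := fun j => if j = i + 1 then d else η j

/-- The state sum: `η` are the heights of the gaps before the word `w`. `M` bounds the heights. -/
def run (A : ℝ) (r M : ℕ) : List Ev → (ℕ → ℕ) → ℝ
  | [], _ => 1
  | Ev.cup i :: w, η => ∑ b ∈ Finset.range M,
      if adm r (η i) b then wt A (η i) b * run A r M w (ins2 i b η) else 0
  | Ev.cap i :: w, η =>
      if η i = η (i + 2) ∧ adm r (η i) (η (i + 1)) then
        wt A (η i) (η (i + 1)) * run A r M w (rem2 i η) else 0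
  | Ev.pos i :: w, η => ∑ d ∈ Finset.range M,
      Xp A r (η i) (η (i + 2)) (η (i + 1)) d * run A r M w (upd i d η)
  | Ev.neg i :: w, η => ∑ d ∈ Finset.range M,
      Xn A r (η i) (η (i + 2)) (η (i + 1)) d * run A r M w (upd i d η)
  | Ev.hole i :: w, η => if η i = 0 then run A r M w η else 0

/-- a height bound which is always sufficient -/
def hbound (r : ℕ) (w : List Ev) : ℕ := (w.length + 1) * r + 1

/-- The invariant. -/
def J (A : ℝ) (r : ℕ) (w : List Ev) : ℝ := run A r (hbound r w) w (fun _ => 0)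

/-- coloured operator of a piece -/
def opEv (A : ℝ) (hA : 1 < A) (r : ℕ) (hr : 0 < r) : Ev → Rm
  | Ev.cup i => (model A hA).shn (r * i) (jw A hA r hr).cupc
  | Ev.cap i => (model A hA).shn (r * i) (star (jw A hA r hr).cupc)
  | Ev.pos i => (model A hA).shn (r * i) ((model A hA).X (model A hA).sg r r)
  | Ev.neg i => (model A hA).shn (r * i) ((model A hA).X (model A hA).sg' r r)
  | Ev.hole i => (model A hA).shn (r * i) hm

/-- coloured operator of a word -/
def opW (A : ℝ) (hA : 1 < A) (r : ℕ) (hr : 0 < r) : List Ev → Rm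
  | [] => 1
  | e :: w => opW A hA r hr w * opEv A hA r hr e

/-- The vacuum: the background path `0,1,…,r,r-1,…,0,1,…`. -/
def vacFun (r : ℕ) (j : ℕ) : ℕ :=
  if (j + 1) % (2 * r) ≤ r then (j + 1) % (2 * r) else 2 * r - (j + 1) % (2 * r)

/-! ### the background path -/

/-- heights of the background path -/
def Ra_H (r n : ℕ) : ℕ := if n % (2 * r) ≤ r then n % (2 * r) else 2 * r - n % (2 * r)

theorem Ra_H_eq {r : ℕ} (hr : 0 < r) (q m : ℕ) (hm : m ≤ 2 * r) :
    Ra_H r (2 * r * q + m) = if m ≤ r then m else 2 * r - m := by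
  unfold Ra_H
  rcases hm.eq_or_lt with rfl | hlt
  · rw [← Nat.mul_succ, Nat.mul_mod_right]
    split_ifs <;> omega
  · rw [Nat.mul_add_mod, Nat.mod_eq_of_lt hlt]

theorem Ra_H_adj {r : ℕ} (hr : 0 < r) (n : ℕ) : adj (Ra_H r n) (Ra_H r (n + 1)) := by
  have h1 : n % (2 * r) < 2 * r := Nat.mod_lt _ (by omega)
  have h2 : n = 2 * r * (n / (2 * r)) + n % (2 * r) := (Nat.div_add_mod n (2 * r)).symm
  have h3 : n + 1 = 2 * r * (n / (2 * r)) + (n % (2 * r) + 1) := by omega
  have e1 := Ra_H_eq hr (n / (2 * r)) (n % (2 * r)) h1.le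
  have e2 := Ra_H_eq hr (n / (2 * r)) (n % (2 * r) + 1) h1
  rw [← h2] at e1
  rw [← h3] at e2
  rw [e1, e2]
  unfold adj
  split_ifs <;> omega

theorem Ra_H_ne {r : ℕ} (hr : 0 < r) (k j : ℕ) (hj : j + 2 ≤ r) :
    Ra_H r (r * k + j) ≠ Ra_H r (r * k + j + 2) := by
  rcases Nat.even_or_odd' k with ⟨q, rfl | rfl⟩
  · have e1 := Ra_H_eq hr q j (by omega)
    have e2 := Ra_H_eq hr q (j + 2) (by omega)
    have h1 : r * (2 * q) + j = 2 * r * q + j := by ring
    have h2 : r * (2 * q) + j + 2 = 2 * r * q + (j + 2) := by ring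
    rw [h2, h1, e1, e2]
    split_ifs <;> omega
  · have e1 := Ra_H_eq hr q (r + j) (by omega)
    have e2 := Ra_H_eq hr q (r + (j + 2)) (by omega)
    have h1 : r * (2 * q + 1) + j = 2 * r * q + (r + j) := by ring
    have h2 : r * (2 * q + 1) + j + 2 = 2 * r * q + (r + (j + 2)) := by ring
    rw [h2, h1, e1, e2]
    split_ifs <;> omega

theorem Ra_H_zero (r : ℕ) : Ra_H r 0 = 0 := by
  unfold Ra_H
  simp

/-- `f` is a height path starting at `a` -/
def Ra_isP (a : ℕ) (f : ℕ → ℕ) : Prop := adj a (f 0) ∧ ∀ j, adj (f j) (f (j + 1))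

theorem Ra_isP_vac {r : ℕ} (hr : 0 < r) : Ra_isP 0 (vacFun r) := by
  refine ⟨?_, fun j => Ra_H_adj hr (j + 1)⟩
  have h := Ra_H_adj hr 0
  rw [Ra_H_zero] at h
  exact h

theorem exists_vac (r : ℕ) (hr : 0 < r) : ∃ t : Path 0, t.1 = vacFun r :=
  ⟨⟨vacFun r, Ra_isP_vac hr⟩, rfl⟩

def vac (r : ℕ) (hr : 0 < r) : V 0 := Finsupp.single (exists_vac r hr).choose 1

/-- The coloured vectors. -/
def KK (A : ℝ) (hA : 1 < A) (r : ℕ) (hr : 0 < r) (F : V 0) : Prop :=
  ∀ k, ev ((model A hA).shn (r * k) (jw A hA r hr).P) 0 F = F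

/-- the vector of a path -/
def Ra_pv (a : ℕ) (f : ℕ → ℕ) (h : Ra_isP a f) : V a := Finsupp.single ⟨f, h⟩ 1

/-- heights of the gaps of a path -/
def Ra_hg (a : ℕ) (f : ℕ → ℕ) : ℕ → ℕ
  | 0 => a
  | n + 1 => f n

theorem Ra_isP_tail {a : ℕ} {f : ℕ → ℕ} (h : Ra_isP a f) : Ra_isP (f 0) (fun j => f (j + 1)) :=
  ⟨h.2 0, fun j => h.2 (j + 1)⟩

theorem Ra_Sm_pv {a : ℕ} {f : ℕ → ℕ} (h : Ra_isP a f) :
    Ra_pv a f h = Sm a (f 0) (Ra_pv (f 0) (fun j => f (j + 1)) (Ra_isP_tail h)) := by
  unfold Ra_pv Sm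
  rw [dif_pos h.1, Finsupp.lmapDomain_apply, Finsupp.mapDomain_single]
  congr 1
  apply Subtype.ext
  funext j
  cases j <;> rfl

theorem Ra_vac_eq (r : ℕ) (hr : 0 < r) : vac r hr = Ra_pv 0 (vacFun r) (Ra_isP_vac hr) := by
  unfold vac Ra_pv
  congr 1
  exact Subtype.ext (exists_vac r hr).choose_spec

section

variable {A : ℝ} (hA : 1 < A)

theorem Ra_shn_add {R : Type*} [Ring R] [StarRing R] [Algebra ℝ R] [StarModule ℝ R] {A : ℝ}
    (T : TL R A) (m n : ℕ) (x : R) : T.shn (m + n) x = T.shn m (T.shn n x) := by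
  induction m with
  | zero => rw [Nat.zero_add]; rfl
  | succ m ih => rw [Nat.succ_add]; exact congrArg T.sh ih

theorem Ra_shn_mul {R : Type*} [Ring R] [StarRing R] [Algebra ℝ R] [StarModule ℝ R] {A : ℝ}
    (T : TL R A) (n : ℕ) (x y : R) : T.shn n (x * y) = T.shn n x * T.shn n y := by
  induction n with
  | zero => rfl
  | succ n ih => simp only [TL.shn, ih, map_mul]

theorem Ra_shn_star {R : Type*} [Ring R] [StarRing R] [Algebra ℝ R] [StarModule ℝ R] {A : ℝ}
    (T : TL R A) (n : ℕ) (x : R) : T.shn n (star x) = star (T.shn n x) := by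
  induction n with
  | zero => rfl
  | succ n ih => simp only [TL.shn, ih, T.sh_star]

include hA in
theorem Ra_ev_shn_Sm (x : Rm) (n a b : ℕ) (v : V b) :
    ev ((model A hA).shn (n + 1) x) a (Sm a b v) = Sm a b (ev ((model A hA).shn n x) b v) := by
  have h := ev_sh_Sm hA ((model A hA).shn n x) a b
  exact congrArg (fun f : V b →ₗ[ℝ] V a => f v) h

include hA in
theorem Ra_cap : ∀ (j a : ℕ) (f : ℕ → ℕ) (h : Ra_isP a f), Ra_hg a f j ≠ Ra_hg a f (j + 2) →
    ev ((model A hA).shn j (star (model A hA).u)) a (Ra_pv a f h) = 0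
  | 0, a, f, h, hne => by
    change ev (star (model A hA).u) a (Ra_pv a f h) = 0
    rw [ev_star_u]
    unfold cE
    rw [LinearMap.sum_apply]
    refine Finset.sum_eq_zero fun b _ => ?_
    rw [LinearMap.smul_apply, LinearMap.comp_apply, Ra_Sm_pv h]
    by_cases hb : b = f 0
    · subst hb
      have h1 : Tm a (f 0) (Sm a (f 0) (Ra_pv (f 0) (fun j => f (j + 1)) (Ra_isP_tail h)))
          = Ra_pv (f 0) (fun j => f (j + 1)) (Ra_isP_tail h) :=
        congrArg (fun F : V (f 0) →ₗ[ℝ] V (f 0) =>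
          F (Ra_pv (f 0) (fun j => f (j + 1)) (Ra_isP_tail h))) (Tm_Sm h.1)
      rw [h1, Ra_Sm_pv (Ra_isP_tail h)]
      have h2 : Tm (f 0) a ∘ₗ Sm (f 0) (f (0 + 1)) = 0 := Tm_Sm_ne hne
      have h3 := congrArg (fun F : V (f (0 + 1)) →ₗ[ℝ] V a =>
        F (Ra_pv (f (0 + 1)) (fun j => f (j + 1 + 1)) (Ra_isP_tail (Ra_isP_tail h)))) h2
      simp only [LinearMap.comp_apply, LinearMap.zero_apply] at h3
      rw [h3, smul_zero]
    · have h2 : Tm a b ∘ₗ Sm a (f 0) = 0 := Tm_Sm_ne hb
      have h3 := congrArg (fun F : V (f 0) →ₗ[ℝ] V b =>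
        F (Ra_pv (f 0) (fun j => f (j + 1)) (Ra_isP_tail h))) h2
      simp only [LinearMap.comp_apply, LinearMap.zero_apply] at h3
      rw [h3, map_zero, smul_zero]
  | j + 1, a, f, h, hne => by
    rw [Ra_Sm_pv h, Ra_ev_shn_Sm hA, Ra_cap j (f 0) (fun j => f (j + 1)) (Ra_isP_tail h), map_zero]
    cases j with
    | zero => exact hne
    | succ j => exact hne

variable {r : ℕ} (hr : 0 < r)
include hr hA

theorem Ra_Pfix (a : ℕ) (f : ℕ → ℕ) (h : Ra_isP a f)
    (hne : ∀ j, j + 2 ≤ r → Ra_hg a f j ≠ Ra_hg a f (j + 2)) :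
    ev (jw A hA r hr).P a (Ra_pv a f h) = Ra_pv a f h := by
  have h1 := complete hA hr a (Ra_pv a f h) (fun j hj => Ra_cap hA j a f h (hne j hj))
  rw [ev_P hA hr, LinearMap.sum_apply]
  exact h1.symm

theorem Ra_Pfix_shn : ∀ (m a : ℕ) (f : ℕ → ℕ) (h : Ra_isP a f),
    (∀ j, j + 2 ≤ r → Ra_hg a f (m + j) ≠ Ra_hg a f (m + j + 2)) →
    ev ((model A hA).shn m (jw A hA r hr).P) a (Ra_pv a f h) = Ra_pv a f h
  | 0, a, f, h, hne => by
    refine Ra_Pfix hA hr a f h fun j hj => ?_
    have := hne j hj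
    rwa [Nat.zero_add] at this
  | m + 1, a, f, h, hne => by
    rw [Ra_Sm_pv h, Ra_ev_shn_Sm hA, Ra_Pfix_shn m (f 0) (fun j => f (j + 1)) (Ra_isP_tail h)]
    intro j hj
    have h1 := hne j hj
    have e1 : m + 1 + j = (m + j) + 1 := by omega
    have e2 : m + 1 + j + 2 = (m + j + 2) + 1 := by omega
    rw [e2, e1] at h1
    have h3 : ∀ n, Ra_hg (f 0) (fun j => f (j + 1)) n = Ra_hg a f (n + 1) := by
      intro n
      cases n <;> rfl
    rw [h3, h3]
    exact h1

theorem KK_vac : KK A hA r hr (vac r hr) := by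
  intro k
  rw [Ra_vac_eq]
  refine Ra_Pfix_shn hA hr _ _ _ _ fun j hj => ?_
  have h3 : ∀ n, Ra_hg 0 (vacFun r) n = Ra_H r n := by
    intro n
    cases n with
    | zero => exact (Ra_H_zero r).symm
    | succ n => rfl
  rw [h3, h3]
  exact Ra_H_ne hr k j hj

omit hr hA in
theorem Ra_kk {F : V 0} {x y x' : Rm} (h : x * y = y * x') (hx : ev x' 0 F = F) :
    ev x 0 (ev y 0 F) = ev y 0 F := by
  have h1 : ev x 0 (ev y 0 F) = ev (x * y) 0 F := rfl
  have h2 : ev (y * x') 0 F = ev y 0 (ev x' 0 F) := rfl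
  rw [h1, h, h2, hx]

theorem Ra_comm_lt {k i : ℕ} (hki : k < i) (y : Rm) :
    (model A hA).shn (r * k) (jw A hA r hr).P * (model A hA).shn (r * i) y
      = (model A hA).shn (r * i) y * (model A hA).shn (r * k) (jw A hA r hr).P := by
  obtain ⟨m, rfl⟩ := Nat.exists_eq_add_of_lt hki
  have e : r * (k + m + 1) = r * k + (r + r * m) := by ring
  rw [e, Ra_shn_add, Ra_shn_add _ r, ← Ra_shn_mul, (jw A hA r hr).comm_sh, Ra_shn_mul]

theorem KK_cross {s : Rm} (hs : (model A hA).Br s) (i : ℕ) (F : V 0) (hF : KK A hA r hr F) :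
    KK A hA r hr (ev ((model A hA).shn (r * i) ((model A hA).X s r r)) 0 F) := by
  intro k
  rcases lt_or_ge k i with hki | hki
  · exact Ra_kk (Ra_comm_lt hA hr hki _) (hF k)
  · obtain ⟨m, rfl⟩ := Nat.exists_eq_add_of_le hki
    rcases m with _ | _ | m
    · refine Ra_kk (x' := (model A hA).shn (r * (i + 1)) (jw A hA r hr).P) ?_ (hF (i + 1))
      rw [Nat.add_zero, Nat.mul_succ, Ra_shn_add _ (r * i) r, ← Ra_shn_mul, ← Ra_shn_mul,
        (jw A hA r hr).X_shP hs r]
    · refine Ra_kk (x' := (model A hA).shn (r * i) (jw A hA r hr).P) ?_ (hF i)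
      have e : r * (i + (0 + 1)) = r * i + r := by ring
      rw [e, Ra_shn_add _ (r * i) r, ← Ra_shn_mul, ← Ra_shn_mul, (jw A hA r hr).X_P hs r]
    · refine Ra_kk (x' := (model A hA).shn (r * (i + (m + 1 + 1))) (jw A hA r hr).P) ?_ (hF _)
      have e : r * (i + (m + 1 + 1)) = r * i + ((r + r) + r * m) := by ring
      rw [e, Ra_shn_add _ (r * i), Ra_shn_add _ (r + r), ← Ra_shn_mul, ← Ra_shn_mul,
        (model A hA).X_comm hs r r]

theorem KK_opEv (e : Ev) (F : V 0) (hF : KK A hA r hr F) :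
    KK A hA r hr (ev (opEv A hA r hr e) 0 F) := by
  have hA0 : A ≠ 0 := by linarith
  cases e with
  | cup i =>
    intro k
    unfold opEv
    rcases lt_or_ge k i with hki | hki
    · exact Ra_kk (Ra_comm_lt hA hr hki _) (hF k)
    · obtain ⟨m, rfl⟩ := Nat.exists_eq_add_of_le hki
      rcases m with _ | _ | m
      · refine Ra_kk (x' := 1) ?_ rfl
        rw [Nat.add_zero, ← Ra_shn_mul, (jw A hA r hr).P_cupc, mul_one]
      · refine Ra_kk (x' := 1) ?_ rfl
        have e : r * (i + (0 + 1)) = r * i + r := by ring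
        rw [e, Ra_shn_add _ (r * i) r, ← Ra_shn_mul, (jw A hA r hr).shP_cupc, mul_one]
      · refine Ra_kk (x' := (model A hA).shn (r * (i + m)) (jw A hA r hr).P) ?_ (hF _)
        have e : r * (i + (m + 1 + 1)) = r * i + (2 * r + r * m) := by ring
        have e' : r * (i + m) = r * i + r * m := by ring
        rw [e, e', Ra_shn_add _ (r * i), Ra_shn_add _ (2 * r), Ra_shn_add _ (r * i) (r * m),
          ← Ra_shn_mul, ← Ra_shn_mul, (jw A hA r hr).nat_cupc]
  | cap i =>
    intro k
    unfold opEv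
    rcases lt_or_ge k i with hki | hki
    · exact Ra_kk (Ra_comm_lt hA hr hki _) (hF k)
    · obtain ⟨m, rfl⟩ := Nat.exists_eq_add_of_le hki
      refine Ra_kk (x' := (model A hA).shn (r * (i + m + 2)) (jw A hA r hr).P) ?_ (hF _)
      have e : r * (i + m + 2) = r * i + (2 * r + r * m) := by ring
      have e' : r * (i + m) = r * i + r * m := by ring
      have h1 := (jw A hA r hr).nat_cupc ((model A hA).shn (r * m) (jw A hA r hr).P)
      have h2 := congrArg star h1
      rw [star_mul, star_mul, ← Ra_shn_star, ← Ra_shn_star, (jw A hA r hr).star_eq] at h2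
      rw [e, e', Ra_shn_add _ (r * i) (r * m), Ra_shn_add _ (r * i), Ra_shn_add _ (2 * r),
        ← Ra_shn_mul, ← Ra_shn_mul, h2]
  | pos i => exact KK_cross hA hr ((model A hA).br_sg hA0) i F hF
  | neg i => exact KK_cross hA hr ((model A hA).br_sg' hA0) i F hF
  | hole i =>
    intro k
    unfold opEv
    rcases lt_or_ge k i with hki | hki
    · exact Ra_kk (Ra_comm_lt hA hr hki _) (hF k)
    · obtain ⟨m, rfl⟩ := Nat.exists_eq_add_of_le hki
      refine Ra_kk (x' := (model A hA).shn (r * (i + m)) (jw A hA r hr).P) ?_ (hF _)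
      have e' : r * (i + m) = r * i + r * m := by ring
      rw [e', Ra_shn_add _ (r * i) (r * m), ← Ra_shn_mul, ← Ra_shn_mul, hm_comm]

/-! ### states -/

omit hr hA in
/-- the background -/
def Ra_tau (r : ℕ) (a : ℕ) : V a :=
  open Classical in if h : Ra_isP a (vacFun r) then Ra_pv a (vacFun r) h else 0

omit hr hA in
/-- the state with the gap heights `a :: l` -/
def Ra_st (A : ℝ) (r : ℕ) : (a : ℕ) → List ℕ → V a
  | a, [] => Ra_tau r a
  | a, b :: l => Lh A r a b (Ra_st A r b l)

omit hr hA in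
/-- the last height -/
def Ra_lst : ℕ → List ℕ → ℕ
  | a, [] => a
  | _, b :: l => Ra_lst b l

theorem Ra_lift (Y : Rm) (I : Finset ℕ) (c : ℕ → ℝ) (g : ℕ → List ℕ) (l2 : List ℕ) :
    ∀ (l1 : List ℕ) (a : ℕ),
    (ev Y (Ra_lst a l1) (Ra_st A r (Ra_lst a l1) l2)
      = ∑ x ∈ I, c x • Ra_st A r (Ra_lst a l1) (g x)) →
    ev ((model A hA).shn (r * l1.length) Y) a (Ra_st A r a (l1 ++ l2))
      = ∑ x ∈ I, c x • Ra_st A r a (l1 ++ g x)
  | [], a, h => h
  | b :: l1, a, h => by
    have ih := Ra_lift Y I c g l2 l1 b h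
    have e : r * (b :: l1).length = r + r * l1.length := by
      rw [List.length_cons]
      ring
    rw [e, Ra_shn_add]
    have h1 := ev_shn_Lh hA hr ((model A hA).shn (r * l1.length) Y) a b
    have h2 : ev ((model A hA).shn r ((model A hA).shn (r * l1.length) Y)) a
        (Lh A r a b (Ra_st A r b (l1 ++ l2)))
        = Lh A r a b (ev ((model A hA).shn (r * l1.length) Y) b (Ra_st A r b (l1 ++ l2))) :=
      congrArg (fun f : V b →ₗ[ℝ] V a => f (Ra_st A r b (l1 ++ l2))) h1
    change ev ((model A hA).shn r ((model A hA).shn (r * l1.length) Y)) a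
        (Lh A r a b (Ra_st A r b (l1 ++ l2)))
      = ∑ x ∈ I, c x • Lh A r a b (Ra_st A r b (l1 ++ g x))
    rw [h2, ih, map_sum]
    exact Finset.sum_congr rfl fun x _ => by rw [map_smul]

theorem Ra_cup {M h : ℕ} (hM : h + r + 1 ≤ M) (l : List ℕ) :
    ev (jw A hA r hr).cupc h (Ra_st A r h l)
      = ∑ b ∈ Finset.range M, (if adm r h b then wt A h b else 0) • Ra_st A r h (b :: h :: l) := by
  rw [ev_cupc hA hr, LinearMap.sum_apply]
  have hsub : Finset.range (h + r + 1) ⊆ Finset.range M := Finset.range_mono hM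
  rw [← Finset.sum_subset hsub]
  · refine Finset.sum_congr rfl fun b _ => ?_
    rw [LinearMap.smul_apply, LinearMap.comp_apply]
    split_ifs with hb
    · rfl
    · have : Lh A r h b = 0 := by unfold Lh; rw [if_neg hb]
      rw [this, LinearMap.zero_apply, smul_zero, zero_smul]
  · intro b _ hb
    rw [Finset.mem_range, not_lt] at hb
    rw [if_neg, zero_smul]
    unfold adm
    omega

theorem Ra_cap' (h b c : ℕ) (l : List ℕ) :
    ev (star (jw A hA r hr).cupc) h (Ra_st A r h (b :: c :: l))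
      = ∑ _x ∈ ({0} : Finset ℕ), (if h = c ∧ adm r h b then wt A h b else 0) • Ra_st A r h l := by
  rw [ev_star_cupc hA hr, LinearMap.sum_apply, Finset.sum_singleton]
  by_cases hb : adm r h b
  · rw [Finset.sum_eq_single b]
    · rw [LinearMap.smul_apply, LinearMap.comp_apply]
      change wt A h b • Mh A r b h (Mh A r h b (Lh A r h b (Lh A r b c (Ra_st A r c l)))) = _
      have h1 : Mh A r h b (Lh A r h b (Lh A r b c (Ra_st A r c l)))
          = Lh A r b c (Ra_st A r c l) :=
        congrArg (fun F : V b →ₗ[ℝ] V b => F (Lh A r b c (Ra_st A r c l))) (Mh_Lh hA hr hb)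
      rw [h1]
      by_cases hc : h = c
      · subst hc
        have hb' : adm r b h := by unfold adm at hb ⊢; omega
        have h2 : Mh A r b h (Lh A r b h (Ra_st A r h l)) = Ra_st A r h l :=
          congrArg (fun F : V h →ₗ[ℝ] V h => F (Ra_st A r h l)) (Mh_Lh hA hr hb')
        rw [h2, if_pos ⟨rfl, hb⟩]
      · have h2 : Mh A r b h (Lh A r b c (Ra_st A r c l)) = 0 :=
          congrArg (fun F : V c →ₗ[ℝ] V h => F (Ra_st A r c l)) (Mh_Lh_ne hA hr hc)
        rw [h2, smul_zero, if_neg (fun hh => hc hh.1), zero_smul]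
    · intro b' _ hb'
      rw [LinearMap.smul_apply, LinearMap.comp_apply]
      change wt A h b' • Mh A r b' h (Mh A r h b' (Lh A r h b (Lh A r b c (Ra_st A r c l)))) = _
      have h1 : Mh A r h b' (Lh A r h b (Lh A r b c (Ra_st A r c l))) = 0 :=
        congrArg (fun F : V b →ₗ[ℝ] V b' => F (Lh A r b c (Ra_st A r c l)))
          (Mh_Lh_ne hA hr hb')
      rw [h1, map_zero, smul_zero]
    · intro hb'
      rw [Finset.mem_range, not_lt] at hb'
      exfalso
      unfold adm at hb
      omega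
  · rw [if_neg (fun hh => hb hh.2), zero_smul]
    refine Finset.sum_eq_zero fun b' _ => ?_
    rw [LinearMap.smul_apply, LinearMap.comp_apply]
    change wt A h b' • Mh A r b' h (Mh A r h b' (Lh A r h b (Lh A r b c (Ra_st A r c l)))) = _
    have : Lh A r h b = 0 := by unfold Lh; rw [if_neg hb]
    rw [this, LinearMap.zero_apply, map_zero, map_zero, smul_zero]

theorem Ra_pos {M h : ℕ} (hM : h + r + 1 ≤ M) (b c : ℕ) (l : List ℕ) :
    ev ((model A hA).X (model A hA).sg r r) h (Ra_st A r h (b :: c :: l))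
      = ∑ d ∈ Finset.range M, Xp A r h c b d • Ra_st A r h (d :: c :: l) := by
  have h1 := congrArg (fun F : V c →ₗ[ℝ] V h => F (Ra_st A r c l)) (Xp_spec hA hr h b c)
  simp only [LinearMap.sum_apply, LinearMap.smul_apply, LinearMap.comp_apply] at h1
  change ev ((model A hA).X (model A hA).sg r r) h (Lh A r h b (Lh A r b c (Ra_st A r c l))) = _
  rw [h1]
  refine Finset.sum_subset (Finset.range_mono hM) fun d _ hd => ?_
  rw [Finset.mem_range, not_lt] at hd
  have h2 : Xp A r h c b d = 0 := by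
    by_contra hne
    have := (Xp_adm hA hr hne).2.2.1
    unfold adm at this
    omega
  rw [h2, zero_smul]

theorem Ra_neg {M h : ℕ} (hM : h + r + 1 ≤ M) (b c : ℕ) (l : List ℕ) :
    ev ((model A hA).X (model A hA).sg' r r) h (Ra_st A r h (b :: c :: l))
      = ∑ d ∈ Finset.range M, Xn A r h c b d • Ra_st A r h (d :: c :: l) := by
  have h1 := congrArg (fun F : V c →ₗ[ℝ] V h => F (Ra_st A r c l)) (Xn_spec hA hr h b c)
  simp only [LinearMap.sum_apply, LinearMap.smul_apply, LinearMap.comp_apply] at h1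
  change ev ((model A hA).X (model A hA).sg' r r) h (Lh A r h b (Lh A r b c (Ra_st A r c l))) = _
  rw [h1]
  refine Finset.sum_subset (Finset.range_mono hM) fun d _ hd => ?_
  rw [Finset.mem_range, not_lt] at hd
  have h2 : Xn A r h c b d = 0 := by
    by_contra hne
    have := (Xn_adm hA hr hne).2.2.1
    unfold adm at this
    omega
  rw [h2, zero_smul]

omit hr hA in
theorem Ra_hole (h : ℕ) (l : List ℕ) : ev hm h (Ra_st A r h l)
    = ∑ _x ∈ ({0} : Finset ℕ), (if h = 0 then (1 : ℝ) else 0) • Ra_st A r h l := by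
  rw [Finset.sum_singleton]
  change hE h (Ra_st A r h l) = _
  unfold hE
  split_ifs
  · rw [one_smul]; rfl
  · rw [zero_smul]; rfl

omit hr hA in
/-- heights of the gaps `k+1, …, k+n` -/
def Ra_L (η : ℕ → ℕ) : ℕ → ℕ → List ℕ
  | _, 0 => []
  | k, n + 1 => η (k + 1) :: Ra_L η (k + 1) n

omit hr hA in
theorem Ra_L_add (η : ℕ → ℕ) : ∀ k m n, Ra_L η k (m + n) = Ra_L η k m ++ Ra_L η (k + m) n
  | k, 0, n => by simp [Ra_L]
  | k, m + 1, n => by
    have e : m + 1 + n = (m + n) + 1 := by ring
    rw [e]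
    have e2 : k + (m + 1) = k + 1 + m := by ring
    simp only [Ra_L, Ra_L_add η (k + 1) m n, List.cons_append, e2]

omit hr hA in
theorem Ra_L_congr {η η' : ℕ → ℕ} : ∀ (n k k' : ℕ), (∀ j < n, η (k + j + 1) = η' (k' + j + 1)) →
    Ra_L η k n = Ra_L η' k' n
  | 0, _, _, _ => rfl
  | n + 1, k, k', h => by
    simp only [Ra_L]
    have h0 := h 0 (by omega)
    rw [Nat.add_zero, Nat.add_zero] at h0
    rw [h0, Ra_L_congr n (k + 1) (k' + 1)]
    intro j hj
    have h1 := h (j + 1) (by omega)
    have e1 : k + (j + 1) + 1 = k + 1 + j + 1 := by ring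
    have e2 : k' + (j + 1) + 1 = k' + 1 + j + 1 := by ring
    rwa [e1, e2] at h1

omit hr hA in
theorem Ra_lst_L (η : ℕ → ℕ) : ∀ (n k : ℕ), Ra_lst (η k) (Ra_L η k n) = η (k + n)
  | 0, k => rfl
  | n + 1, k => by
    simp only [Ra_L, Ra_lst, Ra_lst_L η n (k + 1)]
    congr 1
    ring

omit hr hA in
theorem Ra_L_length (η : ℕ → ℕ) : ∀ (n k : ℕ), (Ra_L η k n).length = n
  | 0, _ => rfl
  | n + 1, k => by simp [Ra_L, Ra_L_length η n (k + 1)]

/-- an operator at the gap `i` -/
theorem Ra_at (Y : Rm) (I : Finset ℕ) (c : ℕ → ℝ) (g : ℕ → List ℕ) (l2 : List ℕ) (η : ℕ → ℕ)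
    (i : ℕ) (h : ev Y (η i) (Ra_st A r (η i) l2) = ∑ x ∈ I, c x • Ra_st A r (η i) (g x)) :
    ev ((model A hA).shn (r * i) Y) (η 0) (Ra_st A r (η 0) (Ra_L η 0 i ++ l2))
      = ∑ x ∈ I, c x • Ra_st A r (η 0) (Ra_L η 0 i ++ g x) := by
  have h1 := Ra_lift hA hr Y I c g l2 (Ra_L η 0 i) (η 0)
  rw [Ra_L_length] at h1
  apply h1
  have e : Ra_lst (η 0) (Ra_L η 0 i) = η i := by
    rw [Ra_lst_L, Nat.zero_add]
  rw [e]
  exact h

theorem Ra_main (M : ℕ) : ∀ (w : List Ev) (n : ℕ) (η : ℕ → ℕ) (H a : ℕ), Runs n w 0 →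
    (∀ j ≤ n, η j ≤ H) → H + w.length * r + 1 ≤ M → η 0 = a →
    ev (opW A hA r hr w) a (Ra_st A r a (Ra_L η 0 n)) = run A r M w η • Ra_st A r a []
  | [], n, η, H, a, hR, hH, hM, ha => by
    have hn : n = 0 := hR
    subst hn
    change Ra_st A r a [] = (1 : ℝ) • Ra_st A r a []
    rw [one_smul]
  | e :: w, n, η, H, a, hR, hH, hM, ha => by
    subst ha
    obtain ⟨hle, hR'⟩ := hR
    have hlen : (e :: w).length * r = w.length * r + r := by
      rw [List.length_cons]; ring
    rw [hlen] at hM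
    have hopW : opW A hA r hr (e :: w) = opW A hA r hr w * opEv A hA r hr e := rfl
    rw [hopW, ev_mul, LinearMap.comp_apply]
    cases e with
    | cup i =>
      simp only [Ev.gap, Ev.inn, Ev.out, Nat.add_zero, Nat.sub_zero] at hle hR'
      obtain ⟨m, rfl⟩ := Nat.exists_eq_add_of_le hle
      have hi : η i ≤ H := hH i (by omega)
      have h1 := Ra_at hA hr (jw A hA r hr).cupc (Finset.range M)
        (fun b => if adm r (η i) b then wt A (η i) b else 0)
        (fun b => b :: η i :: Ra_L η i m) (Ra_L η i m) η i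
        (Ra_cup hA hr (by omega) _)
      rw [Ra_L_add, Nat.zero_add]
      change ev (opW A hA r hr w) (η 0) (ev ((model A hA).shn (r * i) (jw A hA r hr).cupc) (η 0)
        (Ra_st A r (η 0) (Ra_L η 0 i ++ Ra_L η i m))) = _
      rw [h1, map_sum, run, Finset.sum_smul]
      refine Finset.sum_congr rfl fun b _ => ?_
      rw [map_smul]
      split_ifs with hb
      · have hb2 : b ≤ η i + r := hb.2.1
        have h2 : Ra_L η 0 i ++ b :: η i :: Ra_L η i m = Ra_L (ins2 i b η) 0 (i + m + 2) := by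
          have e : i + m + 2 = i + (m + 1 + 1) := by ring
          rw [e, Ra_L_add, Nat.zero_add]
          congr 1
          · refine Ra_L_congr _ _ _ fun j hj => ?_
            unfold ins2
            rw [if_pos (by omega)]
          · simp only [Ra_L]
            congr 1
            · unfold ins2
              rw [if_neg (by omega), if_pos rfl]
            · congr 1
              · unfold ins2
                rw [if_neg (by omega), if_neg (by omega)]
                congr 1
              · refine Ra_L_congr _ _ _ fun j hj => ?_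
                unfold ins2
                rw [if_neg (by omega), if_neg (by omega)]
                congr 1
                omega
        rw [h2, Ra_main M w (i + m + 2) (ins2 i b η) (H + r) (η 0) hR' ?_ (by omega) ?_, mul_smul]
        · intro j hj
          unfold ins2
          split_ifs with h3 h4
          · exact (hH j (by omega)).trans (by omega)
          · omega
          · exact (hH (j - 2) (by omega)).trans (by omega)
        · unfold ins2
          rw [if_pos (Nat.zero_le i)]
      · rw [zero_smul, zero_smul]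
    | cap i =>
      simp only [Ev.gap, Ev.inn, Ev.out] at hle hR'
      obtain ⟨m, rfl⟩ := Nat.exists_eq_add_of_le hle
      have en : i + 2 + m - 2 + 0 = i + m := by omega
      rw [en] at hR'
      have h1 := Ra_at hA hr (star (jw A hA r hr).cupc) {0}
        (fun _ => if η i = η (i + 2) ∧ adm r (η i) (η (i + 1)) then wt A (η i) (η (i + 1)) else 0)
        (fun _ => Ra_L η (i + 2) m) (η (i + 1) :: η (i + 2) :: Ra_L η (i + 2) m) η i
        (Ra_cap' hA hr _ _ _ _)
      have h0 : Ra_L η 0 (i + 2 + m) = Ra_L η 0 i ++ η (i + 1) :: η (i + 2) :: Ra_L η (i + 2) m := by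
        have e : i + 2 + m = i + (m + 1 + 1) := by ring
        rw [e, Ra_L_add, Nat.zero_add]
        rfl
      rw [h0]
      change ev (opW A hA r hr w) (η 0) (ev ((model A hA).shn (r * i)
        (star (jw A hA r hr).cupc)) (η 0) (Ra_st A r (η 0)
          (Ra_L η 0 i ++ η (i + 1) :: η (i + 2) :: Ra_L η (i + 2) m))) = _
      rw [h1, Finset.sum_singleton, map_smul, run]
      split_ifs with hb
      · have h2 : Ra_L η 0 i ++ Ra_L η (i + 2) m = Ra_L (rem2 i η) 0 (i + m) := by
          rw [Ra_L_add, Nat.zero_add]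
          congr 1
          · refine Ra_L_congr _ _ _ fun j hj => ?_
            unfold rem2
            rw [if_pos (by omega)]
          · refine Ra_L_congr _ _ _ fun j hj => ?_
            unfold rem2
            rw [if_neg (by omega)]
            congr 1
            omega
        rw [h2, Ra_main M w (i + m) (rem2 i η) H (η 0) hR' ?_ (by omega) ?_, mul_smul]
        · intro j hj
          unfold rem2
          split_ifs with h3
          · exact hH j (by omega)
          · exact hH (j + 2) (by omega)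
        · unfold rem2
          rw [if_pos (Nat.zero_le i)]
      · rw [zero_smul, zero_smul]
    | pos i =>
      simp only [Ev.gap, Ev.inn, Ev.out] at hle hR'
      obtain ⟨m, rfl⟩ := Nat.exists_eq_add_of_le hle
      have en : i + 2 + m - 2 + 2 = i + 2 + m := by omega
      rw [en] at hR'
      have hi : η i ≤ H := hH i (by omega)
      have h1 := Ra_at hA hr ((model A hA).X (model A hA).sg r r) (Finset.range M)
        (fun d => Xp A r (η i) (η (i + 2)) (η (i + 1)) d)
        (fun d => d :: η (i + 2) :: Ra_L η (i + 2) m) (η (i + 1) :: η (i + 2) :: Ra_L η (i + 2) m) η i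
        (Ra_pos hA hr (by omega) _ _ _)
      have h0 : Ra_L η 0 (i + 2 + m) = Ra_L η 0 i ++ η (i + 1) :: η (i + 2) :: Ra_L η (i + 2) m := by
        have e : i + 2 + m = i + (m + 1 + 1) := by ring
        rw [e, Ra_L_add, Nat.zero_add]
        rfl
      rw [h0]
      change ev (opW A hA r hr w) (η 0) (ev ((model A hA).shn (r * i)
        ((model A hA).X (model A hA).sg r r)) (η 0) (Ra_st A r (η 0)
          (Ra_L η 0 i ++ η (i + 1) :: η (i + 2) :: Ra_L η (i + 2) m))) = _
      rw [h1, map_sum, run, Finset.sum_smul]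
      refine Finset.sum_congr rfl fun d _ => ?_
      rw [map_smul]
      by_cases hX : Xp A r (η i) (η (i + 2)) (η (i + 1)) d = 0
      · rw [hX, zero_smul, zero_mul, zero_smul]
      · have hd : d ≤ η i + r := (Xp_adm hA hr hX).2.2.1.2.1
        have h2 : Ra_L η 0 i ++ d :: η (i + 2) :: Ra_L η (i + 2) m
            = Ra_L (upd i d η) 0 (i + 2 + m) := by
          have e : i + 2 + m = i + (m + 1 + 1) := by ring
          rw [e, Ra_L_add, Nat.zero_add]
          congr 1
          · refine Ra_L_congr _ _ _ fun j hj => ?_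
            unfold upd
            rw [if_neg (by omega)]
          · simp only [Ra_L]
            congr 1
            · unfold upd
              rw [if_pos rfl]
            · congr 1
              · unfold upd
                rw [if_neg (by omega)]
              · refine Ra_L_congr _ _ _ fun j hj => ?_
                unfold upd
                rw [if_neg (by omega)]
        rw [h2, Ra_main M w (i + 2 + m) (upd i d η) (H + r) (η 0) hR' ?_ (by omega) ?_, mul_smul]
        · intro j hj
          unfold upd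
          split_ifs with h3
          · omega
          · exact (hH j (by omega)).trans (by omega)
        · unfold upd
          rw [if_neg (by omega)]
    | neg i =>
      simp only [Ev.gap, Ev.inn, Ev.out] at hle hR'
      obtain ⟨m, rfl⟩ := Nat.exists_eq_add_of_le hle
      have en : i + 2 + m - 2 + 2 = i + 2 + m := by omega
      rw [en] at hR'
      have hi : η i ≤ H := hH i (by omega)
      have h1 := Ra_at hA hr ((model A hA).X (model A hA).sg' r r) (Finset.range M)
        (fun d => Xn A r (η i) (η (i + 2)) (η (i + 1)) d)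
        (fun d => d :: η (i + 2) :: Ra_L η (i + 2) m) (η (i + 1) :: η (i + 2) :: Ra_L η (i + 2) m) η i
        (Ra_neg hA hr (by omega) _ _ _)
      have h0 : Ra_L η 0 (i + 2 + m) = Ra_L η 0 i ++ η (i + 1) :: η (i + 2) :: Ra_L η (i + 2) m := by
        have e : i + 2 + m = i + (m + 1 + 1) := by ring
        rw [e, Ra_L_add, Nat.zero_add]
        rfl
      rw [h0]
      change ev (opW A hA r hr w) (η 0) (ev ((model A hA).shn (r * i)
        ((model A hA).X (model A hA).sg' r r)) (η 0) (Ra_st A r (η 0)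
          (Ra_L η 0 i ++ η (i + 1) :: η (i + 2) :: Ra_L η (i + 2) m))) = _
      rw [h1, map_sum, run, Finset.sum_smul]
      refine Finset.sum_congr rfl fun d _ => ?_
      rw [map_smul]
      by_cases hX : Xn A r (η i) (η (i + 2)) (η (i + 1)) d = 0
      · rw [hX, zero_smul, zero_mul, zero_smul]
      · have hd : d ≤ η i + r := (Xn_adm hA hr hX).2.2.1.2.1
        have h2 : Ra_L η 0 i ++ d :: η (i + 2) :: Ra_L η (i + 2) m
            = Ra_L (upd i d η) 0 (i + 2 + m) := by
          have e : i + 2 + m = i + (m + 1 + 1) := by ring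
          rw [e, Ra_L_add, Nat.zero_add]
          congr 1
          · refine Ra_L_congr _ _ _ fun j hj => ?_
            unfold upd
            rw [if_neg (by omega)]
          · simp only [Ra_L]
            congr 1
            · unfold upd
              rw [if_pos rfl]
            · congr 1
              · unfold upd
                rw [if_neg (by omega)]
              · refine Ra_L_congr _ _ _ fun j hj => ?_
                unfold upd
                rw [if_neg (by omega)]
        rw [h2, Ra_main M w (i + 2 + m) (upd i d η) (H + r) (η 0) hR' ?_ (by omega) ?_, mul_smul]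
        · intro j hj
          unfold upd
          split_ifs with h3
          · omega
          · exact (hH j (by omega)).trans (by omega)
        · unfold upd
          rw [if_neg (by omega)]
    | hole i =>
      simp only [Ev.gap, Ev.inn, Ev.out, Nat.add_zero, Nat.sub_zero] at hle hR'
      obtain ⟨m, rfl⟩ := Nat.exists_eq_add_of_le hle
      have h1 := Ra_at hA hr hm {0} (fun _ => if η i = 0 then (1 : ℝ) else 0)
        (fun _ => Ra_L η i m) (Ra_L η i m) η i (Ra_hole _ _)
      rw [Ra_L_add, Nat.zero_add]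
      change ev (opW A hA r hr w) (η 0) (ev ((model A hA).shn (r * i) hm) (η 0)
        (Ra_st A r (η 0) (Ra_L η 0 i ++ Ra_L η i m))) = _
      rw [h1, Finset.sum_singleton, map_smul, run]
      split_ifs with hb
      · have h2 : Ra_L η 0 i ++ Ra_L η i m = Ra_L η 0 (i + m) := by
          rw [Ra_L_add, Nat.zero_add]
        rw [h2, Ra_main M w (i + m) η H (η 0) hR' hH (by omega) rfl, one_smul]
      · rw [zero_smul, zero_smul]

/-- The state sum computes the operator. -/
theorem op_run (w : List Ev) (h : Runs 0 w 0) :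
    ev (opW A hA r hr w) 0 (vac r hr) = J A r w • vac r hr := by
  have h1 := Ra_main hA hr (hbound r w) w 0 (fun _ => 0) 0 0 h (fun _ _ => le_rfl)
    (by unfold hbound; rw [Nat.zero_add, Nat.succ_mul]; omega) rfl
  have h2 : Ra_st A r 0 [] = vac r hr := by
    rw [Ra_vac_eq]
    unfold Ra_st Ra_tau
    rw [dif_pos (Ra_isP_vac hr)]
  have h3 : Ra_L (fun _ => 0) 0 0 = [] := rfl
  rw [h3, h2] at h1
  exact h1

end

end

end Pool.Agent.Tait
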