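import Pool.Agent.Lib.MP_150b40_gt.Pd
import Pool.Agent.Lib.MP_150b40_gt.Ra
import Pool.Agent.Lib.MP_150b40_gt.Fd

/-! # The lower bound -/

namespace Pool.Agent.Tait

open Finset

/-! ## The state sum as a sum over choices -/

/-- the heights after a piece, where `b` is the new height -/
def Pe_nxt (b : ℕ) (η : ℕ → ℕ) : Ev → ℕ → ℕ
  | Ev.cup i => ins2 i b η
  | Ev.cap i => rem2 i η
  | Ev.pos i => upd i b η
  | Ev.neg i => upd i b η
  | Ev.hole _ => η

/-- the weight of a piece -/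
noncomputable def Pe_w (A : ℝ) (r b : ℕ) (η : ℕ → ℕ) : Ev → ℝ
  | Ev.cup i => if adm r (η i) b then wt A (η i) b else 0
  | Ev.cap i => if η i = η (i + 2) ∧ adm r (η i) (η (i + 1)) then wt A (η i) (η (i + 1)) else 0
  | Ev.pos i => Xp A r (η i) (η (i + 2)) (η (i + 1)) b
  | Ev.neg i => Xn A r (η i) (η (i + 2)) (η (i + 1)) b
  | Ev.hole i => if η i = 0 then 1 else 0

/-- the choices for a piece -/
def Pe_ch (M : ℕ) : Ev → Finset ℕ
  | Ev.cup _ => range M
  | Ev.cap _ => {0}
  | Ev.pos _ => range M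
  | Ev.neg _ => range M
  | Ev.hole _ => {0}

theorem Pe_run_cons (A : ℝ) (r M : ℕ) (e : Ev) (w : List Ev) (η : ℕ → ℕ) :
    run A r M (e :: w) η = ∑ b ∈ Pe_ch M e, Pe_w A r b η e * run A r M w (Pe_nxt b η e) := by
  cases e with
  | cup i =>
    simp only [run, Pe_ch, Pe_w, Pe_nxt]
    refine Finset.sum_congr rfl fun b _ => ?_
    split_ifs <;> simp
  | cap i =>
    simp only [run, Pe_ch, Pe_w, Pe_nxt, Finset.sum_singleton]
    split_ifs <;> simp
  | pos i => simp only [run, Pe_ch, Pe_w, Pe_nxt]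
  | neg i => simp only [run, Pe_ch, Pe_w, Pe_nxt]
  | hole i =>
    simp only [run, Pe_ch, Pe_w, Pe_nxt, Finset.sum_singleton]
    split_ifs <;> simp

/-- prepend a choice -/
def Pe_cons (b : ℕ) (f : ℕ → ℕ) : ℕ → ℕ
  | 0 => b
  | l + 1 => f l

theorem Pe_cons_inj : Function.Injective fun p : ℕ × (ℕ → ℕ) => Pe_cons p.1 p.2 := by
  rintro ⟨b, f⟩ ⟨b', f'⟩ h
  have h1 : b = b' := congrFun h 0
  have h2 : f = f' := by
    funext l
    exact congrFun h (l + 1)
  rw [h1, h2]

/-- the choices for a word -/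
def Pe_chs (M : ℕ) : List Ev → Finset (ℕ → ℕ)
  | [] => {fun _ => 0}
  | e :: w => (Pe_ch M e ×ˢ Pe_chs M w).map ⟨fun p => Pe_cons p.1 p.2, Pe_cons_inj⟩

theorem Pe_sum_chs (M : ℕ) (e : Ev) (w : List Ev) (g : (ℕ → ℕ) → ℝ) :
    ∑ f ∈ Pe_chs M (e :: w), g f = ∑ b ∈ Pe_ch M e, ∑ f ∈ Pe_chs M w, g (Pe_cons b f) := by
  rw [Pe_chs, Finset.sum_map, Finset.sum_product]
  rfl

/-- the weight of the choices `f` -/
noncomputable def Pe_W (A : ℝ) (r : ℕ) : List Ev → (ℕ → ℕ) → (ℕ → ℕ) → ℝ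
  | [], _, _ => 1
  | e :: w, f, η => Pe_w A r (f 0) η e * Pe_W A r w (fun l => f (l + 1)) (Pe_nxt (f 0) η e)

theorem Pe_run_eq (A : ℝ) (r M : ℕ) (w : List Ev) (η : ℕ → ℕ) :
    run A r M w η = ∑ f ∈ Pe_chs M w, Pe_W A r w f η := by
  induction w generalizing η with
  | nil => simp [run, Pe_chs, Pe_W]
  | cons e w ih =>
    rw [Pe_run_cons, Pe_sum_chs]
    refine Finset.sum_congr rfl fun b _ => ?_
    rw [ih, Finset.mul_sum]
    rfl

/-- the heights of the gaps for the choices `f` -/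
def Pe_h : List Ev → (ℕ → ℕ) → (ℕ → ℕ) → ℕ → ℕ → ℕ
  | _, _, η, 0 => η
  | [], _, η, _ + 1 => η
  | e :: w, f, η, l + 1 => Pe_h w (fun l => f (l + 1)) (Pe_nxt (f 0) η e) l

theorem Pe_h_zero (w : List Ev) (f η : ℕ → ℕ) : Pe_h w f η 0 = η := by
  cases w <;> rfl

theorem Pe_h_succ {w : List Ev} {e : Ev} {l : ℕ} (he : w[l]? = some e) (f η : ℕ → ℕ) :
    Pe_h w f η (l + 1) = Pe_nxt (f l) (Pe_h w f η l) e := by
  induction l generalizing w f η with
  | zero =>
    cases w with
    | nil => simp at he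
    | cons e' w =>
      have : e' = e := by simpa using he
      subst this
      rw [Pe_h_zero]
      simp only [Pe_h]
  | succ l ih =>
    cases w with
    | nil => simp at he
    | cons e' w =>
      have he' : w[l]? = some e := by simpa using he
      exact ih he' _ _

theorem Pe_W_eq (A : ℝ) (r : ℕ) (w : List Ev) (f η : ℕ → ℕ) : Pe_W A r w f η =
    ∏ l ∈ range w.length, (w[l]?).elim 1 (Pe_w A r (f l) (Pe_h w f η l)) := by
  induction w generalizing f η with
  | nil => simp [Pe_W]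
  | cons e w ih =>
    rw [Pe_W, ih, List.length_cons, Finset.prod_range_succ', mul_comm]
    rfl

theorem Pe_mem_chs {M : ℕ} (w : List Ev) (f : ℕ → ℕ) :
    f ∈ Pe_chs M w ↔ ∀ l, (w[l]?).elim (f l = 0) (fun e => f l ∈ Pe_ch M e) := by
  induction w generalizing f with
  | nil =>
    simp only [Pe_chs, Finset.mem_singleton, List.getElem?_nil, Option.elim]
    exact ⟨fun h l => by rw [h], fun h => funext h⟩
  | cons e w ih =>
    simp only [Pe_chs, Finset.mem_map, Finset.mem_product, Function.Embedding.coeFn_mk, Prod.exists]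
    constructor
    · rintro ⟨b, g, ⟨hb, hg⟩, rfl⟩ l
      cases l with
      | zero => exact hb
      | succ l => exact (ih g).1 hg l
    · intro h
      refine ⟨f 0, fun l => f (l + 1), ⟨h 0, (ih _).2 fun l => h (l + 1)⟩, ?_⟩
      funext l
      cases l <;> rfl

/-! ## A sum of geometric type -/

theorem Pe_sum_hd {x : ℝ} (hx0 : 0 ≤ x) (hx : x ≤ 1 / 2) (S : Finset ℕ) (t : ℕ) :
    ∑ b ∈ S, x ^ hd b t ≤ 1 + 4 * x := by
  have h1 : ∀ K ≤ t, ∑ b ∈ range K, x ^ hd b t ≤ 2 * x ^ (t - K + 1) := by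
    intro K
    induction K with
    | zero =>
      intro _
      simp only [Finset.range_zero, Finset.sum_empty]
      positivity
    | succ K ih =>
      intro hK
      rw [Finset.sum_range_succ]
      have h2 := ih (by omega)
      have h3 : hd K t = t - K := by unfold hd; omega
      have h4 : t - K = t - (K + 1) + 1 := by omega
      rw [h3]
      rw [h4] at h2 ⊢
      rw [pow_succ _ (t - (K + 1) + 1)] at h2
      have h5 : 0 ≤ x ^ (t - (K + 1) + 1) := by positivity
      nlinarith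
  have h2 : ∀ K, ∑ b ∈ range (t + 1 + K), x ^ hd b t ≤ 1 + 4 * x - 2 * x ^ (K + 1) := by
    intro K
    induction K with
    | zero =>
      rw [add_zero, Finset.sum_range_succ]
      have h3 := h1 t le_rfl
      have h4 : hd t t = 0 := by unfold hd; omega
      rw [h4, pow_zero]
      rw [Nat.sub_self, zero_add, pow_one] at h3
      rw [zero_add, pow_one]
      linarith
    | succ K ih =>
      rw [← add_assoc, Finset.sum_range_succ]
      have h4 : hd (t + 1 + K) t = K + 1 := by unfold hd; omega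
      rw [h4, pow_succ x (K + 1)]
      have h5 : 0 ≤ x ^ (K + 1) := by positivity
      nlinarith
  obtain ⟨K, hK⟩ : ∃ K, S ⊆ range (t + 1 + K) := by
    refine ⟨S.sup id + 1, fun b hb => ?_⟩
    have : b ≤ S.sup id := Finset.le_sup (f := id) hb
    rw [Finset.mem_range]
    omega
  have h3 : ∑ b ∈ S, x ^ hd b t ≤ ∑ b ∈ range (t + 1 + K), x ^ hd b t :=
    Finset.sum_le_sum_of_subset_of_nonneg hK fun b _ _ => by positivity
  have h4 : 0 ≤ x ^ (K + 1) := by positivity
  linarith [h2 K]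

theorem Pe_sum_pow {x : ℝ} (hx0 : 0 ≤ x) (hx : x ≤ 1 / 2) (M : ℕ) (w : List Ev) (t : ℕ → ℕ) :
    ∑ f ∈ Pe_chs M w, x ^ (∑ l ∈ range w.length, hd (f l) (t l)) ≤ (1 + 4 * x) ^ w.length := by
  induction w generalizing t with
  | nil => simp [Pe_chs]
  | cons e w ih =>
    rw [Pe_sum_chs]
    have h1 : ∀ b f, x ^ (∑ l ∈ range (e :: w).length, hd (Pe_cons b f l) (t l)) =
        x ^ hd b (t 0) * x ^ (∑ l ∈ range w.length, hd (f l) (t (l + 1))) := by
      intro b f
      rw [List.length_cons, Finset.sum_range_succ', pow_add, mul_comm]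
      rfl
    simp only [h1]
    rw [← Finset.sum_mul_sum, List.length_cons, pow_succ, mul_comm]
    refine mul_le_mul (ih _) (Pe_sum_hd hx0 hx _ _) ?_ ?_
    · exact Finset.sum_nonneg fun b _ => by positivity
    · positivity

/-! ## Levels -/

theorem Pe_lev_succ {w : List Ev} {e : Ev} {l : ℕ} (he : w[l]? = some e) :
    lev w (l + 1) = lev w l - e.inn + e.out := by
  unfold lev
  rw [List.take_add_one, he, List.foldl_append]
  rfl

theorem Pe_lev_zero (w : List Ev) : lev w 0 = 0 := by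
  simp [lev]

theorem Pe_runs {n m : ℕ} {w : List Ev} (h : Runs n w m) {e : Ev} {l : ℕ} (he : w[l]? = some e) :
    e.gap + e.inn ≤ (w.take l).foldl (fun n e => n - e.inn + e.out) n := by
  induction l generalizing n w with
  | zero =>
    cases w with
    | nil => simp at he
    | cons e' w =>
      have : e' = e := by simpa using he
      subst this
      exact h.1
  | succ l ih =>
    cases w with
    | nil => simp at he
    | cons e' w =>
      have he' : w[l]? = some e := by simpa using he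
      exact ih h.2 he'

theorem Pe_gap {w : List Ev} (h : Runs 0 w 0) {e : Ev} {l : ℕ} (he : w[l]? = some e) :
    e.gap + e.inn ≤ lev w l := Pe_runs h he

theorem Pe_lt {w : List Ev} {e : Ev} {l : ℕ} (he : w[l]? = some e) : l < w.length :=
  (List.getElem?_eq_some_iff.1 he).1

theorem Pe_adm_symm {r a b : ℕ} (h : adm r a b) : adm r b a := by
  unfold adm at *
  omega

/-! ## Choices with non-zero weight are colourings -/

theorem Pe_coloring {A : ℝ} (hA : 1 < A) {r : ℕ} (hr : 0 < r) {w : List Ev} (hw : Runs 0 w 0)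
    (f : ℕ → ℕ) (hne : ∀ l e, w[l]? = some e →
      Pe_w A r (f l) (Pe_h w f (fun _ => 0) l) e ≠ 0) :
    Coloring w r fun p => Pe_h w f (fun _ => 0) p.1 p.2 := by
  have hs : ∀ l e, w[l]? = some e → Pe_h w f (fun _ => 0) (l + 1) =
      Pe_nxt (f l) (Pe_h w f (fun _ => 0) l) e := fun l e he => Pe_h_succ he _ _
  refine ⟨?_, ?_, ?_, ?_⟩
  · rintro p q (⟨l, j, e, he, hj⟩ | ⟨l, j, e, he, hj, hn⟩)
    · show Pe_h w f _ l j = Pe_h w f _ (l + 1) j
      rw [hs l e he]
      cases e with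
      | cup i =>
        have hj : j ≤ i := hj
        simp [Pe_nxt, ins2, hj]
      | cap i =>
        have hj : j ≤ i := hj
        simp [Pe_nxt, rem2, hj]
      | pos i =>
        have hj : j ≤ i := hj
        have : j ≠ i + 1 := by omega
        simp [Pe_nxt, upd, this]
      | neg i =>
        have hj : j ≤ i := hj
        have : j ≠ i + 1 := by omega
        simp [Pe_nxt, upd, this]
      | hole i => rfl
    · show Pe_h w f _ l j = Pe_h w f _ (l + 1) (j - e.inn + e.out)
      rw [hs l e he]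
      cases e with
      | cup i =>
        have hj : i ≤ j := hj
        have h1 : ¬ j + 2 ≤ i := by omega
        have h2 : ¬ j + 2 = i + 1 := by omega
        simp [Pe_nxt, ins2, Ev.inn, Ev.out, h1, h2]
      | cap i =>
        have hj : i + 2 ≤ j := hj
        simp only [Pe_nxt, rem2, Ev.inn, Ev.out, add_zero]
        split_ifs with h1
        · have h2 := hne l _ he
          simp only [Pe_w, ne_eq, ite_eq_right_iff, Classical.not_imp] at h2
          have h3 : j = i + 2 := by omega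
          subst h3
          exact h2.1.1.symm
        · congr 1
          omega
      | pos i =>
        have hj : i + 2 ≤ j := hj
        have h1 : ¬ j - 2 + 2 = i + 1 := by omega
        simp only [Pe_nxt, upd, Ev.inn, Ev.out, if_neg h1]
        congr 1
        omega
      | neg i =>
        have hj : i + 2 ≤ j := hj
        have h1 : ¬ j - 2 + 2 = i + 1 := by omega
        simp only [Pe_nxt, upd, Ev.inn, Ev.out, if_neg h1]
        congr 1
        omega
      | hole i => rfl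
  · intro l
    induction l with
    | zero =>
      intro j _ hj
      rw [Pe_lev_zero] at hj
      exact absurd hj (Nat.not_lt_zero _)
    | succ l ih =>
      intro j hl hj
      show adm r (Pe_h w f _ (l + 1) j) (Pe_h w f _ (l + 1) (j + 1))
      have ih' : ∀ j, j < lev w l → adm r (Pe_h w f (fun _ => 0) l j)
        (Pe_h w f (fun _ => 0) l (j + 1)) := fun j hj => ih j (by omega) hj
      obtain ⟨e, he⟩ : ∃ e, w[l]? = some e := ⟨w[l], List.getElem?_eq_getElem (by omega)⟩
      have hg := Pe_gap hw he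
      rw [Pe_lev_succ he] at hj
      have h2 := hne l _ he
      rw [hs l e he]
      generalize Pe_h w f (fun _ => 0) l = η at *
      cases e with
      | cup i =>
        simp only [Ev.inn, Ev.out, Ev.gap, Nat.sub_zero, add_zero] at hj hg
        simp only [Pe_w, ne_eq, ite_eq_right_iff, Classical.not_imp] at h2
        simp only [Pe_nxt, ins2]
        rcases Nat.lt_trichotomy j i with h3 | h3 | h3
        · rw [if_pos (by omega), if_pos (by omega)]
          exact ih' j (by omega)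
        · subst h3
          rw [if_pos le_rfl, if_neg (by omega), if_pos rfl]
          exact h2.1
        · by_cases h4 : j = i + 1
          · subst h4
            rw [if_neg (by omega), if_pos rfl, if_neg (by omega), if_neg (by omega)]
            exact Pe_adm_symm h2.1
          · rw [if_neg (by omega), if_neg h4, if_neg (by omega), if_neg (by omega)]
            have h6 := ih' (j - 2) (by omega)
            have h7 : j - 2 + 1 = j + 1 - 2 := by omega
            rwa [h7] at h6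
      | cap i =>
        simp only [Ev.inn, Ev.out, Ev.gap, Nat.sub_zero, add_zero] at hj hg
        simp only [Pe_w, ne_eq, ite_eq_right_iff, Classical.not_imp] at h2
        simp only [Pe_nxt, rem2]
        rcases Nat.lt_trichotomy j i with h3 | h3 | h3
        · rw [if_pos (by omega), if_pos (by omega)]
          exact ih' j (by omega)
        · subst h3
          rw [if_pos le_rfl, if_neg (by omega), h2.1.1]
          exact ih' (j + 2) (by omega)
        · rw [if_neg (by omega), if_neg (by omega)]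
          exact ih' (j + 2) (by omega)
      | pos i =>
        simp only [Ev.inn, Ev.out, Ev.gap] at hj hg
        have h3 := Xp_adm hA hr h2
        simp only [Pe_nxt, upd]
        rcases Nat.lt_trichotomy j i with h4 | h4 | h4
        · rw [if_neg (by omega), if_neg (by omega)]
          exact ih' j (by omega)
        · subst h4
          rw [if_neg (by omega), if_pos rfl]
          exact h3.2.2.1
        · by_cases h5 : j = i + 1
          · subst h5
            rw [if_pos rfl, if_neg (by omega)]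
            exact h3.2.2.2
          · rw [if_neg h5, if_neg (by omega)]
            exact ih' j (by omega)
      | neg i =>
        simp only [Ev.inn, Ev.out, Ev.gap] at hj hg
        have h3 := Xn_adm hA hr h2
        simp only [Pe_nxt, upd]
        rcases Nat.lt_trichotomy j i with h4 | h4 | h4
        · rw [if_neg (by omega), if_neg (by omega)]
          exact ih' j (by omega)
        · subst h4
          rw [if_neg (by omega), if_pos rfl]
          exact h3.2.2.1
        · by_cases h5 : j = i + 1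
          · subst h5
            rw [if_pos rfl, if_neg (by omega)]
            exact h3.2.2.2
          · rw [if_neg h5, if_neg (by omega)]
            exact ih' j (by omega)
      | hole i =>
        simp only [Ev.inn, Ev.out, Nat.sub_zero, add_zero] at hj
        exact ih' j hj
  · show Pe_h w f (fun _ => 0) 0 0 = 0
    rw [Pe_h_zero]
  · intro l i he
    have h2 := hne l _ he
    simp only [Pe_w, ne_eq, ite_eq_right_iff, Classical.not_imp] at h2
    exact h2.1

/-! ## Bounds for the weights -/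

theorem Pe_hd (a b : ℕ) : ((hd a b : ℕ) : ℤ) = |(a : ℤ) - b| := by
  unfold hd
  rcases le_total a b with h | h
  · rw [abs_of_nonpos (by omega)]
    omega
  · rw [abs_of_nonneg (by omega)]
    omega

section
variable {A : ℝ} (hA : 2 ≤ A)
include hA

theorem Pe_dl_le (x : ℕ) : dl A x ≤ 4 * A ^ (2 * x) := by
  have h1 := dl_le (show 1 < A by linarith) x
  have h2 : (1 - A⁻¹ ^ 4)⁻¹ ≤ 4 := by
    have h3 : A⁻¹ ≤ 2⁻¹ := inv_anti₀ (by norm_num) hA
    have h4 : A⁻¹ ^ 4 ≤ 2⁻¹ ^ 4 := pow_le_pow_left₀ (by positivity) h3 4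
    have h5 : (1 / 4 : ℝ) ≤ 1 - A⁻¹ ^ 4 := by norm_num at h4 ⊢; linarith
    calc (1 - A⁻¹ ^ 4)⁻¹ ≤ (1 / 4)⁻¹ := inv_anti₀ (by norm_num) h5
      _ = 4 := by norm_num
  have h3 : 0 ≤ A ^ (2 * x) := by positivity
  nlinarith

theorem Pe_wt_le (a b : ℕ) : wt A a b ≤ 2 * A ^ ((b : ℤ) - a) := by
  have hA0 : 0 < A := by linarith
  have ha := dl_ge (show 1 < A by linarith) a
  have hb := Pe_dl_le hA b
  have h1 : dl A b / dl A a ≤ (2 * A ^ ((b : ℤ) - a)) ^ 2 := by
    rw [div_le_iff₀ (dl_pos (by linarith) a)]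
    have h2 : (2 * A ^ ((b : ℤ) - a)) ^ 2 * A ^ (2 * a) = 4 * A ^ (2 * b) := by
      rw [mul_pow, ← zpow_natCast (A ^ ((b : ℤ) - a)), ← zpow_mul, mul_assoc,
        ← zpow_natCast A (2 * a), ← zpow_add₀ hA0.ne', ← zpow_natCast A (2 * b)]
      norm_num
      congr 1
      push_cast
      ring
    calc dl A b ≤ 4 * A ^ (2 * b) := hb
      _ = (2 * A ^ ((b : ℤ) - a)) ^ 2 * A ^ (2 * a) := h2.symm
      _ ≤ _ := mul_le_mul_of_nonneg_left ha (by positivity)
  unfold wt
  rw [← Real.sqrt_sq (show 0 ≤ 2 * A ^ ((b : ℤ) - a) by positivity)]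
  exact Real.sqrt_le_sqrt h1

theorem Pe_wt_ge (a b : ℕ) : A ^ ((b : ℤ) - a) ≤ 2 * wt A a b := by
  have hA0 : 0 < A := by linarith
  have hb := dl_ge (show 1 < A by linarith) b
  have ha := Pe_dl_le hA a
  have h1 : (A ^ ((b : ℤ) - a) / 2) ^ 2 ≤ dl A b / dl A a := by
    rw [le_div_iff₀ (dl_pos (by linarith) a)]
    have h2 : (A ^ ((b : ℤ) - a) / 2) ^ 2 * (4 * A ^ (2 * a)) = A ^ (2 * b) := by
      rw [div_pow, ← zpow_natCast (A ^ ((b : ℤ) - a)), ← zpow_mul,
        ← zpow_natCast A (2 * a), ← zpow_natCast A (2 * b)]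
      have h3 : A ^ (((b : ℤ) - a) * ((2 : ℕ) : ℤ)) / 2 ^ 2 * (4 * A ^ (((2 * a : ℕ)) : ℤ)) =
          A ^ (((b : ℤ) - a) * ((2 : ℕ) : ℤ)) * A ^ (((2 * a : ℕ)) : ℤ) := by
        ring
      rw [h3, ← zpow_add₀ hA0.ne']
      congr 1
      push_cast
      ring
    calc (A ^ ((b : ℤ) - a) / 2) ^ 2 * dl A a ≤ (A ^ ((b : ℤ) - a) / 2) ^ 2 * (4 * A ^ (2 * a)) :=
          mul_le_mul_of_nonneg_left ha (by positivity)
      _ = A ^ (2 * b) := h2
      _ ≤ _ := hb
  have h2 : A ^ ((b : ℤ) - a) / 2 ≤ wt A a b := by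
    unfold wt
    rw [← Real.sqrt_sq (show 0 ≤ A ^ ((b : ℤ) - a) / 2 by positivity)]
    exact Real.sqrt_le_sqrt h1
  linarith

theorem Pe_wt_nonneg (a b : ℕ) : 0 ≤ wt A a b := Real.sqrt_nonneg _

variable {r : ℕ} (hr : 0 < r)
include hr

theorem Pe_Xp_le (a c b d : ℕ) :
    |Xp A r a c b d| ≤ 8 ^ (hd b d + 1) * A ^ ((r ^ 2 : ℤ) - hd b d) := by
  have hA0 : 0 < A := by linarith
  have h1 := Xp_le hA hr a c b d
  have h2 : A ^ ((r ^ 2 : ℤ) - hd b d) = A ^ (r * r) / A ^ hd b d := by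
    rw [zpow_sub₀ hA0.ne', zpow_natCast]
    congr 1
    rw [← zpow_natCast A (r * r)]
    congr 1
    push_cast
    ring
  rw [h2, ← mul_div_assoc, le_div_iff₀ (by positivity)]
  exact h1

theorem Pe_Xp_low {a c b : ℕ} (h : adm (2 * r) a c) (hb : b = max a c - r) :
    A ^ ((r ^ 2 : ℤ)) ≤ 4 * |Xp A r a c b b| := by
  have h1 := Xp_low hA hr h
  rw [hb]
  have h2 : A ^ ((r ^ 2 : ℤ)) = A ^ (r * r) := by
    rw [← zpow_natCast A (r * r)]
    congr 1
    push_cast
    ring
  rw [h2]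
  exact h1

theorem Pe_Xn_abs {p s q t : ℕ} (h1 : adm r p q) (h2 : adm r q s) (h3 : adm r p t)
    (h4 : adm r t s) : |Xn A r p s q t| = wt A p q * wt A s t * |Xp A r q t s p| := by
  have hA1 : 1 < A := by linarith
  rw [Xn_rot hA1 hr h1 h2 h3 h4, abs_mul, abs_mul, abs_pow, abs_neg, abs_one, one_pow, one_mul,
    abs_of_nonneg (Real.sqrt_nonneg _)]
  unfold wt
  rw [← Real.sqrt_mul (div_nonneg (dl_pos hA1 _).le (dl_pos hA1 _).le), div_mul_div_comm]

end

/-- exponent of a piece -/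
def Pe_E (r : ℕ) (h : ℕ × ℕ → ℕ) (l : ℕ) (e : Ev) : ℤ :=
  (if e.isX then (r ^ 2 : ℤ) else 0) + exEv h l e

theorem Pe_prod_zpow {A : ℝ} (hA : A ≠ 0) (s : Finset ℕ) (F : ℕ → ℤ) :
    ∏ l ∈ s, A ^ F l = A ^ ∑ l ∈ s, F l := by
  induction s using Finset.cons_induction with
  | empty => simp
  | cons a s ha ih => rw [Finset.prod_cons, Finset.sum_cons, zpow_add₀ hA, ih]

theorem Pe_crossings (r : ℕ) (w : List Ev) :
    ∑ l ∈ range w.length, (w[l]?).elim 0 (fun e => if e.isX then (r ^ 2 : ℤ) else 0) =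
      (crossings w * r ^ 2 : ℕ) := by
  induction w with
  | nil => simp [crossings]
  | cons e w ih =>
    rw [List.length_cons, Finset.sum_range_succ']
    have h1 : ∀ l, (e :: w)[l + 1]? = w[l]? := fun l => by simp
    simp only [h1, List.getElem?_cons_zero, Option.elim]
    simp only [Option.elim] at ih
    rw [ih]
    unfold crossings
    rw [List.countP_cons]
    split_ifs <;> push_cast <;> ring

theorem Pe_sumE (r : ℕ) (w : List Ev) (h : ℕ × ℕ → ℕ) :
    ∑ l ∈ range w.length, (w[l]?).elim 0 (Pe_E r h l) = (crossings w * r ^ 2 : ℕ) + ex w h := by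
  rw [← Pe_crossings, ex, ← Finset.sum_add_distrib]
  refine Finset.sum_congr rfl fun l _ => ?_
  cases w[l]? with
  | none => simp
  | some e => simp [Pe_E]

/-! ## The dominant colouring -/

/-- The properties of the dominant colouring. -/
structure Pe_Dom (w : List Ev) (r : ℕ) (hs : ℕ × ℕ → ℕ) : Prop where
  col : Coloring w r hs
  le : ∀ p, hs p ≤ 2 * r
  pos : ∀ l i, w[l]? = some (Ev.pos i) → hs (l, i + 1) = max (hs (l, i)) (hs (l, i + 2)) - r ∧
    hs (l + 1, i + 1) = hs (l, i + 1) ∧ adm (2 * r) (hs (l, i)) (hs (l, i + 2))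
  neg : ∀ l i, w[l]? = some (Ev.neg i) → hs (l, i) = hs (l, i + 2) ∧
    hs (l, i) = max (hs (l, i + 1)) (hs (l + 1, i + 1)) - r ∧
      adm (2 * r) (hs (l, i + 1)) (hs (l + 1, i + 1))
  dom : ∀ h, Coloring w r h → ∀ p, IsGap w p → ex w h + 2 * |(h p : ℤ) - hs p| ≤ ex w hs

theorem Pe_not_ext {w : List Ev} (hs : Simple w) {l i : ℕ} (hx : IsCrossing w l i) {x y : Fin 4}
    (hxy : x ≠ y) (h1 : External w (corner l i x)) (h2 : External w (corner l i y)) : False :=
  hs.noTwiceF l i hx x y hxy h1 h2 (hs.noTwoF l i hx x y h1 h2)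

theorem Pe_max {r x y : ℕ} (h1 : x = 0 ∨ x = 2 * r) (h2 : y = 0 ∨ y = 2 * r)
    (h : x = 2 * r ∨ y = 2 * r) : r = max x y - r ∧ adm (2 * r) x y := by
  unfold adm
  rcases h1 with rfl | rfl <;> rcases h2 with rfl | rfl <;> omega

theorem Pe_hA_odd {w : List Ev} {r : ℕ} {l j : ℕ} (h : j % 2 = 1) : hA w r (l, j) = r := by
  simp [hA, h]

theorem Pe_hA_even {w : List Ev} {r : ℕ} {l j : ℕ} (h : j % 2 = 0) :
    (External w (l, j) ∧ hA w r (l, j) = 0) ∨ (¬ External w (l, j) ∧ hA w r (l, j) = 2 * r) := by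
  classical
  by_cases he : External w (l, j)
  · left
    simp [hA, h, he]
  · right
    simp [hA, h, he]

theorem Pe_domA (D : Diagram) (hc : Connected D.word) (hX : 0 < crossings D.word)
    (hs : Simple D.word) (hh : HomTrivial D.word) (hA' : CaseA D.word) (r : ℕ) (hr : 0 < r) :
    Pe_Dom D.word r (hA D.word r) := by
  obtain ⟨h1, h2⟩ := planarA D hc hX hs hh hA' r hr
  have key : ∀ l i, IsCrossing D.word l i → ∀ x y : Fin 4, x ≠ y →
      (corner l i x).2 % 2 = 0 → (corner l i y).2 % 2 = 0 →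
      r = max (hA D.word r (corner l i x)) (hA D.word r (corner l i y)) - r ∧
        adm (2 * r) (hA D.word r (corner l i x)) (hA D.word r (corner l i y)) := by
    intro l i hx x y hxy hx2 hy2
    have h3 : ∀ p : ℕ × ℕ, p.2 % 2 = 0 → (External D.word p ∧ hA D.word r p = 0) ∨
        (¬ External D.word p ∧ hA D.word r p = 2 * r) := fun p hp => Pe_hA_even hp
    rcases h3 _ hx2 with ⟨h4, h5⟩ | ⟨h4, h5⟩ <;> rcases h3 _ hy2 with ⟨h6, h7⟩ | ⟨h6, h7⟩
    · exact absurd (Pe_not_ext hs hx hxy h4 h6) id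
    · exact Pe_max (Or.inl h5) (Or.inr h7) (Or.inr h7)
    · exact Pe_max (Or.inr h5) (Or.inl h7) (Or.inl h5)
    · exact Pe_max (Or.inr h5) (Or.inr h7) (Or.inr h7)
  refine ⟨h1, ?_, ?_, ?_, h2⟩
  · intro p
    unfold hA
    split_ifs <;> omega
  · intro l i he
    have hi := hA'.1 i (List.mem_of_getElem? he)
    have h3 := key l i (Or.inl he) 0 1 (by decide) hi (by show (i + 2) % 2 = 0; omega)
    rw [Pe_hA_odd (l := l) (show (i + 1) % 2 = 1 by omega),
      Pe_hA_odd (l := l + 1) (show (i + 1) % 2 = 1 by omega)]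
    exact ⟨h3.1, rfl, h3.2⟩
  · intro l i he
    have hi := hA'.2 i (List.mem_of_getElem? he)
    have h3 := key l i (Or.inr he) 2 3 (by decide) (by show (i + 1) % 2 = 0; omega)
      (by show (i + 1) % 2 = 0; omega)
    rw [Pe_hA_odd (l := l) hi, Pe_hA_odd (l := l) (show (i + 2) % 2 = 1 by omega)]
    exact ⟨rfl, h3.1, h3.2⟩

theorem Pe_domB (D : Diagram) (hc : Connected D.word) (hX : 0 < crossings D.word)
    (hs : Simple D.word) (hh : HomTrivial D.word) (hB' : CaseB D.word) (r : ℕ) (hr : 0 < r) :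
    Pe_Dom D.word r (hB r) := by
  obtain ⟨h1, h2⟩ := planarB D hc hX hs hh hB' r hr
  have h3 : adm (2 * r) r r := by unfold adm; omega
  refine ⟨h1, ?_, ?_, ?_, h2⟩
  · intro p
    unfold hB
    split_ifs <;> omega
  · intro l i he
    have hi := hB'.1 i (List.mem_of_getElem? he)
    have e1 : (i + 1) % 2 = 0 := by omega
    have e2 : (i + 2) % 2 = 1 := by omega
    simp only [hB, hi, e1, e2, if_true]
    exact ⟨by simp, by simp, h3⟩
  · intro l i he
    have hi := hB'.2 i (List.mem_of_getElem? he)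
    have e1 : (i + 1) % 2 = 1 := by omega
    have e2 : (i + 2) % 2 = 0 := by omega
    simp only [hB, hi, e1, e2, if_true]
    exact ⟨by simp, by simp, h3⟩

/-- the choices of the dominant colouring -/
def Pe_t (w : List Ev) (hs : ℕ × ℕ → ℕ) (l : ℕ) : ℕ :=
  match w[l]? with
  | some (Ev.cup i) => hs (l + 1, i + 1)
  | some (Ev.pos i) => hs (l + 1, i + 1)
  | some (Ev.neg i) => hs (l + 1, i + 1)
  | _ => 0

theorem Pe_ht {w : List Ev} {r : ℕ} {hs : ℕ × ℕ → ℕ} (hw : Runs 0 w 0) (col : Coloring w r hs) :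
    ∀ l, l ≤ w.length → ∀ j, j ≤ lev w l →
      Pe_h w (Pe_t w hs) (fun _ => 0) l j = hs (l, j) := by
  intro l
  induction l with
  | zero =>
    intro _ j hj
    rw [Pe_lev_zero] at hj
    have : j = 0 := by omega
    subst this
    rw [Pe_h_zero]
    exact col.outer.symm
  | succ l ih =>
    intro hl j hj
    have ih' := ih (by omega)
    obtain ⟨e, he⟩ : ∃ e, w[l]? = some e := ⟨w[l], List.getElem?_eq_getElem (by omega)⟩
    have hg := Pe_gap hw he
    rw [Pe_lev_succ he] at hj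
    rw [Pe_h_succ he]
    generalize Pe_h w (Pe_t w hs) (fun _ => 0) l = η at *
    have hleft : ∀ j, j ≤ e.gap → hs (l, j) = hs (l + 1, j) := fun j hj =>
      col.step _ _ (GapStep.left l j e he hj)
    have hright : ∀ j, e.gap + e.inn ≤ j → j ≤ lev w l → hs (l, j) = hs (l + 1, j - e.inn + e.out) :=
      fun j hj hn => col.step _ _ (GapStep.right l j e he hj hn)
    cases e with
    | cup i =>
      simp only [Ev.inn, Ev.out, Ev.gap, Nat.sub_zero, add_zero] at hj hg hleft hright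
      simp only [Pe_nxt, ins2]
      split_ifs with h1 h2
      · rw [ih' j (by omega)]
        exact hleft j h1
      · subst h2
        simp [Pe_t, he]
      · rw [ih' (j - 2) (by omega), hright (j - 2) (by omega) (by omega)]
        congr 2
        omega
    | cap i =>
      simp only [Ev.inn, Ev.out, Ev.gap, add_zero] at hj hg hleft hright
      simp only [Pe_nxt, rem2]
      split_ifs with h1
      · rw [ih' j (by omega)]
        exact hleft j h1
      · rw [ih' (j + 2) (by omega), hright (j + 2) (by omega) (by omega)]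
        congr 2
    | pos i =>
      simp only [Ev.inn, Ev.out, Ev.gap] at hj hg hleft hright
      simp only [Pe_nxt, upd]
      split_ifs with h1
      · subst h1
        simp [Pe_t, he]
      · rw [ih' j (by omega)]
        rcases Nat.lt_or_ge i j with h2 | h2
        · rw [hright j (by omega) (by omega)]
          congr 2
          omega
        · exact hleft j h2
    | neg i =>
      simp only [Ev.inn, Ev.out, Ev.gap] at hj hg hleft hright
      simp only [Pe_nxt, upd]
      split_ifs with h1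
      · subst h1
        simp [Pe_t, he]
      · rw [ih' j (by omega)]
        rcases Nat.lt_or_ge i j with h2 | h2
        · rw [hright j (by omega) (by omega)]
          congr 2
          omega
        · exact hleft j h2
    | hole i =>
      simp only [Ev.inn, Ev.out, Ev.gap, Nat.sub_zero, add_zero] at hj hg hleft hright
      simp only [Pe_nxt]
      rw [ih' j hj]
      rcases Nat.lt_or_ge i j with h2 | h2
      · exact hright j (by omega) (by omega)
      · exact hleft j h2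

/-! ## Bounds for the pieces -/

section
variable {A : ℝ} (hA : 2 ≤ A) {r : ℕ} (hr : 0 < r) {w : List Ev} (hw : Runs 0 w 0)
  {hs : ℕ × ℕ → ℕ} (dom : Pe_Dom w r hs)
include hA hr hw dom

theorem Pe_w_le (f : ℕ → ℕ) (m : ℕ)
    (hm : ∀ p, IsGap w p → hd (Pe_h w f (fun _ => 0) p.1 p.2) (hs p) ≤ m) {l : ℕ} {e : Ev}
    (he : w[l]? = some e) :
    |Pe_w A r (f l) (Pe_h w f (fun _ => 0) l) e| ≤
      32 * 64 ^ m * A ^ Pe_E r (fun p => Pe_h w f (fun _ => 0) p.1 p.2) l e := by
  have hA0 : 0 < A := by linarith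
  have hg := Pe_gap hw he
  have hl := Pe_lt he
  have hlev := Pe_lev_succ he
  have h64 : (1 : ℝ) ≤ 64 ^ m := one_le_pow₀ (by norm_num)
  have hsucc := Pe_h_succ he f (fun _ => 0)
  have hH : ∀ j, j ≤ lev w l → hd (Pe_h w f (fun _ => 0) l j) (hs (l, j)) ≤ m := fun j hj =>
    hm (l, j) ⟨by show l ≤ w.length; omega, hj⟩
  have hH' : ∀ j, j ≤ lev w (l + 1) → hd (Pe_h w f (fun _ => 0) (l + 1) j) (hs (l + 1, j)) ≤ m :=
    fun j hj => hm (l + 1, j) ⟨by show l + 1 ≤ w.length; omega, hj⟩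
  have hpow : ∀ k, k ≤ 2 * m → (8 : ℝ) ^ (k + 1) ≤ 8 * 64 ^ m := by
    intro k hk
    calc (8 : ℝ) ^ (k + 1) ≤ 8 ^ (2 * m + 1) := pow_le_pow_right₀ (by norm_num) (by omega)
      _ = 8 * 64 ^ m := by rw [pow_succ, pow_mul]; norm_num; ring
  cases e with
  | cup i =>
    have h1 : Pe_h w f (fun _ => 0) (l + 1) (i + 1) = f l := by
      rw [hsucc]
      simp [Pe_nxt, ins2]
    have h2 : Pe_E r (fun p => Pe_h w f (fun _ => 0) p.1 p.2) l (Ev.cup i) =
        (f l : ℤ) - Pe_h w f (fun _ => 0) l i := by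
      simp [Pe_E, Ev.isX, exEv, h1]
    rw [h2]
    have h3 := Pe_wt_le hA (Pe_h w f (fun _ => 0) l i) (f l)
    have h4 := Pe_wt_nonneg hA (Pe_h w f (fun _ => 0) l i) (f l)
    have h5 : 0 < A ^ ((f l : ℤ) - Pe_h w f (fun _ => 0) l i) := by positivity
    have h6 : 2 * A ^ ((f l : ℤ) - Pe_h w f (fun _ => 0) l i) ≤
        32 * 64 ^ m * A ^ ((f l : ℤ) - Pe_h w f (fun _ => 0) l i) :=
      mul_le_mul_of_nonneg_right (by linarith) h5.le
    simp only [Pe_w]
    split_ifs
    · rw [abs_of_nonneg h4]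
      linarith
    · rw [abs_zero]
      positivity
  | cap i =>
    have h2 : Pe_E r (fun p => Pe_h w f (fun _ => 0) p.1 p.2) l (Ev.cap i) =
        (Pe_h w f (fun _ => 0) l (i + 1) : ℤ) - Pe_h w f (fun _ => 0) l i := by
      simp [Pe_E, Ev.isX, exEv]
    rw [h2]
    have h3 := Pe_wt_le hA (Pe_h w f (fun _ => 0) l i) (Pe_h w f (fun _ => 0) l (i + 1))
    have h4 := Pe_wt_nonneg hA (Pe_h w f (fun _ => 0) l i) (Pe_h w f (fun _ => 0) l (i + 1))
    have h5 : 0 < A ^ ((Pe_h w f (fun _ => 0) l (i + 1) : ℤ) - Pe_h w f (fun _ => 0) l i) := by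
      positivity
    have h6 : 2 * A ^ ((Pe_h w f (fun _ => 0) l (i + 1) : ℤ) - Pe_h w f (fun _ => 0) l i) ≤
        32 * 64 ^ m * A ^ ((Pe_h w f (fun _ => 0) l (i + 1) : ℤ) - Pe_h w f (fun _ => 0) l i) :=
      mul_le_mul_of_nonneg_right (by linarith) h5.le
    simp only [Pe_w]
    split_ifs
    · rw [abs_of_nonneg h4]
      linarith
    · rw [abs_zero]
      positivity
  | pos i =>
    simp only [Ev.inn, Ev.out, Ev.gap] at hg hlev
    have h1 : Pe_h w f (fun _ => 0) (l + 1) (i + 1) = f l := by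
      rw [hsucc]
      simp [Pe_nxt, upd]
    have hk : hd (Pe_h w f (fun _ => 0) l (i + 1)) (f l) ≤ 2 * m := by
      have h2 := hH (i + 1) (by omega)
      have h3 := hH' (i + 1) (by omega)
      rw [h1, (dom.pos l i he).2.1] at h3
      unfold hd at *
      omega
    have h2 : Pe_E r (fun p => Pe_h w f (fun _ => 0) p.1 p.2) l (Ev.pos i) =
        (r ^ 2 : ℤ) - hd (Pe_h w f (fun _ => 0) l (i + 1)) (f l) := by
      simp only [Pe_E, Ev.isX, exEv, h1, if_true, Pe_hd]
      ring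
    rw [h2]
    have h3 := Pe_Xp_le hA hr (Pe_h w f (fun _ => 0) l i) (Pe_h w f (fun _ => 0) l (i + 2))
      (Pe_h w f (fun _ => 0) l (i + 1)) (f l)
    have h4 := hpow _ hk
    refine h3.trans (mul_le_mul_of_nonneg_right ?_ (by positivity))
    linarith
  | neg i =>
    simp only [Ev.inn, Ev.out, Ev.gap] at hg hlev
    have h1 : Pe_h w f (fun _ => 0) (l + 1) (i + 1) = f l := by
      rw [hsucc]
      simp [Pe_nxt, upd]
    have hk : hd (Pe_h w f (fun _ => 0) l (i + 2)) (Pe_h w f (fun _ => 0) l i) ≤ 2 * m := by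
      have h2 := hH (i + 2) (by omega)
      have h3 := hH i (by omega)
      rw [(dom.neg l i he).1] at h3
      unfold hd at *
      omega
    simp only [Pe_w]
    by_cases h0 : Xn A r (Pe_h w f (fun _ => 0) l i) (Pe_h w f (fun _ => 0) l (i + 2))
        (Pe_h w f (fun _ => 0) l (i + 1)) (f l) = 0
    · rw [h0, abs_zero]
      positivity
    · obtain ⟨a1, a2, a3, a4⟩ := Xn_adm (by linarith) hr h0
      rw [Pe_Xn_abs hA hr a1 a2 a3 a4]
      have h2 : Pe_E r (fun p => Pe_h w f (fun _ => 0) p.1 p.2) l (Ev.neg i) =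
          ((Pe_h w f (fun _ => 0) l (i + 1) : ℤ) - Pe_h w f (fun _ => 0) l i) +
          ((f l : ℤ) - Pe_h w f (fun _ => 0) l (i + 2)) +
          ((r ^ 2 : ℤ) - hd (Pe_h w f (fun _ => 0) l (i + 2)) (Pe_h w f (fun _ => 0) l i)) := by
        simp only [Pe_E, Ev.isX, exEv, h1, if_true, Pe_hd]
        rw [abs_sub_comm (Pe_h w f (fun _ => 0) l (i + 2) : ℤ)]
        ring
      rw [h2, zpow_add₀ hA0.ne', zpow_add₀ hA0.ne']
      have h3 := Pe_Xp_le hA hr (Pe_h w f (fun _ => 0) l (i + 1)) (f l)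
        (Pe_h w f (fun _ => 0) l (i + 2)) (Pe_h w f (fun _ => 0) l i)
      have h4 := hpow _ hk
      have h5 := Pe_wt_le hA (Pe_h w f (fun _ => 0) l i) (Pe_h w f (fun _ => 0) l (i + 1))
      have h6 := Pe_wt_le hA (Pe_h w f (fun _ => 0) l (i + 2)) (f l)
      have h7 := Pe_wt_nonneg hA (Pe_h w f (fun _ => 0) l i) (Pe_h w f (fun _ => 0) l (i + 1))
      have h8 := Pe_wt_nonneg hA (Pe_h w f (fun _ => 0) l (i + 2)) (f l)
      generalize wt A (Pe_h w f (fun _ => 0) l i) (Pe_h w f (fun _ => 0) l (i + 1)) = X at *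
      generalize wt A (Pe_h w f (fun _ => 0) l (i + 2)) (f l) = Y at *
      generalize hd (Pe_h w f (fun _ => 0) l (i + 2)) (Pe_h w f (fun _ => 0) l i) = k at *
      generalize |Xp A r (Pe_h w f (fun _ => 0) l (i + 1)) (f l) (Pe_h w f (fun _ => 0) l (i + 2))
        (Pe_h w f (fun _ => 0) l i)| = Z at *
      have h9 : Z ≤ 8 * 64 ^ m * A ^ ((r ^ 2 : ℤ) - k) :=
        h3.trans (mul_le_mul_of_nonneg_right h4 (by positivity))
      have h10 : 0 < A ^ ((Pe_h w f (fun _ => 0) l (i + 1) : ℤ) - Pe_h w f (fun _ => 0) l i) := by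
        positivity
      have h11 : 0 < A ^ ((f l : ℤ) - Pe_h w f (fun _ => 0) l (i + 2)) := by positivity
      have h12 : 0 < A ^ ((r ^ 2 : ℤ) - k) := by positivity
      calc X * Y * Z ≤ (2 * A ^ ((Pe_h w f (fun _ => 0) l (i + 1) : ℤ) -
            Pe_h w f (fun _ => 0) l i)) * (2 * A ^ ((f l : ℤ) - Pe_h w f (fun _ => 0) l (i + 2))) *
            (8 * 64 ^ m * A ^ ((r ^ 2 : ℤ) - k)) := by
            refine (mul_le_mul_of_nonneg_left h9 (mul_nonneg h7 h8)).trans
              (mul_le_mul_of_nonneg_right ?_ (by positivity))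
            exact mul_le_mul h5 h6 h8 (by positivity)
        _ = _ := by ring
  | hole i =>
    have h2 : Pe_E r (fun p => Pe_h w f (fun _ => 0) p.1 p.2) l (Ev.hole i) = 0 := by
      simp [Pe_E, Ev.isX, exEv]
    rw [h2, zpow_zero]
    simp only [Pe_w]
    split_ifs
    · rw [abs_one]
      linarith
    · rw [abs_zero]
      positivity

theorem Pe_w_ge {l : ℕ} {e : Ev} (he : w[l]? = some e) :
    A ^ Pe_E r hs l e ≤
      16 * |Pe_w A r (Pe_t w hs l) (Pe_h w (Pe_t w hs) (fun _ => 0) l) e| := by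
  have hA0 : 0 < A := by linarith
  have hg := Pe_gap hw he
  have hl := Pe_lt he
  have hlev := Pe_lev_succ he
  have hη := Pe_ht hw dom.col l (by omega)
  generalize Pe_h w (Pe_t w hs) (fun _ => 0) l = η at *
  have hadm := dom.col.adm
  have hleft : ∀ j, j ≤ e.gap → hs (l, j) = hs (l + 1, j) := fun j hj =>
    dom.col.step _ _ (GapStep.left l j e he hj)
  have hright : ∀ j, e.gap + e.inn ≤ j → j ≤ lev w l → hs (l, j) = hs (l + 1, j - e.inn + e.out) :=
    fun j hj hn => dom.col.step _ _ (GapStep.right l j e he hj hn)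
  cases e with
  | cup i =>
    simp only [Ev.inn, Ev.out, Ev.gap, Nat.sub_zero, add_zero] at hlev hg hleft hright
    have ht : Pe_t w hs l = hs (l + 1, i + 1) := by simp [Pe_t, he]
    have h1 : adm r (hs (l, i)) (hs (l + 1, i + 1)) := by
      rw [hleft i le_rfl]
      exact hadm (l + 1) i (by omega) (by omega)
    simp only [Pe_w, ht, hη i (by omega), if_pos h1, Pe_E, Ev.isX, exEv]
    rw [abs_of_nonneg (Pe_wt_nonneg hA _ _)]
    have h2 := Pe_wt_ge hA (hs (l, i)) (hs (l + 1, i + 1))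
    have h3 := Pe_wt_nonneg hA (hs (l, i)) (hs (l + 1, i + 1))
    simp only [Bool.false_eq_true, if_false, zero_add]
    linarith
  | cap i =>
    simp only [Ev.inn, Ev.out, Ev.gap, add_zero] at hlev hg hleft hright
    have h1 : hs (l, i) = hs (l, i + 2) ∧ adm r (hs (l, i)) (hs (l, i + 1)) := by
      refine ⟨?_, hadm l i (by omega) (by omega)⟩
      rw [hleft i le_rfl, hright (i + 2) (by omega) (by omega), Nat.add_sub_cancel]
    simp only [Pe_w, hη i (by omega), hη (i + 1) (by omega), hη (i + 2) (by omega), if_pos h1,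
      Pe_E, Ev.isX, exEv]
    rw [abs_of_nonneg (Pe_wt_nonneg hA _ _)]
    have h2 := Pe_wt_ge hA (hs (l, i)) (hs (l, i + 1))
    have h3 := Pe_wt_nonneg hA (hs (l, i)) (hs (l, i + 1))
    simp only [Bool.false_eq_true, if_false, zero_add]
    linarith
  | pos i =>
    simp only [Ev.inn, Ev.out, Ev.gap] at hlev hg hleft hright
    have ht : Pe_t w hs l = hs (l + 1, i + 1) := by simp [Pe_t, he]
    obtain ⟨h1, h2, h3⟩ := dom.pos l i he
    simp only [Pe_w, ht, hη i (by omega), hη (i + 1) (by omega), hη (i + 2) (by omega),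
      Pe_E, Ev.isX, exEv, h2]
    have h4 := Pe_Xp_low hA hr h3 h1
    have h5 := abs_nonneg (Xp A r (hs (l, i)) (hs (l, i + 2)) (hs (l, i + 1)) (hs (l, i + 1)))
    simp only [if_true, sub_self, abs_zero, neg_zero, add_zero]
    linarith
  | neg i =>
    simp only [Ev.inn, Ev.out, Ev.gap] at hlev hg hleft hright
    have ht : Pe_t w hs l = hs (l + 1, i + 1) := by simp [Pe_t, he]
    obtain ⟨h1, h2, h3⟩ := dom.neg l i he
    simp only [Pe_w, ht, hη i (by omega), hη (i + 1) (by omega), hη (i + 2) (by omega),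
      Pe_E, Ev.isX, exEv]
    have a1 : adm r (hs (l, i)) (hs (l, i + 1)) := hadm l i (by omega) (by omega)
    have a2 : adm r (hs (l, i + 1)) (hs (l, i + 2)) := hadm l (i + 1) (by omega) (by omega)
    have a3 : adm r (hs (l, i)) (hs (l + 1, i + 1)) := by
      rw [hleft i le_rfl]
      exact hadm (l + 1) i (by omega) (by omega)
    have a4 : adm r (hs (l + 1, i + 1)) (hs (l, i + 2)) := by
      rw [hright (i + 2) (by omega) (by omega), Nat.add_sub_cancel]
      exact hadm (l + 1) (i + 1) (by omega) (by omega)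
    rw [Pe_Xn_abs hA hr a1 a2 a3 a4, ← h1]
    have h4 := Pe_Xp_low hA hr h3 h2
    have h5 := Pe_wt_ge hA (hs (l, i)) (hs (l, i + 1))
    have h6 := Pe_wt_ge hA (hs (l, i)) (hs (l + 1, i + 1))
    have h7 := Pe_wt_nonneg hA (hs (l, i)) (hs (l, i + 1))
    have h8 := Pe_wt_nonneg hA (hs (l, i)) (hs (l + 1, i + 1))
    have h9 := abs_nonneg (Xp A r (hs (l, i + 1)) (hs (l + 1, i + 1)) (hs (l, i)) (hs (l, i)))
    have h10 : (if True then (r ^ 2 : ℤ) else 0) + ((hs (l, i + 1) : ℤ) + hs (l + 1, i + 1) -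
        hs (l, i) - hs (l, i) - |(hs (l, i) : ℤ) - hs (l, i)|) =
        ((hs (l, i + 1) : ℤ) - hs (l, i)) + ((hs (l + 1, i + 1) : ℤ) - hs (l, i)) + (r ^ 2 : ℤ) := by
      simp only [if_true, sub_self, abs_zero]
      ring
    simp only [if_true] at h10 ⊢
    rw [h10, zpow_add₀ hA0.ne', zpow_add₀ hA0.ne']
    calc A ^ ((hs (l, i + 1) : ℤ) - hs (l, i)) * A ^ ((hs (l + 1, i + 1) : ℤ) - hs (l, i)) *
          A ^ (r ^ 2 : ℤ) ≤ (2 * wt A (hs (l, i)) (hs (l, i + 1))) *
          (2 * wt A (hs (l, i)) (hs (l + 1, i + 1))) *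
          (4 * |Xp A r (hs (l, i + 1)) (hs (l + 1, i + 1)) (hs (l, i)) (hs (l, i))|) := by
          refine mul_le_mul (mul_le_mul h5 h6 (by positivity) (by positivity)) h4 (by positivity)
            (by positivity)
      _ = _ := by ring
  | hole i =>
    simp only [Ev.inn, Ev.out, Ev.gap, Nat.sub_zero, add_zero] at hlev hg hleft hright
    have h1 : hs (l, i) = 0 := dom.col.hole l i he
    simp only [Pe_w, hη i (by omega), h1, if_true, Pe_E, Ev.isX, exEv]
    norm_num

theorem Pe_W_le (f : ℕ → ℕ) (m : ℕ)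
    (hm : ∀ p, IsGap w p → hd (Pe_h w f (fun _ => 0) p.1 p.2) (hs p) ≤ m) :
    |Pe_W A r w f (fun _ => 0)| ≤ (32 * 64 ^ m) ^ w.length *
      A ^ ((crossings w * r ^ 2 : ℕ) + ex w fun p => Pe_h w f (fun _ => 0) p.1 p.2) := by
  have hA0 : 0 < A := by linarith
  rw [Pe_W_eq, Finset.abs_prod, ← Pe_sumE, ← Pe_prod_zpow hA0.ne']
  have h1 : ((32 : ℝ) * 64 ^ m) ^ w.length = ∏ _l ∈ range w.length, (32 * 64 ^ m) := by
    rw [Finset.prod_const, Finset.card_range]
  rw [h1, ← Finset.prod_mul_distrib]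
  refine Finset.prod_le_prod (fun l _ => abs_nonneg _) fun l hl => ?_
  obtain ⟨e, he⟩ : ∃ e, w[l]? = some e :=
    ⟨w[l]'(Finset.mem_range.1 hl), List.getElem?_eq_getElem (Finset.mem_range.1 hl)⟩
  rw [he]
  exact Pe_w_le hA hr hw dom f m hm he

theorem Pe_W_ge :
    A ^ ((crossings w * r ^ 2 : ℕ) + ex w hs) ≤
      16 ^ w.length * |Pe_W A r w (Pe_t w hs) (fun _ => 0)| := by
  have hA0 : 0 < A := by linarith
  rw [Pe_W_eq, Finset.abs_prod, ← Pe_sumE, ← Pe_prod_zpow hA0.ne']
  have h1 : (16 : ℝ) ^ w.length = ∏ _l ∈ range w.length, 16 := by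
    rw [Finset.prod_const, Finset.card_range]
  rw [h1, ← Finset.prod_mul_distrib]
  refine Finset.prod_le_prod (fun l _ => by positivity) fun l hl => ?_
  obtain ⟨e, he⟩ : ∃ e, w[l]? = some e :=
    ⟨w[l]'(Finset.mem_range.1 hl), List.getElem?_eq_getElem (Finset.mem_range.1 hl)⟩
  rw [he]
  exact Pe_w_ge hA hr hw dom he

end

/-! ## The lower bound -/

theorem Pe_exists_x (N : ℕ) : ∃ x : ℝ, 0 < x ∧ x ≤ 1 / 2 ∧
    32 ^ N * ((1 + 4 * x) ^ N - 1) ≤ (1 / 2) * ((16 : ℝ) ^ N)⁻¹ := by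
  have hcont : Continuous fun x : ℝ => 32 ^ N * ((1 + 4 * x) ^ N - 1) := by fun_prop
  have h0 : (32 : ℝ) ^ N * ((1 + 4 * 0) ^ N - 1) < (1 / 2) * ((16 : ℝ) ^ N)⁻¹ := by
    simp
  have h1 : ∀ᶠ x : ℝ in nhds 0, 32 ^ N * ((1 + 4 * x) ^ N - 1) < (1 / 2) * ((16 : ℝ) ^ N)⁻¹ :=
    hcont.continuousAt.eventually_lt continuousAt_const h0
  have h2 : ∀ᶠ x : ℝ in nhdsWithin 0 (Set.Ioi 0), 0 < x := eventually_mem_nhdsWithin
  have h3 : ∀ᶠ x : ℝ in nhds 0, x < 1 / 2 := eventually_lt_nhds (by norm_num)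
  obtain ⟨x, hx1, hx2, hx3⟩ := ((h1.filter_mono nhdsWithin_le_nhds).and
    (h2.and (h3.filter_mono nhdsWithin_le_nhds))).exists
  exact ⟨x, hx2, hx3.le, hx1.le⟩

theorem Pe_mem_gaps {w : List Ev} {p : ℕ × ℕ} : p ∈ gaps w ↔ IsGap w p := by
  obtain ⟨l, j⟩ := p
  unfold gaps IsGap
  simp only [Finset.mem_biUnion, Finset.mem_range, Finset.mem_image, Prod.mk.injEq]
  constructor
  · rintro ⟨l', h1, j', h2, rfl, rfl⟩
    exact ⟨by omega, by omega⟩
  · rintro ⟨h1, h2⟩
    exact ⟨l, by omega, j, by omega, rfl, rfl⟩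

theorem Pe_t_mem {r : ℕ} {w : List Ev} (hN : 0 < w.length) {hs : ℕ × ℕ → ℕ}
    (dom : Pe_Dom w r hs) : Pe_t w hs ∈ Pe_chs (hbound r w) w := by
  rw [Pe_mem_chs]
  intro l
  have hM : ∀ p, hs p < hbound r w := by
    intro p
    have h1 := dom.le p
    have h2 : 2 * r ≤ (w.length + 1) * r := Nat.mul_le_mul_right _ (by omega)
    unfold hbound
    omega
  unfold Pe_t
  cases h : w[l]? with
  | none => rfl
  | some e =>
    cases e with
    | cup i => exact Finset.mem_range.2 (hM _)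
    | cap i => exact Finset.mem_singleton_self 0
    | pos i => exact Finset.mem_range.2 (hM _)
    | neg i => exact Finset.mem_range.2 (hM _)
    | hole i => exact Finset.mem_singleton_self 0

/-- A choice differs from the dominant one by at most the maximal difference of the heights. -/
theorem Pe_hd_le {M : ℕ} {w : List Ev} (hw : Runs 0 w 0) {hs : ℕ × ℕ → ℕ} {f : ℕ → ℕ}
    (hf : f ∈ Pe_chs M w) {m : ℕ}
    (hm : ∀ p, IsGap w p → hd (Pe_h w f (fun _ => 0) p.1 p.2) (hs p) ≤ m) {l : ℕ}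
    (hl : l < w.length) : hd (f l) (Pe_t w hs l) ≤ m := by
  obtain ⟨e, he⟩ : ∃ e, w[l]? = some e := ⟨w[l], List.getElem?_eq_getElem hl⟩
  have hg := Pe_gap hw he
  have hlev := Pe_lev_succ he
  have hsucc := Pe_h_succ he f (fun _ => 0)
  have hmem := (Pe_mem_chs w f).1 hf l
  rw [he] at hmem
  have h0 : hd 0 0 ≤ m := by unfold hd; omega
  unfold Pe_t
  rw [he]
  cases e with
  | cup i =>
    simp only [Ev.inn, Ev.out, Ev.gap] at hg hlev
    have h1 := hm (l + 1, i + 1) ⟨by show l + 1 ≤ _; omega, by show i + 1 ≤ lev w (l + 1); omega⟩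
    rw [hsucc] at h1
    simpa [Pe_nxt, ins2] using h1
  | cap i =>
    have h1 : f l = 0 := Finset.mem_singleton.1 hmem
    rw [h1]
    exact h0
  | pos i =>
    simp only [Ev.inn, Ev.out, Ev.gap] at hg hlev
    have h1 := hm (l + 1, i + 1) ⟨by show l + 1 ≤ _; omega, by show i + 1 ≤ lev w (l + 1); omega⟩
    rw [hsucc] at h1
    simpa [Pe_nxt, upd] using h1
  | neg i =>
    simp only [Ev.inn, Ev.out, Ev.gap] at hg hlev
    have h1 := hm (l + 1, i + 1) ⟨by show l + 1 ≤ _; omega, by show i + 1 ≤ lev w (l + 1); omega⟩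
    rw [hsucc] at h1
    simpa [Pe_nxt, upd] using h1
  | hole i =>
    have h1 : f l = 0 := Finset.mem_singleton.1 hmem
    rw [h1]
    exact h0

section
variable {A : ℝ} (hA : 2 ≤ A) {r : ℕ} (hr : 0 < r) {w : List Ev} (hw : Runs 0 w 0)
  {hs : ℕ × ℕ → ℕ} (dom : Pe_Dom w r hs)
include hA hr hw dom

theorem Pe_W_bound {x : ℝ} (hx0 : 0 < x) (hx : x ≤ 1 / 2)
    (hAx : (64 : ℝ) ^ w.length ≤ A ^ 2 * x ^ w.length) {M : ℕ} {f : ℕ → ℕ}
    (hf : f ∈ Pe_chs M w) : |Pe_W A r w f (fun _ => 0)| ≤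
      32 ^ w.length * A ^ ((crossings w * r ^ 2 : ℕ) + ex w hs) *
        x ^ (∑ l ∈ range w.length, hd (f l) (Pe_t w hs l)) := by
  have hA0 : 0 < A := by linarith
  by_cases h0 : Pe_W A r w f (fun _ => 0) = 0
  · rw [h0, abs_zero]
    positivity
  have hne : ∀ l e, w[l]? = some e → Pe_w A r (f l) (Pe_h w f (fun _ => 0) l) e ≠ 0 := by
    intro l e he
    have h0' : Pe_W A r w f (fun _ => 0) ≠ 0 := h0
    rw [Pe_W_eq, Finset.prod_ne_zero_iff] at h0'
    have h1 := h0' l (Finset.mem_range.2 (Pe_lt he))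
    rw [he] at h1
    exact h1
  have col := Pe_coloring (by linarith) hr hw f hne
  obtain ⟨p, hp, hmax⟩ := Finset.exists_max_image (gaps w)
    (fun p => hd (Pe_h w f (fun _ => 0) p.1 p.2) (hs p))
    ⟨(0, 0), Pe_mem_gaps.2 ⟨Nat.zero_le _, Nat.zero_le _⟩⟩
  have hmax' : ∀ q, IsGap w q → hd (Pe_h w f (fun _ => 0) q.1 q.2) (hs q) ≤
      hd (Pe_h w f (fun _ => 0) p.1 p.2) (hs p) := fun q hq => hmax q (Pe_mem_gaps.2 hq)
  have hdom := dom.dom _ col p (Pe_mem_gaps.1 hp)
  rw [← Pe_hd] at hdom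
  generalize hd (Pe_h w f (fun _ => 0) p.1 p.2) (hs p) = m at hdom hmax'
  have hle := Pe_W_le hA hr hw dom f m hmax'
  have hD : ∑ l ∈ range w.length, hd (f l) (Pe_t w hs l) ≤ w.length * m := by
    refine (Finset.sum_le_card_nsmul _ _ m fun l hl => ?_).trans ?_
    · exact Pe_hd_le hw hf hmax' (Finset.mem_range.1 hl)
    · rw [Finset.card_range, smul_eq_mul]
  have h1 : A ^ ((crossings w * r ^ 2 : ℕ) + ex w fun p => Pe_h w f (fun _ => 0) p.1 p.2) ≤
      A ^ (((crossings w * r ^ 2 : ℕ) + ex w hs) - ((2 * m : ℕ) : ℤ)) :=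
    zpow_le_zpow_right₀ (by linarith) (by push_cast; omega)
  have h2 : A ^ (((crossings w * r ^ 2 : ℕ) + ex w hs) - ((2 * m : ℕ) : ℤ)) =
      A ^ ((crossings w * r ^ 2 : ℕ) + ex w hs) / (A ^ 2) ^ m := by
    rw [zpow_sub₀ hA0.ne', zpow_natCast, pow_mul]
  have h3 : (32 * 64 ^ m : ℝ) ^ w.length = 32 ^ w.length * (64 ^ w.length) ^ m := by
    rw [mul_pow, ← pow_mul, ← pow_mul, mul_comm m]
  have h4 : ((64 : ℝ) ^ w.length) ^ m ≤ (A ^ 2) ^ m * x ^ (w.length * m) := by
    calc ((64 : ℝ) ^ w.length) ^ m ≤ (A ^ 2 * x ^ w.length) ^ m :=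
          pow_le_pow_left₀ (by positivity) hAx m
      _ = _ := by rw [mul_pow, pow_mul x]
  have h5 : x ^ (w.length * m) ≤ x ^ (∑ l ∈ range w.length, hd (f l) (Pe_t w hs l)) :=
    pow_le_pow_of_le_one hx0.le (by linarith) hD
  generalize A ^ ((crossings w * r ^ 2 : ℕ) + ex w hs) = X at *
  have hX : 0 ≤ X := by
    have h6 : 0 ≤ X / (A ^ 2) ^ m := by
      rw [← h2]
      positivity
    by_contra hcon
    push Not at hcon
    have : X / (A ^ 2) ^ m < 0 := div_neg_of_neg_of_pos hcon (by positivity)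
    linarith
  calc |Pe_W A r w f (fun _ => 0)| ≤ (32 * 64 ^ m) ^ w.length *
        A ^ ((crossings w * r ^ 2 : ℕ) + ex w fun p => Pe_h w f (fun _ => 0) p.1 p.2) := hle
    _ ≤ (32 * 64 ^ m) ^ w.length * (X / (A ^ 2) ^ m) := by
        rw [← h2]
        exact mul_le_mul_of_nonneg_left h1 (by positivity)
    _ = 32 ^ w.length * X * ((64 ^ w.length) ^ m / (A ^ 2) ^ m) := by
        rw [h3]
        ring
    _ ≤ 32 ^ w.length * X * x ^ (w.length * m) := by
        refine mul_le_mul_of_nonneg_left ?_ (by positivity)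
        rw [div_le_iff₀ (by positivity)]
        linarith
    _ ≤ _ := mul_le_mul_of_nonneg_left h5 (by positivity)

theorem Pe_main (hN : 0 < w.length) {x : ℝ} (hx0 : 0 < x) (hx : x ≤ 1 / 2)
    (hx2 : 32 ^ w.length * ((1 + 4 * x) ^ w.length - 1) ≤ (1 / 2) * ((16 : ℝ) ^ w.length)⁻¹)
    (hAx : (64 : ℝ) ^ w.length ≤ A ^ 2 * x ^ w.length) :
    (1 / 2) * ((16 : ℝ) ^ w.length)⁻¹ * A ^ ((crossings w * r ^ 2 : ℕ) + ex w hs) ≤
      |J A r w| := by
  classical
  have hA0 : 0 < A := by linarith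
  have ht := Pe_t_mem hN dom
  have hge := Pe_W_ge hA hr hw dom
  have hle := fun f (hf : f ∈ Pe_chs (hbound r w) w) => Pe_W_bound hA hr hw dom hx0 hx hAx hf
  have hX : 0 < A ^ ((crossings w * r ^ 2 : ℕ) + ex w hs) := by positivity
  generalize A ^ ((crossings w * r ^ 2 : ℕ) + ex w hs) = X at *
  have hJ : J A r w = Pe_W A r w (Pe_t w hs) (fun _ => 0) +
      ∑ f ∈ (Pe_chs (hbound r w) w).erase (Pe_t w hs), Pe_W A r w f (fun _ => 0) := by
    rw [Finset.add_sum_erase _ (fun f => Pe_W A r w f (fun _ => 0)) ht]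
    exact Pe_run_eq A r (hbound r w) w (fun _ => 0)
  have h1 : |∑ f ∈ (Pe_chs (hbound r w) w).erase (Pe_t w hs), Pe_W A r w f (fun _ => 0)| ≤
      32 ^ w.length * X * ((1 + 4 * x) ^ w.length - 1) := by
    calc _ ≤ ∑ f ∈ (Pe_chs (hbound r w) w).erase (Pe_t w hs), |Pe_W A r w f (fun _ => 0)| :=
          Finset.abs_sum_le_sum_abs _ _
      _ ≤ ∑ f ∈ (Pe_chs (hbound r w) w).erase (Pe_t w hs), 32 ^ w.length * X *
            x ^ (∑ l ∈ range w.length, hd (f l) (Pe_t w hs l)) :=
          Finset.sum_le_sum fun f hf => hle f (Finset.mem_of_mem_erase hf)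
      _ = 32 ^ w.length * X * ∑ f ∈ (Pe_chs (hbound r w) w).erase (Pe_t w hs),
            x ^ (∑ l ∈ range w.length, hd (f l) (Pe_t w hs l)) := by rw [Finset.mul_sum]
      _ ≤ _ := by
          refine mul_le_mul_of_nonneg_left ?_ (by positivity)
          have h2 := Finset.add_sum_erase _ (fun f => x ^ (∑ l ∈ range w.length,
            hd (f l) (Pe_t w hs l))) ht
          have h3 := Pe_sum_pow hx0.le hx (hbound r w) w (Pe_t w hs)
          have h4 : ∑ l ∈ range w.length, hd (Pe_t w hs l) (Pe_t w hs l) = 0 :=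
            Finset.sum_eq_zero fun l _ => by unfold hd; omega
          rw [h4, pow_zero] at h2
          linarith
  have h2 : (16 : ℝ) ^ w.length * ((16 : ℝ) ^ w.length)⁻¹ = 1 :=
    mul_inv_cancel₀ (by positivity)
  have h3 : ((16 : ℝ) ^ w.length)⁻¹ * X ≤ |Pe_W A r w (Pe_t w hs) (fun _ => 0)| := by
    calc ((16 : ℝ) ^ w.length)⁻¹ * X ≤ ((16 : ℝ) ^ w.length)⁻¹ *
          (16 ^ w.length * |Pe_W A r w (Pe_t w hs) (fun _ => 0)|) :=
          mul_le_mul_of_nonneg_left hge (by positivity)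
      _ = (16 ^ w.length * ((16 : ℝ) ^ w.length)⁻¹) *
          |Pe_W A r w (Pe_t w hs) (fun _ => 0)| := by ring
      _ = _ := by rw [h2, one_mul]
  have h4 : 32 ^ w.length * X * ((1 + 4 * x) ^ w.length - 1) ≤
      (1 / 2) * ((16 : ℝ) ^ w.length)⁻¹ * X := by
    calc _ = (32 ^ w.length * ((1 + 4 * x) ^ w.length - 1)) * X := by ring
      _ ≤ _ := mul_le_mul_of_nonneg_right hx2 hX.le
  rw [hJ]
  have h5 := abs_sub_abs_le_abs_sub (Pe_W A r w (Pe_t w hs) (fun _ => 0))
    (-∑ f ∈ (Pe_chs (hbound r w) w).erase (Pe_t w hs), Pe_W A r w f (fun _ => 0))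
  rw [abs_neg, sub_neg_eq_add] at h5
  linarith

end

theorem Pe_ex_ge {r : ℕ} {w : List Ev} {hs : ℕ × ℕ → ℕ} (hle : ∀ p, hs p ≤ 2 * r) :
    -((6 * w.length * r : ℕ) : ℤ) ≤ ex w hs := by
  unfold ex
  have h1 : ∀ l ∈ range w.length, -((6 * r : ℕ) : ℤ) ≤ (w[l]?).elim 0 (exEv hs l) := by
    intro l hl
    obtain ⟨e, he⟩ : ∃ e, w[l]? = some e :=
      ⟨w[l]'(Finset.mem_range.1 hl), List.getElem?_eq_getElem (Finset.mem_range.1 hl)⟩
    rw [he]
    show -((6 * r : ℕ) : ℤ) ≤ exEv hs l e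
    cases e with
    | cup i =>
      have h1 := hle (l, i)
      simp only [exEv]
      omega
    | cap i =>
      have h1 := hle (l, i)
      simp only [exEv]
      omega
    | pos i =>
      have h1 := hle (l, i + 1)
      have h2 := hle (l + 1, i + 1)
      simp only [exEv]
      rcases abs_cases ((hs (l, i + 1) : ℤ) - hs (l + 1, i + 1)) with h | h <;> omega
    | neg i =>
      have h1 := hle (l, i)
      have h2 := hle (l, i + 2)
      simp only [exEv]
      rcases abs_cases ((hs (l, i) : ℤ) - hs (l, i + 2)) with h | h <;> omega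
    | hole i =>
      simp only [exEv]
      omega
  have h2 := Finset.card_nsmul_le_sum _ _ _ h1
  rw [Finset.card_range, nsmul_eq_mul] at h2
  refine le_trans (le_of_eq ?_) h2
  push_cast
  ring

/-- Lower bound. -/
theorem J_lower (D : Diagram) (hc : Connected D.word) (hX : 0 < crossings D.word)
    (hs : Simple D.word) (hh : HomTrivial D.word) (hAB : CaseA D.word ∨ CaseB D.word) :
    ∃ A : ℝ, 2 ≤ A ∧ ∃ c : ℝ, 0 < c ∧ ∃ L : ℕ, ∀ r : ℕ, 0 < r →
      c * A ^ (crossings D.word * r ^ 2) ≤ A ^ (L * r) * |J A r D.word| := by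
  have hN : 0 < D.word.length := by
    rcases Nat.eq_zero_or_pos D.word.length with h | h
    · rw [List.length_eq_zero_iff] at h
      rw [h] at hX
      simp [crossings] at hX
    · exact h
  obtain ⟨x, hx0, hx, hx2⟩ := Pe_exists_x D.word.length
  have hxN : 0 < x ^ D.word.length := by positivity
  refine ⟨max 2 (64 ^ D.word.length / x ^ D.word.length), le_max_left _ _,
    (1 / 2) * ((16 : ℝ) ^ D.word.length)⁻¹, by positivity, 6 * D.word.length, fun r hr => ?_⟩
  have hA : (2 : ℝ) ≤ max 2 (64 ^ D.word.length / x ^ D.word.length) := le_max_left _ _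
  have hA2 : (64 : ℝ) ^ D.word.length / x ^ D.word.length ≤
      max 2 (64 ^ D.word.length / x ^ D.word.length) := le_max_right _ _
  generalize max 2 ((64 : ℝ) ^ D.word.length / x ^ D.word.length) = A at *
  have hA0 : 0 < A := by linarith
  have hAx : (64 : ℝ) ^ D.word.length ≤ A ^ 2 * x ^ D.word.length := by
    rw [div_le_iff₀ hxN] at hA2
    refine hA2.trans (mul_le_mul_of_nonneg_right ?_ hxN.le)
    nlinarith
  obtain ⟨h, dom⟩ : ∃ h, Pe_Dom D.word r h := by
    rcases hAB with h1 | h1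
    · exact ⟨_, Pe_domA D hc hX hs hh h1 r hr⟩
    · exact ⟨_, Pe_domB D hc hX hs hh h1 r hr⟩
  have h1 := Pe_main hA hr D.closed dom hN hx0 hx hx2 hAx
  have h2 := Pe_ex_ge (w := D.word) dom.le
  have h3 : A ^ (crossings D.word * r ^ 2) ≤ A ^ (6 * D.word.length * r) *
      A ^ ((crossings D.word * r ^ 2 : ℕ) + ex D.word h) := by
    rw [← zpow_natCast A (crossings D.word * r ^ 2), ← zpow_natCast A (6 * D.word.length * r),
      ← zpow_add₀ hA0.ne']
    exact zpow_le_zpow_right₀ (by linarith) (by omega)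
  calc (1 / 2) * ((16 : ℝ) ^ D.word.length)⁻¹ * A ^ (crossings D.word * r ^ 2) ≤
        (1 / 2) * ((16 : ℝ) ^ D.word.length)⁻¹ * (A ^ (6 * D.word.length * r) *
      A ^ ((crossings D.word * r ^ 2 : ℕ) + ex D.word h)) :=
        mul_le_mul_of_nonneg_left h3 (by positivity)
    _ = A ^ (6 * D.word.length * r) * ((1 / 2) * ((16 : ℝ) ^ D.word.length)⁻¹ *
      A ^ ((crossings D.word * r ^ 2 : ℕ) + ex D.word h)) := by ring
    _ ≤ _ := mul_le_mul_of_nonneg_left h1 (by positivity)

end Pool.Agent.Tait
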