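import Pool.Agent.Lib.MP_150b40_gt.Rb

/-! # Invariance -/

namespace Pool.Agent.Tait

noncomputable section

theorem Rc_opW_append {A : ℝ} (hA : 1 < A) {r : ℕ} (hr : 0 < r) (u v : List Ev) :
    opW A hA r hr (u ++ v) = opW A hA r hr v * opW A hA r hr u := by
  induction u with
  | nil => simp [opW]
  | cons e u ih => simp [opW, ih, mul_assoc]

theorem Rc_ev_append {A : ℝ} (hA : 1 < A) {r : ℕ} (hr : 0 < r) (u v : List Ev) (F : V 0) :
    ev (opW A hA r hr (u ++ v)) 0 F = ev (opW A hA r hr v) 0 (ev (opW A hA r hr u) 0 F) := by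
  rw [Rc_opW_append, ev_mul]
  rfl

theorem Rc_ev_one (F : V 0) : ev (1 : Rm) 0 F = F := rfl

theorem Rc_KK {A : ℝ} (hA : 1 < A) {r : ℕ} (hr : 0 < r) (w : List Ev) (F : V 0)
    (hF : KK A hA r hr F) : KK A hA r hr (ev (opW A hA r hr w) 0 F) := by
  induction w generalizing F with
  | nil => simpa [opW, Rc_ev_one] using hF
  | cons e w ih =>
    have h1 : ev (opW A hA r hr (e :: w)) 0 F =
        ev (opW A hA r hr w) 0 (ev (opEv A hA r hr e) 0 F) := by
      rw [show opW A hA r hr (e :: w) = opW A hA r hr w * opEv A hA r hr e from rfl, ev_mul]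
      rfl
    rw [h1]
    exact ih _ (KK_opEv hA hr e F hF)

theorem Rc_vac_ne (r : ℕ) (hr : 0 < r) : vac r hr ≠ 0 := by
  unfold vac
  simp

theorem Rc_mirror_gap (e : Ev) : e.mirror.gap = e.gap := by cases e <;> rfl

theorem Rc_mirror_inn (e : Ev) : e.mirror.inn = e.inn := by cases e <;> rfl

theorem Rc_mirror_out (e : Ev) : e.mirror.out = e.out := by cases e <;> rfl

theorem Rc_mirror_put (e : Ev) (j : ℕ) : (e.put j).mirror = e.mirror.put j := by cases e <;> rfl

theorem Rc_runs_mirror (w : List Ev) (n m : ℕ) (h : Runs n w m) :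
    Runs n (w.map Ev.mirror) m := by
  induction w generalizing n with
  | nil => simpa using h
  | cons e w ih =>
    obtain ⟨h1, h2⟩ := h
    refine ⟨?_, ?_⟩
    · rw [Rc_mirror_gap, Rc_mirror_inn]
      exact h1
    · rw [Rc_mirror_inn, Rc_mirror_out]
      exact ih _ h2

/-- The words `x` and `y` have the same operators on coloured vectors up to a factor of absolute
value `A ^ (k r (r + 2))`, and `A ^ (- k r (r + 2))` for the mirror images. -/
def Rc_Rel (k : ℤ) (x y : List Ev) : Prop :=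
  ∀ (A : ℝ) (hA : 1 < A) (r : ℕ) (hr : 0 < r), ∃ c : ℝ, |c| = A ^ (k * (r * (r + 2) : ℕ)) ∧
    ∀ F : V 0, KK A hA r hr F →
      ev (opW A hA r hr x) 0 F = c • ev (opW A hA r hr y) 0 F

theorem Rc_Rel_of_op {x y : List Ev} (h : ∀ (A : ℝ) (hA : 1 < A) (r : ℕ) (hr : 0 < r),
    opW A hA r hr x = opW A hA r hr y) : Rc_Rel 0 x y := by
  intro A hA r hr
  exact ⟨1, by simp, fun F _ => by rw [h A hA r hr, one_smul]⟩

theorem Rc_ev_smul (c : ℝ) (x : Rm) (F : V 0) : ev (c • x) 0 F = c • ev x 0 F := rfl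

theorem Rc_abs_sign (r : ℕ) : |((-1 : ℝ)) ^ r| = 1 := by
  rw [abs_pow, abs_neg, abs_one, one_pow]

theorem Rc_abs_pos {A : ℝ} (hA : 1 < A) (r : ℕ) :
    |(-1 : ℝ) ^ r * A⁻¹ ^ (r * (r + 2))| = A ^ (-1 * ((r * (r + 2) : ℕ) : ℤ)) := by
  have h0 : 0 < A := by linarith
  rw [abs_mul, Rc_abs_sign, one_mul, abs_of_pos (by positivity), neg_one_mul, zpow_neg,
    zpow_natCast, inv_pow]

theorem Rc_abs_neg {A : ℝ} (hA : 1 < A) (r : ℕ) :
    |(-1 : ℝ) ^ r * A ^ (r * (r + 2))| = A ^ (1 * ((r * (r + 2) : ℕ) : ℤ)) := by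
  have h0 : 0 < A := by linarith
  rw [abs_mul, Rc_abs_sign, one_mul, abs_of_pos (by positivity), one_mul, zpow_natCast]

theorem Rc_inv_braid {a b a' b' : Rm} (ha : a * a' = 1) (ha' : a' * a = 1) (hb : b * b' = 1)
    (hb' : b' * b = 1) (h : a * b * a = b * a * b) : a' * b' * a' = b' * a' * b' := by
  have h1 : (a * b * a) * (a' * b' * a') = 1 := by
    calc (a * b * a) * (a' * b' * a') = a * b * (a * a') * b' * a' := by
          simp only [mul_assoc]
      _ = a * (b * b') * a' := by rw [ha]; simp only [mul_assoc, one_mul]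
      _ = 1 := by rw [hb, mul_one, ha]
  have h2 : (b' * a' * b') * (b * a * b) = 1 := by
    calc (b' * a' * b') * (b * a * b) = b' * a' * (b' * b) * a * b := by
          simp only [mul_assoc]
      _ = b' * (a' * a) * b := by rw [hb']; simp only [mul_assoc, one_mul]
      _ = 1 := by rw [ha', mul_one, hb']
  calc a' * b' * a' = ((b' * a' * b') * (b * a * b)) * (a' * b' * a') := by rw [h2, one_mul]
    _ = (b' * a' * b') * ((a * b * a) * (a' * b' * a')) := by rw [h]; simp only [mul_assoc]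
    _ = b' * a' * b' := by rw [h1, mul_one]

theorem Rc_elem {x y : List Ev} (h : Elem x y) :
    ∃ k : ℤ, Rc_Rel k x y ∧ Rc_Rel (-k) (x.map Ev.mirror) (y.map Ev.mirror) := by
  cases h with
  | swap e f h =>
    refine ⟨0, Rc_Rel_of_op fun A hA r hr => op_swap hA hr e f h, ?_⟩
    rw [neg_zero]
    refine Rc_Rel_of_op fun A hA r hr => ?_
    have := op_swap hA hr e.mirror f.mirror
      (by rw [Rc_mirror_gap, Rc_mirror_gap, Rc_mirror_inn]; exact h)
    rw [Rc_mirror_gap, Rc_mirror_inn, Rc_mirror_out] at this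
    simpa only [List.map_cons, List.map_nil, Rc_mirror_put] using this
  | zigR i =>
    have h : Rc_Rel 0 [Ev.cup i, Ev.cap (i + 1)] [] := fun A hA r hr =>
      ⟨1, by simp, fun F hF => by rw [op_zigR hA hr i F hF, one_smul]; rfl⟩
    exact ⟨0, h, by rw [neg_zero]; exact h⟩
  | zigL i =>
    have h : Rc_Rel 0 [Ev.cup (i + 1), Ev.cap i] [] := fun A hA r hr =>
      ⟨1, by simp, fun F hF => by rw [op_zigL hA hr i F hF, one_smul]; rfl⟩
    exact ⟨0, h, by rw [neg_zero]; exact h⟩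
  | slideCup i s =>
    have h : ∀ s : Bool, Rc_Rel 0 [Ev.cup (i + 1), if s then Ev.pos i else Ev.neg i,
        if s then Ev.pos (i + 1) else Ev.neg (i + 1)] [Ev.cup i] := fun s A hA r hr =>
      ⟨(-1) ^ r, by rw [Rc_abs_sign]; simp, fun F hF => by
        rw [op_slideCup hA hr i s, Rc_ev_smul]⟩
    refine ⟨0, h s, ?_⟩
    rw [neg_zero]
    cases s
    · exact h true
    · exact h false
  | slideCap i s =>
    have h : ∀ s : Bool, Rc_Rel 0 [if s then Ev.pos (i + 1) else Ev.neg (i + 1),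
        if s then Ev.pos i else Ev.neg i, Ev.cap (i + 1)] [Ev.cap i] := fun s A hA r hr =>
      ⟨(-1) ^ r, by rw [Rc_abs_sign]; simp, fun F hF => by
        rw [op_slideCap hA hr i s, Rc_ev_smul]⟩
    refine ⟨0, h s, ?_⟩
    rw [neg_zero]
    cases s
    · exact h true
    · exact h false
  | r1cup i s =>
    have h1 : Rc_Rel (-1) [Ev.cup i, Ev.pos i] [Ev.cup i] := fun A hA r hr =>
      ⟨_, Rc_abs_pos hA r, fun F hF => by
        have := op_r1cup hA hr i true
        simp only [if_true] at this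
        rw [this, Rc_ev_smul]⟩
    have h2 : Rc_Rel 1 [Ev.cup i, Ev.neg i] [Ev.cup i] := fun A hA r hr =>
      ⟨_, Rc_abs_neg hA r, fun F hF => by
        have := op_r1cup hA hr i false
        simp only [Bool.false_eq_true, if_false] at this
        rw [this, Rc_ev_smul]⟩
    cases s
    · exact ⟨1, h2, h1⟩
    · exact ⟨-1, h1, by rw [neg_neg]; exact h2⟩
  | r1cap i s =>
    have h1 : Rc_Rel (-1) [Ev.pos i, Ev.cap i] [Ev.cap i] := fun A hA r hr =>
      ⟨_, Rc_abs_pos hA r, fun F hF => by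
        have := op_r1cap hA hr i true
        simp only [if_true] at this
        rw [this, Rc_ev_smul]⟩
    have h2 : Rc_Rel 1 [Ev.neg i, Ev.cap i] [Ev.cap i] := fun A hA r hr =>
      ⟨_, Rc_abs_neg hA r, fun F hF => by
        have := op_r1cap hA hr i false
        simp only [Bool.false_eq_true, if_false] at this
        rw [this, Rc_ev_smul]⟩
    cases s
    · exact ⟨1, h2, h1⟩
    · exact ⟨-1, h1, by rw [neg_neg]; exact h2⟩
  | r2a i =>
    have h1 : Rc_Rel 0 [Ev.pos i, Ev.neg i] [] := Rc_Rel_of_op fun A hA r hr => op_r2a hA hr i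
    have h2 : Rc_Rel 0 [Ev.neg i, Ev.pos i] [] := Rc_Rel_of_op fun A hA r hr => op_r2b hA hr i
    exact ⟨0, h1, by rw [neg_zero]; exact h2⟩
  | r2b i =>
    have h1 : Rc_Rel 0 [Ev.pos i, Ev.neg i] [] := Rc_Rel_of_op fun A hA r hr => op_r2a hA hr i
    have h2 : Rc_Rel 0 [Ev.neg i, Ev.pos i] [] := Rc_Rel_of_op fun A hA r hr => op_r2b hA hr i
    exact ⟨0, h2, by rw [neg_zero]; exact h1⟩
  | r3 i =>
    refine ⟨0, Rc_Rel_of_op fun A hA r hr => op_r3 hA hr i, ?_⟩
    rw [neg_zero]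
    refine Rc_Rel_of_op fun A hA r hr => ?_
    have e1 := op_r2a hA hr i
    have e2 := op_r2b hA hr i
    have e3 := op_r2a hA hr (i + 1)
    have e4 := op_r2b hA hr (i + 1)
    have e5 := op_r3 hA hr i
    simp only [opW, one_mul] at e1 e2 e3 e4 e5
    have := Rc_inv_braid e2 e1 e4 e3 (by simpa only [mul_assoc] using e5)
    simp only [List.map_cons, List.map_nil, Ev.mirror, opW, one_mul]
    simpa only [mul_assoc] using this
  | sphere i =>
    have h : ∀ s : Bool, Rc_Rel 0 ((lasso i).map (fun e => if s then e else e.mirror) ++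
        [Ev.cap 0, Ev.hole i]) [Ev.cap 0, Ev.hole i] := fun s A hA r hr =>
      ⟨1, by simp, fun F hF => by rw [op_sphere hA hr i s F hF, one_smul]⟩
    refine ⟨0, ?_, ?_⟩
    · simpa using h true
    · rw [neg_zero, List.map_append]
      exact h false

theorem Rc_Rel_ctx {k : ℤ} {x y : List Ev} (h : Rc_Rel k x y) (u v : List Ev) :
    Rc_Rel k (u ++ x ++ v) (u ++ y ++ v) := by
  intro A hA r hr
  obtain ⟨c, hc, hF⟩ := h A hA r hr
  refine ⟨c, hc, fun F hK => ?_⟩
  rw [Rc_ev_append, Rc_ev_append, Rc_ev_append, Rc_ev_append, hF _ (Rc_KK hA hr u F hK), map_smul]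

theorem Rc_move {x y : List Ev} (h : Move x y) :
    ∃ k : ℤ, Rc_Rel k x y ∧ Rc_Rel (-k) (x.map Ev.mirror) (y.map Ev.mirror) := by
  obtain ⟨u, v, x, y, h⟩ := h
  obtain ⟨k, h1, h2⟩ := Rc_elem h
  refine ⟨k, Rc_Rel_ctx h1 u v, ?_⟩
  rw [List.map_append, List.map_append, List.map_append, List.map_append]
  exact Rc_Rel_ctx h2 _ _

theorem Rc_J {k : ℤ} {x y : List Ev} (h : Rc_Rel k x y) (hx : Runs 0 x 0) (hy : Runs 0 y 0)
    {A : ℝ} (hA : 1 < A) {r : ℕ} (hr : 0 < r) :
    |J A r x| = A ^ (k * (r * (r + 2) : ℕ)) * |J A r y| := by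
  obtain ⟨c, hc, hF⟩ := h A hA r hr
  have h1 := hF _ (KK_vac hA hr)
  rw [op_run hA hr x hx, op_run hA hr y hy, smul_smul] at h1
  have h2 := smul_left_injective ℝ (Rc_vac_ne r hr) h1
  rw [h2, abs_mul, hc]

/-- Invariance. -/
theorem J_inv (D D' : Diagram) (h : Isotopic D D') : ∃ k : ℤ, ∀ A : ℝ, 1 < A → ∀ r : ℕ, 0 < r →
    |J A r D.word| = A ^ (k * (r * (r + 2) : ℕ)) * |J A r D'.word| ∧
    |J A r (D.word.map Ev.mirror)| = A ^ (-k * (r * (r + 2) : ℕ)) *
      |J A r (D'.word.map Ev.mirror)| := by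
  induction h with
  | rel D D' h =>
    obtain ⟨k, h1, h2⟩ := Rc_move h
    exact ⟨k, fun A hA r hr => ⟨Rc_J h1 D.closed D'.closed hA hr,
      Rc_J h2 (Rc_runs_mirror _ _ _ D.closed) (Rc_runs_mirror _ _ _ D'.closed) hA hr⟩⟩
  | refl D =>
    exact ⟨0, fun A hA r hr => by simp⟩
  | symm D D' _ ih =>
    obtain ⟨k, hk⟩ := ih
    refine ⟨-k, fun A hA r hr => ?_⟩
    obtain ⟨h1, h2⟩ := hk A hA r hr
    have h0 : A ≠ 0 := by linarith
    rw [h1, h2, ← mul_assoc, ← mul_assoc, ← zpow_add₀ h0, ← zpow_add₀ h0]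
    constructor
    · rw [show -k * ((r * (r + 2) : ℕ) : ℤ) + k * ((r * (r + 2) : ℕ) : ℤ) = 0 by ring]
      simp
    · rw [show - -k * ((r * (r + 2) : ℕ) : ℤ) + -k * ((r * (r + 2) : ℕ) : ℤ) = 0 by ring]
      simp
  | trans D D' D'' _ _ ih ih' =>
    obtain ⟨k, hk⟩ := ih
    obtain ⟨k', hk'⟩ := ih'
    refine ⟨k + k', fun A hA r hr => ?_⟩
    obtain ⟨h1, h2⟩ := hk A hA r hr
    obtain ⟨h1', h2'⟩ := hk' A hA r hr
    have h0 : A ≠ 0 := by linarith
    rw [h1, h2, h1', h2', ← mul_assoc, ← mul_assoc, ← zpow_add₀ h0, ← zpow_add₀ h0]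
    constructor
    · congr 2
      ring
    · congr 2
      ring

end

end Pool.Agent.Tait
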