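import Pool.Agent.Lib.MP_150b40_gt.Ra
import Pool.Agent.Lib.MP_150b40_gt.Fd

/-! # The upper bound -/

namespace Pool.Agent.Tait

noncomputable section

theorem Rd_ratio {A : ℝ} (hA : 2 ≤ A) {r a b : ℕ} (h : b ≤ a + r) :
    dl A b / dl A a ≤ 2 * A ^ (2 * r) := by
  have hA1 : 1 < A := by linarith
  have h1 := dl_le hA1 b
  have h2 := dl_ge hA1 a
  have h3 := dl_pos hA1 a
  have h4 : (1 - A⁻¹ ^ 4)⁻¹ ≤ 2 := by
    have h5 : A⁻¹ ≤ 1 / 2 := by
      rw [inv_eq_one_div]
      exact one_div_le_one_div_of_le (by norm_num) hA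
    have h6 : (0 : ℝ) ≤ A⁻¹ := by positivity
    have h7 : A⁻¹ ^ 4 ≤ (1 / 2) ^ 4 := by gcongr
    have h8 : (1 : ℝ) / 2 ≤ 1 - A⁻¹ ^ 4 := by
      have : ((1 : ℝ) / 2) ^ 4 = 1 / 16 := by norm_num
      linarith
    calc (1 - A⁻¹ ^ 4)⁻¹ ≤ (1 / 2)⁻¹ := inv_anti₀ (by norm_num) h8
      _ = 2 := by norm_num
  rw [div_le_iff₀ h3]
  calc dl A b ≤ A ^ (2 * b) * (1 - A⁻¹ ^ 4)⁻¹ := h1
    _ ≤ A ^ (2 * b) * 2 := by gcongr
    _ ≤ A ^ (2 * (a + r)) * 2 := by
        have : A ^ (2 * b) ≤ A ^ (2 * (a + r)) := pow_le_pow_right₀ hA1.le (by omega)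
        gcongr
    _ = 2 * A ^ (2 * r) * A ^ (2 * a) := by rw [show 2 * (a + r) = 2 * r + 2 * a by ring, pow_add]; ring
    _ ≤ 2 * A ^ (2 * r) * dl A a := by gcongr

theorem Rd_wt {A : ℝ} (hA : 2 ≤ A) {r a b : ℕ} (h : b ≤ a + r) : |wt A a b| ≤ A ^ (r + 1) := by
  have h0 : 0 < A := by linarith
  unfold wt
  rw [abs_of_nonneg (Real.sqrt_nonneg _)]
  apply Real.sqrt_le_iff.mpr
  refine ⟨by positivity, (Rd_ratio hA h).trans ?_⟩
  calc 2 * A ^ (2 * r) ≤ A ^ 2 * A ^ (2 * r) := by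
        have : (2 : ℝ) ≤ A ^ 2 := by nlinarith
        gcongr
    _ = (A ^ (r + 1)) ^ 2 := by rw [← pow_add, ← pow_mul]; congr 1; ring

theorem Rd_Xp {A : ℝ} (hA : 2 ≤ A) {r : ℕ} (hr : 0 < r) (a c b d : ℕ) :
    |Xp A r a c b d| ≤ A ^ (r * r + 4 * r + 3) := by
  have h0 : 0 < A := by linarith
  have hA1 : 1 < A := by linarith
  by_cases h : Xp A r a c b d = 0
  · rw [h, abs_zero]
    positivity
  · obtain ⟨h1, -, h3, -⟩ := Xp_adm hA1 hr h
    have hd2 : hd b d ≤ 2 * r := by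
      unfold adm at h1 h3
      unfold hd
      omega
    have h4 := Xp_le hA hr a c b d
    have h5 : (8 : ℝ) ^ (hd b d + 1) ≤ (A ^ 3) ^ (hd b d + 1) := by
      have : (8 : ℝ) ≤ A ^ 3 := by
        have h6 : (2 : ℝ) ^ 3 ≤ A ^ 3 := by gcongr
        linarith
      gcongr
    have h6 : |Xp A r a c b d| * A ^ hd b d ≤ A ^ (2 * hd b d + 3 + r * r) * A ^ hd b d := by
      refine h4.trans ?_
      calc (8 : ℝ) ^ (hd b d + 1) * A ^ (r * r) ≤ (A ^ 3) ^ (hd b d + 1) * A ^ (r * r) := by gcongr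
        _ = A ^ (2 * hd b d + 3 + r * r) * A ^ hd b d := by
            rw [← pow_mul, ← pow_add, ← pow_add]
            congr 1
            ring
    have h7 := le_of_mul_le_mul_right h6 (by positivity)
    refine h7.trans (pow_le_pow_right₀ hA1.le ?_)
    omega

theorem Rd_Xn {A : ℝ} (hA : 2 ≤ A) {r : ℕ} (hr : 0 < r) (a c b d : ℕ) :
    |Xn A r a c b d| ≤ A ^ (r * r + 6 * r + 4) := by
  have h0 : 0 < A := by linarith
  have hA1 : 1 < A := by linarith
  by_cases h : Xn A r a c b d = 0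
  · rw [h, abs_zero]
    positivity
  · obtain ⟨h1, h2, h3, h4⟩ := Xn_adm hA1 hr h
    rw [Xn_rot hA1 hr h1 h2 h3 h4, abs_mul, abs_mul, abs_pow, abs_neg, abs_one, one_pow, one_mul,
      abs_of_nonneg (Real.sqrt_nonneg _)]
    have h5 : Real.sqrt (dl A b * dl A d / (dl A a * dl A c)) ≤ 2 * A ^ (2 * r) := by
      apply Real.sqrt_le_iff.mpr
      refine ⟨by positivity, ?_⟩
      have h6 : dl A b / dl A a ≤ 2 * A ^ (2 * r) := Rd_ratio hA (by unfold adm at h1; omega)
      have h7 : dl A d / dl A c ≤ 2 * A ^ (2 * r) := Rd_ratio hA (by unfold adm at h4; omega)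
      have e : dl A b * dl A d / (dl A a * dl A c) = dl A b / dl A a * (dl A d / dl A c) := by
        rw [div_mul_div_comm]
      rw [e, sq]
      have h8 := dl_pos hA1 a
      have h9 := dl_pos hA1 b
      have h10 := dl_pos hA1 c
      have h11 := dl_pos hA1 d
      gcongr
    have h6 := Rd_Xp hA hr b d c a
    have h6' : |Xp A r b d c a| ≤ A ^ (r * r + 4 * r + 3) := h6
    calc Real.sqrt (dl A b * dl A d / (dl A a * dl A c)) * |Xp A r b d c a|
        ≤ (2 * A ^ (2 * r)) * A ^ (r * r + 4 * r + 3) := by gcongr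
      _ ≤ (A * A ^ (2 * r)) * A ^ (r * r + 4 * r + 3) := by gcongr
      _ = A ^ (r * r + 6 * r + 4) := by
          rw [← pow_succ', ← pow_add]
          congr 1
          ring

/-- the exponent of a word -/
def Rd_ex (r : ℕ) (w : List Ev) : ℕ := crossings w * r ^ 2 + 10 * r * w.length

theorem Rd_ex_cons (r : ℕ) (e : Ev) (w : List Ev) :
    Rd_ex r (e :: w) = (if e.isX then r ^ 2 else 0) + 10 * r + Rd_ex r w := by
  unfold Rd_ex crossings
  rw [List.countP_cons, List.length_cons]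
  split_ifs <;> ring

theorem Rd_run {A : ℝ} (hA : 2 ≤ A) {r : ℕ} (hr : 0 < r) {M : ℕ} (hM : 1 ≤ M) (w : List Ev) :
    ∀ η : ℕ → ℕ, |run A r M w η| ≤ (M : ℝ) ^ w.length * A ^ Rd_ex r w := by
  have h0 : 0 < A := by linarith
  have hA1 : 1 ≤ A := by linarith
  have hM1 : (1 : ℝ) ≤ M := by exact_mod_cast hM
  induction w with
  | nil =>
    intro η
    simp [run, Rd_ex, crossings]
  | cons e w ih =>
    intro η
    have hsum : ∀ (k : ℕ) (f g : ℕ → ℝ), k ≤ (if e.isX then r ^ 2 else 0) + 10 * r →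
        (∀ b, |f b| ≤ A ^ k) → (∀ b, |g b| ≤ (M : ℝ) ^ w.length * A ^ Rd_ex r w) →
        |∑ b ∈ Finset.range M, f b * g b| ≤ (M : ℝ) ^ (e :: w).length * A ^ Rd_ex r (e :: w) := by
      intro k f g hk hf hg
      refine (Finset.abs_sum_le_sum_abs _ _).trans ?_
      have h1 : ∀ b ∈ Finset.range M, |f b * g b| ≤ A ^ k * ((M : ℝ) ^ w.length * A ^ Rd_ex r w) := by
        intro b _
        rw [abs_mul]
        exact mul_le_mul (hf b) (hg b) (abs_nonneg _) (by positivity)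
      refine (Finset.sum_le_sum h1).trans ?_
      rw [Finset.sum_const, Finset.card_range, nsmul_eq_mul, Rd_ex_cons, List.length_cons, pow_succ,
        pow_add A]
      have h2 : A ^ k ≤ A ^ ((if e.isX then r ^ 2 else 0) + 10 * r) := pow_le_pow_right₀ hA1 hk
      calc (M : ℝ) * (A ^ k * ((M : ℝ) ^ w.length * A ^ Rd_ex r w))
          ≤ M * (A ^ ((if e.isX then r ^ 2 else 0) + 10 * r)
            * ((M : ℝ) ^ w.length * A ^ Rd_ex r w)) := by gcongr
        _ = _ := by ring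
    have hone : ∀ (k : ℕ) (x y : ℝ), k ≤ (if e.isX then r ^ 2 else 0) + 10 * r →
        |x| ≤ A ^ k → |y| ≤ (M : ℝ) ^ w.length * A ^ Rd_ex r w →
        |x * y| ≤ (M : ℝ) ^ (e :: w).length * A ^ Rd_ex r (e :: w) := by
      intro k x y hk hx hy
      rw [abs_mul, Rd_ex_cons, List.length_cons, pow_succ, pow_add A]
      have h2 : A ^ k ≤ A ^ ((if e.isX then r ^ 2 else 0) + 10 * r) := pow_le_pow_right₀ hA1 hk
      have h3 : (0 : ℝ) ≤ (M : ℝ) ^ w.length * A ^ Rd_ex r w := by positivity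
      calc |x| * |y| ≤ A ^ ((if e.isX then r ^ 2 else 0) + 10 * r)
            * ((M : ℝ) ^ w.length * A ^ Rd_ex r w) :=
          mul_le_mul (hx.trans h2) hy (abs_nonneg _) (by positivity)
        _ = A ^ ((if e.isX then r ^ 2 else 0) + 10 * r) * ((M : ℝ) ^ w.length * A ^ Rd_ex r w) * 1 :=
          (mul_one _).symm
        _ ≤ A ^ ((if e.isX then r ^ 2 else 0) + 10 * r) * ((M : ℝ) ^ w.length * A ^ Rd_ex r w) * M := by
          gcongr
        _ = _ := by ring
    have hzero : (0 : ℝ) ≤ (M : ℝ) ^ (e :: w).length * A ^ Rd_ex r (e :: w) := by positivity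
    cases e with
    | cup i =>
      have h1 : run A r M (Ev.cup i :: w) η = ∑ b ∈ Finset.range M,
          (if adm r (η i) b then wt A (η i) b else 0) * run A r M w (ins2 i b η) := by
        simp only [run]
        refine Finset.sum_congr rfl fun b _ => ?_
        split_ifs
        · rfl
        · rw [zero_mul]
      rw [h1]
      refine hsum (r + 1) _ _ (by simp only [Ev.isX]; omega) (fun b => ?_) (fun b => ih _)
      split_ifs with h
      · exact Rd_wt hA (by unfold adm at h; omega)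
      · rw [abs_zero]; positivity
    | cap i =>
      simp only [run]
      split_ifs with h
      · refine hone (r + 1) _ _ (by simp only [Ev.isX]; omega) (Rd_wt hA ?_) (ih _)
        have := h.2
        unfold adm at this
        omega
      · rw [abs_zero]; exact hzero
    | pos i =>
      simp only [run]
      refine hsum (r * r + 4 * r + 3) _ _ ?_ (fun d => Rd_Xp hA hr _ _ _ _) (fun d => ih _)
      simp only [Ev.isX, if_true]
      nlinarith
    | neg i =>
      simp only [run]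
      refine hsum (r * r + 6 * r + 4) _ _ ?_ (fun d => Rd_Xn hA hr _ _ _ _) (fun d => ih _)
      simp only [Ev.isX, if_true]
      nlinarith
    | hole i =>
      simp only [run]
      split_ifs with h
      · have h1 := hone 0 1 (run A r M w η) (by omega) (by simp) (ih _)
        rwa [one_mul] at h1
      · rw [abs_zero]; exact hzero

/-- Upper bound. -/
theorem J_upper (w : List Ev) (A : ℝ) (hA : 2 ≤ A) : ∃ C : ℕ, ∀ r : ℕ, 0 < r →
    |J A r w| ≤ (r + 1 : ℝ) ^ C * A ^ (crossings w * r ^ 2 + C * r) := by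
  have h0 : 0 < A := by linarith
  have hA1 : 1 ≤ A := by linarith
  set n := w.length with hn
  refine ⟨n * n + 11 * n, fun r hr => ?_⟩
  have h1 := Rd_run hA hr (M := hbound r w) (by unfold hbound; omega) w (fun _ => 0)
  unfold J
  refine h1.trans ?_
  have h2 : ((hbound r w : ℕ) : ℝ) ≤ (2 : ℝ) ^ n * (r + 1 : ℝ) := by
    have h3 : n + 1 ≤ 2 ^ n := Nat.lt_two_pow_self
    have h4 : hbound r w ≤ 2 ^ n * (r + 1) := by
      unfold hbound
      rw [← hn]
      calc (n + 1) * r + 1 ≤ (n + 1) * r + (n + 1) := by omega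
        _ = (n + 1) * (r + 1) := by ring
        _ ≤ 2 ^ n * (r + 1) := Nat.mul_le_mul_right _ h3
    exact_mod_cast h4
  have hr1 : (1 : ℝ) ≤ (r : ℝ) + 1 := by
    have : (0 : ℝ) ≤ r := Nat.cast_nonneg r
    linarith
  have h5 : ((hbound r w : ℕ) : ℝ) ^ w.length ≤ A ^ (n * n) * (r + 1 : ℝ) ^ n := by
    calc ((hbound r w : ℕ) : ℝ) ^ w.length ≤ ((2 : ℝ) ^ n * (r + 1 : ℝ)) ^ n := by
          rw [← hn]
          gcongr
      _ = (2 : ℝ) ^ (n * n) * (r + 1 : ℝ) ^ n := by rw [mul_pow, ← pow_mul]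
      _ ≤ A ^ (n * n) * (r + 1 : ℝ) ^ n := by gcongr
  have h6 : (r + 1 : ℝ) ^ n ≤ (r + 1 : ℝ) ^ (n * n + 11 * n) := pow_le_pow_right₀ hr1 (by nlinarith)
  calc ((hbound r w : ℕ) : ℝ) ^ w.length * A ^ Rd_ex r w
      ≤ (A ^ (n * n) * (r + 1 : ℝ) ^ n) * A ^ Rd_ex r w := by gcongr
    _ ≤ (A ^ (n * n) * (r + 1 : ℝ) ^ (n * n + 11 * n)) * A ^ Rd_ex r w := by gcongr
    _ = (r + 1 : ℝ) ^ (n * n + 11 * n) * A ^ (n * n + Rd_ex r w) := by rw [pow_add]; ring
    _ ≤ (r + 1 : ℝ) ^ (n * n + 11 * n) * A ^ (crossings w * r ^ 2 + (n * n + 11 * n) * r) := by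
        have h7 : n * n + Rd_ex r w ≤ crossings w * r ^ 2 + (n * n + 11 * n) * r := by
          unfold Rd_ex
          rw [← hn]
          have h8 : n * n ≤ n * n * r := Nat.le_mul_of_pos_right _ hr
          nlinarith
        have h8 : A ^ (n * n + Rd_ex r w) ≤ A ^ (crossings w * r ^ 2 + (n * n + 11 * n) * r) :=
          pow_le_pow_right₀ hA1 h7
        gcongr

end

end Pool.Agent.Tait
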