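import Pool.Agent.Lib.MP_150b40_gt.Pe
import Pool.Agent.Lib.MP_150b40_gt.Pa
import Pool.Agent.Lib.MP_150b40_gt.Rc
import Pool.Agent.Lib.MP_150b40_gt.Rd

/-! # The theorem -/

namespace Pool.Agent.Tait

theorem Pf_mirror_gap (e : Ev) : e.mirror.gap = e.gap := by cases e <;> rfl

theorem Pf_mirror_inn (e : Ev) : e.mirror.inn = e.inn := by cases e <;> rfl

theorem Pf_mirror_out (e : Ev) : e.mirror.out = e.out := by cases e <;> rfl

theorem Pf_mirror_isX (e : Ev) : e.mirror.isX = e.isX := by cases e <;> rfl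

theorem Pf_mirror_mirror (e : Ev) : e.mirror.mirror = e := by cases e <;> rfl

theorem Pf_mirror_cup {e : Ev} {i : ℕ} : e.mirror = Ev.cup i ↔ e = Ev.cup i := by
  cases e <;> simp [Ev.mirror]

theorem Pf_mirror_cap {e : Ev} {i : ℕ} : e.mirror = Ev.cap i ↔ e = Ev.cap i := by
  cases e <;> simp [Ev.mirror]

theorem Pf_mirror_hole {e : Ev} {i : ℕ} : e.mirror = Ev.hole i ↔ e = Ev.hole i := by
  cases e <;> simp [Ev.mirror]

theorem Pf_mirror_pos {e : Ev} {i : ℕ} : e.mirror = Ev.pos i ↔ e = Ev.neg i := by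
  cases e <;> simp [Ev.mirror]

theorem Pf_mirror_neg {e : Ev} {i : ℕ} : e.mirror = Ev.neg i ↔ e = Ev.pos i := by
  cases e <;> simp [Ev.mirror]

theorem Pf_runs (w : List Ev) : ∀ n m, Runs n w m → Runs n (w.map Ev.mirror) m := by
  induction w with
  | nil => intro n m h; exact h
  | cons e w ih =>
    intro n m h
    obtain ⟨h1, h2⟩ := h
    refine ⟨?_, ?_⟩
    · rw [Pf_mirror_gap, Pf_mirror_inn]; exact h1
    · rw [Pf_mirror_inn, Pf_mirror_out]; exact ih _ _ h2

/-- The hypotheses are invariant under switching all crossings. -/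
def Diagram.mirror (D : Diagram) : Diagram := ⟨D.word.map Ev.mirror, by exact Pf_runs _ _ _ D.closed⟩

theorem Pf_mm (w : List Ev) : (w.map Ev.mirror).map Ev.mirror = w := by
  rw [List.map_map]
  have : Ev.mirror ∘ Ev.mirror = id := funext Pf_mirror_mirror
  rw [this, List.map_id]

theorem Pf_get {w : List Ev} {l : ℕ} {e : Ev} :
    (w.map Ev.mirror)[l]? = some e ↔ w[l]? = some e.mirror := by
  rw [List.getElem?_map]
  constructor
  · intro h
    obtain ⟨a, ha, rfl⟩ := Option.map_eq_some_iff.1 h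
    rw [ha, Pf_mirror_mirror]
  · intro h
    rw [h, Option.map_some, Pf_mirror_mirror]

theorem Pf_lev (w : List Ev) (l : ℕ) : lev (w.map Ev.mirror) l = lev w l := by
  unfold lev
  rw [← List.map_take, List.foldl_map]
  congr 1
  funext n e
  rw [Pf_mirror_inn, Pf_mirror_out]

theorem Pf_gapStep {w : List Ev} {p q : ℕ × ℕ} (h : GapStep w p q) :
    GapStep (w.map Ev.mirror) p q := by
  cases h with
  | left l j e he hj =>
    refine GapStep.left l j e.mirror (Pf_get.2 (by rw [Pf_mirror_mirror]; exact he)) ?_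
    rw [Pf_mirror_gap]; exact hj
  | right l j e he hj hn =>
    have := GapStep.right (w := w.map Ev.mirror) l j e.mirror
      (Pf_get.2 (by rw [Pf_mirror_mirror]; exact he))
      (by rw [Pf_mirror_gap, Pf_mirror_inn]; exact hj) (by rw [Pf_lev]; exact hn)
    rw [Pf_mirror_inn, Pf_mirror_out] at this
    exact this

theorem Pf_strandStep {w : List Ev} {p q : ℕ × ℕ} (h : StrandStep w p q) :
    StrandStep (w.map Ev.mirror) p q := by
  cases h with
  | left l j e he hj =>
    refine StrandStep.left l j e.mirror (Pf_get.2 (by rw [Pf_mirror_mirror]; exact he)) ?_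
    rw [Pf_mirror_gap]; exact hj
  | right l j e he hj hn =>
    have := StrandStep.right (w := w.map Ev.mirror) l j e.mirror
      (Pf_get.2 (by rw [Pf_mirror_mirror]; exact he))
      (by rw [Pf_mirror_gap, Pf_mirror_inn]; exact hj) (by rw [Pf_lev]; exact hn)
    rw [Pf_mirror_inn, Pf_mirror_out] at this
    exact this
  | cup l i he => exact StrandStep.cup l i (Pf_get.2 he)
  | cap l i he => exact StrandStep.cap l i (Pf_get.2 he)

theorem Pf_eqv_mono {α : Type*} {r s : α → α → Prop} (h : ∀ a b, r a b → s a b) {a b : α}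
    (hab : Relation.EqvGen r a b) : Relation.EqvGen s a b := by
  induction hab with
  | rel a b hab => exact Relation.EqvGen.rel _ _ (h _ _ hab)
  | refl a => exact Relation.EqvGen.refl _
  | symm a b _ ih => exact Relation.EqvGen.symm _ _ ih
  | trans a b c _ _ ih ih' => exact Relation.EqvGen.trans _ _ _ ih ih'

theorem Pf_sameRegion {w : List Ev} {p q : ℕ × ℕ} (h : SameRegion w p q) :
    SameRegion (w.map Ev.mirror) p q := Pf_eqv_mono (fun _ _ => Pf_gapStep) h

theorem Pf_isCrossing {w : List Ev} {l i : ℕ} (h : IsCrossing w l i) :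
    IsCrossing (w.map Ev.mirror) l i := by
  rcases h with h | h
  · exact Or.inr (Pf_get.2 h)
  · exact Or.inl (Pf_get.2 h)

theorem Pf_graphStep {w : List Ev} {c : Option ℕ} {p q : ℕ × ℕ} (h : GraphStep w c p q) :
    GraphStep (w.map Ev.mirror) c p q := by
  rcases h with h | ⟨l, i, h1, h2, h3⟩
  · exact Or.inl (Pf_strandStep h)
  · exact Or.inr ⟨l, i, h1, Pf_isCrossing h2, h3⟩

theorem Pf_isStrand {w : List Ev} {p : ℕ × ℕ} : IsStrand (w.map Ev.mirror) p ↔ IsStrand w p := by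
  unfold IsStrand
  rw [Pf_lev, List.length_map]

theorem Pf_external {w : List Ev} {p : ℕ × ℕ} (h : External w p) :
    External (w.map Ev.mirror) p := by
  rcases h with h | ⟨l, i, h1, h2⟩
  · exact Or.inl (Pf_sameRegion h)
  · exact Or.inr ⟨l, i, Pf_get.2 h1, Pf_sameRegion h2⟩

theorem Pf_external' {w : List Ev} {p : ℕ × ℕ} (h : External (w.map Ev.mirror) p) :
    External w p := by
  have := Pf_external h
  rwa [Pf_mm] at this

theorem Pf_isCrossing' {w : List Ev} {l i : ℕ} (h : IsCrossing (w.map Ev.mirror) l i) :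
    IsCrossing w l i := by
  have := Pf_isCrossing h
  rwa [Pf_mm] at this

theorem Pf_sameRegion' {w : List Ev} {p q : ℕ × ℕ} (h : SameRegion (w.map Ev.mirror) p q) :
    SameRegion w p q := by
  have := Pf_sameRegion h
  rwa [Pf_mm] at this

theorem Pf_crossings (w : List Ev) : crossings (w.map Ev.mirror) = crossings w := by
  unfold crossings
  rw [List.countP_map]
  congr 1
  funext e
  exact Pf_mirror_isX e

theorem mirror_hyps (D : Diagram) (hc : Connected D.word) (hs : Simple D.word)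
    (hh : HomTrivial D.word) (hAB : CaseA D.word ∨ CaseB D.word) :
    Connected D.mirror.word ∧ Simple D.mirror.word ∧ HomTrivial D.mirror.word ∧
      (CaseA D.mirror.word ∨ CaseB D.mirror.word) ∧
      crossings D.mirror.word = crossings D.word := by
  have hw : D.mirror.word = D.word.map Ev.mirror := rfl
  rw [hw]
  refine ⟨?_, ?_, ?_, ?_, Pf_crossings _⟩
  · intro p q hp hq
    exact Pf_eqv_mono (fun _ _ => Pf_graphStep) (hc p q (Pf_isStrand.1 hp) (Pf_isStrand.1 hq))
  · refine ⟨?_, ?_, ?_⟩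
    · intro l i hX p hp
      obtain ⟨q, h1, h2, h3⟩ := hs.noDisk l i (Pf_isCrossing' hX) p (Pf_isStrand.1 hp)
      exact ⟨q, Pf_isStrand.2 h1, Pf_eqv_mono (fun _ _ => Pf_graphStep) h2,
        h3.imp Pf_external Pf_external⟩
    · intro l i hX x hx y hy h1 h2
      exact Pf_sameRegion (hs.noTwo l i (Pf_isCrossing' hX) x hx y hy (Pf_external' h1)
        (Pf_external' h2))
    · intro l i hX x hx y hy hxy h1 h2 h3
      exact hs.noTwice l i (Pf_isCrossing' hX) x hx y hy hxy (Pf_external' h1) (Pf_external' h2)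
        (Pf_sameRegion' h3)
  · intro i hi
    obtain ⟨e, he, h1⟩ := List.mem_map.1 hi
    rw [Pf_mirror_hole] at h1
    subst h1
    exact hh i he
  · have key : ∀ i, (Ev.pos i ∈ D.word.map Ev.mirror ↔ Ev.neg i ∈ D.word) ∧
        (Ev.neg i ∈ D.word.map Ev.mirror ↔ Ev.pos i ∈ D.word) := by
      intro i
      constructor
      · constructor
        · intro hi
          obtain ⟨e, he, h1⟩ := List.mem_map.1 hi
          rw [Pf_mirror_pos] at h1
          subst h1; exact he
        · intro hi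
          exact List.mem_map.2 ⟨_, hi, rfl⟩
      · constructor
        · intro hi
          obtain ⟨e, he, h1⟩ := List.mem_map.1 hi
          rw [Pf_mirror_neg] at h1
          subst h1; exact he
        · intro hi
          exact List.mem_map.2 ⟨_, hi, rfl⟩
    rcases hAB with h | h
    · right
      exact ⟨fun i hi => h.2 i ((key i).1.1 hi), fun i hi => h.1 i ((key i).2.1 hi)⟩
    · left
      exact ⟨fun i hi => h.2 i ((key i).1.1 hi), fun i hi => h.1 i ((key i).2.1 hi)⟩

/-- comparison of the growth of both sides -/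
theorem Pf_asym {A c : ℝ} (hA : 2 ≤ A) (hc : 0 < c) (n m : ℤ) (K : ℕ)
    (h : ∀ r : ℕ, 0 < r → c * A ^ (n * (r : ℤ) ^ 2) ≤ A ^ (m * (r : ℤ) ^ 2 + K * r)) : n ≤ m := by
  by_contra hnm
  push Not at hnm
  have hA0 : 0 < A := by linarith
  have hA1 : 1 ≤ A := by linarith
  obtain ⟨s, hs⟩ := exists_pow_lt_of_lt_one hc (by norm_num : (1 / 2 : ℝ) < 1)
  have h1 := h (K + s + 1) (by omega)
  set r : ℕ := K + s + 1 with hr
  have hrz : (r : ℤ) = K + s + 1 := by rw [hr]; push_cast; ring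
  have h2 : c ≤ A ^ (m * (r : ℤ) ^ 2 + K * r - n * (r : ℤ) ^ 2) := by
    rw [zpow_sub₀ hA0.ne', le_div_iff₀ (zpow_pos hA0 _)]
    exact h1
  have h3 : m * (r : ℤ) ^ 2 + K * r - n * (r : ℤ) ^ 2 ≤ -(s : ℤ) := by
    have h4 : (r : ℤ) ^ 2 ≤ (n - m) * (r : ℤ) ^ 2 := by nlinarith [sq_nonneg (r : ℤ)]
    have h5 : (K : ℤ) * r - (r : ℤ) ^ 2 ≤ -(s : ℤ) := by
      rw [hrz]
      have hK : (0 : ℤ) ≤ K := by positivity
      have hs0 : (0 : ℤ) ≤ s := by positivity
      nlinarith [mul_nonneg hK hs0, mul_nonneg hs0 hs0]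
    nlinarith
  have h4 : c ≤ A ^ (-(s : ℤ)) := h2.trans (zpow_le_zpow_right₀ hA1 h3)
  have h5 : A ^ (-(s : ℤ)) ≤ (1 / 2 : ℝ) ^ s := by
    rw [zpow_neg, zpow_natCast, one_div, inv_pow]
    exact inv_anti₀ (by positivity) (pow_le_pow_left₀ (by norm_num) hA s)
  linarith

/-- one half of the argument -/
theorem Pf_half {A c : ℝ} (hA : 2 ≤ A) (hc : 0 < c) (n n' L C : ℕ) (k : ℤ) (f f' : ℕ → ℝ)
    (h1 : ∀ r : ℕ, 0 < r → c * A ^ (n * r ^ 2) ≤ A ^ (L * r) * f r)
    (h2 : ∀ r : ℕ, 0 < r → f r = A ^ (k * (r * (r + 2) : ℕ)) * f' r)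
    (h3 : ∀ r : ℕ, 0 < r → f' r ≤ (r + 1 : ℝ) ^ C * A ^ (n' * r ^ 2 + C * r)) :
    (n : ℤ) ≤ n' + k := by
  have hA0 : 0 < A := by linarith
  have hA1 : 1 ≤ A := by linarith
  apply Pf_asym hA hc (n : ℤ) (n' + k) (L + 2 * C + 2 * k.natAbs)
  intro r hr
  have h4 : (r + 1 : ℝ) ^ C ≤ A ^ (C * r) := by
    have h5 : (r + 1 : ℝ) ≤ A ^ r := by
      have h6 : (r + 1 : ℝ) ≤ 2 ^ r := by
        have : r + 1 ≤ 2 ^ r := r.lt_two_pow_self
        exact_mod_cast this
      exact h6.trans (pow_le_pow_left₀ (by norm_num) hA r)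
    calc (r + 1 : ℝ) ^ C ≤ (A ^ r) ^ C := pow_le_pow_left₀ (by positivity) h5 C
      _ = A ^ (C * r) := by rw [← pow_mul, mul_comm]
  have h5 : f' r ≤ A ^ (C * r) * A ^ (n' * r ^ 2 + C * r) :=
    (h3 r hr).trans (by gcongr)
  have h6 : c * A ^ (n * r ^ 2)
      ≤ A ^ (L * r) * (A ^ (k * (r * (r + 2) : ℕ)) * (A ^ (C * r) * A ^ (n' * r ^ 2 + C * r))) := by
    refine (h1 r hr).trans ?_
    rw [h2 r hr]
    have : 0 < A ^ (k * (r * (r + 2) : ℕ)) := zpow_pos hA0 _
    gcongr
  have e1 : A ^ ((n : ℤ) * (r : ℤ) ^ 2) = A ^ (n * r ^ 2) := by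
    rw [← zpow_natCast]; push_cast; rfl
  rw [e1]
  refine h6.trans ?_
  have e2 : A ^ (L * r) * (A ^ (k * (r * (r + 2) : ℕ)) * (A ^ (C * r) * A ^ (n' * r ^ 2 + C * r)))
      = A ^ ((L * r : ℕ) + (k * (r * (r + 2) : ℕ) + ((C * r : ℕ) + (n' * r ^ 2 + C * r : ℕ))) : ℤ) := by
    rw [zpow_add₀ hA0.ne', zpow_add₀ hA0.ne', zpow_add₀ hA0.ne', zpow_natCast, zpow_natCast,
      zpow_natCast]
  rw [e2]
  apply zpow_le_zpow_right₀ hA1
  have hk : k ≤ k.natAbs := by omega
  have hr0 : (0 : ℤ) ≤ r := by positivity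
  push_cast
  have h7 : k * r ≤ (k.natAbs : ℤ) * r := mul_le_mul_of_nonneg_right hk hr0
  have h8 : (|k| : ℤ) = (k.natAbs : ℤ) := Int.abs_eq_natAbs k
  rw [← h8] at h7
  nlinarith

/-- The theorem. -/
theorem tait (D D' : Diagram) (hc : Connected D.word) (ha : Alternating D.word)
    (hs : Simple D.word) (hh : HomTrivial D.word) (hi : Isotopic D D') :
    crossings D.word ≤ crossings D'.word := by
  rcases Nat.eq_zero_or_pos (crossings D.word) with h0 | hX
  · rw [h0]; exact Nat.zero_le _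
  have hAB := caseA_or_caseB D hc ha
  obtain ⟨hc', hs', hh', hAB', hX'⟩ := mirror_hyps D hc hs hh hAB
  obtain ⟨k, hk⟩ := J_inv D D' hi
  obtain ⟨A, hA, c, hcp, L, hL⟩ := J_lower D hc hX hs hh hAB
  obtain ⟨C, hC⟩ := J_upper D'.word A hA
  obtain ⟨A', hA', c', hcp', L', hL'⟩ := J_lower D.mirror hc' (by rw [hX']; exact hX) hs' hh' hAB'
  obtain ⟨C', hC'⟩ := J_upper (D'.word.map Ev.mirror) A' hA'
  have h1 := Pf_half hA hcp (crossings D.word) (crossings D'.word) L C k
    (fun r => |J A r D.word|) (fun r => |J A r D'.word|) hL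
    (fun r hr => (hk A (by linarith) r hr).1) hC
  rw [hX'] at hL'
  rw [Pf_crossings] at hC'
  have h2 := Pf_half hA' hcp' (crossings D.word) (crossings D'.word) L' C' (-k)
    (fun r => |J A' r (D.word.map Ev.mirror)|) (fun r => |J A' r (D'.word.map Ev.mirror)|) hL'
    (fun r hr => (hk A' (by linarith) r hr).2) hC'
  omega

end Pool.Agent.Tait
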