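import Pool.Agent.Lib.MP_150b40_gt.Ra

/-! # The moves -/

namespace Pool.Agent.Tait

noncomputable section

/-! ## the shift -/

section shift

variable {R : Type*} [Ring R] [StarRing R] [Algebra ℝ R] [StarModule ℝ R] {A : ℝ} (T : TL R A)

theorem Rb_shn_add (m n : ℕ) (x : R) : T.shn (m + n) x = T.shn m (T.shn n x) := by
  induction m with
  | zero => rw [Nat.zero_add]; rfl
  | succ m ih =>
    rw [Nat.succ_add]
    change T.sh (T.shn (m + n) x) = T.sh (T.shn m (T.shn n x))
    rw [ih]

theorem Rb_shn_mul (n : ℕ) (x y : R) : T.shn n (x * y) = T.shn n x * T.shn n y := by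
  induction n with
  | zero => rfl
  | succ n ih =>
    change T.sh (T.shn n (x * y)) = T.sh (T.shn n x) * T.sh (T.shn n y)
    rw [ih, map_mul]

theorem Rb_shn_one (n : ℕ) : T.shn n (1 : R) = 1 := by
  induction n with
  | zero => rfl
  | succ n ih =>
    change T.sh (T.shn n 1) = 1
    rw [ih, map_one]

theorem Rb_shn_smul (n : ℕ) (c : ℝ) (x : R) : T.shn n (c • x) = c • T.shn n x := by
  induction n with
  | zero => rfl
  | succ n ih =>
    change T.sh (T.shn n (c • x)) = c • T.sh (T.shn n x)
    rw [ih, map_smul]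

theorem Rb_shn_star (n : ℕ) (x : R) : T.shn n (star x) = star (T.shn n x) := by
  induction n with
  | zero => rfl
  | succ n ih =>
    change T.sh (T.shn n (star x)) = star (T.sh (T.shn n x))
    rw [ih, T.sh_star]

theorem Rb_star_smul (c : ℝ) (x : R) : star (c • x) = c • star x := by
  rw [star_smul, star_trivial]

end shift

section

variable {A : ℝ} (hA : 1 < A) {r : ℕ} (hr : 0 < r)

/-- the operator of a piece in the gap `0` -/
def Rb_base : Ev → Rm
  | Ev.cup _ => (jw A hA r hr).cupc
  | Ev.cap _ => star (jw A hA r hr).cupc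
  | Ev.pos _ => (model A hA).X (model A hA).sg r r
  | Ev.neg _ => (model A hA).X (model A hA).sg' r r
  | Ev.hole _ => hm

theorem Rb_opEv (e : Ev) : opEv A hA r hr e = (model A hA).shn (r * e.gap) (Rb_base hA hr e) := by
  cases e <;> rfl

theorem Rb_put_gap (e : Ev) (j : ℕ) : (e.put j).gap = j := by cases e <;> rfl

theorem Rb_base_put (e : Ev) (j : ℕ) : Rb_base hA hr (e.put j) = Rb_base hA hr e := by
  cases e <;> rfl

theorem Rb_opW_two (e f : Ev) : opW A hA r hr [e, f] = opEv A hA r hr f * opEv A hA r hr e := by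
  change (1 * opEv A hA r hr f) * opEv A hA r hr e = _
  rw [one_mul]

theorem Rb_opW_three (e f g : Ev) :
    opW A hA r hr [e, f, g] = opEv A hA r hr g * opEv A hA r hr f * opEv A hA r hr e := by
  change ((1 * opEv A hA r hr g) * opEv A hA r hr f) * opEv A hA r hr e = _
  rw [one_mul]

theorem Rb_opW_append (w w' : List Ev) :
    opW A hA r hr (w ++ w') = opW A hA r hr w' * opW A hA r hr w := by
  induction w with
  | nil =>
    change opW A hA r hr w' = opW A hA r hr w' * 1
    rw [mul_one]
  | cons e w ih =>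
    change opW A hA r hr (w ++ w') * opEv A hA r hr e
      = opW A hA r hr w' * (opW A hA r hr w * opEv A hA r hr e)
    rw [ih, mul_assoc]

include hA in
theorem Rb_ne : A ≠ 0 := by linarith

/-- interchange -/
theorem Rb_inter (e : Ev) (x : Rm) : (model A hA).shn (r * e.out) x * Rb_base hA hr e =
    Rb_base hA hr e * (model A hA).shn (r * e.inn) x := by
  have hA0 : A ≠ 0 := Rb_ne hA
  cases e with
  | cup i =>
    have h := (jw A hA r hr).nat_cupc x
    have e2 : r * (Ev.cup i).out = 2 * r := by change r * 2 = 2 * r; ring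
    have e0 : r * (Ev.cup i).inn = 0 := by change r * 0 = 0; ring
    rw [e2, e0]
    exact h
  | cap i =>
    have h := (jw A hA r hr).nat_cupc (star x)
    have e2 : r * (Ev.cap i).inn = 2 * r := by change r * 2 = 2 * r; ring
    have e0 : r * (Ev.cap i).out = 0 := by change r * 0 = 0; ring
    rw [e2, e0]
    have h2 := congrArg star h
    rw [star_mul, star_mul, star_star, Rb_shn_star, star_star] at h2
    exact h2.symm
  | pos i =>
    have h := (model A hA).X_comm ((model A hA).br_sg hA0) r r x
    have e2 : r * (Ev.pos i).out = r + r := by change r * 2 = r + r; ring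
    have e0 : r * (Ev.pos i).inn = r + r := by change r * 2 = r + r; ring
    rw [e2, e0]
    exact h.symm
  | neg i =>
    have h := (model A hA).X_comm ((model A hA).br_sg' hA0) r r x
    have e2 : r * (Ev.neg i).out = r + r := by change r * 2 = r + r; ring
    have e0 : r * (Ev.neg i).inn = r + r := by change r * 2 = r + r; ring
    rw [e2, e0]
    exact h.symm
  | hole i =>
    have e2 : r * (Ev.hole i).out = 0 := by change r * 0 = 0; ring
    have e0 : r * (Ev.hole i).inn = 0 := by change r * 0 = 0; ring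
    rw [e2, e0]
    exact (hm_comm x).symm

/-- `s`-crossing of two bundles -/
def Rb_s (s : Bool) : Rm := if s then (model A hA).sg else (model A hA).sg'

theorem Rb_br (s : Bool) : (model A hA).Br (Rb_s hA s) := by
  have hA0 : A ≠ 0 := Rb_ne hA
  cases s
  · exact (model A hA).br_sg' hA0
  · exact (model A hA).br_sg hA0

theorem Rb_opX (i : ℕ) (s : Bool) : opEv A hA r hr (if s then Ev.pos i else Ev.neg i) =
    (model A hA).shn (r * i) ((model A hA).X (Rb_s hA s) r r) := by
  cases s <;> rfl

theorem Rb_succ (i : ℕ) (x : Rm) : (model A hA).shn (r * (i + 1)) x =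
    (model A hA).shn (r * i) ((model A hA).shn r x) := by
  rw [Nat.mul_succ, Rb_shn_add]

/-- planar isotopy: exchange of heights -/
theorem op_swap (e f : Ev) (h : e.gap + e.inn ≤ f.gap) :
    opW A hA r hr [e, f.put (f.gap - e.inn + e.out)] = opW A hA r hr [f, e] := by
  obtain ⟨k, hk⟩ := Nat.exists_eq_add_of_le h
  rw [Rb_opW_two, Rb_opW_two, Rb_opEv, Rb_opEv, Rb_opEv, Rb_put_gap, Rb_base_put]
  have h1 : r * (f.gap - e.inn + e.out) = r * e.gap + (r * e.out + r * k) := by
    rw [hk]
    have : e.gap + e.inn + k - e.inn + e.out = e.gap + (e.out + k) := by omega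
    rw [this]; ring
  have h2 : r * f.gap = r * e.gap + (r * e.inn + r * k) := by rw [hk]; ring
  rw [h1, h2, Rb_shn_add, Rb_shn_add _ (r * e.gap), ← Rb_shn_mul, ← Rb_shn_mul, Rb_shn_add,
    Rb_inter, Rb_shn_add]

theorem op_zigR (i : ℕ) (F : V 0) (hF : KK A hA r hr F) :
    ev (opW A hA r hr [Ev.cup i, Ev.cap (i + 1)]) 0 F = F := by
  rw [Rb_opW_two]
  change ev ((model A hA).shn (r * (i + 1)) (star (jw A hA r hr).cupc)
    * (model A hA).shn (r * i) (jw A hA r hr).cupc) 0 F = F
  rw [Rb_succ, ← Rb_shn_mul, (jw A hA r hr).zagc]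
  exact hF i

theorem op_zigL (i : ℕ) (F : V 0) (hF : KK A hA r hr F) :
    ev (opW A hA r hr [Ev.cup (i + 1), Ev.cap i]) 0 F = F := by
  rw [Rb_opW_two]
  change ev ((model A hA).shn (r * i) (star (jw A hA r hr).cupc)
    * (model A hA).shn (r * (i + 1)) (jw A hA r hr).cupc) 0 F = F
  rw [Rb_succ, ← Rb_shn_mul, (jw A hA r hr).zigc]
  exact hF i

theorem op_slideCup (i : ℕ) (s : Bool) :
    opW A hA r hr [Ev.cup (i + 1), if s then Ev.pos i else Ev.neg i,
        if s then Ev.pos (i + 1) else Ev.neg (i + 1)] =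
      (-1 : ℝ) ^ r • opW A hA r hr [Ev.cup i] := by
  rw [Rb_opW_three, Rb_opX, Rb_opX]
  change (model A hA).shn (r * (i + 1)) ((model A hA).X (Rb_s hA s) r r)
    * (model A hA).shn (r * i) ((model A hA).X (Rb_s hA s) r r)
    * (model A hA).shn (r * (i + 1)) (jw A hA r hr).cupc
    = (-1 : ℝ) ^ r • (1 * (model A hA).shn (r * i) (jw A hA r hr).cupc)
  rw [Rb_succ, Rb_succ, ← Rb_shn_mul, ← Rb_shn_mul, (jw A hA r hr).slidec (Rb_br hA s),
    Rb_shn_smul, one_mul]

theorem op_slideCap (i : ℕ) (s : Bool) :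
    opW A hA r hr [if s then Ev.pos (i + 1) else Ev.neg (i + 1), if s then Ev.pos i else Ev.neg i,
        Ev.cap (i + 1)] = (-1 : ℝ) ^ r • opW A hA r hr [Ev.cap i] := by
  rw [Rb_opW_three, Rb_opX, Rb_opX]
  change (model A hA).shn (r * (i + 1)) (star (jw A hA r hr).cupc)
    * (model A hA).shn (r * i) ((model A hA).X (Rb_s hA s) r r)
    * (model A hA).shn (r * (i + 1)) ((model A hA).X (Rb_s hA s) r r)
    = (-1 : ℝ) ^ r • (1 * (model A hA).shn (r * i) (star (jw A hA r hr).cupc))
  have h := congrArg star ((jw A hA r hr).slidec (Rb_br hA s))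
  rw [star_mul, star_mul, ← Rb_shn_star, ← Rb_shn_star, Rb_star_smul,
    (model A hA).star_X (Rb_br hA s)] at h
  rw [Rb_succ, Rb_succ, ← Rb_shn_mul, ← Rb_shn_mul, mul_assoc, h, Rb_shn_smul, one_mul]

theorem Rb_r1 (s : Bool) : (model A hA).X (Rb_s hA s) r r * (jw A hA r hr).cupc =
    ((-1) ^ r * (if s then A⁻¹ else A) ^ (r * (r + 2))) • (jw A hA r hr).cupc := by
  have hA0 : A ≠ 0 := Rb_ne hA
  cases s
  · exact (jw A hA r hr).r1c' hA0
  · exact (jw A hA r hr).r1c hA0

theorem op_r1cup (i : ℕ) (s : Bool) :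
    opW A hA r hr [Ev.cup i, if s then Ev.pos i else Ev.neg i] =
      ((-1) ^ r * (if s then A⁻¹ else A) ^ (r * (r + 2))) • opW A hA r hr [Ev.cup i] := by
  rw [Rb_opW_two, Rb_opX]
  change (model A hA).shn (r * i) ((model A hA).X (Rb_s hA s) r r)
    * (model A hA).shn (r * i) (jw A hA r hr).cupc
    = _ • (1 * (model A hA).shn (r * i) (jw A hA r hr).cupc)
  rw [← Rb_shn_mul, Rb_r1, Rb_shn_smul, one_mul]

theorem op_r1cap (i : ℕ) (s : Bool) :
    opW A hA r hr [if s then Ev.pos i else Ev.neg i, Ev.cap i] =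
      ((-1) ^ r * (if s then A⁻¹ else A) ^ (r * (r + 2))) • opW A hA r hr [Ev.cap i] := by
  rw [Rb_opW_two, Rb_opX]
  change (model A hA).shn (r * i) (star (jw A hA r hr).cupc)
    * (model A hA).shn (r * i) ((model A hA).X (Rb_s hA s) r r)
    = _ • (1 * (model A hA).shn (r * i) (star (jw A hA r hr).cupc))
  have h := congrArg star (Rb_r1 hA hr s)
  rw [star_mul, Rb_star_smul, (model A hA).star_X (Rb_br hA s)] at h
  rw [← Rb_shn_mul, h, Rb_shn_smul, one_mul]

theorem op_r2a (i : ℕ) : opW A hA r hr [Ev.pos i, Ev.neg i] = 1 := by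
  have hA0 : A ≠ 0 := Rb_ne hA
  rw [Rb_opW_two]
  change (model A hA).shn (r * i) ((model A hA).X (model A hA).sg' r r)
    * (model A hA).shn (r * i) ((model A hA).X (model A hA).sg r r) = 1
  rw [← Rb_shn_mul, (model A hA).X_inv ((model A hA).br_sg hA0) ((model A hA).br_sg' hA0)
    ((model A hA).sg'_mul_sg hA0), Rb_shn_one]

theorem op_r2b (i : ℕ) : opW A hA r hr [Ev.neg i, Ev.pos i] = 1 := by
  have hA0 : A ≠ 0 := Rb_ne hA
  rw [Rb_opW_two]
  change (model A hA).shn (r * i) ((model A hA).X (model A hA).sg r r)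
    * (model A hA).shn (r * i) ((model A hA).X (model A hA).sg' r r) = 1
  rw [← Rb_shn_mul, (model A hA).X_inv ((model A hA).br_sg' hA0) ((model A hA).br_sg hA0)
    ((model A hA).sg_mul_sg' hA0), Rb_shn_one]

theorem op_r3 (i : ℕ) : opW A hA r hr [Ev.pos i, Ev.pos (i + 1), Ev.pos i] =
    opW A hA r hr [Ev.pos (i + 1), Ev.pos i, Ev.pos (i + 1)] := by
  have hA0 : A ≠ 0 := Rb_ne hA
  rw [Rb_opW_three, Rb_opW_three]
  change (model A hA).shn (r * i) ((model A hA).X (model A hA).sg r r)
    * (model A hA).shn (r * (i + 1)) ((model A hA).X (model A hA).sg r r)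
    * (model A hA).shn (r * i) ((model A hA).X (model A hA).sg r r)
    = (model A hA).shn (r * (i + 1)) ((model A hA).X (model A hA).sg r r)
    * (model A hA).shn (r * i) ((model A hA).X (model A hA).sg r r)
    * (model A hA).shn (r * (i + 1)) ((model A hA).X (model A hA).sg r r)
  rw [Rb_succ, ← Rb_shn_mul, ← Rb_shn_mul, ← Rb_shn_mul, ← Rb_shn_mul,
    (model A hA).X_yb ((model A hA).br_sg hA0)]

/-! ## the sphere -/

/-- the lasso around `m` strands -/
def Rb_lasso (s : Rm) (m : ℕ) : Rm :=
  (model A hA).shn r ((model A hA).X s m r * (model A hA).X s r m)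

theorem Rb_lasso_cap {s : Rm} (hs : (model A hA).Br s) (m j : ℕ) (hj : j ≤ m) :
    (model A hA).shn (2 * r + j) (star (model A hA).u) * Rb_lasso (r := r) hA s (m + 2)
      = Rb_lasso (r := r) hA s m * (model A hA).shn (2 * r + j) (star (model A hA).u) := by
  unfold Rb_lasso
  have e : 2 * r + j = r + (r + j) := by ring
  rw [e, Rb_shn_add, ← Rb_shn_mul, ← Rb_shn_mul, ← mul_assoc,
    (model A hA).X_cap_left hs m r j hj, smul_mul_assoc, mul_assoc,
    (model A hA).X_cap_right hs r m j hj, mul_smul_comm, smul_smul, ← mul_pow]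
  norm_num
  rw [mul_assoc]

/-- sliding over the sphere, for `m` uncoloured strands -/
theorem Rb_sphere {s : Rm} (hs : (model A hA).Br s) (m : ℕ) (F : V 0) :
    ev ((model A hA).shn m hm * (star (jw A hA r hr).cupc * Rb_lasso (r := r) hA s m)) 0 F
      = ev ((model A hA).shn m hm * star (jw A hA r hr).cupc) 0 F := by
  induction m using Nat.strong_induction_on generalizing F with
  | _ m ih =>
    rcases Nat.eq_zero_or_pos m with h0 | h0
    · subst h0
      have h1 : Rb_lasso (r := r) hA s 0 = 1 := by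
        unfold Rb_lasso
        rw [(model A hA).X_zero_right]
        change (model A hA).shn r (1 * 1) = 1
        rw [one_mul, Rb_shn_one]
      rw [h1, mul_one]
    · set G : V 0 := ev (star (jw A hA r hr).cupc * Rb_lasso (r := r) hA s m) 0 F
        - ev (star (jw A hA r hr).cupc) 0 F with hG
      have key : ev ((model A hA).shn m hm) 0 G = 0 := by
        refine hole_caps hA m h0 G fun j hj => ?_
        obtain ⟨k, rfl⟩ : ∃ k, m = k + 2 := ⟨m - 2, by omega⟩
        have hjk : j ≤ k := by omega
        have hcap : (model A hA).shn j (star (model A hA).u) * star (jw A hA r hr).cupc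
            = star (jw A hA r hr).cupc * (model A hA).shn (2 * r + j) (star (model A hA).u) := by
          have h1 := (jw A hA r hr).nat_cupc ((model A hA).shn j (model A hA).u)
          have h2 := congrArg star h1
          rw [star_mul, star_mul, ← Rb_shn_add, ← Rb_shn_star, ← Rb_shn_star] at h2
          exact h2.symm
        have h3 : ev ((model A hA).shn j (star (model A hA).u)) 0 G
            = ev (star (jw A hA r hr).cupc * Rb_lasso (r := r) hA s k) 0
                (ev ((model A hA).shn (2 * r + j) (star (model A hA).u)) 0 F)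
              - ev (star (jw A hA r hr).cupc) 0
                (ev ((model A hA).shn (2 * r + j) (star (model A hA).u)) 0 F) := by
          rw [hG, map_sub]
          have e1 : ∀ (x y : Rm) (H : V 0), ev x 0 (ev y 0 H) = ev (x * y) 0 H := fun x y H => rfl
          rw [e1, e1, e1, e1, ← mul_assoc, hcap, mul_assoc, Rb_lasso_cap hA hs k j hjk, mul_assoc]
        rw [h3, map_sub, Nat.add_sub_cancel]
        set F' := ev ((model A hA).shn (2 * r + j) (star (model A hA).u)) 0 F with hF'
        have h4 : ev ((model A hA).shn k hm) 0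
            (ev (star (jw A hA r hr).cupc * Rb_lasso (r := r) hA s k) 0 F')
            = ev ((model A hA).shn k hm) 0 (ev (star (jw A hA r hr).cupc) 0 F') :=
          ih k (by omega) F'
        rw [h4, sub_self]
      rw [hG, map_sub, sub_eq_zero] at key
      exact key

/-- the first half of the lasso -/
theorem Rb_half1 (s : Bool) (i : ℕ) :
    opW A hA r hr ((List.range i).map (fun k => if s then Ev.pos (k + 1) else Ev.neg (k + 1)))
      = (model A hA).shn r ((model A hA).X (Rb_s hA s) r (r * i)) := by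
  induction i with
  | zero =>
    rw [Nat.mul_zero, (model A hA).X_zero_right, Rb_shn_one]
    rfl
  | succ i ih =>
    rw [List.range_succ, List.map_append, Rb_opW_append, ih]
    change (1 * opEv A hA r hr (if s then Ev.pos (i + 1) else Ev.neg (i + 1))) * _ = _
    rw [one_mul, Rb_opX, Nat.mul_succ r i, (model A hA).X_add_right (Rb_br hA s), Rb_shn_mul]
    congr 1
    rw [← Rb_shn_add]
    congr 1
    ring

/-- the second half of the lasso -/
theorem Rb_half2 (s : Bool) (i : ℕ) :
    opW A hA r hr
      ((List.range i).map (fun k => if s then Ev.pos (k + 1) else Ev.neg (k + 1))).reverse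
      = (model A hA).shn r ((model A hA).X (Rb_s hA s) (r * i) r) := by
  induction i with
  | zero =>
    rw [Nat.mul_zero]
    change (1 : Rm) = (model A hA).shn r 1
    rw [Rb_shn_one]
  | succ i ih =>
    rw [List.range_succ, List.map_append, List.reverse_append, Rb_opW_append, ih]
    change _ * (1 * opEv A hA r hr (if s then Ev.pos (i + 1) else Ev.neg (i + 1))) = _
    rw [one_mul, Rb_opX, Nat.mul_succ r i, (model A hA).X_add_left, Rb_shn_mul]
    congr 1
    rw [← Rb_shn_add]
    congr 1
    ring

theorem op_sphere (i : ℕ) (s : Bool) (F : V 0) (hF : KK A hA r hr F) :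
    ev (opW A hA r hr ((lasso i).map (fun e => if s then e else e.mirror) ++
      [Ev.cap 0, Ev.hole i])) 0 F = ev (opW A hA r hr [Ev.cap 0, Ev.hole i]) 0 F := by
  have h1 : (lasso i).map (fun e => if s then e else e.mirror)
      = (List.range i).map (fun k => if s then Ev.pos (k + 1) else Ev.neg (k + 1))
        ++ ((List.range i).map (fun k => if s then Ev.pos (k + 1) else Ev.neg (k + 1))).reverse := by
    unfold lasso
    rw [List.map_append, List.map_reverse, List.map_map]
    cases s <;> rfl
  rw [h1, Rb_opW_append, Rb_opW_append, Rb_half1, Rb_half2, Rb_opW_two, ← Rb_shn_mul]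
  change ev ((model A hA).shn (r * i) hm * (model A hA).shn (r * 0) (star (jw A hA r hr).cupc)
    * Rb_lasso (r := r) hA (Rb_s hA s) (r * i)) 0 F
    = ev ((model A hA).shn (r * i) hm * (model A hA).shn (r * 0) (star (jw A hA r hr).cupc)) 0 F
  rw [mul_assoc]
  exact Rb_sphere hA hr (Rb_br hA s) (r * i) F

end

end

end Pool.Agent.Tait
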